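import Pool.Agent.W_6acff7c_h33.GStep

/-!
# Basic properties of good elements and codes

PROOFS.  `good_conj`: `(a g a⁻¹) ^ e (a v) = a (g ^ e v)`, so `v ↦ a v` is a bijection between the
short vectors of `g` and of `a g a⁻¹` (`LinearIndependent` is preserved by the injective linear map `a`).
`good_mono`: `q ≥ 1`.  `good_kdim`: every `v` in the `μ`-eigenspace has `g v = μ v`, so for `K ≥ 1` it is
short; so `q ^ kdim ≤ |shortV| ≤ q ^ (κ n)`, and `q ≥ 2`.  `not_good_one`: for `g = 1`, `K ≥ 1` all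
vectors are short, so `q ^ n ≤ q ^ (κ n)`, which is false for `κ < 1`, `n ≥ 1`.
`mono_hasCode`: `WL.mono`.
-/

open Finset Pool.Agent.RCG

namespace Pool.Agent.RCL

variable {F : Type*} [Field F] [Fintype F] {n : ℕ}

omit [Fintype F] in
private theorem GoodBasic_shortV_conj (K : ℕ) (g a : SLn F n) :
    shortV K (a * g * a⁻¹) = (fun v : Fin n → F => a.1 v) '' shortV K g := by
  have key : ∀ v : Fin n → F, a.1 v ∈ shortV K (a * g * a⁻¹) ↔ v ∈ shortV K g := by
    intro v
    have h1 : (fun e : Fin (K + 1) => ((a * g * a⁻¹) ^ (e : ℕ)).1 (a.1 v)) =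
        (a.1 : (Fin n → F) →ₗ[F] (Fin n → F)) ∘ fun e : Fin (K + 1) => (g ^ (e : ℕ)).1 v := by
      funext e
      rw [conj_pow]
      change a.1 ((g ^ (e : ℕ)).1 (a.1.symm (a.1 v))) = a.1 ((g ^ (e : ℕ)).1 v)
      rw [LinearEquiv.symm_apply_apply]
    unfold shortV
    rw [Set.mem_ofPred_eq, Set.mem_ofPred_eq, h1,
      LinearMap.linearIndependent_iff _ (LinearEquiv.ker _)]
  ext v
  constructor
  · intro hv
    refine ⟨a.1.symm v, ?_, ?_⟩
    · rw [← key, LinearEquiv.apply_symm_apply]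
      exact hv
    · exact LinearEquiv.apply_symm_apply _ _
  · rintro ⟨u, hu, rfl⟩
    exact (key u).2 hu

theorem good_conj {K : ℕ} {κ : ℝ} {g : SLn F n} (h : Good K κ g) (a : SLn F n) :
    Good K κ (a * g * a⁻¹) := by
  unfold Good at h ⊢
  rw [GoodBasic_shortV_conj, Nat.card_image_of_injective a.1.injective]
  exact h

private theorem GoodBasic_one_lt : (1 : ℝ) < (Fintype.card F : ℝ) := by
  exact_mod_cast Fintype.one_lt_card

theorem good_mono {K : ℕ} {κ κ' : ℝ} (hκ : κ ≤ κ') {g : SLn F n} (h : Good K κ g) :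
    Good K κ' g := by
  unfold Good at h ⊢
  refine h.trans (Real.rpow_le_rpow_of_exponent_le (GoodBasic_one_lt (F := F)).le ?_)
  exact mul_le_mul_of_nonneg_right hκ (Nat.cast_nonneg n)

omit [Fintype F] in
private theorem GoodBasic_short {K : ℕ} (hK : 1 ≤ K) {g : SLn F n} {μ : F} {v : Fin n → F}
    (hv : g.1 v = μ • v) : v ∈ shortV K g := by
  intro h
  have hinj : Function.Injective (![(⟨0, by omega⟩ : Fin (K + 1)), ⟨1, by omega⟩]) := by
    intro i j hij
    fin_cases i <;> fin_cases j <;> simp_all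
  have h1 := h.comp _ hinj
  have h2 : (fun e : Fin (K + 1) => (g ^ (e : ℕ)).1 v) ∘
      (![(⟨0, by omega⟩ : Fin (K + 1)), ⟨1, by omega⟩]) = ![v, μ • v] := by
    funext i
    fin_cases i
    · change (g ^ 0).1 v = v
      rw [pow_zero]
      rfl
    · change (g ^ 1).1 v = μ • v
      rw [pow_one]
      exact hv
  rw [h2] at h1
  have h3 := (LinearIndependent.pair_iff.1 h1) μ (-1) (by
    rw [neg_smul, one_smul, add_neg_cancel])
  exact neg_ne_zero.2 one_ne_zero h3.2

theorem good_kdim {K : ℕ} (hK : 1 ≤ K) {κ : ℝ} {g : SLn F n} (h : Good K κ g) (μ : F) :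
    (kdim g μ : ℝ) ≤ κ * n := by
  unfold Good at h
  set W := LinearMap.ker ((g.1 : (Fin n → F) →ₗ[F] (Fin n → F)) - μ • LinearMap.id) with hW
  have h1 : (W : Set (Fin n → F)) ⊆ shortV K g := by
    intro v hv
    refine GoodBasic_short hK (μ := μ) ?_
    have h2 := LinearMap.mem_ker.1 hv
    rw [LinearMap.sub_apply, sub_eq_zero] at h2
    exact h2
  have h2 : Nat.card W ≤ Nat.card (shortV K g) :=
    Nat.card_mono (Set.toFinite _) h1
  have h3 : Nat.card W = Fintype.card F ^ kdim g μ := by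
    rw [Module.natCard_eq_pow_finrank (K := F), Nat.card_eq_fintype_card]
    rfl
  rw [h3] at h2
  have h4 : (Fintype.card F : ℝ) ^ (kdim g μ : ℝ) ≤ (Fintype.card F : ℝ) ^ (κ * n) := by
    rw [Real.rpow_natCast]
    refine le_trans ?_ h
    exact_mod_cast h2
  exact (Real.rpow_le_rpow_left_iff GoodBasic_one_lt).1 h4

theorem not_good_one {K : ℕ} (hK : 1 ≤ K) {κ : ℝ} (hκ : κ < 1) (hn : 1 ≤ n) :
    ¬ Good K κ (1 : SLn F n) := by
  intro h
  have h1 := good_kdim hK h 1
  have h2 : kdim (1 : SLn F n) 1 = n := by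
    unfold kdim
    have h3 : (((1 : SLn F n).1 : (Fin n → F) →ₗ[F] (Fin n → F)) - (1 : F) • LinearMap.id) = 0 := by
      apply LinearMap.ext
      intro v
      rw [LinearMap.sub_apply, LinearMap.zero_apply, sub_eq_zero, one_smul]
      rfl
    rw [h3, LinearMap.ker_zero, finrank_top, Module.finrank_fin_fun]
  rw [h2] at h1
  have hn' : (1 : ℝ) ≤ n := by exact_mod_cast hn
  nlinarith

theorem mono_hasCode (K : ℕ) (κ : ℝ) (l : ℕ) (s : ℝ) :
    MonoG (HasCode (F := F) (n := n) K κ l s) := by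
  rintro S S' hS ⟨k, hk, w, hw, h⟩
  exact ⟨k, hk, w, fun i => WL.mono hS le_rfl (hw i), h⟩

theorem hasCode_weaken {K : ℕ} {κ κ' : ℝ} {l l' : ℕ} {s s' : ℝ} (hκ : κ ≤ κ') (hl : l ≤ l')
    (hs : s' ≤ s) {S : Set (SLn F n)} (h : HasCode K κ l s S) : HasCode K κ' l' s' S := by
  obtain ⟨k, hk, w, hw, h⟩ := h
  exact ⟨k, (Real.exp_le_exp.2 hs).trans hk, w, fun i => WL.mono Set.Subset.rfl hl (hw i),
    fun i j hij => good_mono hκ (h i j hij)⟩

end Pool.Agent.RCL
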