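import Pool.Agent.W_6acff7c_h33.GoodRun
import Pool.Agent.W_6acff7c_h33.GoodBasic

/-!
# The first letter

PROOF.  The family is `![1, y]`, `y = z 0` the new letter; `exp (log 2) = 2`.  The quotients are
`y` and `y⁻¹`.  `good_run` with `L = [(true, 1)]` (length `1`, `L ++ L` is a chain because the sign never
changes), `κ = 0`, `k = 0`, `g y = y` gives `pr (¬ Good K (0 + Δ) y) ≤ exp (-(Δ ^ 2 X / (32 (K * 1))))`, and
the same for `y⁻¹` (`pr_congr` with `Equiv.inv`).  Union bound `pr_or`.
-/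

open Finset Pool.Agent.RCG

namespace Pool.Agent.RCL

variable {F : Type*} [Field F] [Fintype F] {n : ℕ}

theorem baseStepL {K : ℕ} (hK : 1 ≤ K) {Δ : ℝ} (hΔ : 0 < Δ) (hΔ1 : Δ ≤ 1)
    (h1 : 16 * (K : ℝ) ≤ Δ * n)
    (h2 : 2 * (K + 1 : ℝ) * (Fintype.card F : ℝ) ^ 2 ≤ (Fintype.card F : ℝ) ^ (Δ * n / 4)) :
    StepG (SLn F n) 1
      (2 * Real.exp (-(Δ ^ 2 * (n ^ 2 * Real.log (Fintype.card F)) / (32 * K))))
      (fun _ => True) (HasCode K Δ 1 (Real.log 2)) := by
  intro S _
  have hg : pr (fun y : SLn F n => ¬ Good K Δ y) ≤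
      Real.exp (-(Δ ^ 2 * (n ^ 2 * Real.log (Fintype.card F)) / (32 * K))) := by
    have h := good_run (F := F) (n := n) (K := K) (k := 0) hK (κ := 0) hΔ hΔ1 (by simp)
      [(true, 1)] (by simp)
      (by
        simp only [List.cons_append, List.nil_append]
        refine List.IsChain.cons_cons ?_ (List.IsChain.singleton _)
        intro h
        exact absurd rfl h)
      (fun y => y) (fun y v => rfl)
      (by simpa using h1)
      (by simpa using h2)
    simpa using h
  have hg' : pr (fun y : SLn F n => ¬ Good K Δ y⁻¹) ≤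
      Real.exp (-(Δ ^ 2 * (n ^ 2 * Real.log (Fintype.card F)) / (32 * K))) := by
    have h := pr_congr (Equiv.inv (SLn F n)) (fun y : SLn F n => ¬ Good K Δ y)
    simp only [Equiv.inv_apply] at h
    rw [h]
    exact hg
  have h3 : pr (fun z : Fin 1 → SLn F n => ¬ HasCode K Δ 1 (Real.log 2) (S ∪ Set.range z)) ≤
      pr (fun z : Fin 1 → SLn F n => (fun y : SLn F n => ¬ Good K Δ y ∨ ¬ Good K Δ y⁻¹)
        (Equiv.funUnique (Fin 1) (SLn F n) z)) := by
    refine pr_mono fun z hz => ?_
    by_contra hne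
    have hz0 : Equiv.funUnique (Fin 1) (SLn F n) z = z 0 := rfl
    rw [hz0] at hne
    push Not at hne
    apply hz
    refine ⟨2, ?_, ![1, z 0], ?_, ?_⟩
    · rw [Real.exp_log (by norm_num)]
      norm_num
    · intro i
      fin_cases i
      · exact (WL.one _).mono (le_refl _) (by omega)
      · exact WL.of_mem (Or.inr ⟨0, rfl⟩)
    · intro i j hij
      fin_cases i <;> fin_cases j
      · exact absurd rfl hij
      · simpa using hne.1
      · simpa using hne.2
      · exact absurd rfl hij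
  refine h3.trans ?_
  rw [pr_congr (Equiv.funUnique (Fin 1) (SLn F n)) (fun y : SLn F n => ¬ Good K Δ y ∨ ¬ Good K Δ y⁻¹)]
  refine (pr_or _ _).trans ?_
  linarith

end Pool.Agent.RCL
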