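import Pool.Agent.W_6acff7c_h33.BigPair
import Pool.Agent.W_6acff7b_h70.StepD

/-!
# The first code for large fields

PROOF.  Letters `x = z 0`, `y = z 1` (`pr` over `Fin 2 → G` is `pr` over `G × G`: `pr_congr` with
`finTwoArrowEquiv`).  Family: `wp u x y`, `u : Fin ℓ → Bool`, reindexed by `Fin (2 ^ ℓ)`; words of length `ℓ`;
`exp (ℓ log 2) = 2 ^ ℓ`.  Union bound (`pr_exists_le`) over the at most `4 ^ ℓ` pairs `u ≠ v` with `big_pair`.
-/

open Finset Pool.Agent.RCG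

namespace Pool.Agent.RCL

variable {F : Type*} [Field F] [Fintype F] {n : ℕ}

theorem big_base {K : ℕ} {κ : ℝ} (h : 0 < n) (hq : 2 * n ≤ Fintype.card F)
    (hK : (2 * K + 1 : ℝ) ≤ κ * n) (ℓ : ℕ) :
    StepG (SLn F n) 2 (4 ^ ℓ * (4 * (n ^ 2 * (n + 1) ^ 2 * ℓ : ℝ) / Fintype.card F))
      (fun _ => True) (HasCode K κ ℓ (ℓ * Real.log 2)) := by
  classical
  intro S _
  have hcard : Fintype.card (Fin ℓ → Bool) = 2 ^ ℓ := by simp
  let e : (Fin ℓ → Bool) ≃ Fin (2 ^ ℓ) := Fintype.equivFinOfCardEq hcard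
  let s : Finset ((Fin ℓ → Bool) × (Fin ℓ → Bool)) := univ.filter fun b => b.1 ≠ b.2
  let P : SLn F n × SLn F n → Prop := fun p =>
    ∃ b ∈ s, ¬ Good K κ ((wp b.1 p.1 p.2)⁻¹ * wp b.2 p.1 p.2)
  have hc0 : 0 ≤ 4 * (n ^ 2 * (n + 1) ^ 2 * ℓ : ℝ) / Fintype.card F := by positivity
  have hP : pr P ≤ 4 ^ ℓ * (4 * (n ^ 2 * (n + 1) ^ 2 * ℓ : ℝ) / Fintype.card F) := by
    have h1 := pr_exists_le (α := SLn F n × SLn F n) s
      (fun b p => ¬ Good K κ ((wp b.1 p.1 p.2)⁻¹ * wp b.2 p.1 p.2))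
      (fun _ => 4 * (n ^ 2 * (n + 1) ^ 2 * ℓ : ℝ) / Fintype.card F)
      (fun b hb => big_pair h hq hK (Finset.mem_filter.1 hb).2)
    refine le_trans h1 ?_
    rw [Finset.sum_const, nsmul_eq_mul]
    refine mul_le_mul_of_nonneg_right ?_ hc0
    have h2 : s.card ≤ 4 ^ ℓ := by
      refine le_trans (Finset.card_le_univ s) ?_
      rw [Fintype.card_prod, hcard, ← mul_pow]
      norm_num
    exact_mod_cast h2
  have hcong := pr_congr (finTwoArrowEquiv (SLn F n)) P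
  refine le_trans (pr_mono (Q := fun z : Fin 2 → SLn F n =>
    P (finTwoArrowEquiv (SLn F n) z)) ?_) (hcong.le.trans hP)
  intro z hz
  by_contra hno
  apply hz
  refine ⟨2 ^ ℓ, ?_, fun i => wp (e.symm i) (z 0) (z 1), ?_, ?_⟩
  · rw [Real.exp_nat_mul, Real.exp_log (by norm_num : (0 : ℝ) < 2)]
    push_cast
    exact le_rfl
  · intro i
    have h3 : ∀ j : Fin ℓ, WL (S ∪ Set.range z) 1 (if e.symm i j then z 0 else z 1) := by
      intro j
      apply WL.of_mem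
      right
      split_ifs
      · exact ⟨0, rfl⟩
      · exact ⟨1, rfl⟩
    have h4 := WL.ofFn_prod h3
    rw [mul_one] at h4
    exact h4
  · intro i j hij
    by_contra hg
    apply hno
    refine ⟨(e.symm i, e.symm j), Finset.mem_filter.2 ⟨Finset.mem_univ _, ?_⟩, hg⟩
    intro heq
    exact hij (e.symm.injective heq)

end Pool.Agent.RCL
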