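import Pool.Agent.W_6acff7c_h33.GoodBasic

/-!
# Large fields: definitions

For `log q > n` the first code is made of all positive words of length `ℓ` in two random letters
(`ℓ` about `log q / (4 log 2)`).  The quotient of two different words has `e_0` as a cyclic vector outside the
zero set of a polynomial of degree at most `n ^ 2 (n + 1) ^ 2 ℓ` (Schwartz-Zippel), and an element with a
cyclic vector is good.
-/

open Finset Pool.Agent.RCG

namespace Pool.Agent.RCL

/-- The positive word `u` in the letters `x` (for `true`) and `y` (for `false`). -/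
def wp {M : Type*} [Monoid M] {ℓ : ℕ} (u : Fin ℓ → Bool) (x y : M) : M :=
  (List.ofFn fun i => if u i then x else y).prod

/-- The matrix with columns `e_0, M e_0, M ^ 2 e_0, ...`. -/
def kry {R : Type*} [CommRing R] {n : ℕ} (h : 0 < n) (M : Matrix (Fin n) (Fin n) R) :
    Matrix (Fin n) (Fin n) R := Matrix.of fun i j => (M ^ (j : ℕ)) i ⟨0, h⟩

/-- `X * diag (1, det X, ..., det X)`. -/
def hat {R : Type*} [CommRing R] {n : ℕ} (h : 0 < n) (X : Matrix (Fin n) (Fin n) R) :
    Matrix (Fin n) (Fin n) R :=
  X * Matrix.diagonal fun i => if i = ⟨0, h⟩ then 1 else X.det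

/-- `X * diag (1 / det X, 1, ..., 1)`. -/
def nrm {R : Type*} [Field R] {n : ℕ} (h : 0 < n) (X : Matrix (Fin n) (Fin n) R) :
    Matrix (Fin n) (Fin n) R :=
  X * Matrix.diagonal fun i => if i = ⟨0, h⟩ then X.det⁻¹ else 1

/-- The polynomial whose zeros are the bad pairs of matrices. -/
noncomputable def FF (F : Type*) [Field F] {n ℓ : ℕ} (h : 0 < n) (u v : Fin ℓ → Bool) :
    MvPolynomial (Bool × Fin n × Fin n) F :=
  let x : Matrix (Fin n) (Fin n) (MvPolynomial (Bool × Fin n × Fin n) F) :=
    hat h (Matrix.of fun i j => MvPolynomial.X (true, i, j))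
  let y : Matrix (Fin n) (Fin n) (MvPolynomial (Bool × Fin n × Fin n) F) :=
    hat h (Matrix.of fun i j => MvPolynomial.X (false, i, j))
  (kry h ((wp u x y).adjugate * wp v x y)).det

end Pool.Agent.RCL
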