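import Pool.Agent.W_6acff7c_h33.KryUnip

/-!
# A point where the quotient of two words has a cyclic vector (different numbers of letters `x`)

PROOF.  `S` the variable of `RatFunc F`, `e i = 2 i - (n - 1)`, `D = diag (S ^ (e i))`, `det D = 1` as
`∑ e i = 0`.  Let `Q` be the identity matrix with column `0` replaced by ones (`det Q = 1`), `x = Q⁻¹ D Q`,
`y = 1`.  If `a ≠ a'` are the numbers of letters `x` in `u`, `v` then `wp u x y = x ^ a`, `wp v x y = x ^ a'`,
`(x ^ a).adjugate = (x ^ a)⁻¹`, and the quotient is `Q⁻¹ D ^ (a' - a) Q`, with the diagonal entries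
`S ^ (e i (a' - a))`, which are distinct (`S` is not a root of unity; `e` is injective, `a' ≠ a`).
Apply `kry_vand`.
-/

open Finset Pool.Agent.RCG

namespace Pool.Agent.RCL

variable (F : Type*) [Field F] {n ℓ : ℕ}

private theorem PointB_wp {M : Type*} [Monoid M] (x : M) :
    ∀ (ℓ : ℕ) (u : Fin ℓ → Bool), wp u x 1 = x ^ (univ.filter fun k => u k = true).card := by
  intro ℓ
  induction ℓ with
  | zero =>
    intro u
    simp [wp]
  | succ ℓ ih =>
    intro u
    have h1 := ih (fun i => u i.succ)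
    unfold wp at h1 ⊢
    rw [List.ofFn_succ, List.prod_cons, h1, Fin.card_filter_univ_succ]
    cases u 0 <;> simp [pow_succ']

private theorem PointB_X (F : Type*) [Field F] (m : ℤ) (h : (RatFunc.X : RatFunc F) ^ m = 1) : m = 0 := by
  have key : ∀ k : ℕ, (RatFunc.X : RatFunc F) ^ k = 1 → k = 0 := by
    intro k hk
    have h1 : algebraMap (Polynomial F) (RatFunc F) (Polynomial.X ^ k) =
        algebraMap (Polynomial F) (RatFunc F) 1 := by
      rw [map_pow, RatFunc.algebraMap_X, hk, map_one]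
    have h2 := RatFunc.algebraMap_injective F h1
    have h3 := congrArg Polynomial.natDegree h2
    simpa using h3
  rcases Int.eq_nat_or_neg m with ⟨k, hk | hk⟩
  · rw [hk, zpow_natCast] at h
    rw [hk, key k h]
    rfl
  · rw [hk, zpow_neg, zpow_natCast, inv_eq_one] at h
    rw [hk, key k h]
    rfl

private theorem PointB_prod {ι K : Type*} [Field K] (s : Finset ι) (x : K) (hx : x ≠ 0) (f : ι → ℤ) :
    ∏ i ∈ s, x ^ f i = x ^ ∑ i ∈ s, f i := by
  classical
  induction s using Finset.induction_on with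
  | empty => simp
  | insert a s ha ih => rw [Finset.prod_insert ha, Finset.sum_insert ha, zpow_add₀ hx, ih]

private theorem PointB_sum (n : ℕ) : ∑ i : Fin n, (2 * ((i : ℕ) : ℤ) - ((n : ℤ) - 1)) = 0 := by
  have h1 : ∑ i : Fin n, (2 * ((i : ℕ) : ℤ) - ((n : ℤ) - 1)) =
      ∑ i : Fin n, -(2 * ((i : ℕ) : ℤ) - ((n : ℤ) - 1)) := by
    rw [← Equiv.sum_comp Fin.revPerm]
    refine Finset.sum_congr rfl fun i _ => ?_
    have hi := i.2
    rw [Fin.revPerm_apply, Fin.val_rev]
    push_cast [Nat.sub_add_cancel, show (i : ℕ) + 1 ≤ n by omega]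
    ring
  rw [Finset.sum_neg_distrib] at h1
  omega

theorem point_diff (h : 0 < n) {u v : Fin ℓ → Bool}
    (hc : (univ.filter fun k => u k = true).card ≠ (univ.filter fun k => v k = true).card) :
    ∃ x y : Matrix (Fin n) (Fin n) (RatFunc F), x.det = 1 ∧ y.det = 1 ∧
      (kry h ((wp u x y).adjugate * wp v x y)).det ≠ 0 := by
  classical
  set a := (univ.filter fun k => u k = true).card with ha
  set b := (univ.filter fun k => v k = true).card with hb
  set e : Fin n → ℤ := fun i => 2 * ((i : ℕ) : ℤ) - ((n : ℤ) - 1) with he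
  set S : RatFunc F := RatFunc.X with hS
  have hS0 : S ≠ 0 := RatFunc.X_ne_zero
  obtain ⟨D, hD⟩ : ∃ D : ℤ → Matrix (Fin n) (Fin n) (RatFunc F),
      ∀ m, D m = Matrix.diagonal fun i => S ^ (e i * m) := ⟨_, fun _ => rfl⟩
  have hDmul : ∀ m k, D m * D k = D (m + k) := by
    intro m k
    rw [hD, hD, hD, Matrix.diagonal_mul_diagonal]
    congr 1
    funext i
    rw [← zpow_add₀ hS0, mul_add]
  have hDdet : (D 1).det = 1 := by
    rw [hD, Matrix.det_diagonal, PointB_prod _ S hS0]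
    simp only [mul_one]
    rw [he, PointB_sum, zpow_zero]
  obtain ⟨Q, hQ⟩ : ∃ Q : Matrix (Fin n) (Fin n) (RatFunc F),
      ∀ i j, Q i j = if j = ⟨0, h⟩ then 1 else if i = j then 1 else 0 :=
    ⟨Matrix.of fun i j => if j = ⟨0, h⟩ then 1 else if i = j then 1 else 0, fun _ _ => rfl⟩
  have hQdet : Q.det = 1 := by
    rw [Matrix.det_of_isLowerTriangular]
    · refine Finset.prod_eq_one fun i _ => ?_
      rw [hQ]
      simp
    · intro i j hij
      have hij' : i < j := hij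
      rw [hQ, if_neg, if_neg hij'.ne]
      intro hj
      rw [hj] at hij'
      exact absurd (Fin.lt_def.1 hij') (by simp)
  have hQu : IsUnit Q.det := by rw [hQdet]; exact isUnit_one
  have hxpow : ∀ k : ℕ, (Q⁻¹ * D 1 * Q) ^ k = Q⁻¹ * D k * Q := by
    intro k
    induction k with
    | zero =>
      have e0 : D ((0 : ℕ) : ℤ) = 1 := by
        rw [hD]
        simp
      rw [pow_zero, e0, mul_one, Matrix.nonsing_inv_mul Q hQu]
    | succ k ih =>
      rw [pow_succ, ih]
      have e1 : Q⁻¹ * D k * Q * (Q⁻¹ * D 1 * Q) = Q⁻¹ * (D k * D 1) * Q := by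
        have : Q⁻¹ * D k * Q * (Q⁻¹ * D 1 * Q) = Q⁻¹ * D k * (Q * Q⁻¹) * D 1 * Q := by
          simp only [Matrix.mul_assoc]
        rw [this, Matrix.mul_nonsing_inv Q hQu, Matrix.mul_one, Matrix.mul_assoc Q⁻¹]
      rw [e1, hDmul]
      push_cast
      rfl
  have hxdet : (Q⁻¹ * D 1 * Q).det = 1 := by
    rw [Matrix.det_mul, Matrix.det_mul, hDdet, mul_one, Matrix.det_nonsing_inv, hQdet]
    simp
  refine ⟨Q⁻¹ * D 1 * Q, 1, hxdet, Matrix.det_one, ?_⟩
  rw [PointB_wp, PointB_wp, ← ha, ← hb]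
  have hdeta : ((Q⁻¹ * D 1 * Q) ^ a).det = 1 := by rw [Matrix.det_pow, hxdet, one_pow]
  have hadj : ((Q⁻¹ * D 1 * Q) ^ a).adjugate * (Q⁻¹ * D 1 * Q) ^ b = Q⁻¹ * D ((b : ℤ) - a) * Q := by
    have e2 : (Q⁻¹ * D 1 * Q) ^ b = (Q⁻¹ * D 1 * Q) ^ a * (Q⁻¹ * D ((b : ℤ) - a) * Q) := by
      rw [hxpow, hxpow]
      have : Q⁻¹ * D a * Q * (Q⁻¹ * D ((b : ℤ) - a) * Q) =
          Q⁻¹ * D a * (Q * Q⁻¹) * D ((b : ℤ) - a) * Q := by
        simp only [Matrix.mul_assoc]
      rw [this, Matrix.mul_nonsing_inv Q hQu, Matrix.mul_one, Matrix.mul_assoc Q⁻¹ (D a), hDmul,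
        add_sub_cancel]
    rw [e2, ← Matrix.mul_assoc, Matrix.adjugate_mul, hdeta, one_smul, Matrix.one_mul]
  rw [hadj, hD]
  refine kry_vand h Q hQu (fun i => by rw [hQ, if_pos rfl]) _ ?_
  intro i j hij
  have h1 : S ^ (e i * ((b : ℤ) - a)) = S ^ (e j * ((b : ℤ) - a)) := hij
  have h2 : S ^ ((e i - e j) * ((b : ℤ) - a)) = 1 := by
    rw [sub_mul, zpow_sub₀ hS0, h1, div_self (zpow_ne_zero _ hS0)]
  have h3 := PointB_X F _ h2
  have hba : ((b : ℤ) - a) ≠ 0 := by
    intro h0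
    apply hc
    omega
  have h4 : e i - e j = 0 := by
    rcases mul_eq_zero.1 h3 with h5 | h5
    · exact h5
    · exact absurd h5 hba
  apply Fin.ext
  simp only [he] at h4
  omega

end Pool.Agent.RCL
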