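import Pool.Agent.W_6acff7c_h33.PointA
import Pool.Agent.W_6acff7c_h33.PointB

/-!
# The polynomial `FF u v`

PROOF of `FF_aeval`: the evaluation is a ring homomorphism, it commutes with matrix products, powers,
determinants, adjugates (`RingHom.map_det`, `RingHom.map_adjugate`, `RingHom.mapMatrix`) and with `hat`,
`wp`, `kry`.
PROOF of `FF_ne`: take the point `x, y` of `point_same` / `point_diff` over `RatFunc F`; `hat h x = x` when
`x.det = 1`; so `FF` has a nonzero value, hence is not `0`.
PROOF of `FF_deg`.  General facts (total degree over `MvPolynomial`): if the entries of `A`, `B` have degree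
at most `a`, `b` then those of `A * B` have degree at most `a + b`, `det A` has degree at most `n a`
(`Matrix.det_apply`, `totalDegree_finset_sum`-like, `totalDegree_finsetProd`), the entries of `A.adjugate`
have degree at most `n a` (`Matrix.adjugate_apply`: the determinant of `A` with a row replaced by a unit
vector).  `hat` of a generic matrix: `n + 1`.  `wp u x y`: `ℓ (n + 1)`.  Its adjugate: `n ℓ (n + 1)`.
The product `M`: `(n + 1) ^ 2 ℓ`.  `M ^ j`, `j < n`: `n (n + 1) ^ 2 ℓ`.  `det (kry h M)`: `n ^ 2 (n + 1) ^ 2 ℓ`.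
-/

open Finset Pool.Agent.RCG

namespace Pool.Agent.RCL

section Helpers

variable {R S : Type*} [CommRing R] [CommRing S] {n ℓ : ℕ}

private theorem PolyWord_map_wp (f : R →+* S) (u : Fin ℓ → Bool) (x y : Matrix (Fin n) (Fin n) R) :
    f.mapMatrix (wp u x y) = wp u (f.mapMatrix x) (f.mapMatrix y) := by
  unfold wp
  rw [map_list_prod, List.map_ofFn]
  congr 2
  funext i
  simp only [Function.comp_apply]
  split_ifs <;> rfl

private theorem PolyWord_map_hat (f : R →+* S) (h : 0 < n) (X : Matrix (Fin n) (Fin n) R) :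
    f.mapMatrix (hat h X) = hat h (f.mapMatrix X) := by
  unfold hat
  rw [map_mul]
  congr 1
  ext i j
  simp only [RingHom.mapMatrix_apply, Matrix.map_apply, Matrix.diagonal_apply]
  have hdet : f X.det = (X.map f).det := RingHom.map_det f X
  split_ifs with h1 h2
  · exact map_one f
  · exact hdet
  · exact map_zero f

private theorem PolyWord_map_kry (f : R →+* S) (h : 0 < n) (M : Matrix (Fin n) (Fin n) R) :
    f.mapMatrix (kry h M) = kry h (f.mapMatrix M) := by
  ext i j
  have h1 : f.mapMatrix (M ^ (j : ℕ)) = (f.mapMatrix M) ^ (j : ℕ) := map_pow _ _ _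
  have h2 := congrFun (congrFun h1 i) ⟨0, h⟩
  exact h2

private theorem PolyWord_hat_self (h : 0 < n) (X : Matrix (Fin n) (Fin n) R) (hX : X.det = 1) :
    hat h X = X := by
  unfold hat
  have h1 : (Matrix.diagonal fun i : Fin n => if i = ⟨0, h⟩ then (1 : R) else X.det) = 1 := by
    rw [← Matrix.diagonal_one]
    congr 1
    funext i
    rw [hX]
    split_ifs <;> rfl
  rw [h1, mul_one]

end Helpers

section Degrees

variable {R σ : Type*} [CommRing R] {n ℓ : ℕ}

/-- all entries have total degree at most `d` -/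
private def PolyWord_DegLe (M : Matrix (Fin n) (Fin n) (MvPolynomial σ R)) (d : ℕ) : Prop :=
  ∀ i j, (M i j).totalDegree ≤ d

private theorem PolyWord_DegLe.mono {M : Matrix (Fin n) (Fin n) (MvPolynomial σ R)} {a b : ℕ}
    (hM : PolyWord_DegLe M a) (hab : a ≤ b) : PolyWord_DegLe M b := fun i j => (hM i j).trans hab

private theorem PolyWord_one (d : ℕ) :
    PolyWord_DegLe (1 : Matrix (Fin n) (Fin n) (MvPolynomial σ R)) d := by
  intro i j
  rw [Matrix.one_apply]
  split_ifs
  · rw [MvPolynomial.totalDegree_one]; exact Nat.zero_le _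
  · rw [MvPolynomial.totalDegree_zero]; exact Nat.zero_le _

private theorem PolyWord_mul {A B : Matrix (Fin n) (Fin n) (MvPolynomial σ R)} {a b : ℕ}
    (hA : PolyWord_DegLe A a) (hB : PolyWord_DegLe B b) : PolyWord_DegLe (A * B) (a + b) := by
  intro i j
  rw [Matrix.mul_apply]
  refine MvPolynomial.totalDegree_finsetSum_le fun k _ => ?_
  exact (MvPolynomial.totalDegree_mul _ _).trans (Nat.add_le_add (hA i k) (hB k j))

private theorem PolyWord_pow {A : Matrix (Fin n) (Fin n) (MvPolynomial σ R)} {a : ℕ}
    (hA : PolyWord_DegLe A a) (j : ℕ) : PolyWord_DegLe (A ^ j) (j * a) := by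
  induction j with
  | zero => rw [pow_zero]; exact PolyWord_one _
  | succ j ih =>
    rw [pow_succ, Nat.succ_mul]
    exact PolyWord_mul ih hA

private theorem PolyWord_list {a : ℕ} (L : List (Matrix (Fin n) (Fin n) (MvPolynomial σ R)))
    (hL : ∀ A ∈ L, PolyWord_DegLe A a) : PolyWord_DegLe L.prod (L.length * a) := by
  induction L with
  | nil => exact PolyWord_one _
  | cons A L ih =>
    rw [List.prod_cons, List.length_cons, Nat.succ_mul, Nat.add_comm]
    exact PolyWord_mul (hL A List.mem_cons_self) (ih fun B hB => hL B (List.mem_cons_of_mem A hB))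

private theorem PolyWord_det {A : Matrix (Fin n) (Fin n) (MvPolynomial σ R)} {a : ℕ}
    (hA : PolyWord_DegLe A a) : A.det.totalDegree ≤ n * a := by
  rw [Matrix.det_apply']
  refine MvPolynomial.totalDegree_finsetSum_le fun τ _ => ?_
  refine (MvPolynomial.totalDegree_mul _ _).trans ?_
  have h1 : (((Equiv.Perm.sign τ : ℤˣ) : ℤ) : MvPolynomial σ R).totalDegree = 0 := by
    rw [← map_intCast (MvPolynomial.C : R →+* MvPolynomial σ R), MvPolynomial.totalDegree_C]
  have h2 : (∏ i, A (τ i) i).totalDegree ≤ n * a := by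
    refine (MvPolynomial.totalDegree_finsetProd _ _).trans ?_
    refine (Finset.sum_le_sum fun i _ => hA (τ i) i).trans ?_
    rw [Finset.sum_const, Finset.card_univ, Fintype.card_fin, smul_eq_mul]
  omega

private theorem PolyWord_adj {A : Matrix (Fin n) (Fin n) (MvPolynomial σ R)} {a : ℕ}
    (hA : PolyWord_DegLe A a) : PolyWord_DegLe A.adjugate (n * a) := by
  intro i j
  rw [Matrix.adjugate_apply]
  refine PolyWord_det ?_
  intro r c
  rw [Matrix.updateRow_apply]
  split_ifs with h1
  · rw [Pi.single_apply]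
    split_ifs
    · rw [MvPolynomial.totalDegree_one]; exact Nat.zero_le _
    · rw [MvPolynomial.totalDegree_zero]; exact Nat.zero_le _
  · exact hA r c

private theorem PolyWord_hat (h : 0 < n) {X : Matrix (Fin n) (Fin n) (MvPolynomial σ R)}
    (hX : PolyWord_DegLe X 1) : PolyWord_DegLe (hat h X) (n + 1) := by
  intro i j
  unfold hat
  rw [Matrix.mul_diagonal]
  refine (MvPolynomial.totalDegree_mul _ _).trans ?_
  have h1 := hX i j
  have h2 : (if j = ⟨0, h⟩ then (1 : MvPolynomial σ R) else X.det).totalDegree ≤ n := by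
    split_ifs
    · rw [MvPolynomial.totalDegree_one]; exact Nat.zero_le _
    · have := PolyWord_det hX
      rwa [mul_one] at this
  omega

private theorem PolyWord_wp {x y : Matrix (Fin n) (Fin n) (MvPolynomial σ R)} {a : ℕ}
    (hx : PolyWord_DegLe x a) (hy : PolyWord_DegLe y a) (u : Fin ℓ → Bool) :
    PolyWord_DegLe (wp u x y) (ℓ * a) := by
  unfold wp
  have h1 := PolyWord_list (a := a) (List.ofFn fun i => if u i then x else y) (by
    intro A hA
    rw [List.mem_ofFn] at hA
    obtain ⟨i, rfl⟩ := hA
    by_cases hu : u i = true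
    · simp only [hu, if_true]; exact hx
    · simp only [hu]; exact hy)
  rwa [List.length_ofFn] at h1

end Degrees

variable (F : Type*) [Field F] {n ℓ : ℕ}

theorem FF_aeval {E : Type*} [Field E] [Algebra F E] (h : 0 < n) (u v : Fin ℓ → Bool)
    (X Y : Matrix (Fin n) (Fin n) E) :
    MvPolynomial.aeval (fun p : Bool × Fin n × Fin n => if p.1 then X p.2.1 p.2.2 else Y p.2.1 p.2.2)
      (FF F h u v) = (kry h ((wp u (hat h X) (hat h Y)).adjugate * wp v (hat h X) (hat h Y))).det := by
  unfold FF
  set f : MvPolynomial (Bool × Fin n × Fin n) F →+* E := (MvPolynomial.aeval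
    (fun p : Bool × Fin n × Fin n => if p.1 then X p.2.1 p.2.2 else Y p.2.1 p.2.2)).toRingHom
    with hf
  have hX : f.mapMatrix (Matrix.of fun i j => MvPolynomial.X (true, i, j)) = X := by
    ext i j
    simp [hf]
  have hY : f.mapMatrix (Matrix.of fun i j => MvPolynomial.X (false, i, j)) = Y := by
    ext i j
    simp [hf]
  show f (Matrix.det _) = _
  rw [RingHom.map_det, PolyWord_map_kry, map_mul, PolyWord_map_wp, PolyWord_map_hat,
    PolyWord_map_hat, hX, hY]
  congr 3
  rw [RingHom.map_adjugate, PolyWord_map_wp,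
    PolyWord_map_hat, PolyWord_map_hat, hX, hY]

theorem FF_ne (h : 0 < n) {u v : Fin ℓ → Bool} (huv : u ≠ v) : FF F h u v ≠ 0 := by
  intro hF
  have key : ∃ x y : Matrix (Fin n) (Fin n) (RatFunc F), x.det = 1 ∧ y.det = 1 ∧
      (kry h ((wp u x y).adjugate * wp v x y)).det ≠ 0 := by
    by_cases hc : (univ.filter fun k => u k = true).card = (univ.filter fun k => v k = true).card
    · exact point_same F h huv hc
    · exact point_diff F h hc
  obtain ⟨x, y, hx, hy, hne⟩ := key
  apply hne
  have h1 := FF_aeval F h u v x y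
  rw [hF, map_zero, PolyWord_hat_self h x hx, PolyWord_hat_self h y hy] at h1
  exact h1.symm

theorem FF_deg (h : 0 < n) (u v : Fin ℓ → Bool) :
    (FF F h u v).totalDegree ≤ n ^ 2 * (n + 1) ^ 2 * ℓ := by
  unfold FF
  have hX : ∀ b : Bool, PolyWord_DegLe (hat h (Matrix.of fun i j =>
      (MvPolynomial.X (b, i, j) : MvPolynomial (Bool × Fin n × Fin n) F))) (n + 1) := by
    intro b
    refine PolyWord_hat h ?_
    intro i j
    rw [Matrix.of_apply, MvPolynomial.totalDegree_X]
  have hU := PolyWord_wp (hX true) (hX false) u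
  have hV := PolyWord_wp (hX true) (hX false) v
  have hM := PolyWord_mul (PolyWord_adj hU) hV
  set M := (wp u (hat h (Matrix.of fun i j =>
      (MvPolynomial.X (true, i, j) : MvPolynomial (Bool × Fin n × Fin n) F))) (hat h (Matrix.of fun i j =>
      (MvPolynomial.X (false, i, j) : MvPolynomial (Bool × Fin n × Fin n) F)))).adjugate *
      wp v (hat h (Matrix.of fun i j =>
      (MvPolynomial.X (true, i, j) : MvPolynomial (Bool × Fin n × Fin n) F))) (hat h (Matrix.of fun i j =>
      (MvPolynomial.X (false, i, j) : MvPolynomial (Bool × Fin n × Fin n) F))) with hMdef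
  have hK : PolyWord_DegLe (kry h M) (n * (n * (ℓ * (n + 1)) + ℓ * (n + 1))) := by
    intro i j
    refine (PolyWord_pow hM (j : ℕ) i ⟨0, h⟩).trans ?_
    exact Nat.mul_le_mul_right _ j.2.le
  have h1 := PolyWord_det hK
  refine h1.trans (le_of_eq ?_)
  ring

end Pool.Agent.RCL
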