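import Mathlib

/-!
# Schwartz-Zippel for an arbitrary finite set of variables over a finite field

PROOF: `MvPolynomial.schwartz_zippel_totalDegree` for `Fin N`, `N = Fintype.card σ`, transported with
`MvPolynomial.rename (Fintype.equivFin σ)` (injective; `totalDegree_rename_le`, `eval_rename`), with
`S = Finset.univ`.
-/

open Finset

namespace Pool.Agent.RCL

private lemma SZ_fin {F : Type*} [Field F] [Fintype F] {n : ℕ} (p : MvPolynomial (Fin n) F)
    (hp : p ≠ 0) :
    Nat.card {f : Fin n → F // MvPolynomial.eval f p = 0} * Fintype.card F ≤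
      p.totalDegree * Fintype.card F ^ n := by
  classical
  have h := MvPolynomial.schwartz_zippel_totalDegree hp (Finset.univ : Finset F)
  have hc : (0 : ℚ≥0) < (Fintype.card F : ℚ≥0) := by
    exact_mod_cast Fintype.card_pos
  rw [Finset.card_univ, div_le_div_iff₀ (pow_pos hc n) hc] at h
  have e : Nat.card {f : Fin n → F // MvPolynomial.eval f p = 0} =
      #{f ∈ Fintype.piFinset fun _ : Fin n ↦ (Finset.univ : Finset F) | MvPolynomial.eval f p = 0} := by
    rw [Nat.card_eq_fintype_card, Fintype.card_subtype]
    congr 1
  rw [e]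
  exact_mod_cast h

theorem sz {F : Type*} [Field F] [Fintype F] {σ : Type*} [Fintype σ] (p : MvPolynomial σ F)
    (hp : p ≠ 0) :
    Nat.card {f : σ → F // MvPolynomial.eval f p = 0} * Fintype.card F ≤
      p.totalDegree * Fintype.card F ^ Fintype.card σ := by
  classical
  let e := Fintype.equivFin σ
  let q := MvPolynomial.rename e p
  have hq : q ≠ 0 := by
    intro h
    exact hp (MvPolynomial.rename_injective e e.injective (by rw [map_zero]; exact h))
  have h := SZ_fin q hq
  have hd : q.totalDegree ≤ p.totalDegree := MvPolynomial.totalDegree_rename_le e p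
  have hc : Nat.card {f : σ → F // MvPolynomial.eval f p = 0} =
      Nat.card {f : Fin (Fintype.card σ) → F // MvPolynomial.eval f q = 0} := by
    refine Nat.card_congr (Equiv.subtypeEquiv (Equiv.arrowCongr e (Equiv.refl F)) ?_)
    intro f
    rw [MvPolynomial.eval_rename]
    have : (Equiv.arrowCongr e (Equiv.refl F)) f ∘ e = f := by
      ext x
      simp
    rw [this]
  rw [hc]
  exact h.trans (Nat.mul_le_mul_right _ hd)

end Pool.Agent.RCL
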