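import Pool.Agent.W_6acff7c_h33.BigDefs
import Pool.Agent.W_6acff7c_h33.SZ

/-!
# From pairs in `SL_n(F)` to pairs of matrices

PROOF of `gl_half`.  The number of singular matrices is at most `n q ^ (n n - 1)` by `sz` for the determinant
of the generic matrix (degree at most `n`, not `0`), so at least `q ^ (n n) (1 - n / q) ≥ q ^ (n n) / 2` matrices
are invertible.  (Or use `Matrix.card_GL_field`.)
PROOF of `sl_le_mat`.  `X ↦ nrm h X` maps the invertible matrices onto `SL_n(F)` and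
`X ↦ (nrm h X, det X)` is a bijection onto `SL_n(F) × F^×` (inverse
`(x, t) ↦ x * diag (t, 1, ..., 1)`).  So the number of pairs of invertible matrices is
`(q - 1) ^ 2 |SL| ^ 2` and the number of those with `P (nrm h X) (nrm h Y)` is `(q - 1) ^ 2` times the number
of pairs in `SL` with `P`.  Divide and use `gl_half` (number of pairs of invertible matrices at least
`q ^ (2 n n) / 4`).
-/

open Finset Pool.Agent.RCG

namespace Pool.Agent.RCL

variable {F : Type*} [Field F] [Fintype F] {n : ℕ}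

omit [Fintype F] in
theorem ToMat_card_gl : Nat.card {X : Matrix (Fin n) (Fin n) F // X.det ≠ 0} =
    Nat.card (GL (Fin n) F) := by
  refine Nat.card_congr ⟨fun X => Matrix.GeneralLinearGroup.mkOfDetNeZero X.1 X.2,
    fun g => ⟨g.1, ?_⟩, fun X => ?_, fun g => ?_⟩
  · have h1 : IsUnit g.1.det := (Matrix.isUnit_iff_isUnit_det g.1).1 g.isUnit
    exact h1.ne_zero
  · rfl
  · exact Units.ext rfl

theorem gl_half (hq : 2 * n ≤ Fintype.card F) :
    (Fintype.card F : ℝ) ^ (n * n) / 2 ≤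
      Nat.card {X : Matrix (Fin n) (Fin n) F // X.det ≠ 0} := by
  rw [ToMat_card_gl, Matrix.card_GL_field]
  have hq0 : (2 : ℝ) ≤ Fintype.card F := by exact_mod_cast Fintype.one_lt_card (α := F)
  have hqpos : (0 : ℝ) < Fintype.card F := by linarith
  have h1 : ∀ i : Fin n, (Fintype.card F : ℝ) ^ n * (1 + -(1 / (Fintype.card F : ℝ))) ≤
      ((Fintype.card F ^ n - Fintype.card F ^ (i : ℕ) : ℕ) : ℝ) := by
    intro i
    have h2 : Fintype.card F ^ (i : ℕ) ≤ Fintype.card F ^ n :=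
      Nat.pow_le_pow_right Fintype.card_pos i.2.le
    rw [Nat.cast_sub h2]
    push_cast
    have h3 : (Fintype.card F : ℝ) ^ (i : ℕ) ≤ (Fintype.card F : ℝ) ^ n * (1 / Fintype.card F) := by
      rw [mul_one_div, le_div_iff₀ hqpos, ← pow_succ]
      exact pow_le_pow_right₀ (by linarith) i.2
    linarith
  have hnn : (0 : ℝ) ≤ 1 + -(1 / (Fintype.card F : ℝ)) := by
    have : 1 / (Fintype.card F : ℝ) ≤ 1 := by
      rw [div_le_one hqpos]
      linarith
    linarith
  have h4 : ((Fintype.card F : ℝ) ^ n * (1 + -(1 / (Fintype.card F : ℝ)))) ^ n ≤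
      ((∏ i : Fin n, (Fintype.card F ^ n - Fintype.card F ^ (i : ℕ)) : ℕ) : ℝ) := by
    push_cast [Nat.cast_prod]
    calc ((Fintype.card F : ℝ) ^ n * (1 + -(1 / (Fintype.card F : ℝ)))) ^ n
        = ∏ _i : Fin n, ((Fintype.card F : ℝ) ^ n * (1 + -(1 / (Fintype.card F : ℝ)))) := by
          rw [Finset.prod_const, Finset.card_univ, Fintype.card_fin]
      _ ≤ ∏ i : Fin n, ((Fintype.card F ^ n - Fintype.card F ^ (i : ℕ) : ℕ) : ℝ) :=
          Finset.prod_le_prod (fun i _ => by positivity) fun i _ => h1 i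
  refine le_trans ?_ h4
  have h5 : 1 + (n : ℝ) * -(1 / (Fintype.card F : ℝ)) ≤ (1 + -(1 / (Fintype.card F : ℝ))) ^ n := by
    refine one_add_mul_le_pow ?_ n
    linarith
  have h6 : (1 : ℝ) / 2 ≤ 1 + (n : ℝ) * -(1 / (Fintype.card F : ℝ)) := by
    have h7 : (n : ℝ) * (1 / (Fintype.card F : ℝ)) ≤ 1 / 2 := by
      rw [mul_one_div, div_le_iff₀ hqpos]
      have : (2 : ℝ) * n ≤ Fintype.card F := by exact_mod_cast hq
      linarith
    linarith
  rw [mul_pow, ← pow_mul, div_eq_mul_one_div]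
  exact mul_le_mul_of_nonneg_left (h6.trans h5) (by positivity)

/-- `diag (c, 1, ..., 1)` -/
private def ToMat_D (h : 0 < n) (c : F) : Matrix (Fin n) (Fin n) F :=
  Matrix.diagonal fun i => if i = ⟨0, h⟩ then c else 1

omit [Fintype F] in
private theorem ToMat_det (h : 0 < n) (c : F) : (ToMat_D h c).det = c := by
  rw [ToMat_D, Matrix.det_diagonal, Finset.prod_ite_eq', if_pos (Finset.mem_univ _)]

omit [Fintype F] in
private theorem ToMat_mul (h : 0 < n) {c d : F} (hcd : c * d = 1) :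
    ToMat_D h c * ToMat_D h d = 1 := by
  rw [ToMat_D, ToMat_D, Matrix.diagonal_mul_diagonal, ← Matrix.diagonal_one]
  congr 1
  funext i
  by_cases hi : i = ⟨0, h⟩
  · rw [if_pos hi, if_pos hi, hcd]
  · rw [if_neg hi, if_neg hi, one_mul]

omit [Fintype F] in
private theorem ToMat_nrm (h : 0 < n) (X : Matrix (Fin n) (Fin n) F) :
    nrm h X = X * ToMat_D h X.det⁻¹ := rfl

/-- `X ↦ (nrm h X, det X)` -/
private def ToMat_e (h : 0 < n) : {X : Matrix (Fin n) (Fin n) F // X.det ≠ 0} ≃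
    Matrix.SpecialLinearGroup (Fin n) F × Fˣ where
  toFun X := (⟨nrm h X.1, by
    rw [ToMat_nrm, Matrix.det_mul, ToMat_det, mul_inv_cancel₀ X.2]⟩, Units.mk0 X.1.det X.2)
  invFun p := ⟨p.1.1 * ToMat_D h (p.2 : F), by
    rw [Matrix.det_mul, ToMat_det, p.1.2, one_mul]
    exact p.2.ne_zero⟩
  left_inv X := by
    apply Subtype.ext
    show nrm h X.1 * ToMat_D h X.1.det = X.1
    rw [ToMat_nrm, Matrix.mul_assoc, ToMat_mul h (inv_mul_cancel₀ X.2), Matrix.mul_one]
  right_inv p := by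
    have h1 : (p.1.1 * ToMat_D h (p.2 : F)).det = (p.2 : F) := by
      rw [Matrix.det_mul, ToMat_det, p.1.2, one_mul]
    refine Prod.ext (Subtype.ext ?_) (Units.ext h1)
    show nrm h (p.1.1 * ToMat_D h (p.2 : F)) = p.1.1
    rw [ToMat_nrm, h1, Matrix.mul_assoc, ToMat_mul h (mul_inv_cancel₀ p.2.ne_zero), Matrix.mul_one]

/-- pairs -/
private def ToMat_pairs (h : 0 < n)
    (P : Matrix (Fin n) (Fin n) F → Matrix (Fin n) (Fin n) F → Prop) :
    {p : Matrix (Fin n) (Fin n) F × Matrix (Fin n) (Fin n) F //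
        p.1.det ≠ 0 ∧ p.2.det ≠ 0 ∧ P (nrm h p.1) (nrm h p.2)} ≃
    {p : Matrix.SpecialLinearGroup (Fin n) F × Matrix.SpecialLinearGroup (Fin n) F //
        P p.1.1 p.2.1} × (Fˣ × Fˣ) where
  toFun p := (⟨((ToMat_e h ⟨p.1.1, p.2.1⟩).1, (ToMat_e h ⟨p.1.2, p.2.2.1⟩).1), p.2.2.2⟩,
    ((ToMat_e h ⟨p.1.1, p.2.1⟩).2, (ToMat_e h ⟨p.1.2, p.2.2.1⟩).2))
  invFun w := ⟨(((ToMat_e h).symm (w.1.1.1, w.2.1)).1, ((ToMat_e h).symm (w.1.1.2, w.2.2)).1),
    ((ToMat_e h).symm (w.1.1.1, w.2.1)).2, ((ToMat_e h).symm (w.1.1.2, w.2.2)).2, by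
      have h1 : nrm h ((ToMat_e h).symm (w.1.1.1, w.2.1)).1 = w.1.1.1.1 :=
        congrArg (fun z => z.1.1) ((ToMat_e h).apply_symm_apply (w.1.1.1, w.2.1))
      have h2 : nrm h ((ToMat_e h).symm (w.1.1.2, w.2.2)).1 = w.1.1.2.1 :=
        congrArg (fun z => z.1.1) ((ToMat_e h).apply_symm_apply (w.1.1.2, w.2.2))
      show P (nrm h ((ToMat_e h).symm (w.1.1.1, w.2.1)).1)
        (nrm h ((ToMat_e h).symm (w.1.1.2, w.2.2)).1)
      rw [h1, h2]
      exact w.1.2⟩
  left_inv p := by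
    apply Subtype.ext
    exact Prod.ext (congrArg Subtype.val ((ToMat_e h).symm_apply_apply ⟨p.1.1, p.2.1⟩))
      (congrArg Subtype.val ((ToMat_e h).symm_apply_apply ⟨p.1.2, p.2.2.1⟩))
  right_inv w := by
    have h1 := (ToMat_e h).apply_symm_apply (w.1.1.1, w.2.1)
    have h2 := (ToMat_e h).apply_symm_apply (w.1.1.2, w.2.2)
    have e1 : ((ToMat_e h) ((ToMat_e h).symm (w.1.1.1, w.2.1))).1 = w.1.1.1 := congrArg Prod.fst h1
    have e2 : ((ToMat_e h) ((ToMat_e h).symm (w.1.1.2, w.2.2))).1 = w.1.1.2 := congrArg Prod.fst h2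
    have e3 : ((ToMat_e h) ((ToMat_e h).symm (w.1.1.1, w.2.1))).2 = w.2.1 := congrArg Prod.snd h1
    have e4 : ((ToMat_e h) ((ToMat_e h).symm (w.1.1.2, w.2.2))).2 = w.2.2 := congrArg Prod.snd h2
    apply Prod.ext
    · apply Subtype.ext
      apply Prod.ext
      · exact e1
      · exact e2
    · apply Prod.ext
      · exact e3
      · exact e4

theorem sl_le_mat (h : 0 < n) (hq : 2 * n ≤ Fintype.card F)
    (P : Matrix (Fin n) (Fin n) F → Matrix (Fin n) (Fin n) F → Prop) :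
    (Nat.card {p : Matrix.SpecialLinearGroup (Fin n) F × Matrix.SpecialLinearGroup (Fin n) F //
        P p.1.1 p.2.1} : ℝ) / (Nat.card (Matrix.SpecialLinearGroup (Fin n) F) : ℝ) ^ 2 ≤
      4 * Nat.card {p : Matrix (Fin n) (Fin n) F × Matrix (Fin n) (Fin n) F //
        p.1.det ≠ 0 ∧ p.2.det ≠ 0 ∧ P (nrm h p.1) (nrm h p.2)} /
        (Fintype.card F : ℝ) ^ (2 * (n * n)) := by
  have hB := Nat.card_congr (ToMat_pairs h P)
  rw [Nat.card_prod, Nat.card_prod] at hB
  have hG := Nat.card_congr (ToMat_e (F := F) h)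
  rw [Nat.card_prod] at hG
  have hg := gl_half (F := F) (n := n) hq
  rw [hG] at hg
  rw [hB]
  have hS : (0 : ℝ) < Nat.card (Matrix.SpecialLinearGroup (Fin n) F) := by
    exact_mod_cast Nat.card_pos
  have hU : (0 : ℝ) < Nat.card Fˣ := by exact_mod_cast Nat.card_pos
  have hq0 : (0 : ℝ) < (Fintype.card F : ℝ) := by exact_mod_cast Fintype.card_pos (α := F)
  have hQ : (0 : ℝ) < (Fintype.card F : ℝ) ^ (n * n) := by positivity
  push_cast at hg ⊢
  rw [two_mul, pow_add, div_le_div_iff₀ (by positivity) (by positivity)]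
  have h1 : (Fintype.card F : ℝ) ^ (n * n) * (Fintype.card F : ℝ) ^ (n * n) ≤
      (2 * ((Nat.card (Matrix.SpecialLinearGroup (Fin n) F) : ℝ) * (Nat.card Fˣ : ℝ))) *
      (2 * ((Nat.card (Matrix.SpecialLinearGroup (Fin n) F) : ℝ) * (Nat.card Fˣ : ℝ))) :=
    mul_le_mul (by linarith) (by linarith) (by positivity) (by positivity)
  refine (mul_le_mul_of_nonneg_left h1 (Nat.cast_nonneg _)).trans (le_of_eq ?_)
  ring

end Pool.Agent.RCL
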