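import Pool.Agent.W_6acff7c_h33.CycGood
import Pool.Agent.W_6acff7c_h33.PolyWord
import Pool.Agent.W_6acff7c_h33.ToMat

/-!
# The quotient of two different positive words is good

PROOF.  `Matrix.SpecialLinearGroup.toLin'_equiv` is an isomorphism from `SL_n(F)` (matrices) to `SLn F n`;
use `pr_congr` to pass to pairs `(x, y)` of matrices of determinant `1`, `U = wp u x y`, `V = wp v x y`.
If `(kry h (U.adjugate * V)).det ≠ 0` then, as `U.adjugate = U⁻¹`, the columns `M ^ j e_0`, `j < n`, of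
this matrix (`M = U⁻¹ V`) are linearly independent, so `cyc_good` with `v0 = e_0` (`Pi.single ⟨0, h⟩ 1`) says
that the quotient is good.  So the probability is at most the proportion of pairs in `SL` with
`P x y : (kry h ((wp u x y).adjugate * wp v x y)).det = 0`, and by `sl_le_mat` at most
`4 / q ^ (2 n n)` times the number of pairs of invertible matrices `X, Y` with `P (nrm h X) (nrm h Y)`.
Here `hat h X = X.det • nrm h X`, so `wp u (hat X) (hat Y) = c • wp u (nrm X) (nrm Y)` with `c ≠ 0` (a product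
of determinants), `adjugate (c • A) = c ^ (n-1) • adjugate A`, and `det (kry h (c • M)) = c' * det (kry h M)`,
`c' ≠ 0` (columns are scaled).  So `P (nrm h X) (nrm h Y)` implies that `FF F h u v` vanishes at `(X, Y)`
(`FF_aeval` with `E = F`), and the number of such pairs is at most
`n ^ 2 (n + 1) ^ 2 ℓ q ^ (2 n n) / q` by `sz`, `FF_ne`, `FF_deg` (`Fintype.card (Bool × Fin n × Fin n) = 2 (n n)`).
-/

open Finset Pool.Agent.RCG

namespace Pool.Agent.RCL

variable {F : Type*} [Field F] [Fintype F] {n : ℕ}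

private theorem BigPair_wp {M : Type*} [Monoid M] {ℓ : ℕ} (u : Fin ℓ → Bool) (x y : M) :
    wp u x y = ((List.ofFn u).map fun t => if t then x else y).prod := by
  unfold wp
  rw [List.map_ofFn]
  rfl

private theorem BigPair_map {M N : Type*} [Monoid M] [Monoid N] (f : M →* N) {ℓ : ℕ}
    (u : Fin ℓ → Bool) (x y : M) : f (wp u x y) = wp u (f x) (f y) := by
  rw [BigPair_wp, BigPair_wp, map_list_prod, List.map_map]
  congr 1
  apply List.map_congr_left
  intro t _
  cases t <;> rfl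

private theorem BigPair_smul {R : Type*} [CommRing R] {n : ℕ} (a b : R)
    (A B : Matrix (Fin n) (Fin n) R) : ∀ l : List Bool, ∃ c : R,
      (l.map fun t => if t then a • A else b • B).prod =
        c • (l.map fun t => if t then A else B).prod
  | [] => ⟨1, by simp⟩
  | t :: l => by
      obtain ⟨c, hc⟩ := BigPair_smul a b A B l
      cases t
      · refine ⟨b * c, ?_⟩
        rw [List.map_cons, List.prod_cons, List.map_cons, List.prod_cons, hc]
        simp only [Bool.false_eq_true, if_false]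
        rw [smul_mul_smul_comm]
      · refine ⟨a * c, ?_⟩
        rw [List.map_cons, List.prod_cons, List.map_cons, List.prod_cons, hc]
        simp only [if_true]
        rw [smul_mul_smul_comm]

private theorem BigPair_wp_smul {R : Type*} [CommRing R] {n ℓ : ℕ} (u : Fin ℓ → Bool) (a b : R)
    (A B : Matrix (Fin n) (Fin n) R) : ∃ c : R, wp u (a • A) (b • B) = c • wp u A B := by
  rw [BigPair_wp, BigPair_wp]
  exact BigPair_smul a b A B _

private theorem BigPair_kry {R : Type*} [CommRing R] {n : ℕ} (h : 0 < n) (c : R)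
    (M : Matrix (Fin n) (Fin n) R) (h0 : (kry h M).det = 0) : (kry h (c • M)).det = 0 := by
  have h1 : kry h (c • M) = kry h M * Matrix.diagonal fun j : Fin n => c ^ (j : ℕ) := by
    ext i j
    rw [Matrix.mul_diagonal]
    unfold kry
    rw [Matrix.of_apply, Matrix.of_apply, smul_pow, Matrix.smul_apply, smul_eq_mul, mul_comm]
  rw [h1, Matrix.det_mul, h0, zero_mul]

private theorem BigPair_hat {R : Type*} [Field R] {n : ℕ} (h : 0 < n)
    (X : Matrix (Fin n) (Fin n) R) (hX : X.det ≠ 0) : hat h X = X.det • nrm h X := by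
  unfold hat nrm
  ext i j
  rw [Matrix.smul_apply, Matrix.mul_diagonal, Matrix.mul_diagonal, smul_eq_mul]
  by_cases hj : j = ⟨0, h⟩
  · rw [if_pos hj, if_pos hj]
    field_simp
  · rw [if_neg hj, if_neg hj]
    ring

omit [Fintype F] in
private theorem BigPair_vanish {ℓ : ℕ} (h : 0 < n) (u v : Fin ℓ → Bool)
    (X Y : Matrix (Fin n) (Fin n) F) (hX : X.det ≠ 0) (hY : Y.det ≠ 0)
    (hP : (kry h ((wp u (nrm h X) (nrm h Y)).adjugate * wp v (nrm h X) (nrm h Y))).det = 0) :
    MvPolynomial.eval (fun p : Bool × Fin n × Fin n => if p.1 then X p.2.1 p.2.2 else Y p.2.1 p.2.2)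
      (FF F h u v) = 0 := by
  have h1 := FF_aeval F (E := F) h u v X Y
  rw [← MvPolynomial.coe_aeval_eq_eval]
  refine Eq.trans h1 ?_
  rw [BigPair_hat h X hX, BigPair_hat h Y hY]
  obtain ⟨c, hc⟩ := BigPair_wp_smul u X.det Y.det (nrm h X) (nrm h Y)
  obtain ⟨d, hd⟩ := BigPair_wp_smul v X.det Y.det (nrm h X) (nrm h Y)
  rw [hc, hd, Matrix.adjugate_smul, smul_mul_smul_comm]
  exact BigPair_kry h _ _ hP

private def BigPair_coe (F : Type*) [Field F] (n : ℕ) :
    Matrix.SpecialLinearGroup (Fin n) F →* Matrix (Fin n) (Fin n) F where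
  toFun A := A.1
  map_one' := Matrix.SpecialLinearGroup.coe_one
  map_mul' := Matrix.SpecialLinearGroup.coe_mul

private theorem BigPair_good {K ℓ : ℕ} {κ : ℝ} (h : 0 < n) (hK : (2 * K + 1 : ℝ) ≤ κ * n)
    (u v : Fin ℓ → Bool) (x y : Matrix.SpecialLinearGroup (Fin n) F)
    (hne : (kry h ((wp u x.1 y.1).adjugate * wp v x.1 y.1)).det ≠ 0) :
    Good K κ ((wp u (Matrix.SpecialLinearGroup.toLin'_equiv x : SLn F n)
      (Matrix.SpecialLinearGroup.toLin'_equiv y))⁻¹ *
      wp v (Matrix.SpecialLinearGroup.toLin'_equiv x : SLn F n)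
        (Matrix.SpecialLinearGroup.toLin'_equiv y)) := by
  set e : Matrix.SpecialLinearGroup (Fin n) F ≃* SLn F n :=
    Matrix.SpecialLinearGroup.toLin'_equiv with he
  set m : Matrix.SpecialLinearGroup (Fin n) F := (wp u x y)⁻¹ * wp v x y with hm
  have hg : (wp u (e x) (e y))⁻¹ * wp v (e x) (e y) = e m := by
    rw [hm, map_mul, map_inv]
    have h1 := BigPair_map e.toMonoidHom u x y
    have h2 := BigPair_map e.toMonoidHom v x y
    have h1' : e (wp u x y) = wp u (e x) (e y) := h1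
    have h2' : e (wp v x y) = wp v (e x) (e y) := h2
    rw [h1', h2']
  have hmm : (m : Matrix (Fin n) (Fin n) F) = (wp u x.1 y.1).adjugate * wp v x.1 y.1 := by
    have h1 : (wp u x y).1 = wp u x.1 y.1 := BigPair_map (BigPair_coe F n) u x y
    have h2 : (wp v x y).1 = wp v x.1 y.1 := BigPair_map (BigPair_coe F n) v x y
    rw [hm, Matrix.SpecialLinearGroup.coe_mul, Matrix.SpecialLinearGroup.coe_inv, ← h1, ← h2]
  rw [hg]
  refine cyc_good (e m) (Pi.single ⟨0, h⟩ 1) ?_ hK
  rw [← hmm] at hne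
  have hli := Matrix.linearIndependent_cols_of_det_ne_zero hne
  have hfun : (fun j : Fin n => ((e m) ^ (j : ℕ)).1 (Pi.single ⟨0, h⟩ 1 : Fin n → F)) =
      (kry h (m : Matrix (Fin n) (Fin n) F)).col := by
    funext j
    rw [← map_pow]
    have h3 : (e (m ^ (j : ℕ))).1 (Pi.single ⟨0, h⟩ 1 : Fin n → F) =
        Matrix.mulVec ((m ^ (j : ℕ) : Matrix.SpecialLinearGroup (Fin n) F) :
          Matrix (Fin n) (Fin n) F) (Pi.single ⟨0, h⟩ 1) := rfl
    rw [h3, Matrix.SpecialLinearGroup.coe_pow]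
    ext i
    rw [Matrix.mulVec_single_one]
    rfl
  rw [hfun]
  exact hli

theorem big_pair {K ℓ : ℕ} {κ : ℝ} (h : 0 < n) (hq : 2 * n ≤ Fintype.card F)
    (hK : (2 * K + 1 : ℝ) ≤ κ * n) {u v : Fin ℓ → Bool} (huv : u ≠ v) :
    pr (fun p : SLn F n × SLn F n => ¬ Good K κ ((wp u p.1 p.2)⁻¹ * wp v p.1 p.2)) ≤
      4 * (n ^ 2 * (n + 1) ^ 2 * ℓ : ℝ) / Fintype.card F := by
  classical
  set P : Matrix (Fin n) (Fin n) F → Matrix (Fin n) (Fin n) F → Prop := fun X Y =>
    (kry h ((wp u X Y).adjugate * wp v X Y)).det = 0 with hP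
  let _ : Fintype (Matrix.SpecialLinearGroup (Fin n) F) := Fintype.ofFinite _
  set e : Matrix.SpecialLinearGroup (Fin n) F ≃* SLn F n :=
    Matrix.SpecialLinearGroup.toLin'_equiv with he
  have h1 : pr (fun p : SLn F n × SLn F n => ¬ Good K κ ((wp u p.1 p.2)⁻¹ * wp v p.1 p.2)) ≤
      pr (fun p : Matrix.SpecialLinearGroup (Fin n) F × Matrix.SpecialLinearGroup (Fin n) F =>
        P p.1.1 p.2.1) := by
    rw [← pr_congr (Equiv.prodCongr e.toEquiv e.toEquiv)]
    apply pr_mono
    rintro ⟨x, y⟩ hn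
    by_contra hne
    exact hn (BigPair_good h hK u v x y hne)
  have h2 : pr (fun p : Matrix.SpecialLinearGroup (Fin n) F ×
      Matrix.SpecialLinearGroup (Fin n) F => P p.1.1 p.2.1) =
      (Nat.card {p : Matrix.SpecialLinearGroup (Fin n) F × Matrix.SpecialLinearGroup (Fin n) F //
        P p.1.1 p.2.1} : ℝ) / (Nat.card (Matrix.SpecialLinearGroup (Fin n) F) : ℝ) ^ 2 := by
    unfold pr
    rw [Nat.card_eq_fintype_card, Nat.card_eq_fintype_card, Fintype.card_subtype,
      Fintype.card_prod, Nat.cast_mul, sq]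
  have h3 := sl_le_mat h hq P
  set N := Nat.card {p : Matrix (Fin n) (Fin n) F × Matrix (Fin n) (Fin n) F //
        p.1.det ≠ 0 ∧ p.2.det ≠ 0 ∧ P (nrm h p.1) (nrm h p.2)} with hN
  have h4 : N ≤ Nat.card {f : Bool × Fin n × Fin n → F // MvPolynomial.eval f (FF F h u v) = 0} := by
    rw [hN]
    refine Nat.card_le_card_of_injective (fun p => ⟨fun q : Bool × Fin n × Fin n =>
      if q.1 then p.1.1 q.2.1 q.2.2 else p.1.2 q.2.1 q.2.2,
      BigPair_vanish h u v _ _ p.2.1 p.2.2.1 p.2.2.2⟩) ?_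
    rintro ⟨⟨X, Y⟩, hp⟩ ⟨⟨X', Y'⟩, hp'⟩ hpp
    have h5 := congrArg Subtype.val hpp
    have h6 : ∀ q : Bool × Fin n × Fin n, (if q.1 then X q.2.1 q.2.2 else Y q.2.1 q.2.2) =
      (if q.1 then X' q.2.1 q.2.2 else Y' q.2.1 q.2.2) := fun q => congrFun h5 q
    have h7 : X = X' := by
      ext i j
      exact h6 (true, i, j)
    have h8 : Y = Y' := by
      ext i j
      exact h6 (false, i, j)
    subst h7 h8
    rfl
  have h5 := sz (FF F h u v) (FF_ne F h huv)
  have h6 := FF_deg F h u v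
  have hcard : Fintype.card (Bool × Fin n × Fin n) = 2 * (n * n) := by
    rw [Fintype.card_prod, Fintype.card_prod, Fintype.card_bool, Fintype.card_fin]
  rw [hcard] at h5
  have h7 : N * Fintype.card F ≤ n ^ 2 * (n + 1) ^ 2 * ℓ * Fintype.card F ^ (2 * (n * n)) :=
    (Nat.mul_le_mul_right _ h4).trans (h5.trans (Nat.mul_le_mul_right _ h6))
  have h7' : (N : ℝ) * Fintype.card F ≤
      n ^ 2 * (n + 1) ^ 2 * ℓ * (Fintype.card F : ℝ) ^ (2 * (n * n)) := by exact_mod_cast h7
  have hq0 : (0 : ℝ) < Fintype.card F := by exact_mod_cast Fintype.card_pos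
  rw [h2] at h1
  refine h1.trans (h3.trans ?_)
  rw [div_le_div_iff₀ (pow_pos hq0 _) hq0]
  nlinarith [h7']

end Pool.Agent.RCL
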