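import Pool.Agent.W_6acff7c_h33.Defs

/-!
# Averages over the elements which agree with `y0` on `D`

`cE D y0 φ` is the average of `φ (y0 * a)` over `a ∈ PS D`; the elements `y0 * a` are exactly the
`y` which agree with `y0` on `D`.

PROOF of `cE_tower`: the right side is `∑_{a ∈ PS D} ∑_{c ∈ PS D'} φ (y0 a c) / (|PS D| |PS D'|)` with
`D' = D ⊔ span {x}`; exchange the sums; for fixed `c ∈ PS D' ≤ PS D` the map `a ↦ a c` is a bijection
of `PS D`.
PROOF of `cE_inv`: for `a ∈ PS D` we have `(y0 a)⁻¹ = y0⁻¹ (y0 a⁻¹ y0⁻¹)` and `a ↦ y0 a⁻¹ y0⁻¹` is a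
bijection from `PS D` to `PS (mv y0 D)`.
-/

open Finset Pool.Agent.RCG

namespace Pool.Agent.RCL

variable {F : Type*} [Field F] [Fintype F] {n : ℕ}

theorem PS_mono {D D' : Submodule F (Fin n → F)} (h : D ≤ D') : PS D' ≤ PS D :=
  fun _ hg d hd => hg d (h hd)

theorem mv_mul (g h : SLn F n) (D : Submodule F (Fin n → F)) : mv (g * h) D = mv g (mv h D) := by
  unfold mv
  rw [← Submodule.map_comp]
  rfl

theorem mv_one (D : Submodule F (Fin n → F)) : mv 1 D = D := by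
  ext x
  constructor
  · rintro ⟨y, hy, rfl⟩
    exact hy
  · intro hx
    exact ⟨x, hx, rfl⟩

theorem finrank_mv (g : SLn F n) (D : Submodule F (Fin n → F)) :
    Module.finrank F (mv g D) = Module.finrank F D :=
  LinearEquiv.finrank_map_eq g.1 D

theorem mem_mv (g : SLn F n) (D : Submodule F (Fin n → F)) (x : Fin n → F) :
    x ∈ mv g D ↔ (g⁻¹).1 x ∈ D :=
  Submodule.mem_map_equiv D

/-- The conjugate of `PS D` by `g` is `PS (mv g D)`. -/
theorem conj_mem_PS (g a : SLn F n) (D : Submodule F (Fin n → F)) :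
    g * a * g⁻¹ ∈ PS (mv g D) ↔ a ∈ PS D := by
  constructor
  · intro h d hd
    have h1 := h (g.1 d) ⟨d, hd, rfl⟩
    have h2 : (g * a * g⁻¹).1 (g.1 d) = g.1 (a.1 d) := by
      change g.1 (a.1 (g.1.symm (g.1 d))) = g.1 (a.1 d)
      rw [LinearEquiv.symm_apply_apply]
    rw [h2] at h1
    exact g.1.injective h1
  · rintro h _ ⟨d, hd, rfl⟩
    change g.1 (a.1 (g.1.symm (g.1 d))) = g.1 d
    rw [LinearEquiv.symm_apply_apply, h d hd]

theorem cE_mono {D : Submodule F (Fin n → F)} {y0 : SLn F n} {φ φ' : SLn F n → ℝ}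
    (h : ∀ y : SLn F n, (∀ d ∈ D, y.1 d = y0.1 d) → φ y ≤ φ' y) : cE D y0 φ ≤ cE D y0 φ' := by
  unfold cE
  refine div_le_div_of_nonneg_right ?_ (Nat.cast_nonneg _)
  refine Finset.sum_le_sum fun a _ => h _ fun d hd => ?_
  change y0.1 (a.1.1 d) = y0.1 d
  rw [a.2 d hd]

theorem cE_congr {D : Submodule F (Fin n → F)} {y0 : SLn F n} {φ φ' : SLn F n → ℝ}
    (h : ∀ y : SLn F n, (∀ d ∈ D, y.1 d = y0.1 d) → φ y = φ' y) : cE D y0 φ = cE D y0 φ' :=
  le_antisymm (cE_mono fun y hy => (h y hy).le) (cE_mono fun y hy => (h y hy).ge)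

theorem cE_sum {ι : Type*} (s : Finset ι) (D : Submodule F (Fin n → F)) (y0 : SLn F n)
    (φ : ι → SLn F n → ℝ) : cE D y0 (fun y => ∑ i ∈ s, φ i y) = ∑ i ∈ s, cE D y0 (φ i) := by
  unfold cE
  rw [Finset.sum_comm, Finset.sum_div]

theorem cE_smul (c : ℝ) (D : Submodule F (Fin n → F)) (y0 : SLn F n)
    (φ : SLn F n → ℝ) : cE D y0 (fun y => c * φ y) = c * cE D y0 φ := by
  unfold cE
  rw [← Finset.mul_sum, mul_div_assoc]

theorem cE_const (c : ℝ) (D : Submodule F (Fin n → F)) (y0 : SLn F n) :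
    cE D y0 (fun _ => c) = c := by
  classical
  unfold cE
  rw [Finset.sum_const, nsmul_eq_mul, Finset.card_univ, ← Nat.card_eq_fintype_card]
  exact mul_div_cancel_left₀ c (Nat.cast_ne_zero.mpr Nat.card_pos.ne')

theorem cE_bot (y0 : SLn F n) (φ : SLn F n → ℝ) :
    cE ⊥ y0 φ = (∑ y, φ y) / (Fintype.card (SLn F n) : ℝ) := by
  classical
  have hmem : ∀ a : SLn F n, a ∈ PS (⊥ : Submodule F (Fin n → F)) := by
    intro a d hd
    rw [(Submodule.mem_bot F).mp hd, map_zero]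
  have hbij : Function.Bijective
      (fun a : ↥(PS (⊥ : Submodule F (Fin n → F))) => y0 * (a : SLn F n)) := by
    constructor
    · intro a b hab
      exact Subtype.ext (mul_left_cancel hab)
    · intro y
      exact ⟨⟨y0⁻¹ * y, hmem _⟩, mul_inv_cancel_left y0 y⟩
  unfold cE
  rw [Nat.card_eq_of_bijective _ hbij, Nat.card_eq_fintype_card]
  congr 1
  exact Fintype.sum_bijective _ hbij _ _ fun _ => rfl

open Classical in
theorem cE_tower (D : Submodule F (Fin n → F)) (y0 : SLn F n) (x : Fin n → F)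
    (φ : SLn F n → ℝ) :
    cE D y0 φ = (∑ a : ↥(PS D), cE (D ⊔ Submodule.span F {x}) (y0 * a) φ) /
      (Nat.card ↥(PS D) : ℝ) := by
  classical
  unfold cE
  congr 1
  rw [← Finset.sum_div, Finset.sum_comm]
  have hc : ∀ c : ↥(PS (D ⊔ Submodule.span F {x})),
      ∑ a : ↥(PS D), φ (y0 * (a : SLn F n) * (c : SLn F n)) = ∑ a : ↥(PS D), φ (y0 * (a : SLn F n)) := by
    intro c
    have hcD : (c : SLn F n) ∈ PS D := PS_mono le_sup_left c.2
    refine Fintype.sum_equiv (Equiv.mulRight (⟨c, hcD⟩ : ↥(PS D))) _ _ fun a => ?_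
    rw [mul_assoc]
    rfl
  rw [Finset.sum_congr rfl fun c _ => hc c, Finset.sum_const, nsmul_eq_mul, Finset.card_univ,
    ← Nat.card_eq_fintype_card]
  have h0 : (Nat.card ↥(PS (D ⊔ Submodule.span F {x})) : ℝ) ≠ 0 :=
    Nat.cast_ne_zero.mpr Nat.card_pos.ne'
  exact (mul_div_cancel_left₀ _ h0).symm

theorem cE_inv (D : Submodule F (Fin n → F)) (y0 : SLn F n) (φ : SLn F n → ℝ) :
    cE D y0 φ = cE (mv y0 D) y0⁻¹ (fun y => φ y⁻¹) := by
  classical
  have hbij : Function.Bijective (fun a : ↥(PS D) =>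
      (⟨y0 * (a : SLn F n)⁻¹ * y0⁻¹, (conj_mem_PS y0 _ D).mpr (inv_mem a.2)⟩ :
        ↥(PS (mv y0 D)))) := by
    constructor
    · intro a b hab
      have h1 := congrArg Subtype.val hab
      exact Subtype.ext (inv_injective (mul_left_cancel (mul_right_cancel h1)))
    · rintro ⟨b, hb⟩
      have h1 : y0⁻¹ * b⁻¹ * y0 ∈ PS D := by
        rw [← conj_mem_PS y0]
        have : y0 * (y0⁻¹ * b⁻¹ * y0) * y0⁻¹ = b⁻¹ := by group
        rw [this]
        exact inv_mem hb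
      refine ⟨⟨_, h1⟩, Subtype.ext ?_⟩
      change y0 * (y0⁻¹ * b⁻¹ * y0)⁻¹ * y0⁻¹ = b
      group
  unfold cE
  rw [Nat.card_eq_of_bijective _ hbij]
  congr 1
  refine Fintype.sum_bijective _ hbij _ _ fun a => ?_
  have : (y0⁻¹ * (y0 * (a : SLn F n)⁻¹ * y0⁻¹))⁻¹ = y0 * (a : SLn F n) := by group
  change _ = φ (y0⁻¹ * (y0 * (a : SLn F n)⁻¹ * y0⁻¹))⁻¹
  rw [this]

end Pool.Agent.RCL
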