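import Pool.Agent.W_6acff7c_h33.Coin

/-!
# A linear algebra dichotomy

PROOF of `cap`.  Let `t` be the largest number such that there is `u : Fin t → V` with all `u l ∈ C` and
`u_1, ..., u_t, g u_1, ..., g u_t` linearly independent.  If `t ≥ m` restrict `u` to `Fin m`.  Assume
`t ≤ m - 1`.  Let `S = span {u_l, g u_l}`, of dimension `2 t`.  By maximality for every `x ∈ C` the vectors
`x, g x` are linearly dependent modulo `S`: there is `(a, b) ≠ 0` in `F ^ 2` with `a x + b g x ∈ S`; we may
take `(a, b)` to be `(1, 0)` or `(-μ, 1)` (`μ ∈ F`).  So `C` is the union of the `q + 1` subspaces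
`C_∞ = C ⊓ S` and `C_μ = {x ∈ C | g x - μ x ∈ S}`.
If `t = 0`: `S = 0`, `C_∞ = 0`.  If `C ≠ 0` take `x ∈ C`, `x ≠ 0`: `x ∈ C_μ` for some `μ`, so
`1 ≤ dim (C ⊓ ker (g - μ))`; this is the claim for `m = 1`.
In general let `c = dim C ≥ 1`.  Some of these subspaces has dimension at least `c - 1`: otherwise (this
needs `c ≥ 2`; for `c ≤ 1` it is trivial) `q ^ c ≤ (q + 1) q ^ (c - 2) < q ^ c`.  If it is `C_μ`: the map
`g - μ` sends `C_μ` to `S`, so `dim (C_μ ⊓ ker (g - μ)) ≥ c - 1 - 2 t ≥ c - 1 - 2 (m - 1) ≥ m` if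
`3 m ≤ c + 1`.  If it is `C_∞ ≤ S`: `c - 1 ≤ 2 t ≤ 2 (m - 1)`, so `3 m ≤ c + 1 ≤ 2 m`, impossible as
`m ≥ 1`.
-/

open Finset Pool.Agent.RCG

namespace Pool.Agent.RCL

variable {F : Type*} [Field F] [Fintype F] {n : ℕ}

theorem Cap_step {V : Type*} [AddCommGroup V] [Module F V] (T : V →ₗ[F] V)
    (C : Submodule F V) {t : ℕ} (u : Fin t → V) (hu : ∀ l, u l ∈ C)
    (hl : LinearIndependent F (Sum.elim u (fun l => T (u l))))
    (hno : ¬ ∃ u' : Fin (t + 1) → V, (∀ l, u' l ∈ C) ∧
      LinearIndependent F (Sum.elim u' (fun l => T (u' l)))) (x : V) (hx : x ∈ C) :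
    ∃ a b : F, (a ≠ 0 ∨ b ≠ 0) ∧
      a • x + b • T x ∈ Submodule.span F (Set.range (Sum.elim u (fun l => T (u l)))) := by
  by_contra hcon
  push Not at hcon
  apply hno
  refine ⟨Fin.cons x u, ?_, ?_⟩
  · intro l
    refine Fin.cases ?_ (fun i => ?_) l
    · simpa using hx
    · simpa using hu i
  · rw [Fintype.linearIndependent_iff] at hl ⊢
    intro c hc
    rw [Fintype.sum_sum_type, Fin.sum_univ_succ, Fin.sum_univ_succ] at hc
    simp only [Sum.elim_inl, Sum.elim_inr, Fin.cons_zero, Fin.cons_succ] at hc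
    set A : V := ∑ i : Fin t, c (Sum.inl i.succ) • u i with hA
    set B : V := ∑ i : Fin t, c (Sum.inr i.succ) • T (u i) with hB
    have hAS : A ∈ Submodule.span F (Set.range (Sum.elim u (fun l => T (u l)))) :=
      Submodule.sum_mem _ fun i _ => Submodule.smul_mem _ _
        (Submodule.subset_span ⟨Sum.inl i, rfl⟩)
    have hBS : B ∈ Submodule.span F (Set.range (Sum.elim u (fun l => T (u l)))) :=
      Submodule.sum_mem _ fun i _ => Submodule.smul_mem _ _
        (Submodule.subset_span ⟨Sum.inr i, rfl⟩)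
    have hxy : c (Sum.inl 0) • x + c (Sum.inr 0) • T x = - (A + B) := by
      have : c (Sum.inl 0) • x + A + (c (Sum.inr 0) • T x + B) = 0 := hc
      rw [eq_neg_iff_add_eq_zero, ← this]
      abel
    have hmem : c (Sum.inl 0) • x + c (Sum.inr 0) • T x ∈
        Submodule.span F (Set.range (Sum.elim u (fun l => T (u l)))) := by
      rw [hxy]
      exact Submodule.neg_mem _ (Submodule.add_mem _ hAS hBS)
    have h0 : c (Sum.inl 0) = 0 ∧ c (Sum.inr 0) = 0 := by
      by_contra h0
      refine hcon (c (Sum.inl 0)) (c (Sum.inr 0)) ?_ hmem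
      by_contra h1
      push Not at h1
      exact h0 h1
    have hAB : A + B = 0 := by
      have := hxy
      rw [h0.1, h0.2, zero_smul, zero_smul, add_zero] at this
      exact neg_eq_zero.1 this.symm
    have hrest := hl (Sum.elim (fun i => c (Sum.inl i.succ)) (fun i => c (Sum.inr i.succ))) (by
      rw [Fintype.sum_sum_type]
      simpa only [Sum.elim_inl, Sum.elim_inr] using hAB)
    intro i
    rcases i with i | i
    · refine Fin.cases ?_ (fun j => ?_) i
      · exact h0.1
      · exact hrest (Sum.inl j)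
    · refine Fin.cases ?_ (fun j => ?_) i
      · exact h0.2
      · exact hrest (Sum.inr j)

theorem Cap_cover (C : Submodule F (Fin n → F)) (D : Option F → Submodule F (Fin n → F))
    (hcov : ∀ x ∈ C, ∃ o, x ∈ D o) (hD : ∀ o, Module.finrank F (D o) + 2 ≤ Module.finrank F C) :
    False := by
  classical
  have hq : 2 ≤ Fintype.card F := Fintype.one_lt_card
  have hC2 : 2 ≤ Module.finrank F C := le_trans (Nat.le_add_left _ _) (hD none)
  choose! o ho using hcov
  have h1 : Nat.card C ≤ Nat.card (Σ i : Option F, D i) := by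
    refine Nat.card_le_card_of_injective
      (fun x : C => (⟨o x.1, ⟨x.1, ho x.1 x.2⟩⟩ : Σ i : Option F, D i)) ?_
    intro x y hxy
    have : ((⟨o x.1, ⟨x.1, ho x.1 x.2⟩⟩ : Σ i : Option F, D i).2 : Fin n → F) =
        ((⟨o y.1, ⟨y.1, ho y.1 y.2⟩⟩ : Σ i : Option F, D i).2 : Fin n → F) := by
      have h2 := congrArg (fun z : (Σ i : Option F, D i) => (z.2 : Fin n → F)) hxy
      exact h2
    exact Subtype.ext this
  have h2 : Nat.card (Σ i : Option F, D i) = ∑ i : Option F, Nat.card (D i) := by
    rw [Nat.card_sigma]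
  have h3 : ∀ i : Option F, Nat.card (D i) ≤ Fintype.card F ^ (Module.finrank F C - 2) := by
    intro i
    rw [card_sub]
    exact Nat.pow_le_pow_right (by omega) (by have := hD i; omega)
  have h4 : ∑ i : Option F, Nat.card (D i) ≤
      (Fintype.card F + 1) * Fintype.card F ^ (Module.finrank F C - 2) := by
    calc ∑ i : Option F, Nat.card (D i)
        ≤ ∑ _i : Option F, Fintype.card F ^ (Module.finrank F C - 2) :=
          Finset.sum_le_sum fun i _ => h3 i
      _ = (Fintype.card F + 1) * Fintype.card F ^ (Module.finrank F C - 2) := by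
          rw [Finset.sum_const, Finset.card_univ, Fintype.card_option, smul_eq_mul]
  have h5 : Nat.card C = Fintype.card F ^ 2 * Fintype.card F ^ (Module.finrank F C - 2) := by
    rw [card_sub, ← pow_add]
    congr 1
    omega
  rw [h2] at h1
  have h6 : Fintype.card F ^ 2 * Fintype.card F ^ (Module.finrank F C - 2) ≤
      (Fintype.card F + 1) * Fintype.card F ^ (Module.finrank F C - 2) := by
    rw [← h5]
    exact h1.trans h4
  have h7 : Fintype.card F ^ 2 ≤ Fintype.card F + 1 :=
    Nat.le_of_mul_le_mul_right h6 (Nat.pow_pos (by omega))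
  nlinarith

theorem Cap_kernel (T : (Fin n → F) →ₗ[F] (Fin n → F)) (C S : Submodule F (Fin n → F)) :
    Module.finrank F ↥(C ⊓ S.comap T) ≤
      Module.finrank F S + Module.finrank F ↥(C ⊓ LinearMap.ker T) := by
  set D := C ⊓ S.comap T with hD
  have h1 := LinearMap.finrank_range_add_finrank_ker (T.domRestrict D)
  have h2 : Module.finrank F (LinearMap.range (T.domRestrict D)) ≤ Module.finrank F S := by
    apply Submodule.finrank_mono
    rintro _ ⟨x, rfl⟩
    exact x.2.2
  have h3 : Module.finrank F (LinearMap.ker (T.domRestrict D)) ≤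
      Module.finrank F ↥(C ⊓ LinearMap.ker T) := by
    rw [← Submodule.finrank_map_subtype_eq D (LinearMap.ker (T.domRestrict D))]
    apply Submodule.finrank_mono
    rintro _ ⟨x, hx, rfl⟩
    exact ⟨x.2.1, hx⟩
  omega

theorem cap (g : SLn F n) (C : Submodule F (Fin n → F)) (m : ℕ) (hm : 1 ≤ m)
    (h : 3 * m ≤ Module.finrank F C + 1 ∨ (m = 1 ∧ 1 ≤ Module.finrank F C)) :
    (∃ u : Fin m → (Fin n → F), (∀ l, u l ∈ C) ∧
      LinearIndependent F (Sum.elim u (fun l => g.1 (u l)))) ∨
    ∃ μ : F, m ≤ Module.finrank F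
      ↥(C ⊓ LinearMap.ker ((g.1 : (Fin n → F) →ₗ[F] (Fin n → F)) - μ • LinearMap.id)) := by
  classical
  set T : (Fin n → F) →ₗ[F] (Fin n → F) := (g.1 : (Fin n → F) →ₗ[F] (Fin n → F)) with hT
  let P : ℕ → Prop := fun t => ∃ u : Fin t → (Fin n → F), (∀ l, u l ∈ C) ∧
      LinearIndependent F (Sum.elim u (fun l => T (u l)))
  by_cases hPm : P m
  · exact Or.inl hPm
  right
  have hex : ∃ t, ¬ P t := ⟨m, hPm⟩
  have hP0 : P 0 := by
    refine ⟨fun l => l.elim0, fun l => l.elim0, ?_⟩
    have : IsEmpty (Fin 0 ⊕ Fin 0) := inferInstance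
    exact linearIndependent_empty_type
  set s := Nat.find hex with hs
  have hs1 : ¬ P s := Nat.find_spec hex
  have hsm : s ≤ m := Nat.find_min' hex hPm
  have hs0 : s ≠ 0 := by
    intro h0
    rw [h0] at hs1
    exact hs1 hP0
  obtain ⟨t, ht⟩ : ∃ t, s = t + 1 := ⟨s - 1, by omega⟩
  have hPt : P t := by
    by_contra hc
    have := Nat.find_min' hex hc
    omega
  rw [ht] at hs1
  obtain ⟨u, hu, hl⟩ := hPt
  set S : Submodule F (Fin n → F) :=
    Submodule.span F (Set.range (Sum.elim u (fun l => T (u l)))) with hS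
  have hSfin : Module.finrank F S = 2 * t := by
    have := finrank_span_eq_card hl
    rw [Fintype.card_sum, Fintype.card_fin] at this
    rw [hS, this]
    omega
  have hstep := Cap_step T C u hu hl hs1
  let D : Option F → Submodule F (Fin n → F) := fun o =>
    match o with
    | none => C ⊓ S
    | some μ => C ⊓ S.comap (T - μ • LinearMap.id)
  have hcov : ∀ x ∈ C, ∃ o, x ∈ D o := by
    intro x hx
    obtain ⟨a, b, hab, hm⟩ := hstep x hx
    by_cases hb : b = 0
    · have ha : a ≠ 0 := by
        rcases hab with h1 | h1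
        · exact h1
        · exact absurd hb h1
      refine ⟨none, hx, ?_⟩
      rw [hb, zero_smul, add_zero] at hm
      have := S.smul_mem a⁻¹ hm
      rwa [smul_smul, inv_mul_cancel₀ ha, one_smul] at this
    · refine ⟨some (-(b⁻¹ * a)), hx, ?_⟩
      rw [SetLike.mem_coe, Submodule.mem_comap]
      have := S.smul_mem b⁻¹ hm
      rw [smul_add, smul_smul, smul_smul, inv_mul_cancel₀ hb, one_smul] at this
      rw [LinearMap.sub_apply, LinearMap.smul_apply, LinearMap.id_apply, neg_smul, sub_neg_eq_add,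
        add_comm]
      exact this
  have hker : ∀ μ : F, Module.finrank F (D (some μ)) ≤ 2 * t +
      Module.finrank F ↥(C ⊓ LinearMap.ker (T - μ • LinearMap.id)) := by
    intro μ
    have := Cap_kernel (T - μ • LinearMap.id) C S
    rw [hSfin] at this
    exact this
  have hCpos : 1 ≤ Module.finrank F C := by
    rcases h with h1 | h1
    · omega
    · exact h1.2
  rcases Nat.lt_or_ge 1 m with hm2 | hm1
  · have h3m : 3 * m ≤ Module.finrank F C + 1 := by
      rcases h with h1 | h1
      · exact h1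
      · omega
    obtain ⟨o, ho⟩ : ∃ o, Module.finrank F C ≤ Module.finrank F (D o) + 1 := by
      by_contra hcon
      push Not at hcon
      exact Cap_cover C D hcov fun o => by have := hcon o; omega
    rcases o with _ | μ
    · exfalso
      have h5 : Module.finrank F (D none) ≤ 2 * t := by
        rw [← hSfin]
        exact Submodule.finrank_mono inf_le_right
      omega
    · refine ⟨μ, ?_⟩
      have h5 := hker μ
      omega
  · have hm' : m = 1 := by omega
    have ht0 : t = 0 := by omega
    have hS0 : S = ⊥ := by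
      rw [← Submodule.finrank_eq_zero (R := F), hSfin, ht0]
    have hCne : C ≠ ⊥ := by
      intro h0
      rw [h0, finrank_bot] at hCpos
      omega
    obtain ⟨x, hx, hx0⟩ := Submodule.exists_mem_ne_zero_of_ne_bot hCne
    obtain ⟨o, ho⟩ := hcov x hx
    rcases o with _ | μ
    · exfalso
      have h5 : x ∈ S := ho.2
      rw [hS0, Submodule.mem_bot] at h5
      exact hx0 h5
    · refine ⟨μ, ?_⟩
      have h5 := hker μ
      have h6 : 1 ≤ Module.finrank F (D (some μ)) := by
        rw [Nat.one_le_iff_ne_zero]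
        intro h7
        rw [Submodule.finrank_eq_zero] at h7
        rw [h7, Submodule.mem_bot] at ho
        exact hx0 ho
      omega


end Pool.Agent.RCL
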