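import Pool.Agent.W_6acff7c_h33.TupIn
import Pool.Agent.W_6acff7c_h33.Cap
import Pool.Agent.W_6acff7b_h70.StepD

/-!
# A random subspace rarely meets its image in a large subspace

PROOF.  Let `q = |F|`, `C_z = {x ∈ mv z B | g x ∈ mv z B}` (`mv z B ⊓ (mv z B).comap g`); `g` maps it onto
`mv z B ⊓ mv (g * z) B` (`mv_mul`), so they have the same dimension.  If this is at least `c`, then by
`cap` for `C_z` (the hypothesis `h` is monotone in `c`) one of the following holds.
(1) There is `u : Fin m → V` with `u_l, g u_l` jointly linearly independent and all in `mv z B`.  Then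
    `2 m ≤ b`, so `2 m + 1 ≤ n`.  For one such `u` the probability is at most `(q ^ b / q ^ n) ^ (2 m)` by `tupIn`
    (reindex `Fin m ⊕ Fin m` by `Fin (2 * m)` or `Fin (m + m)`, `finSumFinEquiv`), and there are at most
    `q ^ (n m)` maps `u`: total at most `q ^ (n m - 2 m (n - b)) = (q ^ (n - 2 b))⁻¹ ^ m`.
(2) For some `μ`: `m ≤ dim (C_z ⊓ ker (g - μ))`, so there is a linearly independent `u : Fin m → V` with all
    `u_l` in `ker (g - μ)` and in `mv z B` (so `m ≤ b`, `m + 1 ≤ n`).  There are at most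
    `q * (q ^ k) ^ m` pairs `(μ, u)`, each has probability at most `(q ^ b / q ^ n) ^ m`: total at most
    `q * (q ^ (n - b - k))⁻¹ ^ m`.
Both are at most `q * (q ^ (n - 2 b - k))⁻¹ ^ m`.  Union bounds: `pr_or`, `pr_mono`, and
`pr_exists_le` of `Pool/Agent/W_6acff7b_h70/StepD.lean` (general).
-/

open Finset Pool.Agent.RCG

namespace Pool.Agent.RCL

variable {F : Type*} [Field F] [Fintype F] {n : ℕ}

private theorem capCount_false {α : Type*} [Fintype α] {P : α → Prop} (h : ∀ a, ¬ P a) :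
    pr P ≤ 0 := by
  have h1 : pr (fun _ : α => False) ≤ 0 := by
    unfold pr
    simp
  exact (pr_mono (Q := fun _ : α => False) fun a ha => h a ha).trans h1

/-- linearly independent vectors in a random translate of `B` -/
private theorem capCount_ev (B : Submodule F (Fin n → F)) (hn : Module.finrank F B + 1 ≤ n)
    {s : ℕ} (w : Fin s → (Fin n → F)) :
    pr (fun z : SLn F n => LinearIndependent F w ∧ ∀ l, w l ∈ mv z B) ≤
      ((Fintype.card F : ℝ) ^ Module.finrank F B / (Fintype.card F : ℝ) ^ n) ^ s := by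
  have h0 : (0 : ℝ) ≤ ((Fintype.card F : ℝ) ^ Module.finrank F B /
      (Fintype.card F : ℝ) ^ n) ^ s := by positivity
  by_cases hw : LinearIndependent F w
  · by_cases hs : s + 1 ≤ n
    · exact (pr_mono (Q := fun z : SLn F n => ∀ l, w l ∈ mv z B) fun z hz => hz.2).trans
        (tupIn B w hw hs)
    · refine (capCount_false ?_).trans h0
      rintro z ⟨-, hz⟩
      have h1 : LinearIndependent F (fun l => (⟨w l, hz l⟩ : ↥(mv z B))) :=
        LinearIndependent.of_comp (mv z B).subtype hw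
      have h2 := h1.fintype_card_le_finrank
      rw [finrank_mv, Fintype.card_fin] at h2
      omega
  · refine (capCount_false ?_).trans h0
    rintro z ⟨hz, -⟩
    exact hw hz

/-- the intersection has the dimension of the set of vectors of the translate whose image is in it -/
private theorem capCount_dim (g z : SLn F n) (B : Submodule F (Fin n → F)) :
    Module.finrank F ↥(mv z B ⊓ mv (g * z) B) =
      Module.finrank F ↥(mv z B ⊓ (mv z B).comap (g.1 : (Fin n → F) →ₗ[F] (Fin n → F))) := by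
  have h1 : mv z B ⊓ mv (g * z) B =
      (mv z B ⊓ (mv z B).comap (g.1 : (Fin n → F) →ₗ[F] (Fin n → F))).map
        (g.1 : (Fin n → F) →ₗ[F] (Fin n → F)) := by
    rw [mv_mul]
    ext x
    constructor
    · rintro ⟨hx, y, hy, rfl⟩
      exact ⟨y, ⟨hy, hx⟩, rfl⟩
    · rintro ⟨y, ⟨hy, hy'⟩, rfl⟩
      exact ⟨hy', y, hy, rfl⟩
  rw [h1]
  exact LinearEquiv.finrank_map_eq g.1 _

/-- the numerical estimate -/
private theorem capCount_est {q : ℝ} (hq : 1 < q) {n b k m : ℕ} (hn : 2 * b + k + 1 ≤ n) :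
    (q ^ n) ^ m * (q ^ b / q ^ n) ^ (m + m) + q * ((q ^ k) ^ m * (q ^ b / q ^ n) ^ m) ≤
      2 * q * ((q ^ (n - 2 * b - k))⁻¹) ^ m := by
  have hq0 : (0 : ℝ) < q := by linarith
  have hqn : (0 : ℝ) < q ^ n := by positivity
  have hsplit : q ^ n = q ^ (n - 2 * b - k) * (q ^ b * q ^ b * q ^ k) := by
    rw [← pow_add, ← pow_add, ← pow_add]
    congr 1
    omega
  obtain ⟨X, hX⟩ : ∃ X, X = (q ^ (n - 2 * b - k))⁻¹ := ⟨_, rfl⟩
  have hX0 : 0 ≤ X := by rw [hX]; positivity
  have hXn : q ^ b * q ^ b * q ^ k = X * q ^ n := by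
    rw [hX, hsplit, inv_mul_cancel_left₀ (by positivity)]
  have hb0 : (0 : ℝ) < q ^ b := by positivity
  have hb1 : (1 : ℝ) ≤ q ^ b := one_le_pow₀ hq.le
  have hk1 : (1 : ℝ) ≤ q ^ k := one_le_pow₀ hq.le
  have e1 : (q ^ n) ^ m * (q ^ b / q ^ n) ^ (m + m) ≤ X ^ m := by
    have h5 : (q ^ n) ^ m * (q ^ b / q ^ n) ^ (m + m) =
        (q ^ n * ((q ^ b / q ^ n) * (q ^ b / q ^ n))) ^ m := by
      rw [mul_pow, mul_pow, pow_add]
    rw [h5]
    refine pow_le_pow_left₀ (by positivity) ?_ m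
    have h6 : q ^ n * ((q ^ b / q ^ n) * (q ^ b / q ^ n)) = q ^ b * q ^ b / q ^ n := by
      field_simp
    rw [h6, div_le_iff₀ hqn, ← hXn]
    exact le_mul_of_one_le_right (by positivity) hk1
  have e2 : (q ^ k) ^ m * (q ^ b / q ^ n) ^ m ≤ X ^ m := by
    rw [← mul_pow]
    refine pow_le_pow_left₀ (by positivity) ?_ m
    rw [← mul_div_assoc, div_le_iff₀ hqn, ← hXn]
    have h7 : q ^ k * q ^ b ≤ q ^ b * (q ^ k * q ^ b) := le_mul_of_one_le_left (by positivity) hb1
    calc q ^ k * q ^ b ≤ q ^ b * (q ^ k * q ^ b) := h7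
      _ = q ^ b * q ^ b * q ^ k := by ring
  have hXm : 0 ≤ X ^ m := by positivity
  rw [← hX]
  have e3 := mul_le_mul_of_nonneg_left e2 hq0.le
  nlinarith

/-- linearly independent families of vectors of `S` in a random translate of `B` -/
private theorem capCount_ker (S B : Submodule F (Fin n → F)) (hn : Module.finrank F B + 1 ≤ n)
    (m : ℕ) :
    pr (fun z : SLn F n => ∃ u : Fin m → (Fin n → F), (∀ l, u l ∈ S) ∧ LinearIndependent F u ∧
      ∀ l, u l ∈ mv z B) ≤ ((Fintype.card F : ℝ) ^ Module.finrank F S) ^ m *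
        ((Fintype.card F : ℝ) ^ Module.finrank F B / (Fintype.card F : ℝ) ^ n) ^ m := by
  classical
  haveI : Fintype ↥S := Fintype.ofFinite _
  set Q : ℝ := (Fintype.card F : ℝ) ^ Module.finrank F B / (Fintype.card F : ℝ) ^ n with hQ
  have h1 : pr (fun z : SLn F n => ∃ u ∈ (Finset.univ : Finset (Fin m → ↥S)),
      (LinearIndependent F (fun l => (u l : Fin n → F)) ∧ ∀ l, (u l : Fin n → F) ∈ mv z B)) ≤
      ∑ _u ∈ (Finset.univ : Finset (Fin m → ↥S)), Q ^ m :=
    pr_exists_le (Finset.univ : Finset (Fin m → ↥S))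
      (fun u z => LinearIndependent F (fun l => (u l : Fin n → F)) ∧
        ∀ l, (u l : Fin n → F) ∈ mv z B)
      (fun _ => Q ^ m) (fun u _ => capCount_ev B hn _)
  refine (pr_mono ?_).trans (h1.trans (le_of_eq ?_))
  · rintro z ⟨u, hS, hl, hu⟩
    exact ⟨fun l => ⟨u l, hS l⟩, Finset.mem_univ _, hl, hu⟩
  · rw [Finset.sum_const, Finset.card_univ, nsmul_eq_mul, Fintype.card_fun, Fintype.card_fin,
      ← Nat.card_eq_fintype_card (α := ↥S), card_sub]
    push_cast
    rfl

/-- pairs `u, g u` of independent vectors in a random translate of `B` -/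
private theorem capCount_pairs (g : SLn F n) (B : Submodule F (Fin n → F))
    (hn : Module.finrank F B + 1 ≤ n) (m : ℕ) :
    pr (fun z : SLn F n => ∃ u : Fin m → (Fin n → F),
      LinearIndependent F (Sum.elim u (fun l => g.1 (u l))) ∧
      ∀ l, u l ∈ mv z B ∧ g.1 (u l) ∈ mv z B) ≤ ((Fintype.card F : ℝ) ^ n) ^ m *
        ((Fintype.card F : ℝ) ^ Module.finrank F B / (Fintype.card F : ℝ) ^ n) ^ (m + m) := by
  classical
  set Q : ℝ := (Fintype.card F : ℝ) ^ Module.finrank F B / (Fintype.card F : ℝ) ^ n with hQ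
  have h1 : pr (fun z : SLn F n => ∃ u ∈ (Finset.univ : Finset (Fin m → (Fin n → F))),
      (LinearIndependent F (fun l : Fin (m + m) =>
        Sum.elim u (fun l => g.1 (u l)) (finSumFinEquiv.symm l)) ∧
      ∀ l : Fin (m + m), Sum.elim u (fun l => g.1 (u l)) (finSumFinEquiv.symm l) ∈ mv z B)) ≤
      ∑ _u ∈ (Finset.univ : Finset (Fin m → (Fin n → F))), Q ^ (m + m) :=
    pr_exists_le (Finset.univ : Finset (Fin m → (Fin n → F)))
      (fun u z => LinearIndependent F (fun l : Fin (m + m) =>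
        Sum.elim u (fun l => g.1 (u l)) (finSumFinEquiv.symm l)) ∧
      ∀ l : Fin (m + m), Sum.elim u (fun l => g.1 (u l)) (finSumFinEquiv.symm l) ∈ mv z B)
      (fun _ => Q ^ (m + m)) (fun u _ => capCount_ev B hn _)
  refine (pr_mono ?_).trans (h1.trans (le_of_eq ?_))
  · rintro z ⟨u, hl, hu⟩
    refine ⟨u, Finset.mem_univ _, hl.comp _ finSumFinEquiv.symm.injective, ?_⟩
    intro l
    rcases finSumFinEquiv.symm l with i | i
    · exact (hu i).1
    · exact (hu i).2
  · rw [Finset.sum_const, Finset.card_univ, nsmul_eq_mul, Fintype.card_fun, Fintype.card_fin,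
      Fintype.card_fun, Fintype.card_fin]
    push_cast
    rfl

theorem cap_count (g : SLn F n) {k b m c : ℕ} (hk : ∀ μ : F, kdim g μ ≤ k)
    (B : Submodule F (Fin n → F)) (hB : Module.finrank F B = b) (hn : 2 * b + k + 1 ≤ n)
    (hm : 1 ≤ m) (h : 3 * m ≤ c + 1 ∨ (m = 1 ∧ 1 ≤ c)) :
    pr (fun z : SLn F n => c ≤ Module.finrank F ↥(mv z B ⊓ mv (g * z) B)) ≤
      2 * (Fintype.card F : ℝ) * (((Fintype.card F : ℝ) ^ (n - 2 * b - k))⁻¹) ^ m := by
  classical
  have hq : (1 : ℝ) < Fintype.card F := by exact_mod_cast Fintype.one_lt_card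
  have hbn : Module.finrank F B + 1 ≤ n := by omega
  let E1 : SLn F n → Prop := fun z => ∃ u : Fin m → (Fin n → F),
      LinearIndependent F (Sum.elim u (fun l => g.1 (u l))) ∧
      ∀ l, u l ∈ mv z B ∧ g.1 (u l) ∈ mv z B
  let E2 : F → SLn F n → Prop := fun μ z => ∃ u : Fin m → (Fin n → F),
      (∀ l, u l ∈ LinearMap.ker ((g.1 : (Fin n → F) →ₗ[F] (Fin n → F)) - μ • LinearMap.id)) ∧
      LinearIndependent F u ∧ ∀ l, u l ∈ mv z B
  have hincl : ∀ z : SLn F n, c ≤ Module.finrank F ↥(mv z B ⊓ mv (g * z) B) →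
      E1 z ∨ ∃ μ ∈ (Finset.univ : Finset F), E2 μ z := by
    intro z hz
    rw [capCount_dim] at hz
    have h3 : 3 * m ≤ Module.finrank F ↥(mv z B ⊓ (mv z B).comap
          (g.1 : (Fin n → F) →ₗ[F] (Fin n → F))) + 1 ∨
        (m = 1 ∧ 1 ≤ Module.finrank F ↥(mv z B ⊓ (mv z B).comap
          (g.1 : (Fin n → F) →ₗ[F] (Fin n → F)))) := by
      rcases h with h4 | h4
      · left; omega
      · right; exact ⟨h4.1, by omega⟩
    rcases cap g _ m hm h3 with ⟨u, hu, hl⟩ | ⟨μ, hμ⟩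
    · exact Or.inl ⟨u, hl, fun l => ⟨(hu l).1, (hu l).2⟩⟩
    · right
      obtain ⟨f, hf⟩ := exists_linearIndependent_of_le_finrank hμ
      exact ⟨μ, Finset.mem_univ _, fun l => (f l : Fin n → F), fun l => (f l).2.2,
        hf.map' (Submodule.subtype _) (Submodule.ker_subtype _), fun l => (f l).2.1.1⟩
  have h1 := capCount_pairs g B hbn m
  have hE2 : ∀ μ, pr (E2 μ) ≤ ((Fintype.card F : ℝ) ^ k) ^ m *
      ((Fintype.card F : ℝ) ^ Module.finrank F B / (Fintype.card F : ℝ) ^ n) ^ m := by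
    intro μ
    refine (capCount_ker _ B hbn m).trans (mul_le_mul_of_nonneg_right ?_ (by positivity))
    exact pow_le_pow_left₀ (by positivity) (pow_le_pow_right₀ hq.le (hk μ)) m
  have h2 := pr_exists_le (Finset.univ : Finset F) E2 (fun _ => ((Fintype.card F : ℝ) ^ k) ^ m *
      ((Fintype.card F : ℝ) ^ Module.finrank F B / (Fintype.card F : ℝ) ^ n) ^ m)
      (fun μ _ => hE2 μ)
  rw [Finset.sum_const, Finset.card_univ, nsmul_eq_mul] at h2
  have h0 : pr (fun z : SLn F n => c ≤ Module.finrank F ↥(mv z B ⊓ mv (g * z) B)) ≤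
      pr E1 + pr (fun z => ∃ μ ∈ (Finset.univ : Finset F), E2 μ z) :=
    (pr_mono hincl).trans (pr_or _ _)
  rw [hB] at h1 h2
  obtain ⟨q, hqd⟩ : ∃ q : ℝ, q = (Fintype.card F : ℝ) := ⟨_, rfl⟩
  have h1' : pr E1 ≤ (q ^ n) ^ m * (q ^ b / q ^ n) ^ (m + m) := by rw [hqd]; exact h1
  rw [← hqd] at h2 hq ⊢
  exact h0.trans ((add_le_add h1' h2).trans (capCount_est hq hn))

end Pool.Agent.RCL
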