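import Pool.Agent.W_6acff7c_h33.SumStab

/-!
# Lower bound for the order of `SL_n(q)`

PROOF: claim `q ^ ((n - 1) * (n - 1 - dim D)) ≤ |PS D|` for all `D` with `dim D + 1 ≤ n`, by downward
induction on `dim D` (induction on `n - 1 - dim D`).  If `dim D = n - 1` the exponent is `0`.
If `dim D + 2 ≤ n`, pick `x ∉ D`: the number of `a ∈ PS D` with `a x = r` is the same for all `r ∉ D`
(see `sum_stab`, take `f` the indicator of `x`) and for `r = x` it is `|PS (D ⊔ span {x})|`, so
`|PS D| = (q ^ n - q ^ dim D) * |PS (D ⊔ span {x})| ≥ q ^ (n - 1) * q ^ ((n - 1) * (n - 2 - dim D))`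
since `q ^ n - q ^ (dim D) ≥ q ^ n - q ^ (n - 1) ≥ q ^ (n - 1)`.
For `D = ⊥` (`n ≥ 1`) `PS ⊥ = ⊤`.  `n = 0` is trivial.
-/

open Finset Pool.Agent.RCG

namespace Pool.Agent.RCL

variable {F : Type*} [Field F] [Fintype F] {n : ℕ}

omit [Fintype F] in
theorem CardGe_mem {D : Submodule F (Fin n → F)} {x : Fin n → F} {g : SLn F n} :
    g ∈ PS (D ⊔ Submodule.span F {x}) ↔ g ∈ PS D ∧ g.1 x = x := by
  constructor
  · intro h
    exact ⟨fun d hd => h d (Submodule.mem_sup_left hd),
      h x (Submodule.mem_sup_right (Submodule.mem_span_singleton_self _))⟩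
  · rintro ⟨h, hx⟩ d hd
    obtain ⟨y, hy, z, hz, rfl⟩ := Submodule.mem_sup.1 hd
    obtain ⟨c, rfl⟩ := Submodule.mem_span_singleton.1 hz
    rw [map_add, map_smul, h y hy, hx]

open Classical in
theorem CardGe_step (D : Submodule F (Fin n → F)) (hD : Module.finrank F D + 2 ≤ n)
    {x : Fin n → F} (hx : x ∉ D) :
    ((Fintype.card F : ℝ) ^ n - (Fintype.card F : ℝ) ^ Module.finrank F D) *
      (Nat.card ↥(PS (D ⊔ Submodule.span F {x})) : ℝ) = (Nat.card ↥(PS D) : ℝ) := by
  have h := sum_stab D hD hx (fun y => if y = x then 1 else 0)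
  have h1 : ∑ r ∈ univ.filter (fun r : Fin n → F => r ∉ D), (if r = x then (1 : ℝ) else 0) = 1 := by
    rw [Finset.sum_ite_eq']
    rw [if_pos]
    simpa using hx
  have h2 : ∑ a : ↥(PS D), (if a.1.1 x = x then (1 : ℝ) else 0) =
      (Nat.card ↥(PS (D ⊔ Submodule.span F {x})) : ℝ) := by
    rw [Finset.sum_boole]
    congr 1
    rw [← Fintype.card_subtype, ← Nat.card_eq_fintype_card]
    refine Nat.card_congr ⟨fun a => ⟨a.1.1, CardGe_mem.2 ⟨a.1.2, a.2⟩⟩,
      fun a => ⟨⟨a.1, (CardGe_mem.1 a.2).1⟩, (CardGe_mem.1 a.2).2⟩, fun a => rfl, fun a => rfl⟩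
  rw [h1, h2, mul_one] at h
  exact h

theorem CardGe_main (m : ℕ) : ∀ D : Submodule F (Fin n → F), Module.finrank F D + 1 + m = n →
    Fintype.card F ^ ((n - 1) * m) ≤ Nat.card ↥(PS D) := by
  induction m with
  | zero =>
    intro D _
    rw [Nat.mul_zero, pow_zero]
    exact Nat.card_pos
  | succ m ih =>
    intro D hD
    obtain ⟨x, hx⟩ : ∃ x, x ∉ D := by
      by_contra hcon
      push Not at hcon
      have h1 : D = ⊤ := eq_top_iff.2 fun y _ => hcon y
      rw [h1, finrank_top, Module.finrank_fin_fun] at hD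
      omega
    have h1 := CardGe_step D (by omega) hx
    have h2 : Module.finrank F (D ⊔ Submodule.span F {x} : Submodule F (Fin n → F)) =
        Module.finrank F D + 1 := by
      apply le_antisymm
      · refine (Submodule.finrank_add_le_finrank_add_finrank _ _).trans ?_
        have h5 := finrank_span_le_card (R := F) ({x} : Set (Fin n → F))
        rw [Set.toFinset_singleton, Finset.card_singleton] at h5
        omega
      · refine Submodule.finrank_lt_finrank_of_lt (lt_of_le_of_ne le_sup_left ?_)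
        intro e
        apply hx
        rw [e]
        exact Submodule.mem_sup_right (Submodule.mem_span_singleton_self _)
    have h3 := ih (D ⊔ Submodule.span F {x}) (by omega)
    have hq : (2 : ℝ) ≤ Fintype.card F := by
      exact_mod_cast Fintype.one_lt_card (α := F)
    have h4 : (Fintype.card F : ℝ) ^ (n - 1) ≤
        (Fintype.card F : ℝ) ^ n - (Fintype.card F : ℝ) ^ Module.finrank F D := by
      have h5 : (Fintype.card F : ℝ) ^ Module.finrank F D ≤ (Fintype.card F : ℝ) ^ (n - 1) :=
        pow_le_pow_right₀ (by linarith) (by omega)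
      have h6 : (Fintype.card F : ℝ) ^ n = (Fintype.card F : ℝ) ^ (n - 1) * Fintype.card F := by
        rw [← pow_succ]
        congr 1
        omega
      have h7 : (0 : ℝ) < (Fintype.card F : ℝ) ^ (n - 1) := by positivity
      rw [h6]
      nlinarith
    have h8 : ((Fintype.card F ^ ((n - 1) * (m + 1)) : ℕ) : ℝ) ≤ (Nat.card ↥(PS D) : ℝ) := by
      rw [← h1, Nat.mul_succ, pow_add, mul_comm]
      push_cast
      refine mul_le_mul h4 ?_ (by positivity) ((by positivity : (0 : ℝ) ≤
        (Fintype.card F : ℝ) ^ (n - 1)).trans h4)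
      exact_mod_cast h3
    exact_mod_cast h8

theorem card_SLn_ge : Fintype.card F ^ ((n - 1) * (n - 1)) ≤ Nat.card (SLn F n) := by
  rcases Nat.eq_zero_or_pos n with rfl | hn
  · rw [Nat.zero_sub, Nat.zero_mul, pow_zero]
    exact Nat.card_pos
  · have h1 := CardGe_main (F := F) (n := n) (n - 1) ⊥ (by rw [finrank_bot]; omega)
    refine h1.trans ?_
    exact Nat.card_le_card_of_injective (fun g : ↥(PS (⊥ : Submodule F (Fin n → F))) => g.1)
      Subtype.val_injective

end Pool.Agent.RCL
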