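import Pool.Agent.W_6acff7c_h33.TrvA

/-!
# The pointwise stabiliser of a subspace is generated by transvections

PROOF of `TS_eq`: `TS D ≤ PS D` is `TS_le_PS`.  For `PS D ≤ TS D` use induction on the codimension
`n - finrank D`, for all `D`.
Codimension `0`: `D = ⊤`, `g ∈ PS D` is `1`.
Codimension `1`: `g ∈ PS D` fixes the hyperplane `D` pointwise and has determinant `1`, so `g` acts
trivially on `V / D` (one dimensional): pick `x ∉ D`, `g x = c x + d` with `d ∈ D`, and the determinant
of `g` is `c` (matrix of `g` in a basis made of a basis of `D` and `x`; or use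
`LinearMap.det_eq_det_mul_det` for the invariant subspace `D`, `det (g|D) = 1`, `det` on the one
dimensional quotient is `c`), so `c = 1`.  With the functional `ψ`, `ψ = 0` on `D`, `ψ x = 1`, we get
`g = tv d ψ` with `d = g x - x ∈ D` (both sides agree on `D` and on `x`).
Codimension `≥ 2`: pick `x ∉ D`.  `g x ∉ D` (else `x = g⁻¹ (g x) = g x ∈ D`).  By `exists_move_tv`
there is `t ∈ TS D` with `t (g x) = x`.  Then `t * g ∈ PS (D ⊔ span {x})`, which is
`TS (D ⊔ span {x}) ≤ TS D` by induction (fewer functionals vanish on the bigger subspace), so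
`g = t⁻¹ * (t * g) ∈ TS D`.
-/

open Finset Pool.Agent.RCG

namespace Pool.Agent.RCL

variable {F : Type*} [Field F] {n : ℕ}

private theorem TrvB_one (D : Submodule F (Fin n → F)) (hD : n ≤ Module.finrank F D + 1) :
    PS D ≤ TS D := by
  intro g hg
  by_cases htop : D = ⊤
  · have h1 : g = 1 := TrvA_ext fun x => hg x (htop ▸ Submodule.mem_top)
    rw [h1]
    exact Subgroup.one_mem _
  · obtain ⟨x, hx⟩ : ∃ x, x ∉ D := by
      by_contra hcon
      push Not at hcon
      exact htop (eq_top_iff.2 fun y _ => hcon y)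
    obtain ⟨φ, hφx, hφ⟩ := Submodule.exists_le_ker_of_notMem hx
    set ψ : Module.Dual F (Fin n → F) := (φ x)⁻¹ • φ with hψ
    have h1 : ψ x = 1 := by
      rw [hψ, LinearMap.smul_apply, smul_eq_mul, inv_mul_cancel₀ hφx]
    have h2 : ∀ y ∈ D, ψ y = 0 := by
      intro y hy
      have h : φ y = 0 := hφ hy
      rw [hψ, LinearMap.smul_apply, h, smul_zero]
    have hlt : D < D ⊔ Submodule.span F {x} := by
      refine lt_of_le_of_ne le_sup_left fun h => hx ?_
      rw [h]
      exact Submodule.mem_sup_right (Submodule.mem_span_singleton_self _)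
    have hsup : D ⊔ Submodule.span F {x} = ⊤ := by
      apply Submodule.eq_top_of_finrank_eq
      have h3 := Submodule.finrank_lt_finrank_of_lt hlt
      have h4 := Submodule.finrank_le (D ⊔ Submodule.span F {x})
      rw [Module.finrank_fin_fun] at h4 ⊢
      omega
    have hg' : ∀ y : Fin n → F, g.1 y = y + ψ y • (g.1 x - x) := by
      intro y
      have hy : y ∈ D ⊔ Submodule.span F {x} := hsup ▸ Submodule.mem_top
      obtain ⟨d, hd, w, hw, rfl⟩ := Submodule.mem_sup.1 hy
      obtain ⟨c, rfl⟩ := Submodule.mem_span_singleton.1 hw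
      have h5 : g.1 d = d := hg d hd
      rw [map_add, map_smul, map_add, map_smul, h5, h2 d hd, h1, zero_add, smul_eq_mul, mul_one,
        smul_sub]
      abel
    have hlin : (g.1 : (Fin n → F) →ₗ[F] (Fin n → F)) = LinearMap.transvection ψ (g.1 x - x) :=
      LinearMap.ext hg'
    have h3 : ψ (g.1 x - x) = 0 := by
      have h4 := LinearMap.transvection.det ψ (g.1 x - x)
      rw [← hlin] at h4
      have h5 : LinearEquiv.det g.1 = 1 := g.2
      have h6 := congrArg Units.val h5
      rw [LinearEquiv.coe_det, Units.val_one] at h6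
      rw [h6] at h4
      exact (add_eq_left.1 h4.symm)
    have h4 : g = tv (g.1 x - x) ψ h3 := TrvA_ext fun y => by rw [tv_apply, hg' y]
    rw [h4]
    exact tv_mem_TS _ _ _ h2

private theorem TrvB_anti {D D' : Submodule F (Fin n → F)} (h : D ≤ D') : TS D' ≤ TS D := by
  rw [TS, Subgroup.closure_le]
  rintro g ⟨a, ψ, ha, hψ, rfl⟩
  exact tv_mem_TS a ψ ha fun d hd => hψ d (h hd)

private theorem TrvB_ind (m : ℕ) : ∀ D : Submodule F (Fin n → F),
    n ≤ Module.finrank F D + m → PS D ≤ TS D := by
  induction m with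
  | zero => exact fun D hD => TrvB_one D (hD.trans (by omega))
  | succ m ih =>
    intro D hD g hg
    by_cases h1 : n ≤ Module.finrank F D + 1
    · exact TrvB_one D h1 hg
    · obtain ⟨x, hx⟩ : ∃ x, x ∉ D := by
        by_contra hcon
        push Not at hcon
        have h2 : D = ⊤ := eq_top_iff.2 fun y _ => hcon y
        rw [h2, finrank_top, Module.finrank_fin_fun] at h1
        omega
      have hgx : g.1 x ∉ D := by
        intro h2
        have h3 : g.1 (g.1 x) = g.1 x := hg _ h2
        exact hx (g.1.injective h3 ▸ h2)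
      obtain ⟨t, ht, htx⟩ := exists_move_tv D (by omega) hgx hx
      have hlt : D < D ⊔ Submodule.span F {x} := by
        refine lt_of_le_of_ne le_sup_left fun h => hx ?_
        rw [h]
        exact Submodule.mem_sup_right (Submodule.mem_span_singleton_self _)
      have h3 := Submodule.finrank_lt_finrank_of_lt hlt
      have h4 : t * g ∈ PS (D ⊔ Submodule.span F {x}) := by
        intro y hy
        obtain ⟨d, hd, w, hw, rfl⟩ := Submodule.mem_sup.1 hy
        obtain ⟨c, rfl⟩ := Submodule.mem_span_singleton.1 hw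
        have h5 : g.1 d = d := hg d hd
        have h6 : t.1 d = d := TS_le_PS D ht d hd
        have h7 : (t * g).1 (d + c • x) = t.1 (g.1 (d + c • x)) := rfl
        rw [h7, map_add, map_smul, map_add, map_smul, h5, h6, htx]
      have h5 : t * g ∈ TS D := TrvB_anti hlt.le (ih _ (by omega) h4)
      have h6 : g = t⁻¹ * (t * g) := by group
      rw [h6]
      exact Subgroup.mul_mem _ (Subgroup.inv_mem _ ht) h5

theorem TS_eq (D : Submodule F (Fin n → F)) : TS D = PS D :=
  le_antisymm (TS_le_PS D) (TrvB_ind n D (by omega))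

/-- A vector fixed by all transvections which fix `D` pointwise is fixed by `PS D`. -/
theorem fix_of_tv {E : Type*} [NormedAddCommGroup E] [InnerProductSpace ℝ E]
    (ρ : SLn F n →* Module.End ℝ E) (D : Submodule F (Fin n → F)) (u : E)
    (h : ∀ (a : Fin n → F) (ψ : Module.Dual F (Fin n → F)) (ha : ψ a = 0), (∀ d ∈ D, ψ d = 0) →
      ρ (tv a ψ ha) u = u) : FixL ρ D u := by
  intro g hg
  rw [← TS_eq, TS] at hg
  induction hg using Subgroup.closure_induction with
  | mem g hg =>
    obtain ⟨a, ψ, ha, hψ, rfl⟩ := hg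
    exact h a ψ ha hψ
  | one => rw [map_one, Module.End.one_apply]
  | mul g g' _ _ h1 h2 => rw [map_mul, Module.End.mul_apply, h2, h1]
  | inv g _ h1 =>
    have h2 : ρ g⁻¹ (ρ g u) = u := by
      rw [← Module.End.mul_apply, ← map_mul, inv_mul_cancel, map_one, Module.End.one_apply]
    rwa [h1] at h2

end Pool.Agent.RCL
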