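import Pool.Agent.W_6acff7c_h33.HighDimA
import Pool.Agent.W_6acff7c_h33.TrvB

/-!
# Large dimension on high levels

PROOF of `high_step`.  As no nonzero vector of `W ≠ 0` is fixed by `PS K`, by `fix_of_tv` there are
`u ∈ W` and a transvection `tv a ψ0`, `ψ0 = 0` on `K`, with `ρ (tv a ψ0) u ≠ u`.  Put
`K1 = K ⊔ span {a}` (`ψ0 = 0` on `K1`, `dim K1 ≤ dim K + 1`) and
`W1 = {w ∈ W | ∑_{ψ : Ann K1} ρ (tvK ψ) w = 0}`.  `W1` is invariant under `PS K1`: for `h ∈ PS K1`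
`∑_ψ ρ (tvK ψ) (ρ h w) = ρ h ∑_ψ ρ (tvK (ψ ∘ h)) w = 0` (`tv_conj`, reindex the sum).  `W1 ≠ 0` because
`w = ρ (tv a ψ0) u - u ≠ 0` is in it (`tv_add`, translate the sum by `ψ0`).  Take any `v ∉ K1`
(`dim K1 < n`), `W'' = WV ρ K1 a _ W1 v`, `K'' = K1 ⊔ span {v}`.  By `high_dim_trace`, with
`k1 = dim K1`: `(q ^ (n - k1) - 1) finrank W'' = (q - 1) finrank W1 > 0`, so `W'' ≠ 0` and
`finrank W ≥ finrank W1 ≥ q ^ (n - k1 - 1) finrank W'' ≥ q ^ (n - dim K - 2) finrank W''`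
(`q ^ m - 1 ≥ (q - 1) q ^ (m - 1)`).  `W''` is invariant under `PS K''`: for `h ∈ PS K''` and `ψ` with
`ψ v = 0` also `(ψ ∘ h) v = ψ v = 0`.

PROOF of `high_dimL`.  Claim by induction on `j`: if `dim K + 2 j ≤ b + 2`, `W ≠ 0` is invariant under
`PS K` and no nonzero vector of `W` is fixed by `PS B` for any `B` with `dim B ≤ b`, then
`q ^ (j (n - b - 2)) ≤ finrank W`.  `j = 0`: `finrank W ≥ 1`.  `j + 1`: `dim K ≤ b`, so `high_step` applies
(`dim K + 3 ≤ n`), and `dim K'' + 2 j ≤ b + 2`, `n - dim K - 2 ≥ n - b - 2`.  Take `K = ⊥`, `j = b / 2 + 1`.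
-/

open Finset Pool.Agent.RCG

namespace Pool.Agent.RCL

variable {F : Type*} [Field F] [Fintype F] {n : ℕ}
variable {E : Type*} [NormedAddCommGroup E] [InnerProductSpace ℝ E] {ρ : SLn F n →* Module.End ℝ E}

/-- composition of a functional with an element of the pointwise stabiliser -/
def HighDimB_cmp (K : Submodule F (Fin n → F)) (h : SLn F n) (hh : h ∈ PS K) (ψ : Ann K) : Ann K :=
  ⟨ψ.1 ∘ₗ (h.1 : (Fin n → F) →ₗ[F] (Fin n → F)), fun d hd => by
    have h1 : h.1 d = d := hh d hd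
    change ψ.1 (h.1 d) = 0
    rw [h1]
    exact ψ.2 d hd⟩

omit [Fintype F] in
theorem HighDimB_cmp_apply (K : Submodule F (Fin n → F)) (h : SLn F n) (hh : h ∈ PS K) (ψ : Ann K)
    (x : Fin n → F) : (HighDimB_cmp K h hh ψ).1 x = ψ.1 (h.1 x) := rfl

omit [Fintype F] in
theorem HighDimB_inv_apply (h : SLn F n) (x : Fin n → F) : h.1 ((h⁻¹).1 x) = x := by
  change (h * h⁻¹).1 x = x
  rw [mul_inv_cancel]
  rfl

omit [Fintype F] in
theorem HighDimB_inv_apply' (h : SLn F n) (x : Fin n → F) : (h⁻¹).1 (h.1 x) = x := by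
  change (h⁻¹ * h).1 x = x
  rw [inv_mul_cancel]
  rfl

/-- `ψ ↦ ψ ∘ h` as a bijection -/
def HighDimB_equiv (K : Submodule F (Fin n → F)) (h : SLn F n) (hh : h ∈ PS K) : Ann K ≃ Ann K where
  toFun := HighDimB_cmp K h hh
  invFun := HighDimB_cmp K h⁻¹ ((PS K).inv_mem hh)
  left_inv ψ := by
    apply Subtype.ext
    apply LinearMap.ext
    intro x
    rw [HighDimB_cmp_apply, HighDimB_cmp_apply, HighDimB_inv_apply]
  right_inv ψ := by
    apply Subtype.ext
    apply LinearMap.ext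
    intro x
    rw [HighDimB_cmp_apply, HighDimB_cmp_apply, HighDimB_inv_apply']

omit [Fintype F] in
theorem HighDimB_comm (K : Submodule F (Fin n → F)) (a : Fin n → F) (ha : a ∈ K) (h : SLn F n)
    (hh : h ∈ PS K) (ψ : Ann K) :
    tvK K a ha ψ * h = h * tvK K a ha (HighDimB_cmp K h hh ψ) := by
  have hinv : h⁻¹ ∈ PS K := (PS K).inv_mem hh
  have hsymm : ∀ x, (h⁻¹).1.symm x = h.1 x := by
    intro x
    rw [LinearEquiv.symm_apply_eq, HighDimB_inv_apply']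
  have hφ : ψ.1 ∘ₗ ((h⁻¹).1.symm : (Fin n → F) →ₗ[F] (Fin n → F)) =
      (HighDimB_cmp K h hh ψ).1 := by
    apply LinearMap.ext
    intro x
    change ψ.1 ((h⁻¹).1.symm x) = ψ.1 (h.1 x)
    rw [hsymm]
  have h2 : (ψ.1 ∘ₗ ((h⁻¹).1.symm : (Fin n → F) →ₗ[F] (Fin n → F))) a = 0 := by
    rw [hφ]
    exact (HighDimB_cmp K h hh ψ).2 a ha
  have h1 := tv_conj a ψ.1 (ψ.2 a ha) h⁻¹ (hinv a ha) h2
  have h3 : tv a (ψ.1 ∘ₗ ((h⁻¹).1.symm : (Fin n → F) →ₗ[F] (Fin n → F))) h2 =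
      tvK K a ha (HighDimB_cmp K h hh ψ) := by
    unfold tvK
    congr 1
  rw [h3, inv_inv] at h1
  rw [← h1]
  unfold tvK
  group

/-- the vectors of `W` with sum `0` -/
def HighDimB_W1 (ρ : SLn F n →* Module.End ℝ E) (K : Submodule F (Fin n → F)) (a : Fin n → F)
    (ha : a ∈ K) (W : Submodule ℝ E) : Submodule ℝ E where
  carrier := {w | w ∈ W ∧ ∑ ψ : Ann K, ρ (tvK K a ha ψ) w = 0}
  add_mem' := by
    rintro u w ⟨hu, hu'⟩ ⟨hw, hw'⟩
    refine ⟨W.add_mem hu hw, ?_⟩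
    simp only [map_add]
    rw [Finset.sum_add_distrib, hu', hw', add_zero]
  zero_mem' := ⟨W.zero_mem, by simp⟩
  smul_mem' := by
    rintro c u ⟨hu, hu'⟩
    refine ⟨W.smul_mem c hu, ?_⟩
    simp only [map_smul]
    rw [← Finset.smul_sum, hu', smul_zero]

theorem HighDimB_W1_inv (ρ : SLn F n →* Module.End ℝ E) (K : Submodule F (Fin n → F))
    (a : Fin n → F) (ha : a ∈ K) (W : Submodule ℝ E) (hW : ∀ h ∈ PS K, ∀ u ∈ W, ρ h u ∈ W)
    (h : SLn F n) (hh : h ∈ PS K) (u : E) (hu : u ∈ HighDimB_W1 ρ K a ha W) :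
    ρ h u ∈ HighDimB_W1 ρ K a ha W := by
  refine ⟨hW h hh u hu.1, ?_⟩
  have h1 : ∀ ψ : Ann K, ρ (tvK K a ha ψ) (ρ h u) =
      ρ h (ρ (tvK K a ha (HighDimB_equiv K h hh ψ)) u) := by
    intro ψ
    rw [← Module.End.mul_apply, ← map_mul, HighDimB_comm K a ha h hh ψ, map_mul,
      Module.End.mul_apply]
    rfl
  rw [Finset.sum_congr rfl (fun ψ _ => h1 ψ), ← map_sum,
    Equiv.sum_comp (HighDimB_equiv K h hh) (fun ψ => ρ (tvK K a ha ψ) u), hu.2, map_zero]

/-- translation of the functionals -/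
def HighDimB_tr (K : Submodule F (Fin n → F)) (φ : Ann K) : Ann K ≃ Ann K where
  toFun ψ := ⟨ψ.1 + φ.1, fun d hd => by rw [LinearMap.add_apply, ψ.2 d hd, φ.2 d hd, add_zero]⟩
  invFun ψ := ⟨ψ.1 - φ.1, fun d hd => by rw [LinearMap.sub_apply, ψ.2 d hd, φ.2 d hd, sub_zero]⟩
  left_inv ψ := by
    apply Subtype.ext
    exact add_sub_cancel_right _ _
  right_inv ψ := by
    apply Subtype.ext
    exact sub_add_cancel _ _

theorem HighDimB_sum_tr (ρ : SLn F n →* Module.End ℝ E) (K : Submodule F (Fin n → F))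
    (a : Fin n → F) (ha : a ∈ K) (φ : Ann K) (u : E) :
    ∑ ψ : Ann K, ρ (tvK K a ha ψ) (ρ (tvK K a ha φ) u) = ∑ ψ : Ann K, ρ (tvK K a ha ψ) u := by
  rw [← Equiv.sum_comp (HighDimB_tr K φ) (fun ψ => ρ (tvK K a ha ψ) u)]
  refine Finset.sum_congr rfl fun ψ _ => ?_
  rw [← Module.End.mul_apply, ← map_mul]
  congr 2
  exact (tv_add a ψ.1 φ.1 (ψ.2 a ha) (φ.2 a ha)).symm

theorem high_step [FiniteDimensional ℝ E] (ρ : SLn F n →* Module.End ℝ E)
    (K : Submodule F (Fin n → F)) (hK : Module.finrank F K + 3 ≤ n)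
    (W : Submodule ℝ E) (hW : ∀ h ∈ PS K, ∀ u ∈ W, ρ h u ∈ W) (hW0 : W ≠ ⊥)
    (hno : ∀ u ∈ W, FixL ρ K u → u = 0) :
    ∃ (K'' : Submodule F (Fin n → F)) (W'' : Submodule ℝ E), Module.finrank F K'' ≤
      Module.finrank F K + 2 ∧ W'' ≤ W ∧ W'' ≠ ⊥ ∧ (∀ h ∈ PS K'', ∀ u ∈ W'', ρ h u ∈ W'') ∧
      Fintype.card F ^ (n - Module.finrank F K - 2) * Module.finrank ℝ W'' ≤ Module.finrank ℝ W := by
  obtain ⟨u, huW, hu0⟩ := (Submodule.ne_bot_iff W).1 hW0
  have hnf : ¬ FixL ρ K u := fun h => hu0 (hno u huW h)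
  have hex : ∃ (a : Fin n → F) (ψ : Module.Dual F (Fin n → F)) (ha : ψ a = 0),
      (∀ d ∈ K, ψ d = 0) ∧ ρ (tv a ψ ha) u ≠ u := by
    by_contra hcon
    push Not at hcon
    exact hnf (fix_of_tv ρ K u hcon)
  obtain ⟨a, ψ0, ha0, hψK, hne⟩ := hex
  obtain ⟨K1, hK1def⟩ : ∃ K1 : Submodule F (Fin n → F), K1 = K ⊔ Submodule.span F {a} := ⟨_, rfl⟩
  have hKK1 : K ≤ K1 := by rw [hK1def]; exact le_sup_left
  have ha : a ∈ K1 := by
    rw [hK1def]
    exact Submodule.mem_sup_right (Submodule.mem_span_singleton_self a)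
  have hsp : ∀ v : Fin n → F, Module.finrank F (Submodule.span F {v}) ≤ 1 := by
    intro v
    exact (finrank_span_le_card ({v} : Set (Fin n → F))).trans (by simp)
  have hK1c : Module.finrank F K1 ≤ Module.finrank F K + 1 := by
    rw [hK1def]
    exact (Submodule.finrank_add_le_finrank_add_finrank _ _).trans (by have := hsp a; omega)
  have hψK1 : ∀ d ∈ K1, ψ0 d = 0 := by
    have h1 : K1 ≤ LinearMap.ker ψ0 := by
      rw [hK1def]
      refine sup_le (fun d hd => LinearMap.mem_ker.2 (hψK d hd)) ?_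
      rw [Submodule.span_singleton_le_iff_mem]
      exact LinearMap.mem_ker.2 ha0
    exact fun d hd => LinearMap.mem_ker.1 (h1 hd)
  have hPS1 : ∀ h ∈ PS K1, h ∈ PS K := fun h hh d hd => hh d (hKK1 hd)
  have hW1inv : ∀ h ∈ PS K1, ∀ w ∈ W, ρ h w ∈ W := fun h hh => hW h (hPS1 h hh)
  obtain ⟨W1, hW1def⟩ : ∃ W1 : Submodule ℝ E, W1 = HighDimB_W1 ρ K1 a ha W := ⟨_, rfl⟩
  have hW1W : W1 ≤ W := by
    rw [hW1def]
    exact fun w hw => hw.1
  have hmem : ρ (tvK K1 a ha ⟨ψ0, hψK1⟩) u - u ∈ W1 := by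
    rw [hW1def]
    refine ⟨W.sub_mem (hW _ (TS_le_PS K (tv_mem_TS a ψ0 ha0 hψK)) u huW) huW, ?_⟩
    simp only [map_sub]
    rw [Finset.sum_sub_distrib, HighDimB_sum_tr, sub_self]
  have hW1ne : W1 ≠ ⊥ := by
    intro hb
    rw [hb, Submodule.mem_bot, sub_eq_zero] at hmem
    exact hne hmem
  have hK1n : Module.finrank F K1 + 2 ≤ n := by omega
  have hv : ∃ v : Fin n → F, v ∉ K1 := by
    by_contra hcon
    push Not at hcon
    have h1 : K1 = ⊤ := by
      rw [eq_top_iff]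
      exact fun x _ => hcon x
    have h2 : Module.finrank F K1 = n := by
      rw [h1, finrank_top, Module.finrank_fin_fun]
    omega
  obtain ⟨v, hv⟩ := hv
  have hinv1 : ∀ h ∈ PS K1, ∀ w ∈ W1, ρ h w ∈ W1 := by
    intro h hh w hw
    rw [hW1def] at hw ⊢
    exact HighDimB_W1_inv ρ K1 a ha W hW1inv h hh w hw
  have h0 : ∀ w ∈ W1, ∑ ψ : Ann K1, ρ (tvK K1 a ha ψ) w = 0 := by
    intro w hw
    rw [hW1def] at hw
    exact hw.2
  have htr := high_dim_trace ρ K1 hK1n a ha W1 hinv1 h0 v hv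
  have hq : (2 : ℝ) ≤ Fintype.card F := by
    exact_mod_cast Fintype.one_lt_card (α := F)
  have hW1pos : 0 < Module.finrank ℝ W1 := by
    rw [Module.finrank_pos_iff, Submodule.nontrivial_iff_ne_bot]
    exact hW1ne
  have hle1 : WV ρ K1 a ha W1 v ≤ W1 := fun w hw => hw.1
  refine ⟨K1 ⊔ Submodule.span F {v}, WV ρ K1 a ha W1 v, ?_, hle1.trans hW1W, ?_, ?_, ?_⟩
  · exact (Submodule.finrank_add_le_finrank_add_finrank _ _).trans (by have := hsp v; omega)
  · intro hb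
    rw [hb, finrank_bot] at htr
    have h1 : (0 : ℝ) < Module.finrank ℝ W1 := by exact_mod_cast hW1pos
    have h2 : 0 < ((Fintype.card F : ℝ) - 1) * Module.finrank ℝ W1 :=
      mul_pos (by linarith) h1
    rw [← htr] at h2
    simp at h2
  · intro h hh w hw
    have hh1 : h ∈ PS K1 := fun d hd => hh d (Submodule.mem_sup_left hd)
    have hhv : h.1 v = v := hh v (Submodule.mem_sup_right (Submodule.mem_span_singleton_self v))
    refine ⟨hinv1 h hh1 w hw.1, fun ψ hψ => ?_⟩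
    rw [← Module.End.mul_apply, ← map_mul, HighDimB_comm K1 a ha h hh1 ψ, map_mul,
      Module.End.mul_apply, hw.2 (HighDimB_cmp K1 h hh1 ψ) (by
        rw [HighDimB_cmp_apply, hhv]
        exact hψ)]
  · have h1 : Module.finrank ℝ W1 ≤ Module.finrank ℝ W := Submodule.finrank_mono hW1W
    have hm : n - Module.finrank F K1 = (n - Module.finrank F K1 - 1) + 1 := by omega
    have hpow1 : (1 : ℝ) ≤ (Fintype.card F : ℝ) ^ (n - Module.finrank F K1 - 1) :=
      one_le_pow₀ (by linarith)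
    have h2 : ((Fintype.card F : ℝ) - 1) * ((Fintype.card F : ℝ) ^ (n - Module.finrank F K1 - 1) *
        Module.finrank ℝ (WV ρ K1 a ha W1 v)) ≤ ((Fintype.card F : ℝ) - 1) * Module.finrank ℝ W1 := by
      rw [← htr, hm, pow_succ]
      have h3 : (0 : ℝ) ≤ Module.finrank ℝ (WV ρ K1 a ha W1 v) := Nat.cast_nonneg _
      simp only [Nat.add_sub_cancel]
      nlinarith
    have h3 : (Fintype.card F : ℝ) ^ (n - Module.finrank F K1 - 1) *
        Module.finrank ℝ (WV ρ K1 a ha W1 v) ≤ Module.finrank ℝ W1 :=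
      le_of_mul_le_mul_left h2 (by linarith)
    have h4 : Fintype.card F ^ (n - Module.finrank F K1 - 1) *
        Module.finrank ℝ (WV ρ K1 a ha W1 v) ≤ Module.finrank ℝ W1 := by exact_mod_cast h3
    have h5 : Fintype.card F ^ (n - Module.finrank F K - 2) ≤
        Fintype.card F ^ (n - Module.finrank F K1 - 1) :=
      Nat.pow_le_pow_right Fintype.card_pos (by omega)
    exact (Nat.mul_le_mul_right _ h5).trans (h4.trans h1)

theorem high_dimL [FiniteDimensional ℝ E] (W : Submodule ℝ E)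
    (hW : ∀ g : SLn F n, ∀ u ∈ W, ρ g u ∈ W) (hW0 : W ≠ ⊥) (b : ℕ) (hb : b + 4 ≤ n)
    (hno : ∀ B : Submodule F (Fin n → F), Module.finrank F B ≤ b → ∀ u ∈ W, FixL ρ B u → u = 0) :
    Fintype.card F ^ ((b / 2 + 1) * (n - b - 2)) ≤ Module.finrank ℝ W := by
  have key : ∀ (j : ℕ) (K : Submodule F (Fin n → F)) (U : Submodule ℝ E),
      Module.finrank F K + 2 * j ≤ b + 2 → (∀ g ∈ PS K, ∀ u ∈ U, ρ g u ∈ U) → U ≠ ⊥ →
      (∀ B : Submodule F (Fin n → F), Module.finrank F B ≤ b → ∀ u ∈ U, FixL ρ B u → u = 0) →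
      Fintype.card F ^ (j * (n - b - 2)) ≤ Module.finrank ℝ U := by
    intro j
    induction j with
    | zero =>
      intro K U _ _ hU0 _
      rw [Nat.zero_mul, pow_zero]
      have h1 : 0 < Module.finrank ℝ U := by
        rw [Module.finrank_pos_iff, Submodule.nontrivial_iff_ne_bot]
        exact hU0
      exact h1
    | succ j ih =>
      intro K U hK hU hU0 hnoU
      have hKb : Module.finrank F K ≤ b := by omega
      obtain ⟨K2, U2, h1, h2, h3, h4, h5⟩ := high_step ρ K (by omega) U hU hU0 (hnoU K hKb)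
      have h6 := ih K2 U2 (by omega) h4 h3 (fun B hB u hu => hnoU B hB u (h2 hu))
      have h7 : Fintype.card F ^ (n - b - 2) ≤ Fintype.card F ^ (n - Module.finrank F K - 2) :=
        Nat.pow_le_pow_right Fintype.card_pos (by omega)
      calc Fintype.card F ^ ((j + 1) * (n - b - 2))
          = Fintype.card F ^ (n - b - 2) * Fintype.card F ^ (j * (n - b - 2)) := by
            rw [← pow_add]
            congr 1
            ring
        _ ≤ Fintype.card F ^ (n - Module.finrank F K - 2) * Module.finrank ℝ U2 :=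
            Nat.mul_le_mul h7 h6
        _ ≤ Module.finrank ℝ U := h5
  exact key (b / 2 + 1) ⊥ W (by rw [finrank_bot]; omega) (fun g _ => hW g) hW0 hno

end Pool.Agent.RCL
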