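import Pool.Agent.W_6acff7c_h33.NearOrthL

/-!
# Eigenvalues of class averages on low levels: reduction to an average over `z`

The analogue for `A n` is `Pool/Agent/W_MP_6acff7_h70/LowEig.lean`; adapt the first half of its proof.
PROOF.  `lam ‖f‖ ^ 2 = ⟪f, cavg ρ g f⟫ = (2 |G|)⁻¹ ∑_z (⟪f, ρ (z⁻¹ g z) f⟫ + ⟪f, ρ (z⁻¹ g⁻¹ z) f⟫)
= |G|⁻¹ ∑_z ⟪ρ z f, ρ (g z) f⟫` (the second inner product equals the first, `Orth`).  Here `ρ z f` is fixed
by the stabiliser of `mv z B` and `ρ (g * z) f ∈ W` by the one of `mv (g * z) B` (`fixL_mv`), both of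
dimension `b`, and with `c = dim (mv z B ⊓ mv (g * z) B)` the sum has dimension `b + (b - c)`, so
`near_orthL` with `i = b - c` gives `|⟪ρ z f, ρ (g z) f⟫| ≤ η ^ (b - c) ‖f‖ ^ 2`.  Divide by `‖f‖ ^ 2 > 0`.
-/

open Finset Pool.Agent.RCG

namespace Pool.Agent.RCL

variable {F : Type*} [Field F] [Fintype F] {n : ℕ}
variable {E : Type*} [NormedAddCommGroup E] [InnerProductSpace ℝ E] {ρ : SLn F n →* Module.End ℝ E}

theorem low_avg (hρ : Orth ρ) (W : Submodule ℝ E) (hW : ∀ g : SLn F n, ∀ u ∈ W, ρ g u ∈ W)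
    {b : ℕ} (hn : 2 * b + 1 ≤ n)
    (hlev : ∀ B : Submodule F (Fin n → F), Module.finrank F B + 1 = b → ∀ u ∈ W, FixL ρ B u → u = 0)
    (g : SLn F n) (B : Submodule F (Fin n → F)) (hB : Module.finrank F B = b)
    (f : E) (hfW : f ∈ W) (hf0 : f ≠ 0) (hf : FixL ρ B f) (lam : ℝ) (hlam : cavg ρ g f = lam • f) :
    |lam| * Fintype.card (SLn F n) ≤ ∑ z : SLn F n,
      (((Fintype.card F : ℝ) ^ (n - 2 * b))⁻¹) ^ (b - Module.finrank F ↥(mv z B ⊓ mv (g * z) B)) := by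
  classical
  obtain ⟨η, hη⟩ : ∃ η : ℝ, η = ((Fintype.card F : ℝ) ^ (n - 2 * b))⁻¹ := ⟨_, rfl⟩
  have hfpos : 0 < ‖f‖ := norm_pos_iff.2 hf0
  have hcardpos : (0 : ℝ) < (Fintype.card (SLn F n) : ℝ) := by
    exact_mod_cast Fintype.card_pos
  have hinv : ∀ z : SLn F n, (inner ℝ f (ρ (z⁻¹ * g⁻¹ * z) f) : ℝ) =
      inner ℝ f (ρ (z⁻¹ * g * z) f) := by
    intro z
    have h1 : z⁻¹ * g⁻¹ * z = (z⁻¹ * g * z)⁻¹ := by group
    rw [h1, ← hρ.inner_left, real_inner_comm]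
  have hmove : ∀ z : SLn F n, (inner ℝ f (ρ (z⁻¹ * g * z) f) : ℝ) =
      inner ℝ (ρ z f) (ρ (g * z) f) := by
    intro z
    have h1 : z⁻¹ * g * z = z⁻¹ * (g * z) := by group
    rw [h1, map_mul, Module.End.mul_apply, ← hρ.inner_left]
  have key : ∀ z : SLn F n, |(inner ℝ f (ρ (z⁻¹ * g * z) f) : ℝ)| ≤
      η ^ (b - Module.finrank F ↥(mv z B ⊓ mv (g * z) B)) * (‖f‖ * ‖f‖) := by
    intro z
    have hsup := Submodule.finrank_sup_add_finrank_inf_eq (mv z B) (mv (g * z) B)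
    rw [finrank_mv, finrank_mv, hB] at hsup
    have hle : Module.finrank F ↥(mv z B ⊓ mv (g * z) B) ≤ b := by
      have h1 := Submodule.finrank_mono (inf_le_left : mv z B ⊓ mv (g * z) B ≤ mv z B)
      rwa [finrank_mv, hB] at h1
    have h1 := near_orthL hρ W hW hn hlev (b - Module.finrank F ↥(mv z B ⊓ mv (g * z) B))
      (mv z B) (mv (g * z) B) (by rw [finrank_mv, hB]) (by rw [finrank_mv, hB]) (by omega)
      (ρ z f) (ρ (g * z) f) (fixL_mv hf z) (fixL_mv hf (g * z)) (hW _ _ hfW)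
    rw [hρ.norm_map, hρ.norm_map, ← hη] at h1
    rw [hmove]
    exact h1
  have h1 : inner ℝ f (cavg ρ g f) = (2 * (Fintype.card (SLn F n) : ℝ))⁻¹ *
      ∑ z : SLn F n, 2 * inner ℝ f (ρ (z⁻¹ * g * z) f) := by
    unfold cavg
    rw [LinearMap.smul_apply, LinearMap.sum_apply, inner_smul_right, inner_sum]
    congr 1
    refine Finset.sum_congr rfl fun z _ => ?_
    rw [LinearMap.add_apply, inner_add_right, hinv]
    ring
  have h2 : inner ℝ f (cavg ρ g f) = lam * (‖f‖ * ‖f‖) := by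
    rw [hlam, inner_smul_right, real_inner_self_eq_norm_mul_norm]
  have h3 : ∑ z : SLn F n, (2 * inner ℝ f (ρ (z⁻¹ * g * z) f) : ℝ) =
      2 * (Fintype.card (SLn F n) : ℝ) * (lam * (‖f‖ * ‖f‖)) := by
    rw [← h2, h1]
    field_simp
  have h5 : 2 * (|lam| * (Fintype.card (SLn F n) : ℝ) * (‖f‖ * ‖f‖)) ≤
      2 * ((∑ z : SLn F n, η ^ (b - Module.finrank F ↥(mv z B ⊓ mv (g * z) B))) *
        (‖f‖ * ‖f‖)) := by
    have h6 : 2 * (|lam| * (Fintype.card (SLn F n) : ℝ) * (‖f‖ * ‖f‖)) =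
        |∑ z : SLn F n, (2 * inner ℝ f (ρ (z⁻¹ * g * z) f) : ℝ)| := by
      rw [h3, abs_mul, abs_mul lam, abs_of_pos (mul_pos two_pos hcardpos),
        abs_of_pos (mul_pos hfpos hfpos)]
      ring
    rw [h6, Finset.sum_mul, Finset.mul_sum]
    refine (Finset.abs_sum_le_sum_abs _ _).trans (Finset.sum_le_sum fun z _ => ?_)
    rw [abs_mul, abs_of_pos (two_pos : (0 : ℝ) < 2)]
    exact mul_le_mul_of_nonneg_left (key z) two_pos.le
  have h7 := le_of_mul_le_mul_left h5 (two_pos : (0 : ℝ) < 2)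
  rw [← hη]
  exact le_of_mul_le_mul_right h7 (mul_pos hfpos hfpos)

end Pool.Agent.RCL
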