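import Pool.Agent.W_6acff7c_h33.CapCount

/-!
# The average over `z`

PROOF.  Let `q = |F|`, `η = (q ^ (n - 2 b))⁻¹`, `Q = q ^ (n - 2 b - k)`, so `η ≤ Q⁻¹ ≤ 1`.  Write
`c(z) = dim (mv z B ⊓ mv (g * z) B) ≤ b`.  For `c ≥ 1` put `m_c = max 1 ((c + 1) / 3)` (natural division);
then `3 m_c ≤ c + 1` or (`m_c = 1` and `1 ≤ c`), and `c ≤ 4 m_c`.  Then
`η ^ (b - c(z)) ≤ η ^ b + ∑_{c = 1}^{b} η ^ (b - c) [c ≤ c(z)]` pointwise (the term `c = c(z)` if `c(z) ≥ 1`).
Sum over `z` with `cap_count`: at most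
`|G| (Q⁻¹ ^ b + ∑_{c = 1}^{b} Q⁻¹ ^ (b - c) 2 q Q⁻¹ ^ (m_c)) ≤ |G| (1 + 2 q b) Q ^ (-(b / 4))` because
`b - c + m_c ≥ b - c + c / 4 ≥ b / 4`, and `1 + 2 q b ≤ 2 (b + 1) q`.
-/

open Finset Pool.Agent.RCG

namespace Pool.Agent.RCL

variable {F : Type*} [Field F] [Fintype F] {n : ℕ}

theorem low_sum (g : SLn F n) {k b : ℕ} (hk : ∀ μ : F, kdim g μ ≤ k)
    (B : Submodule F (Fin n → F)) (hB : Module.finrank F B = b) (hn : 2 * b + k + 1 ≤ n) :
    ∑ z : SLn F n,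
      (((Fintype.card F : ℝ) ^ (n - 2 * b))⁻¹) ^ (b - Module.finrank F ↥(mv z B ⊓ mv (g * z) B)) ≤
    Fintype.card (SLn F n) * (2 * (b + 1) * (Fintype.card F : ℝ) *
      (Fintype.card F : ℝ) ^ (-(((n - 2 * b - k : ℕ) : ℝ) * b / 4))) := by
  classical
  obtain ⟨q, hq⟩ : ∃ q : ℝ, q = (Fintype.card F : ℝ) := ⟨_, rfl⟩
  have hq2 : 2 ≤ q := by
    rw [hq]
    exact_mod_cast Fintype.one_lt_card (α := F)
  have hq0 : 0 < q := by linarith
  obtain ⟨N, hN⟩ : ∃ N : ℝ, N = (Fintype.card (SLn F n) : ℝ) := ⟨_, rfl⟩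
  have hNp : 0 < N := by
    rw [hN]
    exact_mod_cast Fintype.card_pos
  obtain ⟨d, hd⟩ : ∃ d : SLn F n → ℕ,
      d = fun z => Module.finrank F ↥(mv z B ⊓ mv (g * z) B) := ⟨_, rfl⟩
  obtain ⟨η, hη⟩ : ∃ η : ℝ, η = (q ^ (n - 2 * b))⁻¹ := ⟨_, rfl⟩
  obtain ⟨t, ht⟩ : ∃ t : ℝ, t = (q ^ (n - 2 * b - k))⁻¹ := ⟨_, rfl⟩
  obtain ⟨R, hR⟩ : ∃ R : ℝ, R = q ^ (-(((n - 2 * b - k : ℕ) : ℝ) * b / 4)) := ⟨_, rfl⟩
  have hR0 : 0 < R := by
    rw [hR]
    exact Real.rpow_pos_of_pos hq0 _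
  have hη0 : 0 < η := by
    rw [hη]
    positivity
  have ht0 : 0 < t := by
    rw [ht]
    positivity
  have hηt : η ≤ t := by
    rw [hη, ht]
    exact inv_anti₀ (by positivity) (pow_le_pow_right₀ (by linarith) (by omega))
  have hdb : ∀ z, d z ≤ b := by
    intro z
    have h1 : Module.finrank F ↥(mv z B ⊓ mv (g * z) B) ≤ Module.finrank F ↥(mv z B) :=
      Submodule.finrank_mono inf_le_left
    have h2 : Module.finrank F ↥(mv z B) ≤ Module.finrank F B := by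
      unfold mv
      exact Submodule.finrank_map_le _ _
    rw [hd]
    exact (h1.trans h2).trans hB.le
  have hpt : ∀ z, η ^ (b - d z) ≤
      η ^ b + ∑ c ∈ Finset.Icc 1 b, (if c ≤ d z then η ^ (b - c) else 0) := by
    intro z
    have hnn : ∀ c ∈ Finset.Icc 1 b, (0 : ℝ) ≤ (if c ≤ d z then η ^ (b - c) else 0) := by
      intro c _
      split_ifs
      · positivity
      · exact le_refl _
    rcases Nat.eq_zero_or_pos (d z) with h0 | h0
    · rw [h0, Nat.sub_zero]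
      have := Finset.sum_nonneg hnn
      rw [h0] at this
      linarith
    · have hm : d z ∈ Finset.Icc 1 b := Finset.mem_Icc.2 ⟨h0, hdb z⟩
      have h1 := Finset.single_le_sum hnn hm
      rw [if_pos (le_refl (d z))] at h1
      have h2 : 0 < η ^ b := by positivity
      linarith
  have hpow : ∀ e : ℕ, b ≤ 4 * e → t ^ e ≤ R := by
    intro e he
    have h1 : t ^ e = q ^ (-(((n - 2 * b - k : ℕ) : ℝ) * e)) := by
      rw [ht, Real.rpow_neg hq0.le, inv_pow, ← pow_mul]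
      congr 1
      rw [← Real.rpow_natCast]
      push_cast
      rfl
    rw [h1, hR]
    apply Real.rpow_le_rpow_of_exponent_le (by linarith)
    have h2 : (b : ℝ) ≤ 4 * e := by exact_mod_cast he
    have h3 : (0 : ℝ) ≤ ((n - 2 * b - k : ℕ) : ℝ) := Nat.cast_nonneg _
    nlinarith
  have hcount : ∀ c ∈ Finset.Icc 1 b,
      ∑ z : SLn F n, (if c ≤ d z then η ^ (b - c) else 0) ≤ N * (2 * q * R) := by
    intro c hc
    obtain ⟨hc1, hc2⟩ := Finset.mem_Icc.1 hc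
    obtain ⟨m, hm⟩ : ∃ m : ℕ, m = max 1 ((c + 1) / 3) := ⟨_, rfl⟩
    have hm1 : 1 ≤ m := by rw [hm]; exact le_max_left _ _
    have hm2 : 3 * m ≤ c + 1 ∨ (m = 1 ∧ 1 ≤ c) := by omega
    have hm3 : c ≤ 4 * m := by omega
    have h1 := cap_count g hk B hB hn hm1 hm2
    have h2 : ∑ z : SLn F n, (if c ≤ d z then η ^ (b - c) else 0) =
        N * (pr (fun z : SLn F n => c ≤ Module.finrank F ↥(mv z B ⊓ mv (g * z) B)) *
          η ^ (b - c)) := by
      rw [← Finset.sum_filter, Finset.sum_const, nsmul_eq_mul]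
      unfold pr
      rw [← hN, ← mul_assoc, mul_div_cancel₀ _ hNp.ne']
      congr 2
      rw [hd]
      congr!
    rw [h2]
    apply mul_le_mul_of_nonneg_left _ hNp.le
    rw [← hq, ← ht] at h1
    calc pr (fun z : SLn F n => c ≤ Module.finrank F ↥(mv z B ⊓ mv (g * z) B)) * η ^ (b - c)
        ≤ (2 * q * t ^ m) * t ^ (b - c) :=
          mul_le_mul h1 (pow_le_pow_left₀ hη0.le hηt _) (by positivity) (by positivity)
      _ = 2 * q * t ^ (b - c + m) := by
          rw [pow_add]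
          ring
      _ ≤ 2 * q * R := by
          apply mul_le_mul_of_nonneg_left _ (by positivity)
          exact hpow _ (by omega)
  have hηb : η ^ b ≤ R := (pow_le_pow_left₀ hη0.le hηt _).trans (hpow b (by omega))
  have hmain : ∑ z : SLn F n, η ^ (b - d z) ≤ N * R + b * (N * (2 * q * R)) := by
    calc ∑ z : SLn F n, η ^ (b - d z)
        ≤ ∑ z : SLn F n,
          (η ^ b + ∑ c ∈ Finset.Icc 1 b, (if c ≤ d z then η ^ (b - c) else 0)) :=
          Finset.sum_le_sum fun z _ => hpt z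
      _ = N * η ^ b + ∑ c ∈ Finset.Icc 1 b,
          ∑ z : SLn F n, (if c ≤ d z then η ^ (b - c) else 0) := by
          rw [Finset.sum_add_distrib, Finset.sum_comm, Finset.sum_const, nsmul_eq_mul,
            Finset.card_univ, ← hN]
      _ ≤ N * R + b * (N * (2 * q * R)) := by
          apply add_le_add (mul_le_mul_of_nonneg_left hηb hNp.le)
          refine (Finset.sum_le_card_nsmul _ _ _ hcount).trans ?_
          rw [nsmul_eq_mul, Nat.card_Icc, Nat.add_sub_cancel]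
  rw [hd, hη, hN, hR, hq] at hmain
  refine hmain.trans ?_
  rw [← hN, ← hq, ← hR]
  have hb0 : (0 : ℝ) ≤ b := Nat.cast_nonneg _
  have h1 : N * R * 1 ≤ N * R * (2 * q) := by
    apply mul_le_mul_of_nonneg_left _ (by positivity)
    linarith
  nlinarith

end Pool.Agent.RCL
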