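import Pool.Agent.W_6acff7c_h33.LevL
import Pool.Agent.W_6acff7c_h33.LowAvg
import Pool.Agent.W_6acff7c_h33.LowSum
import Pool.Agent.W_6acff7c_h33.HighDimB

/-!
# Bounds for the eigenvalues

PROOF of `ch_lowL`: let `b = levL α`, `W = JE α` (invariant under `regR`, `JE_biv`), `B, f` from `lev_fixedL`.
`low_avg` for `ρ = regR`, `lam = α g` (`mem_JE`), with `hlev` from `lev_no_fixedL`, then `low_sum`; divide by
`|G| > 0`.
PROOF of `ch_highL`: `high_dimL` for `ρ = regR`, `W = JE α`, `hno` from `lev_no_fixedL` (`finrank B ≤ b < levL α`),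
and `high_eig` with `lam = α g`.
(Compare `Pool/Agent/W_6acff7b_h70/LevB.lean`.)
-/

open Finset Pool.Agent.RCG

namespace Pool.Agent.RCL

variable {F : Type*} [Field F] [Fintype F] {n : ℕ} {α : SLn F n → ℝ}

theorem ch_lowL (h : IsCh α) {k : ℕ} (hn : 2 * levL α + k + 1 ≤ n)
    (g : SLn F n) (hk : ∀ μ : F, kdim g μ ≤ k) :
    |α g| ≤ 2 * (levL α + 1) * (Fintype.card F : ℝ) *
      (Fintype.card F : ℝ) ^ (-(((n - 2 * levL α - k : ℕ) : ℝ) * levL α / 4)) := by
  obtain ⟨B, hB, f, hfW, hf0, hfB⟩ := lev_fixedL h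
  have h1 := low_avg (permRep_orth _) (JE α) (fun g u hu => (JE_biv α).1 g u hu)
    (by omega : 2 * levL α + 1 ≤ n)
    (fun B' hB' u hu huB => lev_no_fixedL h B' (by omega) u hu huB) g B hB f hfW hf0 hfB (α g)
    (mem_JE.1 hfW g)
  have h2 := h1.trans (low_sum g hk B hB hn)
  have h3 : (0 : ℝ) < Fintype.card (SLn F n) := by exact_mod_cast Fintype.card_pos
  rw [mul_comm] at h2
  exact le_of_mul_le_mul_left h2 h3

theorem ch_highL (h : IsCh α) {b : ℕ} (hb : b < levL α) (hn : b + 4 ≤ n) (g : SLn F n) :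
    α g ^ 2 * (Fintype.card F : ℝ) ^ ((b / 2 + 1) * (n - b - 2)) ≤
      Nat.card (Subgroup.centralizer ({g} : Set (SLn F n))) := by
  have h1 : Fintype.card F ^ ((b / 2 + 1) * (n - b - 2)) ≤ Module.finrank ℝ (JE α) :=
    high_dimL (JE α) (fun g u hu => (JE_biv α).1 g u hu) h b hn
      (fun B hB u hu huB => lev_no_fixedL h B (by omega) u hu huB)
  have h2 := high_eig g (α g) (JE α) h (JE_biv α).1 (JE_biv α).2 (fun u hu => mem_JE.1 hu g)
  have h3 : ((Fintype.card F : ℝ) ^ ((b / 2 + 1) * (n - b - 2))) ≤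
      (Module.finrank ℝ (JE α) : ℝ) := by exact_mod_cast h1
  exact (mul_le_mul_of_nonneg_left h3 (sq_nonneg (α g))).trans h2

end Pool.Agent.RCL
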