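import Pool.Agent.W_6acff7c_h33.CodeSteps
import Pool.Agent.W_6acff7c_h33.BigBase

/-!
# Reaching a dense code, for all fields

PROOF.  If `log q ≤ n`: `code_steps` with `A = 1`.  Let `log q > n`, `X = n ^ 2 log q`, `d0 = 1 / 8000`,
`ℓ = ⌊log q / (4 log 2)⌋₊`, `s0 = ℓ log 2`.
1. `big_base` with `K = 1000`, `κ = d0` (`2001 ≤ n / 8000` for large `n`, `2 n ≤ q` as `q ≥ exp n`): two letters.
   `4 ^ ℓ ≤ q ^ (1/2)`, `ℓ ≤ log q`, so the failure probability is at most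
   `4 n ^ 2 (n + 1) ^ 2 log q / q ^ (1/2) → 0` uniformly for `log q ≥ n` (`t ≤ 8 exp (t / 8)`, so it is at most
   `32 n ^ 2 (n + 1) ^ 2 exp (-(3/8) n)`).
   For large `n`: `log q / 5 ≤ s0 ≤ log q / 4`, so `X ≤ 5 n ^ 2 s0 ≤ n ^ (5/2) s0`, `log 2 ≤ s0`, `2000 s0 ≤ X`,
   `(ℓ + 1) log 2 ≤ 2 s0` (`ℓ ≥ 1`).
2. `pre_iter` with `i = 2`, `Δ = d0 / 2`, `κ = d0` (`(3 + 2) / 2 = 5 / 2`), then `lev_iter` as in `code_steps`.
   At the end `(l2 + 1) / s2 = (ℓ + 1) / s0 ≤ 2 / log 2`, constant `κ ≤ 3 d0 ≤ 1 / 1000`.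
   Letters: `2 + 2 + TT n`.
`Y` = the maximum of the `Y` of `code_steps`, `YY 0` and `7`.
-/

open Finset Pool.Agent.RCG

namespace Pool.Agent.RCL

open Filter Topology in
/-- everything that has to be large or small -/
theorem CodeAll_large (ε : ℝ) (hε : 0 < ε) : ∃ N : ℕ, ∀ n : ℕ, N ≤ n →
    32 * ((n : ℝ) ^ 2 * ((n : ℝ) + 1) ^ 2) * Real.exp (-(3 / 8 * (n : ℝ))) ≤ ε ∧
    2 * Real.exp (-(1 / 8000 / 2 * (n : ℝ) / 4)) ≤ ε ∧ (16008000 : ℝ) ≤ n ∧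
    1024000 ≤ (1 / 8000 / 2 : ℝ) ^ 2 * (n : ℝ) ^ (1 / 2 : ℝ) := by
  have hcast : Tendsto (fun n : ℕ => (n : ℝ)) atTop atTop := tendsto_natCast_atTop_atTop
  have h1 : Tendsto (fun n : ℕ => (3 / 8 * (n : ℝ))) atTop atTop :=
    Tendsto.const_mul_atTop (by norm_num) hcast
  have h2 := (Real.tendsto_pow_mul_exp_neg_atTop_nhds_zero 4).comp h1
  have h3 : Tendsto (fun n : ℕ => (1 / 8000 / 2 / 4 * (n : ℝ))) atTop atTop :=
    Tendsto.const_mul_atTop (by norm_num) hcast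
  have h4 := Real.tendsto_exp_neg_atTop_nhds_zero.comp h3
  have h5 := (tendsto_rpow_atTop (by norm_num : (0 : ℝ) < 1 / 2)).comp hcast
  have e1 : ∀ᶠ n : ℕ in atTop, ((fun x : ℝ => x ^ 4 * Real.exp (-x)) ∘
      fun n : ℕ => (3 / 8 * (n : ℝ))) n < ε / (128 * (8 / 3) ^ 4) :=
    h2.eventually (gt_mem_nhds (by positivity))
  have e2 : ∀ᶠ n : ℕ in atTop, ((fun x : ℝ => Real.exp (-x)) ∘
      fun n : ℕ => (1 / 8000 / 2 / 4 * (n : ℝ))) n < ε / 2 :=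
    h4.eventually (gt_mem_nhds (by positivity))
  have e3 : ∀ᶠ n : ℕ in atTop, (16008000 : ℝ) ≤ n := hcast.eventually_ge_atTop _
  have e4 : ∀ᶠ n : ℕ in atTop, 1024000 / (1 / 8000 / 2 : ℝ) ^ 2 ≤ ((fun x : ℝ => x ^ (1 / 2 : ℝ)) ∘
      fun n : ℕ => (n : ℝ)) n := h5.eventually_ge_atTop _
  obtain ⟨N, hN⟩ := eventually_atTop.1 (e1.and (e2.and (e3.and e4)))
  refine ⟨N, fun n hn => ?_⟩
  obtain ⟨a1, a2, a3, a4⟩ := hN n hn
  simp only [Function.comp_apply] at a1 a2 a4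
  have hn1 : (1 : ℝ) ≤ n := by linarith
  refine ⟨?_, ?_, a3, ?_⟩
  · have hexp := Real.exp_pos (-(3 / 8 * (n : ℝ)))
    have b1 : ((n : ℝ) + 1) ^ 2 ≤ 4 * (n : ℝ) ^ 2 := by nlinarith
    have b2 : 32 * ((n : ℝ) ^ 2 * ((n : ℝ) + 1) ^ 2) ≤
        (128 * (8 / 3) ^ 4) * (3 / 8 * (n : ℝ)) ^ 4 := by
      have : (n : ℝ) ^ 2 * ((n : ℝ) + 1) ^ 2 ≤ (n : ℝ) ^ 2 * (4 * (n : ℝ) ^ 2) :=
        mul_le_mul_of_nonneg_left b1 (by positivity)
      nlinarith
    have b3 : (128 * (8 / 3) ^ 4 : ℝ) * ((3 / 8 * (n : ℝ)) ^ 4 * Real.exp (-(3 / 8 * (n : ℝ)))) ≤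
        ε := by
      have := a1.le
      rw [le_div_iff₀ (by positivity)] at this
      linarith
    calc _ ≤ (128 * (8 / 3) ^ 4) * (3 / 8 * (n : ℝ)) ^ 4 * Real.exp (-(3 / 8 * (n : ℝ))) :=
          mul_le_mul_of_nonneg_right b2 hexp.le
      _ = (128 * (8 / 3) ^ 4) * ((3 / 8 * (n : ℝ)) ^ 4 * Real.exp (-(3 / 8 * (n : ℝ)))) := by ring
      _ ≤ ε := b3
  · have : -(1 / 8000 / 2 * (n : ℝ) / 4) = -(1 / 8000 / 2 / 4 * (n : ℝ)) := by ring
    rw [this]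
    linarith
  · rw [div_le_iff₀ (by norm_num)] at a4
    linarith

/-- The numbers of the first step. -/
theorem CodeAll_num {L n' s0 q fail : ℝ} {ℓ : ℕ} (hn : 16008000 ≤ n') (hL : n' < L)
    (hq : q = Real.exp L) (hℓ : ℓ = ⌊L / (4 * Real.log 2)⌋₊) (hs0 : s0 = ℓ * Real.log 2)
    (hfail : fail = 4 ^ ℓ * (4 * (n' ^ 2 * (n' + 1) ^ 2 * ℓ) / q)) :
    L ≤ 5 * s0 ∧ s0 ≤ L / 4 ∧ Real.log 2 ≤ s0 ∧ ((ℓ : ℝ) + 1) * Real.log 2 ≤ 2 * s0 ∧
      fail ≤ 32 * (n' ^ 2 * (n' + 1) ^ 2) * Real.exp (-(3 / 8 * n')) := by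
  have hlog1 : 0.6931471803 < Real.log 2 := Real.log_two_gt_d9
  have hlog2 : Real.log 2 < 0.6931471808 := Real.log_two_lt_d9
  have hlog : 0 < Real.log 2 := by linarith
  have hL0 : 0 < L := by linarith
  have hx0 : 0 ≤ L / (4 * Real.log 2) := by positivity
  have h1 : (ℓ : ℝ) ≤ L / (4 * Real.log 2) := by rw [hℓ]; exact Nat.floor_le hx0
  have h2 : L / (4 * Real.log 2) < ℓ + 1 := by rw [hℓ]; exact Nat.lt_floor_add_one _
  have h1' : (ℓ : ℝ) * (4 * Real.log 2) ≤ L := by rwa [le_div_iff₀ (by positivity)] at h1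
  have h2' : L < ((ℓ : ℝ) + 1) * (4 * Real.log 2) := by rwa [div_lt_iff₀ (by positivity)] at h2
  have hℓ0 : (0 : ℝ) ≤ ℓ := Nat.cast_nonneg _
  have a2 : s0 ≤ L / 4 := by rw [hs0]; linarith
  have a1 : L ≤ 5 * s0 := by rw [hs0]; nlinarith
  have a3 : Real.log 2 ≤ s0 := by linarith
  have hℓL : (ℓ : ℝ) ≤ L := by nlinarith
  refine ⟨a1, a2, a3, ?_, ?_⟩
  · rw [add_mul, one_mul, ← hs0]
    linarith
  · have h4 : (4 : ℝ) ^ ℓ ≤ Real.exp (L / 2) := by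
      have e : (4 : ℝ) = Real.exp (2 * Real.log 2) := by
        rw [two_mul, Real.exp_add, Real.exp_log (by norm_num)]
        norm_num
      rw [e, ← Real.exp_nat_mul]
      apply Real.exp_le_exp.2
      rw [hs0] at a2
      linarith
    have hA0 : 0 ≤ n' ^ 2 * (n' + 1) ^ 2 := by positivity
    have h5 : L ≤ 8 * Real.exp (L / 8) := by
      have := Real.add_one_le_exp (L / 8)
      linarith
    rw [hfail, hq]
    calc (4 : ℝ) ^ ℓ * (4 * (n' ^ 2 * (n' + 1) ^ 2 * ℓ) / Real.exp L)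
        ≤ Real.exp (L / 2) * (4 * (n' ^ 2 * (n' + 1) ^ 2 * (8 * Real.exp (L / 8))) / Real.exp L) := by
          apply mul_le_mul h4 _ (by positivity) (Real.exp_pos _).le
          apply div_le_div_of_nonneg_right _ (Real.exp_pos _).le
          apply mul_le_mul_of_nonneg_left _ (by norm_num)
          exact mul_le_mul_of_nonneg_left (by linarith) hA0
      _ = 32 * (n' ^ 2 * (n' + 1) ^ 2) * Real.exp (-(3 / 8 * L)) := by
          have e : Real.exp (-(3 / 8 * L)) = Real.exp (L / 2) * Real.exp (L / 8) / Real.exp L := by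
            rw [← Real.exp_add, ← Real.exp_sub]
            congr 1
            ring
          rw [e]
          field_simp
          ring
      _ ≤ _ := by
          apply mul_le_mul_of_nonneg_left _ (by positivity)
          apply Real.exp_le_exp.2
          linarith

/-- The case `log q > n`. -/
theorem CodeAll_big (ε : ℝ) (hε : 0 < ε) : ∃ N0 : ℕ, ∀ n ≥ N0,
    ∀ (F : Type) [Field F] [Fintype F], (n : ℝ) < Real.log (Fintype.card F) →
    ∃ (t l : ℕ) (s : ℝ), (t : ℝ) ≤ 3 / 2 * Real.log (Real.log n) + 7 ∧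
    (n : ℝ) ^ 2 * Real.log (Fintype.card F) ≤ YY 0 * s ∧
    2000 * s ≤ (n : ℝ) ^ 2 * Real.log (Fintype.card F) ∧ ((l : ℝ) + 1) * Real.log 2 ≤ 2 * s ∧
    StepG (SLn F n) t ε (fun _ => True) (HasCode 1000 (1 / 1000) l s) := by
  have hε3 : 0 < ε / 3 := by positivity
  obtain ⟨N1, hN1⟩ := CodeAll_large (ε / 3) hε3
  obtain ⟨N2, hN2⟩ := ok_fix (1 / 8000 / 2) (by norm_num)
  obtain ⟨N3, hN3⟩ := ok_T
  obtain ⟨N4, hN4⟩ := yy_T
  obtain ⟨N5, hN5⟩ := TT_le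
  obtain ⟨N6, hN6⟩ := fail_T (ε / 3) hε3
  refine ⟨N1 + N2 + N3 + N4 + N5 + N6, fun n hn F _ _ hL => ?_⟩
  obtain ⟨a1, a2, a3, a4⟩ := hN1 n (by omega)
  have a5 := hN2 n (by omega) F
  have a6 := hN3 n (by omega) F
  have a7 := hN4 n (by omega)
  have a8 := hN5 n (by omega)
  have a9 := hN6 n (by omega) F
  have hn1r : (1 : ℝ) ≤ n := by linarith
  have hn1 : 1 ≤ n := by exact_mod_cast hn1r
  have hq0 : (0 : ℝ) < Fintype.card F := by exact_mod_cast Fintype.card_pos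
  set L : ℝ := Real.log (Fintype.card F) with hLdef
  have hqe : (Fintype.card F : ℝ) = Real.exp L := (Real.exp_log hq0).symm
  set ℓ : ℕ := ⌊L / (4 * Real.log 2)⌋₊ with hℓ
  obtain ⟨b1, b2, b3, b4, b5⟩ := CodeAll_num (s0 := (ℓ : ℝ) * Real.log 2) a3 hL hqe hℓ rfl rfl
  set s0 : ℝ := (ℓ : ℝ) * Real.log 2 with hs0
  have hlog2 : 0 < Real.log 2 := Real.log_pos (by norm_num)
  have hs0p : 0 < s0 := by linarith
  have hL0 : 0 < L := by linarith
  have hbase := big_base (F := F) (n := n) (K := 1000) (κ := 1 / 8000) (by omega) (by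
      have h1 : (2 * n : ℝ) ≤ Fintype.card F := by
        rw [hqe]
        have h2 := Real.quadratic_le_exp_of_nonneg hL0.le
        nlinarith
      exact_mod_cast h1) (by push_cast; linarith) ℓ
  -- the first levels
  have hX1 : (n : ℝ) ^ 2 * L ≤ (n : ℝ) ^ ((3 + (2 : ℕ) : ℝ) / 2) * s0 := by
    have e : (n : ℝ) ^ ((3 + (2 : ℕ) : ℝ) / 2) = (n : ℝ) ^ 2 * (n : ℝ) ^ (1 / 2 : ℝ) := by
      rw [← Real.rpow_natCast, ← Real.rpow_add (by linarith)]
      congr 1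
      push_cast
      norm_num
    have h5 : (5 : ℝ) ≤ (n : ℝ) ^ (1 / 2 : ℝ) := by
      rw [← Real.sqrt_eq_rpow]
      apply Real.le_sqrt_of_sq_le
      linarith
    rw [e, mul_assoc]
    apply mul_le_mul_of_nonneg_left _ (by positivity)
    nlinarith
  have h2000 : 2000 * s0 ≤ (n : ℝ) ^ 2 * L := by
    have : (500 : ℝ) ≤ (n : ℝ) ^ 2 := by nlinarith
    nlinarith
  obtain ⟨l1, s1, c1, c2, c3, c4, c5⟩ := pre_iter (F := F) (n := n) (Δ := 1 / 8000 / 2)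
    (by norm_num) (by norm_num) a5 hn1 a4 2 (1 / 8000) ℓ s0 (by norm_num) (by push_cast; norm_num)
    b3 h2000 hX1
  have hpow2 : (0 : ℝ) < 1 / 2 ^ TT n := by positivity
  obtain ⟨l2, s2, d1, d2, d3, d4, d5⟩ := lev_iter (F := F) (n := n) (T := TT n) a6 (TT n) le_rfl
    (1 / 8000 + (2 : ℕ) * (1 / 8000 / 2)) l1 s1 (by positivity) (by push_cast; linarith)
    (b3.trans c2) c4 (by
      refine c3.trans ?_
      apply mul_le_mul_of_nonneg_right a7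
      linarith) c3
  refine ⟨2 + 2 + TT n, l2, s2, ?_, d3, d4, ?_, ?_⟩
  · push_cast
    linarith
  · have hs1p : 0 < s1 := by linarith
    have hs2p : 0 < s2 := by linarith
    have e1 : ((l2 : ℝ) + 1) * s0 = ((ℓ : ℝ) + 1) * s2 := by
      have h : s1 * (((l2 : ℝ) + 1) * s0) = s1 * (((ℓ : ℝ) + 1) * s2) := by
        calc s1 * (((l2 : ℝ) + 1) * s0) = (((l2 : ℝ) + 1) * s1) * s0 := by ring
          _ = (((l1 : ℝ) + 1) * s2) * s0 := by rw [d1]
          _ = (((l1 : ℝ) + 1) * s0) * s2 := by ring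
          _ = (((ℓ : ℝ) + 1) * s1) * s2 := by rw [c1]
          _ = s1 * (((ℓ : ℝ) + 1) * s2) := by ring
      exact mul_left_cancel₀ hs1p.ne' h
    have e2 : s0 * (((l2 : ℝ) + 1) * Real.log 2) ≤ s0 * (2 * s2) := by
      calc s0 * (((l2 : ℝ) + 1) * Real.log 2) = (((l2 : ℝ) + 1) * s0) * Real.log 2 := by ring
        _ = (((ℓ : ℝ) + 1) * Real.log 2) * s2 := by rw [e1]; ring
        _ ≤ (2 * s0) * s2 := mul_le_mul_of_nonneg_right b4 hs2p.le
        _ = s0 * (2 * s2) := by ring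
    exact le_of_mul_le_mul_left e2 hs0p
  · have f1 := StepG.comp (StepG.comp hbase c5 (by positivity)) d5 (by positivity)
    refine StepG.weaken f1 (fun _ h => h)
      (fun _ h => hasCode_weaken (by push_cast; linarith) le_rfl le_rfl h) ?_
    have g1 := b5.trans a1
    have g2 : ((2 : ℕ) : ℝ) * Real.exp (-(1 / 8000 / 2 * n / 4 * L)) ≤ ε / 3 := by
      refine le_trans ?_ a2
      push_cast
      apply mul_le_mul_of_nonneg_left _ (by norm_num)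
      apply Real.exp_le_exp.2
      have : 1 / 8000 / 2 * (n : ℝ) / 4 * 1 ≤ 1 / 8000 / 2 * n / 4 * L :=
        mul_le_mul_of_nonneg_left (by linarith) (by positivity)
      linarith
    linarith

theorem code_steps_all (ε : ℝ) (hε : 0 < ε) : ∃ (Y : ℝ) (N0 : ℕ), ∀ n ≥ N0,
    ∀ (F : Type) [Field F] [Fintype F],
    ∃ (t l : ℕ) (s : ℝ), (t : ℝ) ≤ 3 / 2 * Real.log (Real.log n) + Y ∧
    (n : ℝ) ^ 2 * Real.log (Fintype.card F) ≤ Y * s ∧
    2000 * s ≤ (n : ℝ) ^ 2 * Real.log (Fintype.card F) ∧ ((l : ℝ) + 1) * Real.log 2 ≤ 2 * s ∧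
    StepG (SLn F n) t ε (fun _ => True) (HasCode 1000 (1 / 1000) l s) := by
  obtain ⟨Y1, N1, h1⟩ := code_steps 1 ε hε
  obtain ⟨N2, h2⟩ := CodeAll_big ε hε
  have hlog2 : 0 < Real.log 2 := Real.log_pos (by norm_num)
  refine ⟨max Y1 (max (YY 0) 7), N1 + N2, fun n hn F _ _ => ?_⟩
  by_cases hL : (n : ℝ) < Real.log (Fintype.card F)
  · obtain ⟨t, l, s, a1, a2, a3, a4, a5⟩ := h2 n (by omega) F hL
    have hs : 0 ≤ s := by
      have : 0 ≤ ((l : ℝ) + 1) * Real.log 2 := by positivity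
      linarith
    refine ⟨t, l, s, ?_, ?_, a3, a4, a5⟩
    · refine a1.trans ?_
      have := (le_max_right (YY 0) 7).trans (le_max_right Y1 (max (YY 0) 7))
      linarith
    · refine a2.trans (mul_le_mul_of_nonneg_right ?_ hs)
      exact (le_max_left (YY 0) 7).trans (le_max_right _ _)
  · rw [not_lt] at hL
    obtain ⟨t, l, s, a1, a2, a3, a4, a5⟩ := h1 n (by omega) F (by rw [pow_one]; exact hL)
    have hs : 0 ≤ s := by
      have : 0 ≤ ((l : ℝ) + 1) * Real.log 2 := by positivity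
      linarith
    refine ⟨t, l, s, ?_, ?_, a3, a4, a5⟩
    · refine a1.trans ?_
      have := le_max_left Y1 (max (YY 0) 7)
      linarith
    · exact a2.trans (mul_le_mul_of_nonneg_right (le_max_left _ _) hs)
end Pool.Agent.RCL
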