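import Pool.Agent.W_6acff7c_h33.LevIterL

/-!
# Parameters

Let `T = ⌈log (22/10 * log n) / log 2⌉₊` (natural ceiling), so `2 ^ T ≥ 2.2 log n` and, for `n ≥ 3`,
`2 ^ T ≤ 4.4 log n`, `T ≤ log (2.2 log n) / log 2 + 1 ≤ (3/2) log (log n) + 3` (`1 / log 2 ≤ 1.4427`,
`log 2.2 / log 2 ≤ 1.14`; `log log n ≥ 0` for `n ≥ 3`).
`ok_T`: `32000 n ^ (3/4) ≤ (1/8000) n / (4.4 log n)` for large `n`, and with `Δ = 1/8000/2^T ≥ 1/(35200 log n)`:
`2 (2000 n ^ (3/4) + 1) ≤ 2 ^ (Δ n / 8) ≤ q ^ (Δ n / 8)` and `q ^ 2 ≤ q ^ (Δ n / 8)` for large `n`, uniformly in `q ≥ 2`.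
`yy_T`: `2 ^ (2 ^ T) ≥ exp (2.2 log n * log 2) ≥ n ^ (3/2)` and `YY T ≥ 2 ^ (2 ^ T)`.
`ok_fix`: for fixed `Δ > 0` the same, easier.
`fail_T`: `exp (-(Δ n / 4 log q)) ≤ exp (-(n log 2 / (4 * 35200 log n)))` and
`(3/2 log log n + 3) exp (...) → 0`.
-/

open Finset Pool.Agent.RCG

namespace Pool.Agent.RCL

/-- The number of levels. -/
noncomputable def TT (n : ℕ) : ℕ := ⌈Real.log (22 / 10 * Real.log n) / Real.log 2⌉₊

private theorem OkParam_log {n : ℕ} (hn : 3 ≤ n) : 1 ≤ Real.log n := by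
  rw [Real.le_log_iff_exp_le (by positivity)]
  have h1 : (3 : ℝ) ≤ n := by exact_mod_cast hn
  have h2 := Real.exp_one_lt_d9
  linarith

private theorem OkParam_pow_ge {n : ℕ} (hn : 3 ≤ n) : 22 / 10 * Real.log n ≤ 2 ^ TT n := by
  have h1 := OkParam_log hn
  have h2 : 0 < Real.log 2 := Real.log_pos (by norm_num)
  have h3 : 0 < 22 / 10 * Real.log n := by linarith
  have h4 : Real.log (22 / 10 * Real.log n) / Real.log 2 ≤ TT n := Nat.le_ceil _
  rw [div_le_iff₀ h2, ← Real.log_pow] at h4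
  exact (Real.log_le_log_iff h3 (by positivity)).1 h4

private theorem OkParam_T_lt {n : ℕ} (hn : 3 ≤ n) :
    (TT n : ℝ) < Real.log (22 / 10 * Real.log n) / Real.log 2 + 1 := by
  have h1 := OkParam_log hn
  have h2 : 0 < Real.log 2 := Real.log_pos (by norm_num)
  exact Nat.ceil_lt_add_one (div_nonneg (Real.log_nonneg (by linarith)) h2.le)

private theorem OkParam_pow_le {n : ℕ} (hn : 3 ≤ n) : (2 : ℝ) ^ TT n ≤ 44 / 10 * Real.log n := by
  have h1 := OkParam_log hn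
  have h2 : 0 < Real.log 2 := Real.log_pos (by norm_num)
  have h3 : 0 < 22 / 10 * Real.log n := by linarith
  have h4 := OkParam_T_lt hn
  have h5 : (TT n : ℝ) * Real.log 2 ≤ Real.log (22 / 10 * Real.log n) + Real.log 2 := by
    have := mul_le_mul_of_nonneg_right h4.le h2.le
    rw [add_mul, div_mul_cancel₀ _ h2.ne', one_mul] at this
    exact this
  rw [← Real.log_pow, ← Real.log_mul h3.ne' (by norm_num)] at h5
  have h6 := (Real.log_le_log_iff (by positivity) (by positivity)).1 h5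
  linarith

theorem TT_le : ∃ N0 : ℕ, ∀ n ≥ N0, (TT n : ℝ) ≤ 3 / 2 * Real.log (Real.log n) + 3 := by
  refine ⟨3, fun n hn => ?_⟩
  have h1 := OkParam_log hn
  have h2 : 0 < Real.log 2 := Real.log_pos (by norm_num)
  have h3 : 0 ≤ Real.log (Real.log n) := Real.log_nonneg h1
  have h4 := OkParam_T_lt hn
  have h5 := Real.log_two_gt_d9
  rw [Real.log_mul (by norm_num) (by linarith)] at h4
  have h6 : Real.log (22 / 10) ≤ 2 * Real.log 2 := by
    have h7 : (2 : ℝ) * Real.log 2 = Real.log (2 ^ 2) := by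
      rw [Real.log_pow]
      norm_num
    rw [h7]
    exact Real.log_le_log (by norm_num) (by norm_num)
  have h8 : (Real.log (22 / 10) + Real.log (Real.log n)) / Real.log 2 ≤
      3 / 2 * Real.log (Real.log n) + 2 := by
    rw [div_le_iff₀ h2]
    nlinarith
  linarith

/-- The asymptotic facts used below. -/
private theorem OkParam_ev (c : ℝ) : ∃ N0 : ℕ, ∀ n ≥ N0, 3 ≤ n ∧
    c ≤ (n : ℝ) ^ (1 / 8 : ℝ) ∧ c ≤ (n : ℝ) ∧ Real.log n ≤ (n : ℝ) ^ (1 / 8 : ℝ) := by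
  have h1 : ∀ᶠ n : ℕ in Filter.atTop, c ≤ (n : ℝ) ^ (1 / 8 : ℝ) :=
    ((tendsto_rpow_atTop (by norm_num : (0 : ℝ) < 1 / 8)).comp
      tendsto_natCast_atTop_atTop).eventually_ge_atTop c
  have h2 : ∀ᶠ n : ℕ in Filter.atTop, c ≤ (n : ℝ) :=
    (tendsto_natCast_atTop_atTop (R := ℝ)).eventually_ge_atTop c
  have h3 : ∀ᶠ n : ℕ in Filter.atTop, Real.log n ≤ (n : ℝ) ^ (1 / 8 : ℝ) := by
    have h4 := (isLittleO_log_rpow_atTop (by norm_num : (0 : ℝ) < 1 / 8)).bound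
      (by norm_num : (0 : ℝ) < 1)
    filter_upwards [(tendsto_natCast_atTop_atTop (R := ℝ)).eventually h4] with n hn
    rw [one_mul, Real.norm_eq_abs, Real.norm_eq_abs, abs_of_nonneg (a := (n : ℝ) ^ (1 / 8 : ℝ))
      (by positivity)] at hn
    exact (le_abs_self _).trans hn
  have h5 : ∀ᶠ n : ℕ in Filter.atTop, 3 ≤ n := Filter.eventually_ge_atTop 3
  exact Filter.eventually_atTop.1 (h5.and (h1.and (h2.and h3)))

/-- `d n / log n ≥ d n ^ (7/8)`. -/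
private theorem OkParam_low {n : ℕ} {d Δ : ℝ} (hn : 3 ≤ n)
    (hl : Real.log n ≤ (n : ℝ) ^ (1 / 8 : ℝ)) (hd : 0 ≤ d) (hΔ : d / Real.log n ≤ Δ) :
    d * (n : ℝ) ^ (7 / 8 : ℝ) ≤ Δ * n := by
  have h0 : (0 : ℝ) < n := by
    have : 0 < n := by omega
    exact_mod_cast this
  have h1 := OkParam_log hn
  have h2 : (n : ℝ) ^ (7 / 8 : ℝ) * (n : ℝ) ^ (1 / 8 : ℝ) = n := by
    rw [← Real.rpow_add h0]
    norm_num
  have h3 : d * (n : ℝ) ^ (7 / 8 : ℝ) ≤ d / Real.log n * n := by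
    rw [div_mul_eq_mul_div, le_div_iff₀ (by linarith), mul_assoc]
    refine mul_le_mul_of_nonneg_left ?_ hd
    calc (n : ℝ) ^ (7 / 8 : ℝ) * Real.log n ≤ (n : ℝ) ^ (7 / 8 : ℝ) * (n : ℝ) ^ (1 / 8 : ℝ) :=
          mul_le_mul_of_nonneg_left hl (by positivity)
      _ = n := h2
  exact h3.trans (mul_le_mul_of_nonneg_right hΔ h0.le)

private theorem OkParam_ok (d : ℝ) (hd : 0 < d) : ∃ N0 : ℕ, ∀ n ≥ N0, ∀ Δ : ℝ,
    d / Real.log n ≤ Δ → ∀ (F : Type) [Field F] [Fintype F],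
    Ok F n Δ ((n : ℝ) ^ (3 / 4 : ℝ)) := by
  obtain ⟨N0, hN0⟩ := OkParam_ev (max (32000 / d) (4002 * 512 / d ^ 2))
  refine ⟨N0, fun n hn Δ hΔ F _ _ => ?_⟩
  obtain ⟨h3, hc1, hc2, hl⟩ := hN0 n hn
  have hb1 := (le_max_left _ _).trans hc1
  have hb2 := (le_max_right _ _).trans hc2
  rw [div_le_iff₀ hd] at hb1
  rw [div_le_iff₀ (by positivity)] at hb2
  have h0 : (0 : ℝ) < n := by
    have : 0 < n := by omega
    exact_mod_cast this
  have hlow := OkParam_low h3 hl hd.le hΔ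
  have hn1 : (1 : ℝ) ≤ n := by
    have : 1 ≤ n := by omega
    exact_mod_cast this
  have e1 : (n : ℝ) ^ (7 / 8 : ℝ) = (n : ℝ) ^ (3 / 4 : ℝ) * (n : ℝ) ^ (1 / 8 : ℝ) := by
    rw [← Real.rpow_add h0]
    norm_num
  have e2 : (n : ℝ) ^ (7 / 8 : ℝ) * (n : ℝ) ^ (7 / 8 : ℝ) = (n : ℝ) ^ (3 / 4 : ℝ) * n := by
    rw [← Real.rpow_add h0]
    nth_rw 3 [← Real.rpow_one (n : ℝ)]
    rw [← Real.rpow_add h0]
    norm_num
  have p1 : 1 ≤ (n : ℝ) ^ (3 / 4 : ℝ) := Real.one_le_rpow hn1 (by norm_num)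
  have hA : 32000 * (n : ℝ) ^ (3 / 4 : ℝ) ≤ d * (n : ℝ) ^ (7 / 8 : ℝ) := by
    rw [e1]
    nlinarith
  have hq : (2 : ℝ) ≤ Fintype.card F := by
    have : 2 ≤ Fintype.card F := Fintype.one_lt_card
    exact_mod_cast this
  refine ⟨by linarith, ?_⟩
  set N : ℝ := (n : ℝ) ^ (3 / 4 : ℝ) with hN
  set X : ℝ := (n : ℝ) ^ (7 / 8 : ℝ) with hX
  set q : ℝ := (Fintype.card F : ℝ) with hqdef
  have hx : d * X / 8 ≤ Δ * n / 4 - 2 := by linarith
  have hx0 : 0 ≤ d * X / 8 := by positivity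
  have hq2 : q ^ (Δ * n / 4) = q ^ (Δ * n / 4 - 2) * q ^ 2 := by
    rw [← Real.rpow_natCast, ← Real.rpow_add (by linarith)]
    congr 1
    push_cast
    ring
  rw [hq2]
  refine mul_le_mul_of_nonneg_right ?_ (by positivity)
  have hexp : Real.exp (d * X / 16) ≤ q ^ (Δ * n / 4 - 2) := by
    have a1 : Real.log 2 ≤ Real.log q := Real.log_le_log (by norm_num) hq
    have a2 := Real.log_two_gt_d9
    rw [Real.rpow_def_of_pos (by linarith)]
    apply Real.exp_le_exp.2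
    nlinarith
  have hquad := Real.quadratic_le_exp_of_nonneg (x := d * X / 16) (by positivity)
  have hX2 : X * X = N * n := e2
  have hfin : 4002 * N ≤ (d * X / 16) ^ 2 / 2 := by
    have b1 : (d * X / 16) ^ 2 / 2 = d ^ 2 * (N * n) / 512 := by
      rw [← hX2]
      ring
    rw [b1]
    have b2 : N * (4002 * 512) ≤ N * (n * d ^ 2) := mul_le_mul_of_nonneg_left hb2 (by linarith)
    linarith
  nlinarith

theorem ok_T : ∃ N0 : ℕ, ∀ n ≥ N0, ∀ (F : Type) [Field F] [Fintype F],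
    Ok F n (1 / 8000 / 2 ^ TT n) ((n : ℝ) ^ (3 / 4 : ℝ)) := by
  obtain ⟨N0, hN0⟩ := OkParam_ok (1 / 35200) (by norm_num)
  refine ⟨max N0 3, fun n hn F _ _ => hN0 n ((le_max_left _ _).trans hn) _ ?_ F⟩
  have h3 : 3 ≤ n := (le_max_right _ _).trans hn
  have h1 := OkParam_log h3
  have h2 := OkParam_pow_le h3
  rw [div_div, div_div]
  exact one_div_le_one_div_of_le (by positivity) (by linarith)

theorem ok_fix (Δ : ℝ) (hΔ : 0 < Δ) : ∃ N0 : ℕ, ∀ n ≥ N0, ∀ (F : Type) [Field F] [Fintype F],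
    Ok F n Δ ((n : ℝ) ^ (3 / 4 : ℝ)) := by
  obtain ⟨N0, hN0⟩ := OkParam_ok Δ hΔ
  refine ⟨max N0 3, fun n hn F _ _ => hN0 n ((le_max_left _ _).trans hn) _ ?_ F⟩
  have h3 : 3 ≤ n := (le_max_right _ _).trans hn
  exact div_le_self hΔ.le (OkParam_log h3)

theorem yy_T : ∃ N0 : ℕ, ∀ n ≥ N0, (n : ℝ) ^ (3 / 2 : ℝ) ≤ YY (TT n) := by
  refine ⟨3, fun n hn => ?_⟩
  have h0 : (0 : ℝ) < n := by
    have : 0 < n := by omega
    exact_mod_cast this
  have h1 := OkParam_log hn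
  have h2 := OkParam_pow_ge hn
  have h3 := Real.log_two_gt_d9
  have h4 : (n : ℝ) ^ (3 / 2 : ℝ) ≤ (2 : ℝ) ^ (2 ^ TT n) := by
    rw [← Real.rpow_natCast 2 (2 ^ TT n), Real.rpow_def_of_pos h0,
      Real.rpow_def_of_pos (by norm_num : (0 : ℝ) < 2)]
    apply Real.exp_le_exp.2
    push_cast
    nlinarith
  have h5 : (1 : ℝ) ≤ 16 ^ TT n := one_le_pow₀ (by norm_num)
  have h6 : (0 : ℝ) < 2 ^ (2 ^ TT n) := by positivity
  have h7 : (2 : ℝ) ^ (2 ^ TT n) ≤ YY (TT n) := by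
    unfold YY
    have h8 : (1 : ℝ) ≤ 64 * 1024000 / (1 / 8000) ^ 2 * 16 ^ TT n := by
      have h9 : (1 : ℝ) ≤ 64 * 1024000 / (1 / 8000) ^ 2 := by norm_num
      exact one_le_mul_of_one_le_of_one_le h9 h5
    exact le_mul_of_one_le_left h6.le h8
  exact h4.trans h7

theorem fail_T (ε : ℝ) (hε : 0 < ε) : ∃ N0 : ℕ, ∀ n ≥ N0, ∀ (F : Type) [Field F] [Fintype F],
    (TT n : ℝ) * Real.exp (-(1 / 8000 / 2 ^ TT n * n / 4 * Real.log (Fintype.card F))) ≤ ε := by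
  obtain ⟨N0, hN0⟩ := OkParam_ev (36 * 35200 / ε)
  obtain ⟨N1, hN1⟩ := TT_le
  refine ⟨max N0 N1, fun n hn F _ _ => ?_⟩
  obtain ⟨h3, hc1, -, hl⟩ := hN0 n ((le_max_left _ _).trans hn)
  have hT := hN1 n ((le_max_right _ _).trans hn)
  have h0 : (0 : ℝ) < n := by
    have : 0 < n := by omega
    exact_mod_cast this
  have hn1 : (1 : ℝ) ≤ n := by
    have : 1 ≤ n := by omega
    exact_mod_cast this
  have h1 := OkParam_log h3
  have h2 := OkParam_pow_le h3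
  have hΔ : 1 / 35200 / Real.log n ≤ 1 / 8000 / 2 ^ TT n := by
    rw [div_div, div_div]
    exact one_div_le_one_div_of_le (by positivity) (by linarith)
  have hlow := OkParam_low h3 hl (by norm_num) hΔ
  have hq : (2 : ℝ) ≤ Fintype.card F := by
    have : 2 ≤ Fintype.card F := Fintype.one_lt_card
    exact_mod_cast this
  have a1 : Real.log 2 ≤ Real.log (Fintype.card F) := Real.log_le_log (by norm_num) hq
  have a2 := Real.log_two_gt_d9
  set X : ℝ := (n : ℝ) ^ (7 / 8 : ℝ) with hX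
  set Y : ℝ := (n : ℝ) ^ (1 / 8 : ℝ) with hY
  have hY1 : 1 ≤ Y := Real.one_le_rpow hn1 (by norm_num)
  have hX0 : 0 < X := by positivity
  have hYX : Y * Y ≤ X := by
    rw [hX, hY, ← Real.rpow_add h0]
    exact Real.rpow_le_rpow_of_exponent_le hn1 (by norm_num)
  have hT2 : (TT n : ℝ) ≤ 9 / 2 * Y := by
    have b1 : Real.log (Real.log n) ≤ Real.log n := Real.log_le_self (by linarith)
    linarith
  set W : ℝ := 1 / 8000 / 2 ^ TT n * n / 4 * Real.log (Fintype.card F) with hW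
  have hW1 : 1 / 35200 * X / 8 ≤ W := by
    have b1 : 1 / 35200 * X / 4 ≤ 1 / 8000 / 2 ^ TT n * n / 4 := by linarith
    have b2 : (0 : ℝ) ≤ 1 / 35200 * X / 4 := by positivity
    have b3 : 1 / 35200 * X / 4 * (1 / 2) ≤ W :=
      mul_le_mul b1 (by linarith) (by norm_num) (b2.trans b1)
    linarith
  have hexp : Real.exp (-W) ≤ 8 * 35200 / X := by
    have b1 : Real.exp (-W) ≤ Real.exp (-(1 / 35200 * X / 8)) :=
      Real.exp_le_exp.2 (by linarith)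
    have b2 : 1 / 35200 * X / 8 ≤ Real.exp (1 / 35200 * X / 8) := by
      have := Real.add_one_le_exp (1 / 35200 * X / 8)
      linarith
    have b3 : Real.exp (-(1 / 35200 * X / 8)) ≤ 8 * 35200 / X := by
      rw [Real.exp_neg, inv_le_comm₀ (Real.exp_pos _) (by positivity)]
      rw [inv_div]
      linarith
    exact b1.trans b3
  have hXY : 8 * 35200 / X ≤ 8 * 35200 / (Y * Y) :=
    div_le_div_of_nonneg_left (by norm_num) (by positivity) hYX
  calc (TT n : ℝ) * Real.exp (-W) ≤ 9 / 2 * Y * (8 * 35200 / (Y * Y)) :=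
        mul_le_mul hT2 (hexp.trans hXY) (Real.exp_pos _).le (by positivity)
    _ = 36 * 35200 / Y := by
        field_simp
        ring
    _ ≤ ε := by
        rw [div_le_iff₀ (by positivity)]
        rw [div_le_iff₀ hε] at hc1
        linarith

end Pool.Agent.RCL
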