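import Pool.Agent.W_6acff7c_h33.PreIter
import Pool.Agent.W_6acff7c_h33.OkParam
import Pool.Agent.W_6acff7c_h33.BaseStepL

/-!
# Reaching a dense code

PROOF.  `X = n ^ 2 log q`, `d0 = 1 / 8000`, `P = 2 A + 2`, `Δ1 = d0 / P`, `T = TT n`.
1. `baseStepL` (`K = 1000`, `Δ = d0`): one letter, `HasCode 1000 d0 1 (log 2)`, failure
   `2 exp (-(d0 ^ 2 X / 32000)) → 0`; its `h1`, `h2` hold for large `n` (they follow from `ok_fix`).
2. `pre_iter` with `Δ = Δ1`, `i = P`, `κ = d0`, `l = 1`, `s = log 2`: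
   `X ≤ n ^ ((3 + P) / 2) log 2` because `log q ≤ n ^ A` and `(3 + P) / 2 = A + 5/2`, `n ^ (1/2) log 2 ≥ 1`;
   `2000 log 2 ≤ X` for large `n`; `Ok` by `ok_fix Δ1`; failure `P exp (-(Δ1 n / 4 log q)) → 0` uniformly
   (`log q ≥ log 2`).  Get `l1, s1`, constant `κ = d0 + P Δ1 = 2 d0`.
3. `lev_iter` with `T = TT n`, `j = T` (`ok_T`, `yy_T`: `X ≤ n ^ (3/2) s1 ≤ YY T * s1`), constant
   `2 d0 + d0 (1 - 2 ^ (-T)) ≤ 3 d0 ≤ 1 / 1000` (`hasCode_weaken`), failure by `fail_T`.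
   Get `l2, s2` with `X ≤ YY 0 * s2`, `2000 s2 ≤ X`, and `(l2 + 1) log 2 = 2 s2` from the two proportionalities
   (`(1 + 1) log 2 = 2 log 2` at the start; all `s > 0`).
4. Total number of letters `1 + P + T ≤ (3/2) log log n + 4 + P`; `Y = max (YY 0) (P + 4)`
   (`X ≤ YY 0 * s2 ≤ Y * s2`); compose with `StepG.comp`; total failure `≤ ε` for large `n`.
-/

open Finset Pool.Agent.RCG

namespace Pool.Agent.RCL

private theorem CodeSteps_exp (c C ε : ℝ) (hc : 0 < c) (hε : 0 < ε) :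
    ∀ᶠ n : ℕ in Filter.atTop, C * Real.exp (-(c * n)) ≤ ε := by
  have h1 : Filter.Tendsto (fun n : ℕ => c * (n : ℝ)) Filter.atTop Filter.atTop :=
    tendsto_natCast_atTop_atTop.const_mul_atTop hc
  have h2 : Filter.Tendsto (fun n : ℕ => Real.exp (-(c * (n : ℝ)))) Filter.atTop (nhds 0) :=
    Real.tendsto_exp_neg_atTop_nhds_zero.comp h1
  have h3 := h2.const_mul C
  rw [mul_zero] at h3
  exact (h3.eventually (gt_mem_nhds hε)).mono fun n hn => hn.le

private theorem CodeSteps_root (c : ℝ) :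
    ∀ᶠ n : ℕ in Filter.atTop, c ≤ (n : ℝ) ^ (1 / 2 : ℝ) := by
  have h1 : Filter.Tendsto (fun n : ℕ => (n : ℝ) ^ (1 / 2 : ℝ)) Filter.atTop Filter.atTop :=
    (tendsto_rpow_atTop (by norm_num)).comp tendsto_natCast_atTop_atTop
  exact h1.eventually (Filter.eventually_ge_atTop c)

theorem code_steps (A : ℕ) (ε : ℝ) (hε : 0 < ε) : ∃ (Y : ℝ) (N0 : ℕ), ∀ n ≥ N0,
    ∀ (F : Type) [Field F] [Fintype F], Real.log (Fintype.card F) ≤ (n : ℝ) ^ A →
    ∃ (t l : ℕ) (s : ℝ), (t : ℝ) ≤ 3 / 2 * Real.log (Real.log n) + Y ∧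
    (n : ℝ) ^ 2 * Real.log (Fintype.card F) ≤ Y * s ∧
    2000 * s ≤ (n : ℝ) ^ 2 * Real.log (Fintype.card F) ∧ ((l : ℝ) + 1) * Real.log 2 ≤ 2 * s ∧
    StepG (SLn F n) t ε (fun _ => True) (HasCode 1000 (1 / 1000) l s) := by
  obtain ⟨P, hP⟩ : ∃ P : ℕ, P = 2 * A + 2 := ⟨_, rfl⟩
  have hP2 : (2 : ℝ) ≤ P := by
    rw [hP]
    push_cast
    have : (0 : ℝ) ≤ A := Nat.cast_nonneg A
    linarith
  have hP0 : (0 : ℝ) < P := by linarith
  obtain ⟨Δ, hΔ⟩ : ∃ Δ : ℝ, Δ = 1 / 8000 / P := ⟨_, rfl⟩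
  have hPΔ : (P : ℝ) * Δ = 1 / 8000 := by
    rw [hΔ]
    field_simp
  have hΔ0 : 0 < Δ := by
    rw [hΔ]
    positivity
  have hΔ1 : Δ ≤ 1 := by nlinarith
  have hlog2 : 0 < Real.log 2 := Real.log_pos (by norm_num)
  obtain ⟨N1, h1⟩ := ok_fix (1 / 8000) (by norm_num)
  obtain ⟨N2, h2⟩ := ok_fix Δ hΔ0
  obtain ⟨N3, h3⟩ := TT_le
  obtain ⟨N4, h4⟩ := ok_T
  obtain ⟨N5, h5⟩ := yy_T
  obtain ⟨N6, h6⟩ := fail_T (ε / 3) (by positivity)
  obtain ⟨N7, h7⟩ := Filter.eventually_atTop.1 (CodeSteps_root (1024000 / Δ ^ 2))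
  obtain ⟨N8, h8⟩ := Filter.eventually_atTop.1
    (CodeSteps_exp ((1 / 8000) ^ 2 / (32 * 1000) * Real.log 2) 2 (ε / 3) (by positivity)
      (by positivity))
  obtain ⟨N9, h9⟩ := Filter.eventually_atTop.1
    (CodeSteps_exp (Δ / 4 * Real.log 2) P (ε / 3) (by positivity) (by positivity))
  refine ⟨max (YY 0) (P + 4), N1 + N2 + N3 + N4 + N5 + N6 + N7 + N8 + N9 + 100, ?_⟩
  intro n hn F _ _ hq
  specialize h1 n (by omega) F
  specialize h2 n (by omega) F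
  specialize h3 n (by omega)
  specialize h4 n (by omega) F
  specialize h5 n (by omega)
  specialize h6 n (by omega) F
  specialize h7 n (by omega)
  specialize h8 n (by omega)
  specialize h9 n (by omega)
  have hn100 : (100 : ℝ) ≤ n := by
    have : 100 ≤ n := by omega
    exact_mod_cast this
  have hn0 : (0 : ℝ) < n := by linarith
  have hq2 : (2 : ℝ) ≤ Fintype.card F := by
    exact_mod_cast Fintype.one_lt_card (α := F)
  have hlq : Real.log 2 ≤ Real.log (Fintype.card F) := Real.log_le_log (by norm_num) hq2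
  have hn34 : (1 : ℝ) ≤ (n : ℝ) ^ (3 / 4 : ℝ) := Real.one_le_rpow (by linarith) (by norm_num)
  -- the first letter
  have hbase := baseStepL (F := F) (n := n) (K := 1000) (by norm_num) (Δ := 1 / 8000)
    (by norm_num) (by norm_num)
    (by
      have := h1.1
      push_cast
      nlinarith)
    (by
      refine le_trans ?_ h1.2
      push_cast
      have : (0 : ℝ) ≤ (Fintype.card F : ℝ) ^ 2 := by positivity
      refine mul_le_mul_of_nonneg_right ?_ this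
      nlinarith)
  -- the first levels
  have hn2 : (10000 : ℝ) ≤ (n : ℝ) ^ 2 := by nlinarith
  have hX1 : 2000 * Real.log 2 ≤ (n : ℝ) ^ 2 * Real.log (Fintype.card F) := by nlinarith
  have hroot : 1 ≤ (n : ℝ) ^ (1 / 2 : ℝ) * Real.log 2 := by
    have e1 : (10 : ℝ) ≤ (n : ℝ) ^ (1 / 2 : ℝ) := by
      rw [← Real.sqrt_eq_rpow]
      apply Real.le_sqrt_of_sq_le
      linarith
    have e2 : (0.6931471803 : ℝ) < Real.log 2 := Real.log_two_gt_d9
    nlinarith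
  have hX2 : (n : ℝ) ^ 2 * Real.log (Fintype.card F) ≤
      (n : ℝ) ^ ((3 + (P : ℝ)) / 2) * Real.log 2 := by
    have e1 : (n : ℝ) ^ ((3 + (P : ℝ)) / 2) = (n : ℝ) ^ 2 * (n : ℝ) ^ A * (n : ℝ) ^ (1 / 2 : ℝ) := by
      rw [← Real.rpow_natCast (n : ℝ) 2, ← Real.rpow_natCast (n : ℝ) A, ← Real.rpow_add hn0,
        ← Real.rpow_add hn0]
      congr 1
      rw [hP]
      push_cast
      ring
    rw [e1]
    calc (n : ℝ) ^ 2 * Real.log (Fintype.card F) ≤ (n : ℝ) ^ 2 * (n : ℝ) ^ A :=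
          mul_le_mul_of_nonneg_left hq (by positivity)
      _ = (n : ℝ) ^ 2 * (n : ℝ) ^ A * 1 := (mul_one _).symm
      _ ≤ (n : ℝ) ^ 2 * (n : ℝ) ^ A * ((n : ℝ) ^ (1 / 2 : ℝ) * Real.log 2) :=
          mul_le_mul_of_nonneg_left hroot (by positivity)
      _ = (n : ℝ) ^ 2 * (n : ℝ) ^ A * (n : ℝ) ^ (1 / 2 : ℝ) * Real.log 2 := by ring
  have hbig : 1024000 ≤ Δ ^ 2 * (n : ℝ) ^ (1 / 2 : ℝ) := by
    rw [div_le_iff₀ (by positivity)] at h7
    linarith
  obtain ⟨l1, s1, e1, e2, e3, e4, e5⟩ := pre_iter (F := F) hΔ0 hΔ1 h2 (by omega) hbig P (1 / 8000) 1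
    (Real.log 2) (by norm_num) (by rw [hPΔ]; norm_num) le_rfl hX1 hX2
  -- the levels
  have hs1 : 0 < s1 := by linarith
  have hpos : (0 : ℝ) < 1 / 2 ^ TT n := by positivity
  obtain ⟨l2, s2, f1, f2, f3, f4, f5⟩ := lev_iter (F := F) h4 (TT n) le_rfl (1 / 8000 + P * Δ) l1 s1
    (by rw [hPΔ]; norm_num) (by rw [hPΔ]; linarith) e2 e4
    (e3.trans (mul_le_mul_of_nonneg_right h5 hs1.le)) e3
  have hs2 : 0 < s2 := by linarith
  refine ⟨1 + P + TT n, l2, s2, ?_, ?_, f4, ?_, ?_⟩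
  · push_cast
    have := le_max_right (YY 0) ((P : ℝ) + 4)
    linarith
  · exact f3.trans (mul_le_mul_of_nonneg_right (le_max_left _ _) hs2.le)
  · have g1 : s1 * (((l2 : ℝ) + 1) * Real.log 2) = s1 * (2 * s2) := by
      calc s1 * (((l2 : ℝ) + 1) * Real.log 2) = (((l2 : ℝ) + 1) * s1) * Real.log 2 := by ring
        _ = (((l1 : ℝ) + 1) * s2) * Real.log 2 := by rw [f1]
        _ = (((l1 : ℝ) + 1) * Real.log 2) * s2 := by ring
        _ = ((((1 : ℕ) : ℝ) + 1) * s1) * s2 := by rw [e1]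
        _ = s1 * (2 * s2) := by push_cast; ring
    exact (mul_left_cancel₀ hs1.ne' g1).le
  · have g1 := StepG.comp (StepG.comp hbase e5 (by positivity)) f5 (by positivity)
    refine StepG.weaken g1 (fun _ h => h) (fun S h => hasCode_weaken ?_ le_rfl le_rfl h) ?_
    · rw [hPΔ]
      linarith
    · have g2 : 2 * Real.exp (-((1 / 8000 : ℝ) ^ 2 * (n ^ 2 * Real.log (Fintype.card F)) /
          (32 * ((1000 : ℕ) : ℝ)))) ≤ ε / 3 := by
        refine le_trans ?_ h8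
        refine mul_le_mul_of_nonneg_left (Real.exp_le_exp.2 (neg_le_neg ?_)) (by norm_num)
        have g3 : (n : ℝ) * Real.log 2 ≤ (n : ℝ) ^ 2 * Real.log (Fintype.card F) := by
          refine mul_le_mul ?_ hlq hlog2.le (by positivity)
          exact le_self_pow₀ (by linarith only [hn100]) two_ne_zero
        push_cast
        calc (1 / 8000 : ℝ) ^ 2 / (32 * 1000) * Real.log 2 * n
            = (1 / 8000 : ℝ) ^ 2 / (32 * 1000) * ((n : ℝ) * Real.log 2) := by ring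
          _ ≤ (1 / 8000 : ℝ) ^ 2 / (32 * 1000) * ((n : ℝ) ^ 2 * Real.log (Fintype.card F)) :=
              mul_le_mul_of_nonneg_left g3 (by positivity)
          _ = (1 / 8000 : ℝ) ^ 2 * ((n : ℝ) ^ 2 * Real.log (Fintype.card F)) / (32 * 1000) := by
              ring
      have g4 : (P : ℝ) * Real.exp (-(Δ * n / 4 * Real.log (Fintype.card F))) ≤ ε / 3 := by
        refine le_trans ?_ h9
        refine mul_le_mul_of_nonneg_left (Real.exp_le_exp.2 (neg_le_neg ?_)) hP0.le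
        calc Δ / 4 * Real.log 2 * n = Δ * n / 4 * Real.log 2 := by ring
          _ ≤ Δ * n / 4 * Real.log (Fintype.card F) :=
              mul_le_mul_of_nonneg_left hlq (by positivity)
      linarith

end Pool.Agent.RCL
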