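import Pool.Agent.W_6acff7c_h33.Defs

/-!
# Counting the answers which lead to a coincidence

PROOF of `coin_same`: `r ↦ g r` is a bijection onto `S`, and `|S| = q ^ finrank S`
(`Module.card_eq_pow_finrank`, `Nat.card`).
PROOF of `coin_change`: for fixed `μ` the linear map `T = g - μ` has kernel of dimension `kdim g μ ≤ k`,
so `{r | T r ∈ S} = S.comap T` has dimension at most `k + finrank S` (rank-nullity for the restriction of
`T` to `S.comap T`), hence at most `q ^ (k + finrank S)` elements; sum over the `q` values of `μ`
(`Nat.card` of a union, or cover by a sigma type and `Nat.card_le_card_of_injective`).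
-/

open Finset Pool.Agent.RCG

namespace Pool.Agent.RCL

variable {F : Type*} [Field F] [Fintype F] {n : ℕ}

theorem card_sub (S : Submodule F (Fin n → F)) :
    Nat.card S = Fintype.card F ^ Module.finrank F S := by
  classical
  haveI : Fintype S := Fintype.ofFinite _
  rw [Nat.card_eq_fintype_card]
  exact Module.card_eq_pow_finrank

theorem coin_same (g : SLn F n) (S : Submodule F (Fin n → F)) :
    Nat.card {r : Fin n → F // g.1 r ∈ S} = Fintype.card F ^ Module.finrank F S := by
  rw [← card_sub S]
  refine Nat.card_congr ?_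
  exact
    { toFun := fun r => ⟨g.1 r.1, r.2⟩
      invFun := fun s => ⟨g.1.symm s.1, by rw [LinearEquiv.apply_symm_apply]; exact s.2⟩
      left_inv := fun r => Subtype.ext (g.1.symm_apply_apply r.1)
      right_inv := fun s => Subtype.ext (g.1.apply_symm_apply s.1) }

private theorem Coin_comap_finrank (T : (Fin n → F) →ₗ[F] (Fin n → F))
    (S : Submodule F (Fin n → F)) :
    Module.finrank F (S.comap T) ≤ Module.finrank F (LinearMap.ker T) + Module.finrank F S := by
  classical
  -- restrict `T` to the preimage of `S`
  let R : (S.comap T) →ₗ[F] S := T.restrict (p := S.comap T) (q := S) (fun x hx => hx)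
  have h1 := LinearMap.finrank_range_add_finrank_ker R
  have h2 : Module.finrank F (LinearMap.range R) ≤ Module.finrank F S :=
    Submodule.finrank_le _
  have h3 : Module.finrank F (LinearMap.ker R) ≤ Module.finrank F (LinearMap.ker T) := by
    let J : (LinearMap.ker R) →ₗ[F] (LinearMap.ker T) :=
      { toFun := fun x => ⟨x.1.1, by
          have hx : R x.1 = 0 := x.2
          have hx2 : (R x.1 : Fin n → F) = 0 := by rw [hx]; rfl
          exact hx2⟩
        map_add' := fun x y => rfl
        map_smul' := fun c x => rfl }
    refine LinearMap.finrank_le_finrank_of_injective (f := J) ?_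
    intro x y hxy
    apply Subtype.ext
    apply Subtype.ext
    exact congrArg (fun z : LinearMap.ker T => (z : Fin n → F)) hxy
  omega

theorem coin_change (g : SLn F n) {k : ℕ} (hk : ∀ μ : F, kdim g μ ≤ k)
    (S : Submodule F (Fin n → F)) :
    Nat.card {r : Fin n → F // ∃ μ : F, g.1 r - μ • r ∈ S} ≤
      Fintype.card F ^ (1 + k + Module.finrank F S) := by
  classical
  have hq : 0 < Fintype.card F := Fintype.card_pos
  let T : F → ((Fin n → F) →ₗ[F] (Fin n → F)) := fun μ =>
    ((g.1 : (Fin n → F) →ₗ[F] (Fin n → F)) - μ • LinearMap.id)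
  have hT : ∀ μ (r : Fin n → F), T μ r = g.1 r - μ • r := fun μ r => rfl
  -- cover by a sigma type
  let f : {r : Fin n → F // ∃ μ : F, g.1 r - μ • r ∈ S} → (Σ μ : F, (S.comap (T μ) : Submodule F (Fin n → F))) :=
    fun r => ⟨r.2.choose, ⟨r.1, r.2.choose_spec⟩⟩
  have hf : Function.Injective f := by
    intro x y hxy
    apply Subtype.ext
    have := congrArg (fun z : (Σ μ : F, (S.comap (T μ) : Submodule F (Fin n → F))) => (z.2 : Fin n → F)) hxy
    exact this
  have h1 := Nat.card_le_card_of_injective f hf
  refine h1.trans ?_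
  rw [Nat.card_sigma]
  have h2 : ∀ μ : F, Nat.card (S.comap (T μ) : Submodule F (Fin n → F)) ≤
      Fintype.card F ^ (k + Module.finrank F S) := by
    intro μ
    rw [card_sub]
    refine Nat.pow_le_pow_right hq ?_
    exact (Coin_comap_finrank (T μ) S).trans (Nat.add_le_add_right (hk μ) _)
  calc ∑ μ : F, Nat.card (S.comap (T μ) : Submodule F (Fin n → F))
      ≤ ∑ _μ : F, Fintype.card F ^ (k + Module.finrank F S) := Finset.sum_le_sum fun μ _ => h2 μ
    _ = Fintype.card F ^ (1 + k + Module.finrank F S) := by
        rw [Finset.sum_const, Finset.card_univ, smul_eq_mul, add_assoc, pow_add (Fintype.card F) 1, pow_one]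

end Pool.Agent.RCL
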