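import Pool.Agent.W_6acff7c_h33.BigDefs
import Pool.Agent.W_6acff7c_h33.Coin

/-!
# An element with a cyclic vector is good

PROOF.  For `c : Fin (K + 1) → F`, `c ≠ 0`, put `T_c = ∑ c_e g ^ e` and let `d ≤ K` be the largest index
with `c_d ≠ 0`.  The vectors `T_c (g ^ j v0)`, `j + d < n`, are linearly independent: `T_c g ^ j v0` is
`c_d g ^ (j + d) v0` plus a combination of the `g ^ i v0`, `i < j + d` (a nontrivial relation between them
gives, looking at the largest `j`, a nontrivial relation between the `g ^ i v0`, `i < n`).  So `T_c` has rank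
at least `n - d` and `dim ker T_c ≤ d ≤ K` (also if `d ≥ n`).  A vector `v` in `shortV K g` lies in `ker T_c`
for some `c ≠ 0`, so `|shortV K g| ≤ q ^ (K + 1) q ^ K = q ^ (2 K + 1) ≤ q ^ (κ n)`.
-/

open Finset Pool.Agent.RCG

namespace Pool.Agent.RCL

variable {F : Type*} [Field F] [Fintype F] {n : ℕ}

/-- The linear map `∑ c_e g ^ e`. -/
private noncomputable def CycGood_T {K : ℕ} (g : SLn F n) (c : Fin (K + 1) → F) :
    (Fin n → F) →ₗ[F] (Fin n → F) :=
  ∑ e : Fin (K + 1), c e • ((g ^ (e : ℕ)).1 : (Fin n → F) →ₗ[F] (Fin n → F))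

omit [Fintype F] in
private theorem CycGood_T_apply {K : ℕ} (g : SLn F n) (c : Fin (K + 1) → F) (v : Fin n → F) :
    CycGood_T g c v = ∑ e : Fin (K + 1), c e • (g ^ (e : ℕ)).1 v := by
  unfold CycGood_T
  rw [LinearMap.sum_apply]
  rfl

omit [Fintype F] in
private theorem CycGood_ker {K : ℕ} (g : SLn F n) (v0 : Fin n → F)
    (hv : LinearIndependent F (fun j : Fin n => (g ^ (j : ℕ)).1 v0)) (c : Fin (K + 1) → F)
    (hc : c ≠ 0) : Module.finrank F (LinearMap.ker (CycGood_T g c)) ≤ K := by
  classical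
  obtain ⟨e0, he0⟩ := Function.ne_iff.1 hc
  have he0' : c e0 ≠ 0 := he0
  obtain ⟨d, hd1, hd2⟩ : ∃ d : Fin (K + 1), c d ≠ 0 ∧ ∀ e, d < e → c e = 0 := by
    have hne : (Finset.univ.filter fun e => c e ≠ 0).Nonempty :=
      ⟨e0, Finset.mem_filter.2 ⟨Finset.mem_univ _, he0'⟩⟩
    refine ⟨(Finset.univ.filter fun e => c e ≠ 0).max' hne, ?_, ?_⟩
    · exact (Finset.mem_filter.1 (Finset.max'_mem _ hne)).2
    · intro e he
      by_contra hce
      have := Finset.le_max' (Finset.univ.filter fun e => c e ≠ 0) e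
        (Finset.mem_filter.2 ⟨Finset.mem_univ _, hce⟩)
      exact absurd he (not_lt.2 this)
  set U : Submodule F (Fin n → F) := LinearMap.range (CycGood_T g c) ⊔
    Submodule.span F (Set.range fun j : Fin (d : ℕ) => (g ^ (j : ℕ)).1 v0) with hU
  have hmem : ∀ j : ℕ, (g ^ j).1 v0 ∈ U := by
    intro j
    induction j using Nat.strong_induction_on with
    | _ j ih =>
      rcases Nat.lt_or_ge j (d : ℕ) with hj | hj
      · exact Submodule.mem_sup_right (Submodule.subset_span ⟨⟨j, hj⟩, rfl⟩)
      · obtain ⟨i, rfl⟩ : ∃ i, j = (d : ℕ) + i := ⟨j - d, by omega⟩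
        have h1 : CycGood_T g c ((g ^ i).1 v0) =
            ∑ e : Fin (K + 1), c e • (g ^ ((e : ℕ) + i)).1 v0 := by
          rw [CycGood_T_apply]
          refine Finset.sum_congr rfl fun e _ => ?_
          rw [pow_add]
          rfl
        have h2 : CycGood_T g c ((g ^ i).1 v0) ∈ U :=
          Submodule.mem_sup_left (LinearMap.mem_range_self _ _)
        rw [h1, ← Finset.add_sum_erase _ _ (Finset.mem_univ d)] at h2
        have h3 : ∑ e ∈ Finset.univ.erase d, c e • (g ^ ((e : ℕ) + i)).1 v0 ∈ U := by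
          refine Submodule.sum_mem _ fun e he => ?_
          rcases lt_trichotomy e d with h4 | h4 | h4
          · refine Submodule.smul_mem _ _ (ih _ ?_)
            have : (e : ℕ) < (d : ℕ) := h4
            omega
          · exact absurd h4 (Finset.ne_of_mem_erase he)
          · rw [hd2 e h4, zero_smul]
            exact Submodule.zero_mem _
        have h4 : c d • (g ^ ((d : ℕ) + i)).1 v0 ∈ U := (Submodule.add_mem_iff_left _ h3).1 h2
        have h5 := Submodule.smul_mem U (c d)⁻¹ h4
        rwa [smul_smul, inv_mul_cancel₀ hd1, one_smul] at h5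
  have htop : U = ⊤ := by
    rw [eq_top_iff]
    have h1 : Submodule.span F (Set.range fun j : Fin n => (g ^ (j : ℕ)).1 v0) = ⊤ :=
      hv.span_eq_top_of_card_eq_finrank' (by simp)
    rw [← h1, Submodule.span_le]
    rintro _ ⟨j, rfl⟩
    exact hmem j
  have h1 : n ≤ Module.finrank F (LinearMap.range (CycGood_T g c)) + d := by
    have h2 : Module.finrank F U = n := by
      rw [htop, finrank_top, Module.finrank_fin_fun]
    have h3 := Submodule.finrank_add_le_finrank_add_finrank (LinearMap.range (CycGood_T g c))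
      (Submodule.span F (Set.range fun j : Fin (d : ℕ) => (g ^ (j : ℕ)).1 v0))
    have h4 : Module.finrank F
        (Submodule.span F (Set.range fun j : Fin (d : ℕ) => (g ^ (j : ℕ)).1 v0)) ≤ d := by
      have h5 := finrank_range_le_card (R := F) (fun j : Fin (d : ℕ) => (g ^ (j : ℕ)).1 v0)
      rw [Fintype.card_fin] at h5
      exact h5
    rw [← hU, h2] at h3
    omega
  have h2 := LinearMap.finrank_range_add_finrank_ker (CycGood_T g c)
  rw [Module.finrank_fin_fun] at h2
  have h3 : (d : ℕ) ≤ K := Nat.lt_succ_iff.1 d.2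
  omega

theorem cyc_good {K : ℕ} {κ : ℝ} (g : SLn F n) (v0 : Fin n → F)
    (hv : LinearIndependent F (fun j : Fin n => (g ^ (j : ℕ)).1 v0))
    (h : (2 * K + 1 : ℝ) ≤ κ * n) : Good K κ g := by
  classical
  have hq : 0 < Fintype.card F := Fintype.card_pos
  have hq1 : (1 : ℝ) ≤ (Fintype.card F : ℝ) := by exact_mod_cast hq
  have hex : ∀ v : shortV K g, ∃ c : Fin (K + 1) → F, c ≠ 0 ∧ CycGood_T g c v.1 = 0 := by
    rintro ⟨v, hv⟩
    have hv' : ¬ LinearIndependent F (fun e : Fin (K + 1) => (g ^ (e : ℕ)).1 v) := hv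
    rw [Fintype.not_linearIndependent_iff] at hv'
    obtain ⟨c, hc, i, hi⟩ := hv'
    refine ⟨c, fun h0 => hi (by rw [h0]; rfl), ?_⟩
    rw [CycGood_T_apply]
    exact hc
  choose c hc0 hc using hex
  let f : shortV K g → (Σ c : {c : Fin (K + 1) → F // c ≠ 0}, LinearMap.ker (CycGood_T g c.1)) :=
    fun v => ⟨⟨c v, hc0 v⟩, ⟨v.1, hc v⟩⟩
  have hf : Function.Injective f := by
    intro x y hxy
    apply Subtype.ext
    exact congrArg (fun z : (Σ c : {c : Fin (K + 1) → F // c ≠ 0},
      LinearMap.ker (CycGood_T g c.1)) => (z.2 : Fin n → F)) hxy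
  have h1 := Nat.card_le_card_of_injective f hf
  rw [Nat.card_sigma] at h1
  have h2 : ∀ c : {c : Fin (K + 1) → F // c ≠ 0},
      Nat.card (LinearMap.ker (CycGood_T g c.1)) ≤ Fintype.card F ^ K := by
    intro c
    rw [card_sub]
    exact Nat.pow_le_pow_right hq (CycGood_ker g v0 hv c.1 c.2)
  have h3 : Nat.card (shortV K g) ≤ Fintype.card F ^ (2 * K + 1) := by
    calc Nat.card (shortV K g)
        ≤ ∑ c : {c : Fin (K + 1) → F // c ≠ 0},
            Nat.card (LinearMap.ker (CycGood_T g c.1)) := h1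
      _ ≤ ∑ _c : {c : Fin (K + 1) → F // c ≠ 0}, Fintype.card F ^ K :=
          Finset.sum_le_sum fun c _ => h2 c
      _ = Fintype.card {c : Fin (K + 1) → F // c ≠ 0} * Fintype.card F ^ K := by
          rw [Finset.sum_const, Finset.card_univ, smul_eq_mul]
      _ ≤ Fintype.card F ^ (K + 1) * Fintype.card F ^ K := by
          refine Nat.mul_le_mul_right _ ?_
          have h4 := Fintype.card_subtype_le (fun c : Fin (K + 1) → F => c ≠ 0)
          rw [Fintype.card_fun, Fintype.card_fin] at h4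
          exact h4
      _ = Fintype.card F ^ (2 * K + 1) := by
          rw [← pow_add]
          congr 1
          ring
  unfold Good
  calc (Nat.card (shortV K g) : ℝ) ≤ (Fintype.card F : ℝ) ^ (2 * K + 1) := by exact_mod_cast h3
    _ = (Fintype.card F : ℝ) ^ ((2 * K + 1 : ℝ)) := by
        rw [← Real.rpow_natCast]
        congr 1
        push_cast
        ring
    _ ≤ (Fintype.card F : ℝ) ^ (κ * n) := Real.rpow_le_rpow_of_exponent_le hq1 h

end Pool.Agent.RCL
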