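import Pool.Agent.W_6acff7b_h70.Cover2
import Pool.Agent.W_MP_6acff7_h70.Words

/-!
# Random Cayley graphs of `PSL_n(q)`: definitions

Working folder for MP_6acff7_al, third development (helper33).  Everything new lives in `Pool.Agent.RCL`;
the files on arbitrary finite groups of the first two developments (`Pool.Agent.RCG`) are reused.
Throughout `V = Fin n → F` for a finite field `F` with `q` elements.
-/

open Finset Pool.Agent.RCG

namespace Pool.Agent.RCL

section General

variable {G : Type*} [Group G] [Fintype G]

/-- After `k` more uniformly random letters are added to a set of letters with property `Q`, the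
new set has property `Q'` except with probability at most `ε`. -/
def StepG (G : Type*) [Group G] [Fintype G] (k : ℕ) (ε : ℝ) (Q Q' : Set G → Prop) : Prop :=
  ∀ S : Set G, Q S → pr (fun z : Fin k → G => ¬ Q' (S ∪ Set.range z)) ≤ ε

/-- Monotone property of sets of letters. -/
def MonoG {G : Type*} (Q : Set G → Prop) : Prop := ∀ S S' : Set G, S ⊆ S' → Q S → Q S'

/-- Every element is a word of length at most `l`. -/
def HasAllG {G : Type*} [Group G] (l : ℕ) (S : Set G) : Prop := ∀ g : G, WL S l g

/-- `y` or its inverse. -/
def act {G : Type*} [Group G] (b : Bool) (y : G) : G := if b then y else y⁻¹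

/-- The product `(a_1 y) (a_2 y) ⋯ (a_r y)` for a list `[a_1, ..., a_r]`. -/
def qp {G : Type*} [Group G] (A : List G) (y : G) : G := (A.map fun a => a * y).prod

end General

section Linear

variable {F : Type*} [Field F] {n : ℕ}

/-- The special linear group of `V = Fin n → F`. -/
abbrev SLn (F : Type*) [Field F] (n : ℕ) : Type _ := SpecialLinearGroup F (Fin n → F)

instance [Finite F] : Finite (SLn F n) := by
  haveI : Finite ((Fin n → F) ≃ₗ[F] (Fin n → F)) :=
    Finite.of_injective (fun e : (Fin n → F) ≃ₗ[F] (Fin n → F) => (e : (Fin n → F) → (Fin n → F)))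
      DFunLike.coe_injective
  exact Subtype.finite

noncomputable instance [Fintype F] : Fintype (SLn F n) := Fintype.ofFinite _

/-- The pointwise stabiliser of a subspace `D`. -/
def PS (D : Submodule F (Fin n → F)) : Subgroup (SLn F n) where
  carrier := {g | ∀ d ∈ D, g.1 d = d}
  one_mem' := fun d _ => rfl
  mul_mem' := by
    intro a b ha hb d hd
    change a.1 (b.1 d) = d
    rw [hb d hd, ha d hd]
  inv_mem' := by
    intro a ha d hd
    change a.1.symm d = d
    rw [LinearEquiv.symm_apply_eq]
    exact (ha d hd).symm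

/-- The image of the subspace `D` under `g`. -/
def mv (g : SLn F n) (D : Submodule F (Fin n → F)) : Submodule F (Fin n → F) :=
  D.map (g.1 : (Fin n → F) →ₗ[F] (Fin n → F))

/-- Dimension of the `μ`-eigenspace of `g`. -/
noncomputable def kdim (g : SLn F n) (μ : F) : ℕ :=
  Module.finrank F (LinearMap.ker ((g.1 : (Fin n → F) →ₗ[F] (Fin n → F)) - μ • LinearMap.id))

/-- The vectors `v` such that `v, g v, ..., g ^ K v` are linearly dependent. -/
def shortV (K : ℕ) (g : SLn F n) : Set (Fin n → F) :=
  {v | ¬ LinearIndependent F (fun e : Fin (K + 1) => (g ^ (e : ℕ)).1 v)}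

/-- At most `q ^ (κ n)` vectors `v` have `v, g v, ..., g ^ K v` linearly dependent. -/
def Good [Fintype F] (K : ℕ) (κ : ℝ) (g : SLn F n) : Prop :=
  (Nat.card (shortV K g) : ℝ) ≤ (Fintype.card F : ℝ) ^ (κ * n)

/-- There is a family of at least `exp s` words of length at most `l` such that all quotients of two
different members are good. -/
def HasCode [Fintype F] (K : ℕ) (κ : ℝ) (l : ℕ) (s : ℝ) (S : Set (SLn F n)) : Prop :=
  ∃ k : ℕ, Real.exp s ≤ k ∧ ∃ w : Fin k → SLn F n, (∀ i, WL S l (w i)) ∧
    ∀ i j, i ≠ j → Good K κ ((w i)⁻¹ * w j)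

/-- Run through a list of steps: the step `(b, a)` maps `v` to `a y v` or `a y⁻¹ v`. -/
def run (y : SLn F n) : List (Bool × SLn F n) → (Fin n → F) → (Fin n → F)
  | [], v => v
  | p :: L, v => run y L (p.2.1 ((act p.1 y).1 v))

/-- Some vector met after the first one lies in the span of `H` and the vectors met before it. -/
def Dep (y : SLn F n) : List (Bool × SLn F n) → Submodule F (Fin n → F) → (Fin n → F) → Prop
  | [], _, _ => False
  | p :: L, H, v => p.2.1 ((act p.1 y).1 v) ∈ H ⊔ Submodule.span F {v} ∨
      Dep y L (H ⊔ Submodule.span F {v}) (p.2.1 ((act p.1 y).1 v))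

/-- Steps `p`, `p'` may follow each other: if the sign changes then all eigenspaces of the matrix of
`p` have dimension at most `k`. -/
def Adm (k : ℕ) (p p' : Bool × SLn F n) : Prop := p.1 ≠ p'.1 → ∀ μ : F, kdim p.2 μ ≤ k

open Classical in
/-- Average of `φ` over the elements which agree with `y0` on `D`. -/
noncomputable def cE [Fintype F] (D : Submodule F (Fin n → F)) (y0 : SLn F n) (φ : SLn F n → ℝ) : ℝ :=
  (∑ a : ↥(PS D), φ (y0 * a)) / (Nat.card ↥(PS D) : ℝ)

section Rep

variable {E : Type*} [NormedAddCommGroup E] [InnerProductSpace ℝ E]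

/-- `u` is fixed by the pointwise stabiliser of `D`. -/
def FixL (ρ : SLn F n →* Module.End ℝ E) (D : Submodule F (Fin n → F)) (u : E) : Prop :=
  ∀ g ∈ PS D, ρ g u = u

/-- The span of all vectors fixed by the pointwise stabiliser of some `b`-dimensional subspace. -/
def FsubL (ρ : SLn F n →* Module.End ℝ E) (b : ℕ) : Submodule ℝ E :=
  Submodule.span ℝ {u | ∃ D : Submodule F (Fin n → F), Module.finrank F D = b ∧ FixL ρ D u}

end Rep

/-- The level of `α`: the least `b` such that the joint eigenspace lies in `FsubL b`. -/
noncomputable def levL [Fintype F] (α : SLn F n → ℝ) : ℕ :=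
  sInf {b | JE α ≤ FsubL (regR (SLn F n)) b}

end Linear

end Pool.Agent.RCL
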