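import Pool.Agent.W_6acff7c_h33.SumStab
import Pool.Agent.W_6acff7c_h33.CE
import Pool.Agent.W_6acff7c_h33.Coin

/-!
# The exploration lemma

`y` is random among the elements which agree with `y0` on `D`.  We follow the path of a vector `x`:
`x ↦ a y x` or `x ↦ a y⁻¹ x` for the steps `(b, a)` of `L`.  `H` is a subspace containing the vectors met
before `x`.  `Dep y L H x` says that some vector met after `x` lies in the span of `H` and the vectors
met before it.  The condition `hx` says that the first query is fresh.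

PROOF of `explore`.  Put `q = |F|`, `β = 2 q ^ (k + 2 + c) / q ^ n`.  Strong induction on the length of
`L`, for all `D, H, y0, x, φ`.  `L = []`: `Dep` is false, both sides are `0` (`cE_const`).
`L = p :: L'`, `p = (b, a)`.

Reduction to `b = true`.  Let `flip L` be `L` with all signs negated.  Then
`Dep y L H x ↔ Dep y⁻¹ (flip L) H x` (`act (!b) y⁻¹ = act b y`), `flip L` is again a chain for `Adm k`,
`side b y0 D = side (!b) y0⁻¹ (mv y0 D)` (use `mv_mul`, `mv_one`), `finrank (mv y0 D) = finrank D` and by
`cE_inv` `cE D y0 (fun y => if Dep y L H x then φ y else 0)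
= cE (mv y0 D) y0⁻¹ (fun y => if Dep y (flip L) H x then φ y⁻¹ else 0)`, and the hypothesis `hB` holds for
`fun y => φ y⁻¹` again by `cE_inv`.  So the case `b = false` follows from the case `b = true` for lists
of the same length.

Case `b = true`: `x ∉ D ⊔ H`; in particular `x ∉ D`.  Put `D' = D ⊔ span {x}`, `H' = H ⊔ span {x}`.  By
`cE_tower` the left side is the average over `a' ∈ PS D` of `cE D' y' (...)`, `y' = y0 * a'`.  Every `y`
which agrees with `y'` on `D'` has `y x = y' x =: r = y0 (a' x)`, so the next vector is `x' = a r`, and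
`Dep y L H x ↔ x' ∈ H' ∨ Dep y L' H' x'`.  Call `a'` bad if
  (i) `L' = []` and `x' ∈ H'`, or
  (ii) `L' = p' :: _` and `x' ∈ side p'.1 y' D' ⊔ H'`.
If `a'` is bad, `cE D' y' (...) ≤ cE D' y' φ ≤ B` (`hB`, as `finrank D' ≤ finrank D + 1`).  If `a'` is not
bad, then `x' ∉ H'` so `Dep y L H x ↔ Dep y L' H' x'`, and the induction hypothesis for
`L', D', H', y', x'` gives `cE D' y' (...) ≤ L'.length * β * B` (for `L' = []` it is `0`).
Note `0 ≤ B` (from `hB` with `D' = D`, as `φ ≥ 0`).
Fraction of bad `a'`: (number of `a' ∈ PS D` with `a' x ∈ R`) `= |PS D| |R \ D| / (q ^ n - q ^ dim D)` by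
`sum_stab` with `f` the indicator of `R`, and `q ^ n - q ^ dim D ≥ q ^ n / 2`.  Here `R` is the set of
`r1` (`= a' x`) such that `a (y0 r1)` is bad:
  if `L' = []` or the next sign is `true`: `a (y0 r1) ∈ D ⊔ span {x} ⊔ H =: S` (contains `H'`), at most
  `q ^ (dim D + 1 + dim H)` values (`coin_same` for `a * y0`);
  if the next sign is `false`: `a r ∈ mv y' D' ⊔ H' = mv y0 D ⊔ span {r} ⊔ H ⊔ span {x}` with `r = y0 r1`
  (`mv y' D' = mv y0 D ⊔ span {y' x}` as `a' = 1` on `D`), i.e. `a r - μ • r ∈ S := mv y0 D ⊔ H ⊔ span {x}` for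
  some `μ`; since the sign changes `Adm k` gives `kdim a μ ≤ k` for all `μ`, so by `coin_change` there are at
  most `q ^ (1 + k + dim D + dim H + 1)` such `r`, hence such `r1 = y0⁻¹ r`.
Both are at most `q ^ (k + 2 + c)`, so the fraction is at most `β`, and in total
`cE D y0 (...) ≤ β * B + L'.length * β * B = L.length * β * B`.
-/

open Finset Pool.Agent.RCG

namespace Pool.Agent.RCL

variable {F : Type*} [Field F] [Fintype F] {n : ℕ}

/-- The subspace on which the query with sign `b` is already known. -/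
def side (b : Bool) (y0 : SLn F n) (D : Submodule F (Fin n → F)) : Submodule F (Fin n → F) :=
  if b then D else mv y0 D

/-- Negate all signs. -/
def Explore_flip (L : List (Bool × SLn F n)) : List (Bool × SLn F n) := L.map fun p => (!p.1, p.2)

theorem Explore_act (b : Bool) (y : SLn F n) : act (!b) y⁻¹ = act b y := by
  cases b <;> simp [act]

theorem Explore_dep_flip (y : SLn F n) (L : List (Bool × SLn F n)) (H : Submodule F (Fin n → F))
    (x : Fin n → F) : Dep y⁻¹ (Explore_flip L) H x ↔ Dep y L H x := by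
  induction L generalizing H x with
  | nil => simp [Explore_flip, Dep]
  | cons p L ih =>
    have h : Explore_flip (p :: L) = (!p.1, p.2) :: Explore_flip L := rfl
    rw [h]
    simp only [Dep, Explore_act, ih]

theorem Explore_flip_chain {k : ℕ} (L : List (Bool × SLn F n)) (hL : L.IsChain (Adm k)) :
    (Explore_flip L).IsChain (Adm k) := by
  unfold Explore_flip
  rw [List.isChain_map]
  refine hL.imp ?_
  intro a b hab h
  exact hab (by simpa using h)

theorem Explore_side (b : Bool) (y0 : SLn F n) (D : Submodule F (Fin n → F)) :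
    side (!b) y0⁻¹ (mv y0 D) = side b y0 D := by
  cases b
  · simp [side]
  · simp only [side]
    simp
    rw [← mv_mul, inv_mul_cancel, mv_one]


theorem Explore_frac (D : Submodule F (Fin n → F)) (hD : Module.finrank F D + 2 ≤ n)
    {x : Fin n → F} (hx : x ∉ D) (R : Set (Fin n → F)) {c' : ℕ}
    (hR : Nat.card R ≤ Fintype.card F ^ c') :
    (Nat.card {a : ↥(PS D) // a.1.1 x ∈ R} : ℝ) ≤
      Nat.card ↥(PS D) * (2 * (Fintype.card F : ℝ) ^ c' / (Fintype.card F : ℝ) ^ n) := by
  classical
  have hq : (2 : ℝ) ≤ Fintype.card F := by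
    exact_mod_cast Fintype.one_lt_card
  have hq1 : (1 : ℝ) ≤ Fintype.card F := by linarith
  have hq0 : (0 : ℝ) < Fintype.card F := by linarith
  have h := sum_stab D hD hx (fun r => if r ∈ R then (1 : ℝ) else 0)
  have h1 : (∑ a : ↥(PS D), if a.1.1 x ∈ R then (1 : ℝ) else 0) =
      (Nat.card {a : ↥(PS D) // a.1.1 x ∈ R} : ℝ) := by
    rw [Finset.sum_boole, Nat.card_eq_fintype_card, Fintype.card_subtype]
  have h2 : (∑ r ∈ univ.filter (fun r : Fin n → F => r ∉ D), if r ∈ R then (1 : ℝ) else 0) ≤
      (Fintype.card F : ℝ) ^ c' := by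
    have h3 : (∑ r ∈ univ.filter (fun r : Fin n → F => r ∉ D), if r ∈ R then (1 : ℝ) else 0) ≤
        ∑ r : Fin n → F, if r ∈ R then (1 : ℝ) else 0 := by
      apply Finset.sum_le_sum_of_subset_of_nonneg (Finset.filter_subset _ _)
      intro i _ _
      split_ifs <;> norm_num
    refine h3.trans ?_
    rw [Finset.sum_boole]
    have h4 : ((univ.filter fun r : Fin n → F => r ∈ R).card : ℝ) = (Nat.card R : ℝ) := by
      rw [Nat.card_eq_fintype_card, Fintype.card_subtype]
    rw [h4]
    exact_mod_cast hR
  rw [h1] at h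
  have hden : (Fintype.card F : ℝ) ^ n / 2 ≤
      (Fintype.card F : ℝ) ^ n - (Fintype.card F : ℝ) ^ Module.finrank F D := by
    have h5 : (Fintype.card F : ℝ) ^ Module.finrank F D * 2 ≤ (Fintype.card F : ℝ) ^ n := by
      calc (Fintype.card F : ℝ) ^ Module.finrank F D * 2
          ≤ (Fintype.card F : ℝ) ^ Module.finrank F D * Fintype.card F := by
            apply mul_le_mul_of_nonneg_left hq (by positivity)
        _ = (Fintype.card F : ℝ) ^ (Module.finrank F D + 1) := by ring
        _ ≤ _ := pow_le_pow_right₀ hq1 (by omega)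
    linarith
  have hqn : 0 < (Fintype.card F : ℝ) ^ n := by positivity
  have hcard0 : (0 : ℝ) ≤ Nat.card ↥(PS D) := Nat.cast_nonneg _
  have hX0 : (0 : ℝ) ≤ (Nat.card {a : ↥(PS D) // a.1.1 x ∈ R} : ℝ) := Nat.cast_nonneg _
  have h6 : (Fintype.card F : ℝ) ^ n / 2 * (Nat.card {a : ↥(PS D) // a.1.1 x ∈ R} : ℝ) ≤
      Nat.card ↥(PS D) * (Fintype.card F : ℝ) ^ c' := by
    calc _ ≤ ((Fintype.card F : ℝ) ^ n - (Fintype.card F : ℝ) ^ Module.finrank F D) *
          (Nat.card {a : ↥(PS D) // a.1.1 x ∈ R} : ℝ) := by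
          apply mul_le_mul_of_nonneg_right hden hX0
      _ = _ := h
      _ ≤ _ := by apply mul_le_mul_of_nonneg_left h2 hcard0
  have h7 : (Nat.card {a : ↥(PS D) // a.1.1 x ∈ R} : ℝ) =
      (Fintype.card F : ℝ) ^ n / 2 * (Nat.card {a : ↥(PS D) // a.1.1 x ∈ R} : ℝ) * 2 /
        (Fintype.card F : ℝ) ^ n := by
    field_simp
  rw [h7, div_le_iff₀ hqn]
  have h8 : (Nat.card ↥(PS D) : ℝ) * (2 * (Fintype.card F : ℝ) ^ c' / (Fintype.card F : ℝ) ^ n) *
      (Fintype.card F : ℝ) ^ n = Nat.card ↥(PS D) * (Fintype.card F : ℝ) ^ c' * 2 := by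
    field_simp
  rw [h8]
  linarith

/-- The set of bad answers. -/
def Explore_R (a y0 : SLn F n) (D H : Submodule F (Fin n → F)) (x : Fin n → F) :
    List (Bool × SLn F n) → Set (Fin n → F)
  | [] => {r | a.1 (y0.1 r) ∈ D ⊔ Submodule.span F {x} ⊔ H}
  | p :: _ => if p.1 then {r | a.1 (y0.1 r) ∈ D ⊔ Submodule.span F {x} ⊔ H}
      else {r | ∃ μ : F, a.1 (y0.1 r) - μ • y0.1 r ∈ mv y0 D ⊔ H ⊔ Submodule.span F {x}}

theorem Explore_finrank_sup_span (D : Submodule F (Fin n → F)) (x : Fin n → F) :
    Module.finrank F ↥(D ⊔ Submodule.span F {x}) ≤ Module.finrank F D + 1 := by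
  refine (Submodule.finrank_add_le_finrank_add_finrank _ _).trans ?_
  have h := finrank_span_le_card (R := F) ({x} : Set (Fin n → F))
  have h' : Module.finrank F ↥(Submodule.span F {x}) ≤ 1 := by simpa using h
  omega

theorem Explore_R_true (a y0 : SLn F n) (D H : Submodule F (Fin n → F)) (x : Fin n → F)
    (p : Bool × SLn F n) (L : List (Bool × SLn F n)) (hp : p.1 = true) :
    Explore_R a y0 D H x (p :: L) = {r | a.1 (y0.1 r) ∈ D ⊔ Submodule.span F {x} ⊔ H} := by
  simp only [Explore_R]
  rw [if_pos hp]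

theorem Explore_R_false (a y0 : SLn F n) (D H : Submodule F (Fin n → F)) (x : Fin n → F)
    (p : Bool × SLn F n) (L : List (Bool × SLn F n)) (hp : ¬ p.1 = true) :
    Explore_R a y0 D H x (p :: L) =
      {r | ∃ μ : F, a.1 (y0.1 r) - μ • y0.1 r ∈ mv y0 D ⊔ H ⊔ Submodule.span F {x}} := by
  simp only [Explore_R]
  rw [if_neg hp]

theorem Explore_R_card {k c : ℕ} (a y0 : SLn F n) (D H : Submodule F (Fin n → F)) (x : Fin n → F)
    (L : List (Bool × SLn F n)) (hL : ((true, a) :: L).IsChain (Adm k))
    (hdim : Module.finrank F D + Module.finrank F H ≤ c) :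
    Nat.card (Explore_R a y0 D H x L) ≤ Fintype.card F ^ (k + 2 + c) := by
  have hq1 : 1 ≤ Fintype.card F := Fintype.card_pos
  have hsame : Nat.card {r : Fin n → F | a.1 (y0.1 r) ∈ D ⊔ Submodule.span F {x} ⊔ H} ≤
      Fintype.card F ^ (k + 2 + c) := by
    have h1 := coin_same (a * y0) (D ⊔ Submodule.span F {x} ⊔ H)
    have h2 : Module.finrank F ↥(D ⊔ Submodule.span F {x} ⊔ H) ≤
        Module.finrank F D + 1 + Module.finrank F H := by
      refine (Submodule.finrank_add_le_finrank_add_finrank _ _).trans ?_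
      have := Explore_finrank_sup_span D x
      omega
    calc Nat.card {r : Fin n → F | a.1 (y0.1 r) ∈ D ⊔ Submodule.span F {x} ⊔ H}
        = Fintype.card F ^ Module.finrank F ↥(D ⊔ Submodule.span F {x} ⊔ H) := h1
      _ ≤ _ := Nat.pow_le_pow_right hq1 (by omega)
  cases L with
  | nil => exact hsame
  | cons p L =>
    by_cases hp : p.1 = true
    · rw [Explore_R_true _ _ _ _ _ _ _ hp]
      exact hsame
    · rw [Explore_R_false _ _ _ _ _ _ _ hp]
      have hadm : ∀ μ : F, kdim a μ ≤ k := by
        rw [List.isChain_cons_cons] at hL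
        exact hL.1 (fun h => hp h.symm)
      have h1 := coin_change a hadm (mv y0 D ⊔ H ⊔ Submodule.span F {x})
      have h2 : Module.finrank F ↥(mv y0 D ⊔ H ⊔ Submodule.span F {x}) ≤
          Module.finrank F D + Module.finrank F H + 1 := by
        refine (Explore_finrank_sup_span _ x).trans ?_
        have h3 := Submodule.finrank_add_le_finrank_add_finrank (mv y0 D) H
        rw [finrank_mv] at h3
        omega
      have h4 : Nat.card {r : Fin n → F | ∃ μ : F, a.1 (y0.1 r) - μ • y0.1 r ∈
          mv y0 D ⊔ H ⊔ Submodule.span F {x}} =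
          Nat.card {r : Fin n → F // ∃ μ : F, a.1 r - μ • r ∈
            mv y0 D ⊔ H ⊔ Submodule.span F {x}} := by
        apply Nat.card_congr
        exact Equiv.subtypeEquiv y0.1.toEquiv (fun r => Iff.rfl)
      rw [h4]
      refine h1.trans (Nat.pow_le_pow_right hq1 (by omega))

/-- If the answer is not bad the next query is fresh. -/
theorem Explore_fresh (a y0 y' : SLn F n) (D H : Submodule F (Fin n → F)) (x : Fin n → F)
    (hy' : ∀ d ∈ D, y'.1 d = y0.1 d) (r : Fin n → F) (hr : y0.1 r = y'.1 x)
    (L : List (Bool × SLn F n)) (hnot : r ∉ Explore_R a y0 D H x L) :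
    a.1 (y'.1 x) ∉ H ⊔ Submodule.span F {x} ∧
    ∀ p ∈ L.head?, a.1 (y'.1 x) ∉
      side p.1 y' (D ⊔ Submodule.span F {x}) ⊔ (H ⊔ Submodule.span F {x}) := by
  have hsame : (a.1 (y0.1 r) ∉ D ⊔ Submodule.span F {x} ⊔ H) →
      a.1 (y'.1 x) ∉ D ⊔ Submodule.span F {x} ⊔ (H ⊔ Submodule.span F {x}) := by
    intro h hmem
    apply h
    rw [hr]
    have hle : D ⊔ Submodule.span F {x} ⊔ (H ⊔ Submodule.span F {x}) ≤
        D ⊔ Submodule.span F {x} ⊔ H :=
      sup_le le_sup_left (sup_le le_sup_right (le_sup_of_le_left le_sup_right))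
    exact hle hmem
  cases L with
  | nil =>
    have h := hsame hnot
    refine ⟨fun h1 => h (le_sup_right (a := D ⊔ Submodule.span F {x}) h1), ?_⟩
    intro p hp
    simp at hp
  | cons p L =>
    by_cases hp : p.1 = true
    · rw [Explore_R_true _ _ _ _ _ _ _ hp] at hnot
      have h := hsame hnot
      refine ⟨fun h1 => h (le_sup_right (a := D ⊔ Submodule.span F {x}) h1), ?_⟩
      intro p' hp'
      have : p' = p := by simpa using hp'.symm
      rw [this]
      simp only [side, hp, if_true]
      exact h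
    · rw [Explore_R_false _ _ _ _ _ _ _ hp] at hnot
      have key : a.1 (y'.1 x) ∉
          mv y' (D ⊔ Submodule.span F {x}) ⊔ (H ⊔ Submodule.span F {x}) := by
        intro hmem
        apply hnot
        rw [Submodule.mem_sup] at hmem
        obtain ⟨u, hu, w, hw, huw⟩ := hmem
        unfold mv at hu
        rw [Submodule.mem_map] at hu
        obtain ⟨u', hu', hu''⟩ := hu
        rw [Submodule.mem_sup] at hu'
        obtain ⟨d, hd, e, he, hde⟩ := hu'
        rw [Submodule.mem_span_singleton] at he
        obtain ⟨μ, hμ⟩ := he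
        refine ⟨μ, ?_⟩
        have h1 : a.1 (y0.1 r) - μ • y0.1 r = y0.1 d + w := by
          rw [hr, ← huw, ← hu'', ← hde, ← hμ]
          simp only [LinearEquiv.coe_coe, map_add, map_smul]
          rw [hy' d hd]
          abel
        rw [h1]
        apply Submodule.add_mem
        · exact Submodule.mem_sup_left (Submodule.mem_sup_left (Submodule.mem_map_of_mem hd))
        · rw [sup_assoc]
          exact Submodule.mem_sup_right hw
      refine ⟨fun h1 => key (Submodule.mem_sup_right h1), ?_⟩
      intro p' hp'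
      have : p' = p := by simpa using hp'.symm
      rw [this]
      simp only [side, hp]
      simpa using key

open Classical in
/-- The claim of `explore` for one list. -/
def Explore_P (k c : ℕ) (L : List (Bool × SLn F n)) : Prop :=
  L.IsChain (Adm k) → ∀ (φ : SLn F n → ℝ), (∀ y, 0 ≤ φ y) → ∀ (B : ℝ)
    (D H : Submodule F (Fin n → F)) (y0 : SLn F n) (x : Fin n → F),
    (∀ p ∈ L.head?, x ∉ side p.1 y0 D ⊔ H) →
    (∀ (D' : Submodule F (Fin n → F)) (y' : SLn F n),
      Module.finrank F D' ≤ Module.finrank F D + L.length → cE D' y' φ ≤ B) →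
    Module.finrank F D + Module.finrank F H + 2 * L.length ≤ c →
    cE D y0 (fun y => if Dep y L H x then φ y else 0) ≤
      L.length * (2 * (Fintype.card F : ℝ) ^ (k + 2 + c) / (Fintype.card F : ℝ) ^ n) * B

theorem Explore_flip_P {k c : ℕ} (L : List (Bool × SLn F n)) (h : Explore_P k c (Explore_flip L)) :
    Explore_P k c L := by
  classical
  intro hL φ hφ B D H y0 x hx hB hdim
  have hlen : (Explore_flip L).length = L.length := by simp [Explore_flip]
  have h1 := h (Explore_flip_chain L hL) (fun y => φ y⁻¹) (fun y => hφ _) B (mv y0 D) H y0⁻¹ x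
    (by
      intro p hp
      cases L with
      | nil => simp [Explore_flip] at hp
      | cons p0 L =>
        have : p = (!p0.1, p0.2) := by simpa [Explore_flip] using hp.symm
        rw [this]
        change x ∉ side (!p0.1) y0⁻¹ (mv y0 D) ⊔ H
        rw [Explore_side]
        exact hx p0 (by simp))
    (by
      intro D' y' hD'
      rw [finrank_mv, hlen] at hD'
      have h2 := hB (mv y' D') y'⁻¹ (by rw [finrank_mv]; exact hD')
      rw [cE_inv]
      simpa using h2)
    (by rw [finrank_mv, hlen]; exact hdim)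
  rw [hlen] at h1
  refine le_trans (le_of_eq ?_) h1
  rw [cE_inv]
  apply cE_congr
  intro y _
  have h3 : Dep y⁻¹ L H x ↔ Dep y (Explore_flip L) H x := by
    have h4 := Explore_dep_flip y⁻¹ L H x
    rw [inv_inv] at h4
    exact h4.symm
  by_cases h5 : Dep y (Explore_flip L) H x
  · rw [if_pos h5, if_pos (h3.2 h5)]
  · rw [if_neg h5, if_neg (fun h6 => h5 (h3.1 h6))]

theorem Explore_step {k c : ℕ} (hc : c + 2 ≤ n) (a : SLn F n) (L : List (Bool × SLn F n))
    (IH : Explore_P k c L) : Explore_P k c ((true, a) :: L) := by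
  classical
  intro hL φ hφ B D H y0 x hx hB hdim
  have hx0 : x ∉ D ⊔ H := by
    have := hx (true, a) (by simp)
    simpa [side] using this
  have hxD : x ∉ D := fun h => hx0 (Submodule.mem_sup_left h)
  have hlen : ((true, a) :: L).length = L.length + 1 := rfl
  rw [hlen] at hB hdim ⊢
  set β : ℝ := 2 * (Fintype.card F : ℝ) ^ (k + 2 + c) / (Fintype.card F : ℝ) ^ n with hβ
  have hβ0 : 0 ≤ β := by positivity
  have hB0 : 0 ≤ B := by
    refine le_trans ?_ (hB D y0 (by omega))
    have := cE_mono (D := D) (y0 := y0) (φ := fun _ => (0 : ℝ)) (φ' := φ) (fun y _ => hφ y)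
    rwa [cE_const] at this
  rw [cE_tower D y0 x]
  have hN : (0 : ℝ) < Nat.card ↥(PS D) := by
    exact_mod_cast Nat.card_pos
  rw [div_le_iff₀ hN]
  have hdD : Module.finrank F ↥(D ⊔ Submodule.span F {x}) ≤ Module.finrank F D + 1 :=
    Explore_finrank_sup_span D x
  have hdH : Module.finrank F ↥(H ⊔ Submodule.span F {x}) ≤ Module.finrank F H + 1 :=
    Explore_finrank_sup_span H x
  have hterm : ∀ a' : ↥(PS D), cE (D ⊔ Submodule.span F {x}) (y0 * a')
      (fun y => if Dep y ((true, a) :: L) H x then φ y else 0) ≤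
      (if a'.1.1 x ∈ Explore_R a y0 D H x L then B else 0) + L.length * β * B := by
    intro a'
    have hyD : ∀ d ∈ D, (y0 * (a' : SLn F n)).1 d = y0.1 d := by
      intro d hd
      change y0.1 (a'.1.1 d) = y0.1 d
      rw [a'.2 d hd]
    have hyx : y0.1 (a'.1.1 x) = (y0 * (a' : SLn F n)).1 x := rfl
    by_cases hbad : a'.1.1 x ∈ Explore_R a y0 D H x L
    · rw [if_pos hbad]
      have h1 : cE (D ⊔ Submodule.span F {x}) (y0 * a')
          (fun y => if Dep y ((true, a) :: L) H x then φ y else 0) ≤
          cE (D ⊔ Submodule.span F {x}) (y0 * a') φ := by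
        apply cE_mono
        intro y _
        split_ifs
        · exact le_rfl
        · exact hφ y
      have h2 := hB (D ⊔ Submodule.span F {x}) (y0 * a') (by omega)
      have h3 : 0 ≤ (L.length : ℝ) * β * B := by positivity
      linarith
    · rw [if_neg hbad, zero_add]
      obtain ⟨hf1, hf2⟩ := Explore_fresh a y0 (y0 * (a' : SLn F n)) D H x hyD (a'.1.1 x) hyx L hbad
      have h1 : cE (D ⊔ Submodule.span F {x}) (y0 * a')
          (fun y => if Dep y ((true, a) :: L) H x then φ y else 0) =
          cE (D ⊔ Submodule.span F {x}) (y0 * a')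
          (fun y => if Dep y L (H ⊔ Submodule.span F {x})
            (a.1 ((y0 * (a' : SLn F n)).1 x)) then φ y else 0) := by
        apply cE_congr
        intro y hy
        have hyx' : y.1 x = (y0 * (a' : SLn F n)).1 x :=
          hy x (Submodule.mem_sup_right (Submodule.mem_span_singleton_self x))
        have h2 : Dep y ((true, a) :: L) H x ↔ Dep y L (H ⊔ Submodule.span F {x})
            (a.1 ((y0 * (a' : SLn F n)).1 x)) := by
          simp only [Dep, act, if_true]
          rw [hyx']
          constructor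
          · rintro (h3 | h3)
            · exact absurd h3 hf1
            · exact h3
          · intro h3
            exact Or.inr h3
        by_cases h5 : Dep y ((true, a) :: L) H x
        · rw [if_pos h5, if_pos (h2.1 h5)]
        · rw [if_neg h5, if_neg (fun h6 => h5 (h2.2 h6))]
      rw [h1]
      refine IH hL.tail φ hφ B _ _ _ _ hf2 ?_ ?_
      · intro D' y' hD'
        exact hB D' y' (by omega)
      · omega
  refine (Finset.sum_le_sum fun a' _ => hterm a').trans ?_
  rw [Finset.sum_add_distrib, Finset.sum_const, Finset.card_univ, nsmul_eq_mul]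
  have hfrac := Explore_frac D (by omega) hxD (Explore_R a y0 D H x L) (c' := k + 2 + c)
    (Explore_R_card a y0 D H x L hL (by omega))
  have hsum : (∑ a' : ↥(PS D), if a'.1.1 x ∈ Explore_R a y0 D H x L then B else 0) =
      (Nat.card {a' : ↥(PS D) // a'.1.1 x ∈ Explore_R a y0 D H x L} : ℝ) * B := by
    rw [← Finset.sum_filter, Finset.sum_const, nsmul_eq_mul, Nat.card_eq_fintype_card,
      Fintype.card_subtype]
  rw [hsum, ← Nat.card_eq_fintype_card]
  have h9 := mul_le_mul_of_nonneg_right hfrac hB0
  push_cast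
  nlinarith [h9]

open Classical in
theorem explore {k c : ℕ} (hc : c + 2 ≤ n) {φ : SLn F n → ℝ} (hφ : ∀ y, 0 ≤ φ y) {B : ℝ}
    (L : List (Bool × SLn F n)) (hL : L.IsChain (Adm k))
    (D H : Submodule F (Fin n → F)) (y0 : SLn F n) (x : Fin n → F)
    (hx : ∀ p ∈ L.head?, x ∉ side p.1 y0 D ⊔ H)
    (hB : ∀ (D' : Submodule F (Fin n → F)) (y' : SLn F n),
      Module.finrank F D' ≤ Module.finrank F D + L.length → cE D' y' φ ≤ B)
    (hdim : Module.finrank F D + Module.finrank F H + 2 * L.length ≤ c) :
    cE D y0 (fun y => if Dep y L H x then φ y else 0) ≤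
      L.length * (2 * (Fintype.card F : ℝ) ^ (k + 2 + c) / (Fintype.card F : ℝ) ^ n) * B := by
  have main : ∀ (N : ℕ) (L : List (Bool × SLn F n)), L.length = N → Explore_P k c L := by
    intro N
    induction N with
    | zero =>
      intro L hL
      have : L = [] := List.length_eq_zero_iff.1 hL
      subst this
      intro _ φ hφ B D H y0 x _ _ _
      have h0 : cE D y0 (fun y => if Dep y [] H x then φ y else 0) = cE D y0 (fun _ => (0 : ℝ)) :=
        cE_congr (fun y _ => if_neg (by simp [Dep]))
      rw [h0, cE_const]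
      simp
    | succ N ih =>
      intro L hL
      cases L with
      | nil => simp at hL
      | cons p L =>
        have hL' : L.length = N := by simpa using hL
        obtain ⟨b, a⟩ := p
        cases b with
        | true => exact Explore_step hc a L (ih L hL')
        | false =>
          apply Explore_flip_P
          have h1 : Explore_flip ((false, a) :: L) = (true, a) :: Explore_flip L := rfl
          rw [h1]
          exact Explore_step hc a _ (ih _ (by simp [Explore_flip, hL']))
  exact main L.length L rfl hL φ hφ B D H y0 x hx hB hdim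

end Pool.Agent.RCL
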