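import Pool.Agent.W_6acff7c_h33.GenA

/-!
# The centraliser of a good element is small

PROOF.  Take `r, v` of `gen_blocks`, `W` the span of the vectors `g ^ e (v i)`, `dim W = r (K + 1) ≤ n`,
so `r ≤ n / (K + 1)`.  Choose `t = n - r (K + 1)` vectors `x_1, ..., x_t` which together with `W` span `V`
(a basis of a complement of `W`); `t ≤ K + 1 + κ n ≤ K + 1 + k`.  An element `c` of the centraliser is
determined by the vectors `c (v i)` and `c (x_j)`: `c (g ^ e (v i)) = g ^ e (c (v i))`.  So the centraliser
embeds into `(Fin r ⊕ Fin t → V)`, of size `(q ^ n) ^ (r + t) ≤ q ^ (n (n / (K + 1) + k + K + 1))`.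
-/

open Finset Pool.Agent.RCG

namespace Pool.Agent.RCL

variable {F : Type*} [Field F] [Fintype F] {n : ℕ}

theorem card_centralizer_le {K : ℕ} {κ : ℝ} {g : SLn F n} (h : Good K κ g) {k : ℕ}
    (hk : κ * n ≤ k) :
    Nat.card (Subgroup.centralizer ({g} : Set (SLn F n))) ≤
      Fintype.card F ^ (n * (n / (K + 1) + k + K + 1)) := by
  classical
  obtain ⟨r, v, hv, hn⟩ := gen_blocks h
  set u : Fin r × Fin (K + 1) → (Fin n → F) := fun p => (g ^ (p.2 : ℕ)).1 (v p.1) with hu
  set W : Submodule F (Fin n → F) := Submodule.span F (Set.range u) with hW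
  have hWr : Module.finrank F W = r * (K + 1) := by
    rw [hW, finrank_span_eq_card hv, Fintype.card_prod, Fintype.card_fin, Fintype.card_fin]
  obtain ⟨W', hW'⟩ := Submodule.exists_isCompl W
  have hdim := Submodule.finrank_add_eq_of_isCompl hW'
  rw [hWr, Module.finrank_fin_fun] at hdim
  set b := Module.finBasis F W' with hb
  set Φ : Subgroup.centralizer ({g} : Set (SLn F n)) →
      (Fin r → (Fin n → F)) × (Fin (Module.finrank F W') → (Fin n → F)) :=
    fun c => (fun i => c.1.1 (v i), fun j => c.1.1 (b j : Fin n → F)) with hΦ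
  have hinj : Function.Injective Φ := by
    intro c c' hcc
    have h1 : ∀ i, c.1.1 (v i) = c'.1.1 (v i) := fun i => congrFun (congrArg Prod.fst hcc) i
    have h2 : ∀ j, c.1.1 (b j : Fin n → F) = c'.1.1 (b j : Fin n → F) := fun j =>
      congrFun (congrArg Prod.snd hcc) j
    have hcomm : ∀ (d : Subgroup.centralizer ({g} : Set (SLn F n))) (e : ℕ) (x : Fin n → F),
        d.1.1 ((g ^ e).1 x) = (g ^ e).1 (d.1.1 x) := by
      intro d e x
      have hd : g * d.1 = d.1 * g := Subgroup.mem_centralizer_singleton_iff.1 d.2 |>.symm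
      have hd' : Commute d.1 (g ^ e) := (Commute.pow_right (show Commute d.1 g from hd.symm) e)
      have h3 : (d.1 * g ^ e).1 x = (g ^ e * d.1).1 x := by rw [hd'.eq]
      exact h3
    have hWeq : ∀ x ∈ W, c.1.1 x = c'.1.1 x := by
      intro x hx
      have hle : W ≤ LinearMap.eqLocus (c.1.1 : (Fin n → F) →ₗ[F] (Fin n → F))
          (c'.1.1 : (Fin n → F) →ₗ[F] (Fin n → F)) := by
        rw [hW, Submodule.span_le]
        rintro _ ⟨p, rfl⟩
        change c.1.1 (u p) = c'.1.1 (u p)
        rw [hu]
        simp only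
        rw [hcomm, hcomm, h1]
      exact hle hx
    have hW'eq : ∀ x ∈ W', c.1.1 x = c'.1.1 x := by
      intro x hx
      have h3 : (⟨x, hx⟩ : W') = ∑ j, b.repr ⟨x, hx⟩ j • b j := (b.sum_repr _).symm
      have h4 : x = ∑ j, b.repr ⟨x, hx⟩ j • (b j : Fin n → F) := by
        have h5 := congrArg W'.subtype h3
        simp only [map_sum, map_smul, Submodule.subtype_apply] at h5
        exact h5
      rw [h4, map_sum, map_sum]
      apply Finset.sum_congr rfl
      intro j _
      rw [map_smul, map_smul, h2]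
    apply Subtype.ext
    apply Subtype.ext
    apply LinearEquiv.ext
    intro x
    have hx : x ∈ W ⊔ W' := by rw [hW'.sup_eq_top]; exact Submodule.mem_top
    obtain ⟨y, hy, z, hz, rfl⟩ := Submodule.mem_sup.1 hx
    rw [map_add, map_add, hWeq y hy, hW'eq z hz]
  have hcard := Nat.card_le_card_of_injective Φ hinj
  refine hcard.trans ?_
  rw [Nat.card_eq_fintype_card, Fintype.card_prod]
  simp only [Fintype.card_fun, Fintype.card_fin]
  rw [← pow_mul, ← pow_mul, ← pow_add]
  have hq1 : 1 ≤ Fintype.card F := Fintype.card_pos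
  apply Nat.pow_le_pow_right hq1
  rw [← mul_add]
  apply Nat.mul_le_mul_left
  have hr : r ≤ n / (K + 1) := by
    rw [Nat.le_div_iff_mul_le (show 0 < K + 1 by omega)]
    omega
  have ht : Module.finrank F W' ≤ k + K + 1 := by
    have h3 : (n : ℝ) = r * (K + 1) + Module.finrank F W' := by
      have : ((r * (K + 1) + Module.finrank F W' : ℕ) : ℝ) = n := by exact_mod_cast hdim
      rw [← this]
      push_cast
      ring
    have h4 : (Module.finrank F W' : ℝ) ≤ k + K + 1 := by linarith
    exact_mod_cast h4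
  omega

end Pool.Agent.RCL
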