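import Pool.Agent.W_6acff7c_h33.ChBound
import Pool.Agent.W_6acff7c_h33.GenB

/-!
# Small eigenvalues on high levels

PROOF.  `b = n / 128` (natural division), so `b / 2 + 1 ≥ n / 256` (real), `b + 4 ≤ n`,
`n - b - 2 ≥ (127/128) n - 2`, so the exponent in `ch_highL` is at least
`(n / 256) ((127/128) n - 2) ≥ 0.00387 n ^ 2 - n`.  `card_centralizer_le` with `K = 1000`, `κ = 1 / 1000`,
`k = ⌈n / 1000⌉ ≤ n / 1000 + 1`: exponent `n (n / 1001 + k + 1001) ≤ 0.002 n ^ 2 + 1002 n`.  So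
`α g ^ 2 ≤ q ^ (0.002 n ^ 2 + 1002 n - 0.00387 n ^ 2 + n) ≤ q ^ (-(n ^ 2 / 1000))` for large `n`; take square roots.
-/

open Finset Pool.Agent.RCG

namespace Pool.Agent.RCL

theorem ch_high_good : ∃ N0 : ℕ, ∀ n ≥ N0, ∀ (F : Type) [Field F] [Fintype F] (α : SLn F n → ℝ),
    IsCh α → n / 128 < levL α → ∀ g : SLn F n, Good 1000 (1 / 1000) g →
    |α g| ≤ (Fintype.card F : ℝ) ^ (-((n : ℝ) ^ 2 / 2000)) := by
  refine ⟨2000000, ?_⟩
  intro n hn F _ _ α hα hlev g hg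
  set q : ℕ := Fintype.card F with hq
  have hq2 : 2 ≤ q := Fintype.one_lt_card
  have hq1 : (1 : ℝ) < (q : ℝ) := by exact_mod_cast hq2
  have hq0 : (0 : ℝ) < (q : ℝ) := by linarith
  have hnR : (2000000 : ℝ) ≤ (n : ℝ) := by exact_mod_cast hn
  have hb4 : n / 128 + 4 ≤ n := by omega
  have h1 := ch_highL hα hlev hb4 g
  have hκ : (1 / 1000 : ℝ) * n ≤ ((n / 1000 + 1 : ℕ) : ℝ) := by
    have h : n ≤ 1000 * (n / 1000 + 1) := by omega
    have h' : (n : ℝ) ≤ 1000 * ((n / 1000 + 1 : ℕ) : ℝ) := by exact_mod_cast h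
    linarith
  have h2 := card_centralizer_le hg hκ
  set A : ℕ := (n / 128 / 2 + 1) * (n - n / 128 - 2) with hA
  set B : ℕ := n * (n / (1000 + 1) + (n / 1000 + 1) + 1000 + 1) with hB
  have h3 : α g ^ 2 * (q : ℝ) ^ A ≤ (q : ℝ) ^ B := by
    refine h1.trans ?_
    exact_mod_cast h2
  have hAR : ((n : ℝ) / 256) * (127 / 128 * n - 2) ≤ (A : ℝ) := by
    have e1 : n ≤ 256 * (n / 128 / 2 + 1) := by omega
    have e1' : (n : ℝ) ≤ 256 * ((n / 128 / 2 + 1 : ℕ) : ℝ) := by exact_mod_cast e1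
    have e2 : 127 * n ≤ 128 * ((n - n / 128 - 2) + 2) := by omega
    have e2' : (127 : ℝ) * n ≤ 128 * (((n - n / 128 - 2 : ℕ) : ℝ) + 2) := by exact_mod_cast e2
    rw [hA, Nat.cast_mul]
    apply mul_le_mul
    · linarith
    · linarith
    · linarith
    · positivity
  have hBR : (B : ℝ) ≤ (n : ℝ) * (n / 1001 + n / 1000 + 1002) := by
    have e1 : 1001 * (n / (1000 + 1)) ≤ n := by omega
    have e1' : (1001 : ℝ) * ((n / (1000 + 1) : ℕ) : ℝ) ≤ n := by exact_mod_cast e1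
    have e2 : 1000 * (n / 1000) ≤ n := by omega
    have e2' : (1000 : ℝ) * ((n / 1000 : ℕ) : ℝ) ≤ n := by exact_mod_cast e2
    rw [hB, Nat.cast_mul]
    apply mul_le_mul_of_nonneg_left _ (by positivity)
    rw [Nat.cast_add, Nat.cast_add, Nat.cast_add, Nat.cast_add]
    push_cast at e1' e2' ⊢
    linarith
  have hAB : (B : ℝ) - A ≤ -((n : ℝ) ^ 2 / 1000) := by
    have e3 : (n : ℝ) * 2000000 ≤ (n : ℝ) * n := by
      apply mul_le_mul_of_nonneg_left hnR (by positivity)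
    nlinarith
  have h4 : α g ^ 2 ≤ (q : ℝ) ^ (-((n : ℝ) ^ 2 / 1000)) := by
    have e1 : α g ^ 2 ≤ (q : ℝ) ^ B / (q : ℝ) ^ A := by
      rw [le_div_iff₀ (pow_pos hq0 A)]
      exact h3
    refine e1.trans ?_
    rw [← Real.rpow_natCast, ← Real.rpow_natCast, ← Real.rpow_sub hq0]
    exact Real.rpow_le_rpow_of_exponent_le hq1.le hAB
  have h5 : ((q : ℝ) ^ (-((n : ℝ) ^ 2 / 2000))) ^ 2 = (q : ℝ) ^ (-((n : ℝ) ^ 2 / 1000)) := by
    rw [← Real.rpow_natCast, ← Real.rpow_mul hq0.le]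
    congr 1
    push_cast
    ring
  apply abs_le_of_sq_le_sq _ (Real.rpow_nonneg hq0.le _)
  rw [h5]
  exact h4

end Pool.Agent.RCL
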