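import Pool.Agent.W_6acff7c_h33.RRBlkA

/-!
# Covering by a product of blocks

PROOF of `step_blk`: put `f z = ∑ α ∈ chars1 G, finrank (JE α) * rr α (blk w z)`, nonnegative by
`rr_nonneg`.  If `f z ≤ 1 / 2` then by `cover2` every `g` is `blk w z i * blk w z j`, a word of length at
most `2 * (J * (l + 1))` in `S ∪ range z` (`WL.blk`, `WL.mul`, `WL.mono` in `Words.lean`).  So the event
is contained in `1 / 2 < f z`, and by `pr_markov` with `t = 1 / 2` and
`∑ z, f z = |G| ^ J * ∑ α ∈ chars1 G, finrank (JE α) * rr α w ^ J` (`sum_rr_blk`) its probability is at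
most `2 * ∑ ...`  (`Fintype.card (Fin J → G) = |G| ^ J`).
-/

open Finset Pool.Agent.RCG

namespace Pool.Agent.RCL

variable {G : Type*} [Group G] [Fintype G]

theorem step_blk {k : ℕ} (hk : 0 < k) (w : Fin k → G) (J l : ℕ) (S : Set G)
    (hw : ∀ i, WL S l (w i)) :
    pr (fun z : Fin J → G => ¬ HasAllG (2 * (J * (l + 1))) (S ∪ Set.range z)) ≤
      2 * ∑ α ∈ chars1 G, (Module.finrank ℝ (JE α) : ℝ) * rr α w ^ J := by
  have : Nonempty (Fin k) := ⟨⟨0, hk⟩⟩
  have hch : ∀ α ∈ chars1 G, IsCh α := fun α hα => (mem_chars1.1 hα).1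
  have h0 : ∀ z : Fin J → G, 0 ≤ ∑ α ∈ chars1 G, (Module.finrank ℝ (JE α) : ℝ) * rr α (blk w z) :=
    fun z => Finset.sum_nonneg fun α hα => mul_nonneg (Nat.cast_nonneg _) (rr_nonneg (hch α hα) _)
  have h1 : ∑ z : Fin J → G, ∑ α ∈ chars1 G, (Module.finrank ℝ (JE α) : ℝ) * rr α (blk w z) ≤
      (∑ α ∈ chars1 G, (Module.finrank ℝ (JE α) : ℝ) * rr α w ^ J) *
        Fintype.card (Fin J → G) := by
    rw [Finset.sum_comm, Finset.sum_mul]
    refine le_of_eq (Finset.sum_congr rfl fun α hα => ?_)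
    rw [← Finset.mul_sum, sum_rr_blk (hch α hα), Fintype.card_fun, Fintype.card_fin]
    push_cast
    ring
  have h2 := pr_markov (fun z : Fin J → G =>
    ∑ α ∈ chars1 G, (Module.finrank ℝ (JE α) : ℝ) * rr α (blk w z)) h0 (1 / 2)
    (∑ α ∈ chars1 G, (Module.finrank ℝ (JE α) : ℝ) * rr α w ^ J) (by norm_num) h1
  refine (pr_mono (fun z hz => ?_)).trans (h2.trans (le_of_eq (by ring)))
  by_contra hcon
  push Not at hcon
  apply hz
  intro g
  obtain ⟨i, j, rfl⟩ := cover2 (blk w z) hcon g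
  have hzr : ∀ m, z m ∈ S ∪ Set.range z := fun m => Or.inr ⟨m, rfl⟩
  have hwr : ∀ m, WL (S ∪ Set.range z) l (w m) := fun m =>
    (hw m).mono Set.subset_union_left le_rfl
  have h3 := (WL.blk hwr hzr i).mul (WL.blk hwr hzr j)
  exact h3.mono (Set.Subset.refl _) (by omega)

end Pool.Agent.RCL
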