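import Pool.Agent.W_6acff7c_h33.TrvA

/-!
# Uniformity of `a x` for `a` in the pointwise stabiliser

PROOF of `sum_stab`: `PS D` acts on the complement of `D` (if `a ∈ PS D` and `a x ∈ D` then
`x = a⁻¹ (a x) = a x ∈ D`), transitively by `exists_moveL`.  So for `r, r' ∉ D` the sets
`{a ∈ PS D | a x = r}` have the same size `N` (if `h r = r'`, `h ∈ PS D`, then `a ↦ h a` is a bijection
between them), `∑ a, f (a x) = N * ∑ r ∉ D, f r` (`Finset.sum_fiberwise_of_maps_to` or
`Finset.sum_comm'`), and with `f = 1`: `|PS D| = N * (q ^ n - q ^ dim D)`.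
`card_SLn_le`: an element is determined by its matrix (or: inject `SLn F n` into
`Fin n → (Fin n → F)` by `g ↦ (g e_i)_i`).
-/

open Finset Pool.Agent.RCG

namespace Pool.Agent.RCL

variable {F : Type*} [Field F] [Fintype F] {n : ℕ}

private theorem sumStab_notMem (D : Submodule F (Fin n → F)) {x : Fin n → F} (hx : x ∉ D)
    (a : ↥(PS D)) : a.1.1 x ∉ D := by
  intro h
  have h1 : a.1.1 (a.1.1 x) = a.1.1 x := a.2 _ h
  have h2 : a.1.1 x = x := a.1.1.injective h1
  rw [h2] at h
  exact hx h

open Classical in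
private theorem sumStab_fib (D : Submodule F (Fin n → F)) (hD : Module.finrank F D + 2 ≤ n)
    {x r : Fin n → F} (hx : x ∉ D) (hr : r ∉ D) :
    (univ.filter (fun a : ↥(PS D) => a.1.1 x = r)).card =
      (univ.filter (fun a : ↥(PS D) => a.1.1 x = x)).card := by
  obtain ⟨h, hh, hxr⟩ := exists_moveL D hD hx hr
  symm
  refine Finset.card_bij (fun a _ => (⟨h, hh⟩ : ↥(PS D)) * a) ?_ ?_ ?_
  · intro a ha
    simp only [Finset.mem_filter, Finset.mem_univ, true_and] at ha ⊢
    change h.1 (a.1.1 x) = r
    rw [ha, hxr]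
  · intro a _ b _ hab
    exact mul_left_cancel hab
  · intro b hb
    simp only [Finset.mem_filter, Finset.mem_univ, true_and] at hb
    refine ⟨(⟨h, hh⟩ : ↥(PS D))⁻¹ * b, ?_, mul_inv_cancel_left _ _⟩
    simp only [Finset.mem_filter, Finset.mem_univ, true_and]
    change h.1.symm (b.1.1 x) = x
    rw [hb, LinearEquiv.symm_apply_eq, hxr]

open Classical in
private theorem sumStab_main (D : Submodule F (Fin n → F)) (hD : Module.finrank F D + 2 ≤ n)
    {x : Fin n → F} (hx : x ∉ D) (f : (Fin n → F) → ℝ) :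
    ∑ a : ↥(PS D), f (a.1.1 x) =
      ((univ.filter (fun a : ↥(PS D) => a.1.1 x = x)).card : ℝ) *
        ∑ r ∈ univ.filter (fun r : Fin n → F => r ∉ D), f r := by
  rw [← Finset.sum_fiberwise_of_maps_to (s := (univ : Finset ↥(PS D)))
    (t := univ.filter (fun r : Fin n → F => r ∉ D)) (g := fun a => a.1.1 x)
    (fun a _ => by simpa using sumStab_notMem D hx a), Finset.mul_sum]
  refine Finset.sum_congr rfl fun r hr => ?_
  have hr' : r ∉ D := by simpa using hr
  rw [← sumStab_fib D hD hx hr']
  rw [Finset.sum_congr rfl (g := fun _ => f r) (fun a ha => by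
    rw [(Finset.mem_filter.1 ha).2])]
  rw [Finset.sum_const, nsmul_eq_mul]

open Classical in
private theorem sumStab_card (D : Submodule F (Fin n → F)) :
    ((univ.filter (fun r : Fin n → F => r ∉ D)).card : ℝ) =
      (Fintype.card F : ℝ) ^ n - (Fintype.card F : ℝ) ^ Module.finrank F D := by
  have h1 : (univ.filter (fun r : Fin n → F => r ∈ D)).card +
      (univ.filter (fun r : Fin n → F => r ∉ D)).card = Fintype.card (Fin n → F) := by
    rw [Finset.card_filter_add_card_filter_not, Finset.card_univ]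
  have h2 : (univ.filter (fun r : Fin n → F => r ∈ D)).card =
      Fintype.card F ^ Module.finrank F D := by
    rw [← Module.card_eq_pow_finrank (K := F) (V := D), Fintype.card_subtype]
  have h3 : Fintype.card (Fin n → F) = Fintype.card F ^ n := by
    rw [Fintype.card_fun, Fintype.card_fin]
  rw [h2, h3] at h1
  have h4 : ((Fintype.card F ^ Module.finrank F D +
    (univ.filter (fun r : Fin n → F => r ∉ D)).card : ℕ) : ℝ) = ((Fintype.card F ^ n : ℕ) : ℝ) := by
    rw [h1]
  push_cast at h4
  linarith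

open Classical in
theorem sum_stab (D : Submodule F (Fin n → F)) (hD : Module.finrank F D + 2 ≤ n)
    {x : Fin n → F} (hx : x ∉ D) (f : (Fin n → F) → ℝ) :
    ((Fintype.card F : ℝ) ^ n - (Fintype.card F : ℝ) ^ Module.finrank F D) *
        ∑ a : ↥(PS D), f (a.1.1 x) =
      (Nat.card ↥(PS D) : ℝ) * ∑ r ∈ univ.filter (fun r : Fin n → F => r ∉ D), f r := by
  have h1 := sumStab_main D hD hx (fun _ => 1)
  rw [Finset.sum_const, Finset.sum_const, nsmul_eq_mul, nsmul_eq_mul, mul_one, mul_one,
    sumStab_card, Finset.card_univ] at h1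
  rw [Nat.card_eq_fintype_card, h1, sumStab_main D hD hx f]
  ring

theorem card_SLn_le : Nat.card (SLn F n) ≤ Fintype.card F ^ (n * n) := by
  have hinj : Function.Injective
      (fun (g : SLn F n) (i : Fin n) => g.1 (Pi.single i 1)) := by
    intro g g' hgg
    apply Subtype.ext
    apply LinearEquiv.toLinearMap_injective
    refine (Pi.basisFun F (Fin n)).ext fun i => ?_
    rw [Pi.basisFun_apply]
    exact congrFun hgg i
  refine (Nat.card_le_card_of_injective _ hinj).trans (le_of_eq ?_)
  rw [Nat.card_eq_fintype_card, Fintype.card_fun, Fintype.card_fun, Fintype.card_fin, pow_mul]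

end Pool.Agent.RCL
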