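import Pool.Agent.W_6acff7c_h33.FsubDimL
import Pool.Agent.W_6acff7c_h33.GoodBasic
import Pool.Agent.W_6acff7c_h33.SumStab

/-!
# The sum over all `α` for a code

PROOF of `rr_code`: `rr α w = k⁻² ∑_{i, j} α ((w i)⁻¹ * w j)`; the `k` diagonal terms are `α 1 = 1`
(`ch_one`), the others are at most `a`; so `rr α w ≤ 1 / k + a ≤ exp (-s) + a`.

PROOF of `sum_all`: for `α ∈ chars1`: `1 ≤ levL α` (`lev_posL`).  Split `chars1` according to `levL α ≤ b0` or
not.  For `levL α = b ≤ b0`: `rr α w ≤ exp (-s) + q ^ (-(n b / 8))` (`rr_code`, `hlow`), so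
`rr ^ J ≤ (2 exp (-s)) ^ J + (2 q ^ (-(n b / 8))) ^ J` (`(x + y) ^ J ≤ (2 x) ^ J + (2 y) ^ J` for `x, y ≥ 0`).  The first
part, together with the part `levL α > b0` where `rr α w ≤ 2 exp (-s)` (`hhigh`), contributes at most
`(∑ finrank (JE α)) (2 exp (-s)) ^ J ≤ |G| (2 exp (-s)) ^ J` (`ch_sum_dim`).  The second part contributes at most
`∑_{b = 1}^{b0} q ^ (2 n b) (2 q ^ (-(n b / 8))) ^ J` by `sum_dim_lev` (`Finset.sum_fiberwise_of_maps_to`).
`0 ≤ rr` by `rr_nonneg`.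
-/

open Finset Pool.Agent.RCG

namespace Pool.Agent.RCL

variable {F : Type*} [Field F] [Fintype F] {n : ℕ}

private theorem SumA_pow {x y : ℝ} (hx : 0 ≤ x) (hy : 0 ≤ y) (J : ℕ) :
    (x + y) ^ J ≤ (2 * x) ^ J + (2 * y) ^ J := by
  rcases le_total x y with h | h
  · have h1 : (x + y) ^ J ≤ (2 * y) ^ J := pow_le_pow_left₀ (by linarith) (by linarith) J
    have h2 : 0 ≤ (2 * x) ^ J := by positivity
    linarith
  · have h1 : (x + y) ^ J ≤ (2 * x) ^ J := pow_le_pow_left₀ (by linarith) (by linarith) J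
    have h2 : 0 ≤ (2 * y) ^ J := by positivity
    linarith

theorem rr_code {α : SLn F n → ℝ} (h : IsCh α) {K k : ℕ} {κ s a : ℝ} (hk : Real.exp s ≤ k)
    (w : Fin k → SLn F n) (hw : ∀ i j, i ≠ j → Good K κ ((w i)⁻¹ * w j)) (ha : 0 ≤ a)
    (hg : ∀ g : SLn F n, Good K κ g → |α g| ≤ a) : rr α w ≤ Real.exp (-s) + a := by
  classical
  have hkpos : (0 : ℝ) < k := lt_of_lt_of_le (Real.exp_pos s) hk
  have h1 : ∀ i j : Fin k, α ((w i)⁻¹ * w j) ≤ (if i = j then 1 else 0) + a := by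
    intro i j
    by_cases hij : i = j
    · subst hij
      rw [inv_mul_cancel, ch_one h, if_pos rfl]
      linarith
    · rw [if_neg hij, zero_add]
      exact (le_abs_self _).trans (hg _ (hw i j hij))
  have h2 : ∑ i, ∑ j, α ((w i)⁻¹ * w j) ≤ (k : ℝ) + k ^ 2 * a := by
    calc ∑ i, ∑ j, α ((w i)⁻¹ * w j)
        ≤ ∑ i : Fin k, ∑ j : Fin k, ((if i = j then (1 : ℝ) else 0) + a) :=
          Finset.sum_le_sum fun i _ => Finset.sum_le_sum fun j _ => h1 i j
      _ = (k : ℝ) + k ^ 2 * a := by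
          simp only [Finset.sum_add_distrib, Finset.sum_ite_eq, Finset.mem_univ, if_true,
            Finset.sum_const, Finset.card_univ, Fintype.card_fin, nsmul_eq_mul, mul_one]
          ring
  have h3 : rr α w ≤ ((k : ℝ) ^ 2)⁻¹ * ((k : ℝ) + k ^ 2 * a) := by
    unfold rr
    rw [Fintype.card_fin]
    exact mul_le_mul_of_nonneg_left h2 (by positivity)
  have h4 : ((k : ℝ) ^ 2)⁻¹ * ((k : ℝ) + k ^ 2 * a) = (k : ℝ)⁻¹ + a := by
    field_simp
  have h5 : (k : ℝ)⁻¹ ≤ Real.exp (-s) := by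
    rw [Real.exp_neg]
    exact inv_anti₀ (Real.exp_pos s) hk
  linarith

theorem sum_all {K k b0 : ℕ} {κ s : ℝ} (hk : Real.exp s ≤ k)
    (w : Fin k → SLn F n) (hw : ∀ i j, i ≠ j → Good K κ ((w i)⁻¹ * w j))
    (hlow : ∀ α : SLn F n → ℝ, IsCh α → 1 ≤ levL α → levL α ≤ b0 → ∀ g : SLn F n, Good K κ g →
      |α g| ≤ (Fintype.card F : ℝ) ^ (-((n : ℝ) * levL α / 8)))
    (hhigh : ∀ α : SLn F n → ℝ, IsCh α → b0 < levL α → ∀ g : SLn F n, Good K κ g →
      |α g| ≤ Real.exp (-s)) (J : ℕ) :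
    ∑ α ∈ chars1 (SLn F n), (Module.finrank ℝ (JE α) : ℝ) * rr α w ^ J ≤
      Fintype.card (SLn F n) * (2 * Real.exp (-s)) ^ J +
      ∑ b ∈ Finset.Icc 1 b0, (Fintype.card F : ℝ) ^ (2 * (n * b)) *
        (2 * (Fintype.card F : ℝ) ^ (-((n : ℝ) * b / 8))) ^ J := by
  classical
  have hq : (0 : ℝ) < (Fintype.card F : ℝ) := by
    exact_mod_cast Fintype.card_pos
  have hA : ∀ b : ℕ, 0 ≤ (2 * (Fintype.card F : ℝ) ^ (-((n : ℝ) * b / 8))) ^ J := fun b => by
    have := Real.rpow_nonneg hq.le (-((n : ℝ) * b / 8))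
    positivity
  have hsub : chars1 (SLn F n) ⊆ chars (SLn F n) := Finset.filter_subset _ _
  have hmem : ∀ α ∈ chars1 (SLn F n), IsCh α ∧ α ≠ 1 := fun α hα => by
    unfold chars1 at hα
    rw [Finset.mem_filter] at hα
    exact ⟨mem_chars.1 hα.1, hα.2⟩
  have h1 : ∀ α ∈ chars1 (SLn F n), (Module.finrank ℝ (JE α) : ℝ) * rr α w ^ J ≤
      (Module.finrank ℝ (JE α) : ℝ) * (2 * Real.exp (-s)) ^ J +
      (if levL α ≤ b0 then (Module.finrank ℝ (JE α) : ℝ) *
        (2 * (Fintype.card F : ℝ) ^ (-((n : ℝ) * levL α / 8))) ^ J else 0) := by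
    intro α hα
    obtain ⟨hc, hne⟩ := hmem α hα
    have hd : (0 : ℝ) ≤ (Module.finrank ℝ (JE α) : ℝ) := Nat.cast_nonneg _
    have hr := rr_nonneg hc w
    by_cases hb : levL α ≤ b0
    · rw [if_pos hb, ← mul_add]
      refine mul_le_mul_of_nonneg_left ?_ hd
      have h2 := rr_code hc hk w hw (Real.rpow_nonneg hq.le (-((n : ℝ) * levL α / 8)))
        (hlow α hc (lev_posL hc hne) hb)
      exact (pow_le_pow_left₀ hr h2 J).trans
        (SumA_pow (Real.exp_pos _).le (Real.rpow_nonneg hq.le _) J)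
    · rw [if_neg hb, add_zero]
      refine mul_le_mul_of_nonneg_left ?_ hd
      have h2 := rr_code hc hk w hw (Real.exp_pos (-s)).le (hhigh α hc (by omega))
      exact pow_le_pow_left₀ hr (by linarith) J
  refine (Finset.sum_le_sum h1).trans ?_
  rw [Finset.sum_add_distrib]
  refine add_le_add ?_ ?_
  · rw [← Finset.sum_mul]
    refine mul_le_mul_of_nonneg_right ?_ (by
      have := Real.exp_pos (-s)
      positivity)
    rw [← ch_sum_dim]
    exact Finset.sum_le_sum_of_subset_of_nonneg hsub fun α _ _ => Nat.cast_nonneg _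
  · rw [← Finset.sum_filter]
    rw [← Finset.sum_fiberwise_of_maps_to (s := (chars1 (SLn F n)).filter (fun α => levL α ≤ b0))
      (t := Finset.Icc 1 b0) (g := fun α => levL α) (fun α hα => by
        rw [Finset.mem_filter] at hα
        obtain ⟨hc, hne⟩ := hmem α hα.1
        exact Finset.mem_Icc.2 ⟨lev_posL hc hne, hα.2⟩)]
    refine Finset.sum_le_sum fun b _ => ?_
    have h3 : ∑ α ∈ ((chars1 (SLn F n)).filter (fun α => levL α ≤ b0)).filter
        (fun α => levL α = b), (Module.finrank ℝ (JE α) : ℝ) *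
        (2 * (Fintype.card F : ℝ) ^ (-((n : ℝ) * levL α / 8))) ^ J =
        (∑ α ∈ ((chars1 (SLn F n)).filter (fun α => levL α ≤ b0)).filter
        (fun α => levL α = b), (Module.finrank ℝ (JE α) : ℝ)) *
        (2 * (Fintype.card F : ℝ) ^ (-((n : ℝ) * b / 8))) ^ J := by
      rw [Finset.sum_mul]
      refine Finset.sum_congr rfl fun α hα => ?_
      rw [(Finset.mem_filter.1 hα).2]
    rw [h3]
    refine mul_le_mul_of_nonneg_right ?_ (hA b)
    refine le_trans ?_ (sum_dim_lev (F := F) (n := n) b)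
    refine Finset.sum_le_sum_of_subset_of_nonneg ?_ fun α _ _ => Nat.cast_nonneg _
    intro α hα
    rw [Finset.mem_filter, Finset.mem_filter] at hα
    exact Finset.mem_filter.2 ⟨hsub hα.1.1, hα.2⟩

end Pool.Agent.RCL
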