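import Pool.Agent.W_6acff7c_h33.CardGe

/-!
# Numerical estimates for the final sum

Notation: `q = |F| ≥ 2`, `X = n ^ 2 log q`, `L = log |G|`, `J = ⌈(101/100) L / s⌉₊`.
From `card_SLn_ge`, `card_SLn_le`: `(n - 1) ^ 2 log q ≤ L ≤ X`, so for large `n`: `0.99 X ≤ L`.
PROOF of `num_A`: `|G| (2 exp (-s)) ^ J = exp (L - J (s - log 2))` and `J ≥ (101/100) L / s`, so
`J (s - log 2) ≥ (101/100) L (1 - log 2 / s) ≥ (1005/1000) L` as soon as `s ≥ 200`; `s ≥ X / Y ≥ n ^ 2 log 2 / Y`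
(`Y > 0` because `X > 0`, `s > 0`).  So the value is at most `exp (-L / 200) ≤ exp (-(n - 1) ^ 2 log 2 / 200) ≤ ε`.
PROOF of `num_B`: `J ≥ (101/100) L / s ≥ (101/100) (0.99 X) (2000 / X) ≥ 32`.  As `2 q ^ (-(n b / 8)) ≤ 1` for
`n ≥ 8`, `b ≥ 1`, the term is at most
`q ^ (2 n b) (2 q ^ (-(n b / 8))) ^ 32 = 2 ^ 32 q ^ (-2 n b) ≤ 2 ^ 32 2 ^ (-(2 n b))`; the sum over `b ≥ 1` is at most
`2 ^ 33 2 ^ (-2 n) ≤ ε`.
-/

open Finset Pool.Agent.RCG

namespace Pool.Agent.RCL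

private theorem SumB_q (F : Type) [Field F] [Fintype F] : (2 : ℝ) ≤ Fintype.card F := by
  exact_mod_cast Fintype.one_lt_card (α := F)

private theorem SumB_lq (F : Type) [Field F] [Fintype F] :
    (69 / 100 : ℝ) ≤ Real.log (Fintype.card F) := by
  have h1 := Real.log_two_gt_d9
  have h2 := Real.log_le_log (by norm_num) (SumB_q F)
  linarith

private theorem SumB_lowX {n : ℕ} (hn : 1 ≤ n) (F : Type) [Field F] [Fintype F] :
    (69 / 100 : ℝ) * n ≤ (n : ℝ) ^ 2 * Real.log (Fintype.card F) := by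
  have h1 := SumB_lq F
  have h2 : (1 : ℝ) ≤ n := by exact_mod_cast hn
  have h3 : (n : ℝ) ≤ (n : ℝ) ^ 2 := by nlinarith
  nlinarith

theorem log_card_bounds : ∃ N0 : ℕ, ∀ n ≥ N0, ∀ (F : Type) [Field F] [Fintype F],
    99 / 100 * ((n : ℝ) ^ 2 * Real.log (Fintype.card F)) ≤ Real.log (Fintype.card (SLn F n)) ∧
    Real.log (Fintype.card (SLn F n)) ≤ (n : ℝ) ^ 2 * Real.log (Fintype.card F) := by
  refine ⟨200, fun n hn F _ _ => ?_⟩
  have hlq := SumB_lq F
  have hn' : (200 : ℝ) ≤ n := by exact_mod_cast hn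
  have hq : (0 : ℝ) < Fintype.card F := by
    have := SumB_q F
    linarith
  have hG : (0 : ℝ) < Fintype.card (SLn F n) := by
    exact_mod_cast Fintype.card_pos
  constructor
  · have h1 : ((Fintype.card F ^ ((n - 1) * (n - 1)) : ℕ) : ℝ) ≤ Fintype.card (SLn F n) := by
      have h := card_SLn_ge (F := F) (n := n)
      rw [Nat.card_eq_fintype_card] at h
      exact_mod_cast h
    have h2 := Real.log_le_log (by positivity) h1
    rw [Nat.cast_pow, Real.log_pow, Nat.cast_mul, Nat.cast_sub (by omega), Nat.cast_one] at h2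
    refine le_trans ?_ h2
    have h3 : 99 / 100 * (n : ℝ) ^ 2 ≤ ((n : ℝ) - 1) * (n - 1) := by nlinarith
    have h4 := mul_le_mul_of_nonneg_right h3 (le_trans (by norm_num) hlq)
    linarith
  · have h1 : (Fintype.card (SLn F n) : ℝ) ≤ ((Fintype.card F ^ (n * n) : ℕ) : ℝ) := by
      have h := card_SLn_le (F := F) (n := n)
      rw [Nat.card_eq_fintype_card] at h
      exact_mod_cast h
    have h2 := Real.log_le_log hG h1
    rw [Nat.cast_pow, Real.log_pow, Nat.cast_mul] at h2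
    rw [sq]
    exact h2

theorem num_A (Y ε : ℝ) (hε : 0 < ε) : ∃ N0 : ℕ, ∀ n ≥ N0, ∀ (F : Type) [Field F] [Fintype F]
    (s : ℝ), 0 < s → (n : ℝ) ^ 2 * Real.log (Fintype.card F) ≤ Y * s →
    (Fintype.card (SLn F n) : ℝ) *
      (2 * Real.exp (-s)) ^ ⌈101 / 100 * Real.log (Fintype.card (SLn F n)) / s⌉₊ ≤ ε := by
  obtain ⟨N1, hN1⟩ := log_card_bounds
  refine ⟨max (max N1 1) (max ⌈300 * max Y 1⌉₊ ⌈300 * |Real.log ε|⌉₊), fun n hn F _ _ s hs hX => ?_⟩
  have hnN1 : N1 ≤ n := le_trans (le_trans (le_max_left _ _) (le_max_left _ _)) hn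
  have hn1 : 1 ≤ n := le_trans (le_trans (le_max_right _ _) (le_max_left _ _)) hn
  have hnY : 300 * max Y 1 ≤ (n : ℝ) :=
    Nat.ceil_le.1 (le_trans (le_trans (le_max_left _ _) (le_max_right _ _)) hn)
  have hne : 300 * |Real.log ε| ≤ (n : ℝ) :=
    Nat.ceil_le.1 (le_trans (le_trans (le_max_right _ _) (le_max_right _ _)) hn)
  have hlow := SumB_lowX hn1 F
  obtain ⟨hL, -⟩ := hN1 n hnN1 F
  have hn0 : (1 : ℝ) ≤ n := by exact_mod_cast hn1
  have hYs : Y * s ≤ max Y 1 * s := mul_le_mul_of_nonneg_right (le_max_left _ _) hs.le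
  have hY1 : (1 : ℝ) ≤ max Y 1 := le_max_right _ _
  have hs200 : 200 ≤ s := by
    by_contra hcon
    push Not at hcon
    have h1 : max Y 1 * s ≤ max Y 1 * 200 := mul_le_mul_of_nonneg_left hcon.le (by linarith)
    nlinarith
  have hG : (0 : ℝ) < Fintype.card (SLn F n) := by
    exact_mod_cast Fintype.card_pos
  set L := Real.log (Fintype.card (SLn F n)) with hLdef
  have hGL : (Fintype.card (SLn F n) : ℝ) = Real.exp L := (Real.exp_log hG).symm
  have hLpos : 0 < L := by nlinarith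
  have hlog2 : Real.log 2 < 7 / 10 := by
    have := Real.log_two_lt_d9
    linarith
  have hlog2' : 0 < Real.log 2 := Real.log_pos (by norm_num)
  set J := ⌈101 / 100 * L / s⌉₊ with hJ
  have hJle : 101 / 100 * L / s ≤ J := Nat.le_ceil _
  have hJs : 101 / 100 * L ≤ J * s := by
    rw [div_le_iff₀ hs] at hJle
    exact hJle
  have h2e : (2 * Real.exp (-s)) ^ J = Real.exp (J * (Real.log 2 - s)) := by
    rw [Real.exp_nat_mul, sub_eq_add_neg, Real.exp_add, Real.exp_log (by norm_num)]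
  rw [h2e, hGL, ← Real.exp_add]
  have hkey : L + J * (Real.log 2 - s) ≤ -L / 200 := by
    have h1 : (J : ℝ) * (s - Real.log 2) ≥ J * (s * (9965 / 10000)) := by
      apply mul_le_mul_of_nonneg_left _ (Nat.cast_nonneg _)
      nlinarith
    have h2 : (J : ℝ) * (s * (9965 / 10000)) = (J * s) * (9965 / 10000) := by ring
    nlinarith
  have h3 : -L / 200 ≤ Real.log ε := by
    have h4 : -|Real.log ε| ≤ Real.log ε := neg_abs_le _
    nlinarith
  calc Real.exp (L + J * (Real.log 2 - s)) ≤ Real.exp (Real.log ε) :=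
        Real.exp_le_exp.2 (le_trans hkey h3)
    _ = ε := Real.exp_log hε

theorem num_B (ε : ℝ) (hε : 0 < ε) : ∃ N0 : ℕ, ∀ n ≥ N0, ∀ (F : Type) [Field F] [Fintype F]
    (s : ℝ), 0 < s → 2000 * s ≤ (n : ℝ) ^ 2 * Real.log (Fintype.card F) →
    ∑ b ∈ Finset.Icc 1 (n / 128), (Fintype.card F : ℝ) ^ (2 * (n * b)) *
        (2 * (Fintype.card F : ℝ) ^ (-((n : ℝ) * b / 8))) ^
          ⌈101 / 100 * Real.log (Fintype.card (SLn F n)) / s⌉₊ ≤ ε := by
  obtain ⟨N1, hN1⟩ := log_card_bounds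
  obtain ⟨N2, hN2⟩ := exists_pow_lt_of_lt_one (show (0 : ℝ) < ε / 2 ^ 32 by positivity)
    (show (1 / 2 : ℝ) < 1 by norm_num)
  refine ⟨max (max N1 8) N2, fun n hn F _ _ s hs hX => ?_⟩
  have hnN1 : N1 ≤ n := le_trans (le_trans (le_max_left _ _) (le_max_left _ _)) hn
  have hn8 : 8 ≤ n := le_trans (le_trans (le_max_right _ _) (le_max_left _ _)) hn
  have hnN2 : N2 ≤ n := le_trans (le_max_right _ _) hn
  obtain ⟨hL, -⟩ := hN1 n hnN1 F
  set L := Real.log (Fintype.card (SLn F n)) with hLdef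
  set J := ⌈101 / 100 * L / s⌉₊ with hJ
  have hJ32 : 32 ≤ J := by
    have h1 : (32 : ℝ) ≤ 101 / 100 * L / s := by
      rw [le_div_iff₀ hs]
      nlinarith
    have h2 : (32 : ℝ) ≤ J := le_trans h1 (Nat.le_ceil _)
    exact_mod_cast h2
  have hq2 := SumB_q F
  have hq0 : (0 : ℝ) < Fintype.card F := by linarith
  have hterm : ∀ b ∈ Finset.Icc 1 (n / 128), (Fintype.card F : ℝ) ^ (2 * (n * b)) *
      (2 * (Fintype.card F : ℝ) ^ (-((n : ℝ) * b / 8))) ^ J ≤ 2 ^ 32 * (1 / 2) ^ (2 * n) := by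
    intro b hb
    rw [Finset.mem_Icc] at hb
    set r := (Fintype.card F : ℝ) ^ (-((n : ℝ) * b / 8)) with hr
    set A := (Fintype.card F : ℝ) ^ (n * b) with hA
    have hr0 : 0 < r := Real.rpow_pos_of_pos hq0 _
    have hb1 : (1 : ℝ) ≤ b := by exact_mod_cast hb.1
    have hn8' : (8 : ℝ) ≤ n := by exact_mod_cast hn8
    have hr2 : 2 * r ≤ 1 := by
      have h1 : r ≤ (Fintype.card F : ℝ) ^ (-1 : ℝ) := by
        apply Real.rpow_le_rpow_of_exponent_le (by linarith)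
        nlinarith
      rw [Real.rpow_neg_one] at h1
      have h2 : ((Fintype.card F : ℝ))⁻¹ ≤ 2⁻¹ := inv_anti₀ (by norm_num) hq2
      linarith
    have hA2 : (2 : ℝ) ^ n ≤ A := by
      calc (2 : ℝ) ^ n ≤ (2 : ℝ) ^ (n * b) :=
            pow_le_pow_right₀ (by norm_num) (Nat.le_mul_of_pos_right _ hb.1)
        _ ≤ A := pow_le_pow_left₀ (by norm_num) hq2 _
    have hA0 : 0 < A := lt_of_lt_of_le (by positivity) hA2
    have hr8 : r ^ 8 = A⁻¹ := by
      rw [hr, ← Real.rpow_natCast, ← Real.rpow_mul hq0.le, hA, ← Real.rpow_natCast,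
        ← Real.rpow_neg hq0.le]
      congr 1
      push_cast
      ring
    have h32 : (2 * r) ^ J ≤ (2 * r) ^ 32 :=
      pow_le_pow_of_le_one (by positivity) hr2 hJ32
    have h33 : (2 * r) ^ 32 = 2 ^ 32 * (A⁻¹) ^ 4 := by
      rw [mul_pow, ← hr8, ← pow_mul]
    have hAA : (Fintype.card F : ℝ) ^ (2 * (n * b)) = A ^ 2 := by
      rw [hA, ← pow_mul, mul_comm 2]
    have hAinv : A⁻¹ ≤ (1 / 2) ^ n := by
      rw [one_div, inv_pow]
      exact inv_anti₀ (by positivity) hA2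
    calc (Fintype.card F : ℝ) ^ (2 * (n * b)) * (2 * r) ^ J
        ≤ A ^ 2 * (2 ^ 32 * (A⁻¹) ^ 4) := by
          rw [hAA, ← h33]
          exact mul_le_mul_of_nonneg_left h32 (by positivity)
      _ = 2 ^ 32 * (A⁻¹) ^ 2 := by
          field_simp
      _ ≤ 2 ^ 32 * ((1 / 2) ^ n) ^ 2 :=
          mul_le_mul_of_nonneg_left (pow_le_pow_left₀ (by positivity) hAinv 2) (by positivity)
      _ = 2 ^ 32 * (1 / 2) ^ (2 * n) := by
          rw [← pow_mul, mul_comm n 2]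
  have hsum := Finset.sum_le_sum hterm
  refine le_trans hsum ?_
  rw [Finset.sum_const, Nat.card_Icc, Nat.add_sub_cancel, nsmul_eq_mul]
  have h1 : ((n / 128 : ℕ) : ℝ) ≤ 2 ^ n := by
    have h2 : n / 128 ≤ 2 ^ n := le_trans (Nat.div_le_self _ _) (Nat.lt_two_pow_self).le
    exact_mod_cast h2
  have h3 : (1 / 2 : ℝ) ^ n ≤ (1 / 2) ^ N2 :=
    pow_le_pow_of_le_one (by norm_num) (by norm_num) hnN2
  calc ((n / 128 : ℕ) : ℝ) * (2 ^ 32 * (1 / 2) ^ (2 * n))
      ≤ 2 ^ n * (2 ^ 32 * (1 / 2) ^ (2 * n)) := mul_le_mul_of_nonneg_right h1 (by positivity)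
    _ = 2 ^ 32 * (1 / 2 : ℝ) ^ n := by
        have h4 : (2 : ℝ) ^ n * (1 / 2) ^ n = 1 := by
          rw [← mul_pow]
          norm_num
        rw [two_mul, pow_add]
        calc (2 : ℝ) ^ n * (2 ^ 32 * ((1 / 2) ^ n * (1 / 2) ^ n))
            = 2 ^ 32 * (1 / 2) ^ n * (2 ^ n * (1 / 2) ^ n) := by ring
          _ = 2 ^ 32 * (1 / 2) ^ n := by rw [h4, mul_one]
    _ ≤ 2 ^ 32 * (ε / 2 ^ 32) :=
        mul_le_mul_of_nonneg_left (le_trans h3 hN2.le) (by positivity)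
    _ = ε := by field_simp

end Pool.Agent.RCL
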