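import Pool.Agent.W_6acff7c_h33.ParamLow
import Pool.Agent.W_6acff7c_h33.ParamHigh
import Pool.Agent.W_6acff7c_h33.SumA
import Pool.Agent.W_6acff7c_h33.SumB
import Pool.Agent.W_6acff7c_h33.RRBlkB

/-!
# From a dense code to all elements

PROOF.  `L = log |G|`, `X = n ^ 2 log q`, `s > 0` (from `(l + 1) log 2 ≤ 2 s`), `Y > 0` (as `X > 0`).  Put
`J = ⌈(101/100) L / s⌉₊`; `J ≤ (101/100) L / s + 1 ≤ (101/100) Y + 1 ≤ 2 Y + 1` (`L ≤ X`).
Given `S` with the code `w`, `step_blk` (`k > 0` as `exp s ≤ k`) bounds the probability that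
`HasAllG (2 (J (l + 1)))` fails by `2 ∑ α ∈ chars1, finrank (JE α) * rr α w ^ J`, and `sum_all` with
`b0 = n / 128` (`hlow` = `ch_low_good`, `hhigh` from `ch_high_good` and `q ^ (-(n ^ 2 / 2000)) ≤ exp (-s)`, i.e.
`2000 s ≤ X`), `num_A`, `num_B` (both with `ε / 4`) bound it by `ε`.
Length: `2 (J (l + 1)) ≤ 2 ((101/100) L / s + 1) (2 s / log 2) = (4 / log 2) ((101/100) L + s)`; with
`4 / log 2 ≤ 5.771`, `s ≤ X / 2000 ≤ L / 1980` this is at most `5.84 L ≤ (59/10) L`; so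
`2 (J (l + 1)) ≤ ⌊(59/10) L⌋₊` (`Nat.le_floor`) and `WL.mono` gives `HasAllG ⌊(59/10) L⌋₊`.
-/

open Finset Pool.Agent.RCG

namespace Pool.Agent.RCL

private theorem FinalStep_num {n q : ℝ} {Y s L : ℝ} {l : ℕ} (hXs : 2000 * s ≤ n ^ 2 * Real.log q)
    (hY : n ^ 2 * Real.log q ≤ Y * s) (hl : ((l : ℝ) + 1) * Real.log 2 ≤ 2 * s)
    (hL1 : 99 / 100 * (n ^ 2 * Real.log q) ≤ L) (hL2 : L ≤ n ^ 2 * Real.log q) :
    0 < s ∧ (⌈101 / 100 * L / s⌉₊ : ℝ) ≤ 2 * Y + 1 ∧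
      2 * (⌈101 / 100 * L / s⌉₊ * (l + 1)) ≤ ⌊(59 / 10 : ℝ) * L⌋₊ := by
  have hlog2 : (0.6931471803 : ℝ) < Real.log 2 := Real.log_two_gt_d9
  have hlog2' : 0 < Real.log 2 := by linarith
  have hl0 : (0 : ℝ) < (l : ℝ) + 1 := by positivity
  have hs : 0 < s := by
    have := mul_pos hl0 hlog2'
    linarith
  have hX : 0 < n ^ 2 * Real.log q := by linarith
  have hL : 0 < L := by linarith
  have hLs : L / s ≤ Y := by
    rw [div_le_iff₀ hs]
    linarith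
  have hY0 : 0 < Y := lt_of_lt_of_le (div_pos hL hs) hLs
  have hx0 : 0 ≤ 101 / 100 * L / s := by positivity
  have hJ : (⌈101 / 100 * L / s⌉₊ : ℝ) ≤ 101 / 100 * L / s + 1 := (Nat.ceil_lt_add_one hx0).le
  have hJ2 : (101 / 100 * L / s : ℝ) = 101 / 100 * (L / s) := by ring
  refine ⟨hs, ?_, ?_⟩
  · rw [hJ2] at hJ
    rw [hJ2]
    nlinarith
  · apply Nat.le_floor
    push_cast
    have hJs : (⌈101 / 100 * L / s⌉₊ : ℝ) * s ≤ 101 / 100 * L + s := by
      have h1 := mul_le_mul_of_nonneg_right hJ hs.le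
      have h2 : (101 / 100 * L / s + 1) * s = 101 / 100 * L + s := by
        field_simp
      linarith
    have h3 : (2 * ((⌈101 / 100 * L / s⌉₊ : ℝ) * ((l : ℝ) + 1))) * Real.log 2 ≤
        (59 / 10 * L) * Real.log 2 := by
      have h4 : (2 * ((⌈101 / 100 * L / s⌉₊ : ℝ) * ((l : ℝ) + 1))) * Real.log 2 ≤
          4 * ((⌈101 / 100 * L / s⌉₊ : ℝ) * s) := by
        have : (2 * ((⌈101 / 100 * L / s⌉₊ : ℝ) * ((l : ℝ) + 1))) * Real.log 2 =
          2 * (⌈101 / 100 * L / s⌉₊ : ℝ) * (((l : ℝ) + 1) * Real.log 2) := by ring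
        rw [this]
        have h6 := mul_le_mul_of_nonneg_left hl
          (by positivity : (0 : ℝ) ≤ 2 * (⌈101 / 100 * L / s⌉₊ : ℝ))
        linarith
      refine h4.trans ?_
      have h5 : s ≤ L / 1980 := by linarith
      nlinarith
    exact le_of_mul_le_mul_right h3 hlog2'

theorem final_step (Y : ℝ) (ε : ℝ) (hε : 0 < ε) : ∃ N0 : ℕ, ∀ n ≥ N0, ∀ (F : Type) [Field F] [Fintype F]
    (l : ℕ) (s : ℝ), (n : ℝ) ^ 2 * Real.log (Fintype.card F) ≤ Y * s →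
    2000 * s ≤ (n : ℝ) ^ 2 * Real.log (Fintype.card F) → ((l : ℝ) + 1) * Real.log 2 ≤ 2 * s →
    ∃ J : ℕ, (J : ℝ) ≤ 2 * Y + 1 ∧
    StepG (SLn F n) J ε (HasCode 1000 (1 / 1000) l s)
      (HasAllG ⌊(59 / 10 : ℝ) * Real.log (Fintype.card (SLn F n))⌋₊) := by
  obtain ⟨N1, h1⟩ := ch_low_good
  obtain ⟨N2, h2⟩ := ch_high_good
  obtain ⟨N3, h3⟩ := log_card_bounds
  obtain ⟨N4, h4⟩ := num_A Y (ε / 4) (by linarith)
  obtain ⟨N5, h5⟩ := num_B (ε / 4) (by linarith)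
  refine ⟨max N1 (max N2 (max N3 (max N4 N5))), ?_⟩
  intro n hn F _ _ l s hY hs hl
  have hn1 : N1 ≤ n := le_trans (le_max_left _ _) hn
  have hn2 : N2 ≤ n := le_trans (le_trans (le_max_left _ _) (le_max_right _ _)) hn
  have hn3 : N3 ≤ n := le_trans (le_trans (le_trans (le_max_left _ _) (le_max_right _ _))
    (le_max_right _ _)) hn
  have hn4 : N4 ≤ n := le_trans (le_trans (le_trans (le_trans (le_max_left _ _) (le_max_right _ _))
    (le_max_right _ _)) (le_max_right _ _)) hn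
  have hn5 : N5 ≤ n := le_trans (le_trans (le_trans (le_trans (le_max_right _ _) (le_max_right _ _))
    (le_max_right _ _)) (le_max_right _ _)) hn
  obtain ⟨hL1, hL2⟩ := h3 n hn3 F
  obtain ⟨hs0, hJY, hlen⟩ := FinalStep_num hs hY hl hL1 hL2
  set J := ⌈101 / 100 * Real.log (Fintype.card (SLn F n)) / s⌉₊ with hJ
  refine ⟨J, hJY, ?_⟩
  intro S hS
  obtain ⟨k, hk, w, hw, hg⟩ := hS
  have hk0 : 0 < k := by
    have h6 : (0 : ℝ) < k := lt_of_lt_of_le (Real.exp_pos s) hk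
    exact_mod_cast h6
  have hq1 : (1 : ℝ) < (Fintype.card F : ℝ) := by
    exact_mod_cast Fintype.one_lt_card
  have hsum := sum_all (F := F) (n := n) (K := 1000) (b0 := n / 128) (κ := 1 / 1000) hk w hg
    (fun α hα hb1 hb2 g hgg => h1 n hn1 F α hα hb1 hb2 g hgg)
    (fun α hα hb g hgg => by
      refine (h2 n hn2 F α hα hb g hgg).trans ?_
      rw [Real.rpow_def_of_pos (by linarith)]
      apply Real.exp_le_exp.2
      linarith) J
  have hA := h4 n hn4 F s hs0 hY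
  have hB := h5 n hn5 F s hs0 hs
  have hblk := step_blk hk0 w J l S hw
  have hmono : pr (fun z : Fin J → SLn F n =>
      ¬ HasAllG ⌊(59 / 10 : ℝ) * Real.log (Fintype.card (SLn F n))⌋₊ (S ∪ Set.range z)) ≤
      pr (fun z : Fin J → SLn F n => ¬ HasAllG (2 * (J * (l + 1))) (S ∪ Set.range z)) := by
    apply pr_mono
    intro z hz hz'
    exact hz (fun g => (hz' g).mono (le_refl _) hlen)
  linarith

end Pool.Agent.RCL
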