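import Pool.Agent.W_6acff7c_h33.LevL

/-!
# Dimension of the functions of level at most `b`

Compare `Pool/Agent/W_6acff7b_h70/FsubDim.lean`.
PROOF of `finrank_FsubL_le`.  For `s, t : Fin b → (Fin n → F)` let `ind s t` be the indicator function of
`{c | ∀ i, c (s i) = t i}`.  If `finrank D = b` and `u` is fixed by `PS D` under `regR`, let `s` be a basis of
`D`; `u c` depends only on the `c (s i)` (if `c, c'` agree on `s` then `c⁻¹ c' ∈ PS D`), so `u` is a linear
combination of the `ind s t`, `t : Fin b → V`.  So `FsubL b` is contained in the span of the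
`q ^ (n b) * q ^ (n b)` vectors `ind s t` (`finrank_span_le_card` / `finrank_range_le_card`).

PROOF of `sum_dim_lev`: the subspaces `JE α` with `levL α = b` lie in `FsubL b` (`lev_specL`) and are
mutually orthogonal (`JE_orthogonal`, `Planch_orth`), so the sum of their dimensions is the dimension of
their span, at most `finrank (FsubL b)` (e.g. `Submodule.finrank_iSup...`/ `iSupIndep` and
`Submodule.finrank_iSup_of_iSupIndep`-like lemmas, or induction on the finset with
`Submodule.finrank_sup_add_finrank_inf_eq`).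
-/

open Finset Pool.Agent.RCG

namespace Pool.Agent.RCL

variable {F : Type*} [Field F] [Fintype F] {n : ℕ}

open Classical in
/-- Indicator of the elements `c` with `c (s i) = t i` for all `i`. -/
private noncomputable def FsubDimL_ind {b : ℕ} (s t : Fin b → (Fin n → F)) :
    EuclideanSpace ℝ (SLn F n) :=
  WithLp.toLp 2 fun c => if (fun i => c.1 (s i)) = t then 1 else 0

private theorem FsubDimL_span (b : ℕ) : FsubL (regR (SLn F n)) b ≤
    Submodule.span ℝ (Set.range fun p : (Fin b → (Fin n → F)) × (Fin b → (Fin n → F)) =>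
      FsubDimL_ind p.1 p.2) := by
  classical
  refine Submodule.span_le.2 ?_
  rintro u ⟨D, hD, hfix⟩
  let B : Module.Basis (Fin b) F D := Module.finBasisOfFinrankEq F D hD
  let s : Fin b → (Fin n → F) := fun i => (B i : Fin n → F)
  have hdep : ∀ c c' : SLn F n, (fun i => c'.1 (s i)) = (fun i => c.1 (s i)) → u c' = u c := by
    intro c c' h
    have h0 : (c'.1 : (Fin n → F) →ₗ[F] (Fin n → F)) ∘ₗ D.subtype =
        (c.1 : (Fin n → F) →ₗ[F] (Fin n → F)) ∘ₗ D.subtype := by
      refine B.ext fun i => ?_
      exact congrFun h i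
    have h1 : regR (SLn F n) (c⁻¹ * c') u = u := by
      refine hfix _ fun d hd => ?_
      have h2 : c'.1 d = c.1 d := LinearMap.congr_fun h0 ⟨d, hd⟩
      show c.1.symm (c'.1 d) = d
      rw [h2]
      exact c.1.symm_apply_apply _
    have h3 := regR_apply (SLn F n) (c⁻¹ * c') u c
    rw [h1, mul_inv_cancel_left] at h3
    exact h3.symm
  let a : (Fin b → (Fin n → F)) → ℝ := fun t =>
    if h : ∃ c : SLn F n, (fun i => c.1 (s i)) = t then u h.choose else 0
  have hu : u = ∑ t : Fin b → (Fin n → F), a t • FsubDimL_ind s t := by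
    ext c
    have h1 : (∑ t : Fin b → (Fin n → F),
        a t • (FsubDimL_ind s t : EuclideanSpace ℝ (SLn F n))) c =
        ∑ t : Fin b → (Fin n → F), a t * (if (fun i => c.1 (s i)) = t then 1 else 0) := by
      simp [FsubDimL_ind]
    rw [h1]
    simp only [mul_ite, mul_one, mul_zero, Finset.sum_ite_eq, Finset.mem_univ, if_true]
    have h2 : ∃ c' : SLn F n, (fun i => c'.1 (s i)) = (fun i => c.1 (s i)) := ⟨c, rfl⟩
    have h3 : a (fun i => c.1 (s i)) = u h2.choose := dif_pos h2
    rw [h3]
    exact (hdep c _ h2.choose_spec).symm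
  show u ∈ Submodule.span ℝ (Set.range fun p : (Fin b → (Fin n → F)) × (Fin b → (Fin n → F)) =>
      FsubDimL_ind p.1 p.2)
  rw [hu]
  exact Submodule.sum_mem _ fun t _ => Submodule.smul_mem _ _
    (Submodule.subset_span ⟨(s, t), rfl⟩)

theorem finrank_FsubL_le (b : ℕ) :
    Module.finrank ℝ (FsubL (regR (SLn F n)) b) ≤ Fintype.card F ^ (2 * (n * b)) := by
  classical
  refine (Submodule.finrank_mono (FsubDimL_span b)).trans ?_
  refine (finrank_range_le_card (R := ℝ)
    (fun p : (Fin b → (Fin n → F)) × (Fin b → (Fin n → F)) =>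
      (FsubDimL_ind p.1 p.2 : EuclideanSpace ℝ (SLn F n)))).trans ?_
  rw [Fintype.card_prod, Fintype.card_fun, Fintype.card_fun, Fintype.card_fin, Fintype.card_fin,
    two_mul, pow_add, ← pow_mul]

private theorem FsubDimL_finrank_biSup {G : Type*} [Group G] [Fintype G] (s : Finset (G → ℝ)) :
    Module.finrank ℝ (⨆ α ∈ s, JE α : Submodule ℝ (EuclideanSpace ℝ G)) =
      ∑ α ∈ s, Module.finrank ℝ (JE α) := by
  classical
  induction s using Finset.induction_on with
  | empty => simp
  | @insert a s ha ih =>
    rw [Finset.sum_insert ha, Finset.iSup_insert, ← ih]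
    have h1 := Submodule.finrank_sup_add_finrank_inf_eq (JE a) (⨆ α ∈ s, JE α)
    have h2 : Disjoint (JE a) (⨆ α ∈ s, JE α) := by
      have h3 := (JE_orthogonal (G := G)).independent.disjoint_biSup (x := a)
        (y := (s : Set (G → ℝ))) (by simpa using ha)
      simpa using h3
    rw [h2.eq_bot, finrank_bot, add_zero] at h1
    exact h1

open Classical in
theorem sum_dim_lev (b : ℕ) :
    ∑ α ∈ (chars (SLn F n)).filter (fun α => levL α = b), (Module.finrank ℝ (JE α) : ℝ) ≤
      (Fintype.card F : ℝ) ^ (2 * (n * b)) := by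
  have h1 : (⨆ α ∈ (chars (SLn F n)).filter (fun α => levL α = b), JE α) ≤
      FsubL (regR (SLn F n)) b := by
    refine iSup₂_le fun α hα => ?_
    have h2 := lev_specL α
    rw [(Finset.mem_filter.1 hα).2] at h2
    exact h2
  have h3 := (Submodule.finrank_mono h1).trans (finrank_FsubL_le (F := F) (n := n) b)
  rw [FsubDimL_finrank_biSup] at h3
  exact_mod_cast h3

end Pool.Agent.RCL
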