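import Pool.Agent.W_6acff7c_h33.Defs

/-!
# Steps for random letters in a finite group

PROOF: copy `Step.comp`, `Step.weaken`, `Step.extra` from `Pool/Agent/W_MP_6acff7_h70/Prob.lean`
(namespace `Pool.Agent.RCG`), replacing `A n` by a general finite group `G`; the proofs do not use
anything about `A n`.  `StepG.skip`: for every `z` the set `S ∪ range z` contains `S`, so the event is
empty and `pr = 0 ≤ ε`.
-/

open Finset Pool.Agent.RCG

namespace Pool.Agent.RCL

variable {G : Type*} [Group G] [Fintype G]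

private theorem GStep_range_append {X : Type*} {k k' : ℕ} (z : Fin k → X) (z' : Fin k' → X) :
    Set.range (Fin.append z z') = Set.range z ∪ Set.range z' := by
  ext x
  simp only [Set.mem_range, Set.mem_union]
  constructor
  · rintro ⟨i, rfl⟩
    refine Fin.addCases (fun j => ?_) (fun j => ?_) i
    · left
      exact ⟨j, by rw [Fin.append_left]⟩
    · right
      exact ⟨j, by rw [Fin.append_right]⟩
  · rintro (⟨j, rfl⟩ | ⟨j, rfl⟩)
    · exact ⟨Fin.castAdd k' j, by rw [Fin.append_left]⟩
    · exact ⟨Fin.natAdd k j, by rw [Fin.append_right]⟩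

private theorem GStep_append {k k' : ℕ} (P : (Fin (k + k') → G) → Prop) :
    pr P = pr fun p : (Fin k → G) × (Fin k' → G) => P (Fin.append p.1 p.2) :=
  (pr_congr (Fin.appendEquiv k k') P).symm

private theorem GStep_pr_false {α : Type*} [Fintype α] {P : α → Prop} (h : ∀ a, ¬ P a) :
    pr P ≤ 0 := by
  classical
  have h1 : pr P = ((Finset.univ.filter P).card : ℝ) / Fintype.card α := by
    unfold pr
    congr!
  rw [h1]
  have h2 : Finset.univ.filter P = ∅ := Finset.filter_eq_empty_iff.2 fun a _ => h a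
  rw [h2, Finset.card_empty, Nat.cast_zero, zero_div]

theorem StepG.comp {k k' : ℕ} {ε ε' : ℝ} {Q Q' Q'' : Set G → Prop} (h : StepG G k ε Q Q')
    (h' : StepG G k' ε' Q' Q'') (hε' : 0 ≤ ε') : StepG G (k + k') (ε + ε') Q Q'' := by
  intro S hS
  rw [GStep_append]
  refine pr_prod_le _ (fun z => ¬ Q' (S ∪ Set.range z)) ε ε' hε' (h S hS) ?_
  intro z hz
  have hz' : Q' (S ∪ Set.range z) := not_not.1 hz
  have h1 := h' _ hz'
  refine (pr_mono fun z' hz' => ?_).trans h1
  simp only [GStep_range_append] at hz'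
  rw [Set.union_assoc]
  exact hz'

theorem StepG.weaken {k : ℕ} {ε ε' : ℝ} {Q Q' P P' : Set G → Prop} (h : StepG G k ε Q Q')
    (hP : ∀ S, P S → Q S) (hP' : ∀ S, Q' S → P' S) (hε : ε ≤ ε') : StepG G k ε' P P' := by
  intro S hS
  refine ((pr_mono fun z hz => ?_).trans (h S (hP S hS))).trans hε
  exact fun hq => hz (hP' _ hq)

theorem StepG.extra {k : ℕ} {ε : ℝ} {Q Q' : Set G → Prop} (hQ' : MonoG Q')
    (h : StepG G k ε Q Q') (r : ℕ) : StepG G (k + r) ε Q Q' := by
  intro S hS
  rw [GStep_append]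
  have h1 : pr (fun p : (Fin k → G) × (Fin r → G) => ¬ Q' (S ∪ Set.range p.1)) ≤ ε + 0 := by
    refine pr_prod_le _ (fun z => ¬ Q' (S ∪ Set.range z)) ε 0 le_rfl (h S hS) ?_
    intro z hz
    exact GStep_pr_false fun _ => hz
  rw [add_zero] at h1
  refine (pr_mono fun p hp => ?_).trans h1
  intro hq
  apply hp
  refine hQ' _ _ ?_ hq
  rw [GStep_range_append]
  exact Set.union_subset_union_right _ Set.subset_union_left

theorem StepG.skip {k : ℕ} {ε : ℝ} {Q : Set G → Prop} (hQ : MonoG Q) (hε : 0 ≤ ε) :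
    StepG G k ε Q Q := by
  intro S hS
  exact (GStep_pr_false fun z hz => hz (hQ S _ Set.subset_union_left hS)).trans hε

theorem mono_hasAllG (l : ℕ) : MonoG (HasAllG (G := G) l) := by
  intro S S' hS h g
  exact WL.mono hS le_rfl (h g)

end Pool.Agent.RCL
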