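import Pool.Agent.W_6acff7c_h33.Coin

/-!
# A good element is generated by few vectors

PROOF.  Let `q = |F|`.  Call `v : Fin r → V` an `r`-system if the `r (K + 1)` vectors `g ^ e (v i)`,
`i < r`, `e ≤ K`, are linearly independent.  The empty system exists and `r (K + 1) ≤ n` always, so take
`r` maximal; let `W` be the span of the vectors `g ^ e (v i)`, `dim W = r (K + 1)`.  By maximality, for every
`x ∈ V` there is `c : Fin (K + 1) → F`, `c ≠ 0`, with `∑ c_e g ^ e x ∈ W` (otherwise `x` can be added to the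
system).  For fixed `c ≠ 0` the linear map `T_c = ∑ c_e g ^ e` has `ker T_c ⊆ shortV K g`, so
`|ker T_c| ≤ q ^ (κ n)` and `|{x | T_c x ∈ W}| ≤ |ker T_c| |W| ≤ q ^ (κ n) q ^ (r (K + 1))`.  There are at
most `q ^ (K + 1)` vectors `c`, so `q ^ n ≤ q ^ (K + 1 + κ n + r (K + 1))`; compare exponents.
-/

open Finset Pool.Agent.RCG

namespace Pool.Agent.RCL

variable {F : Type*} [Field F] [Fintype F] {n : ℕ}

/-- The linear map `∑ c_e g ^ e`. -/
private noncomputable def GenA_T (g : SLn F n) {K : ℕ} (c : Fin (K + 1) → F) :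
    (Fin n → F) →ₗ[F] (Fin n → F) :=
  ∑ e : Fin (K + 1), c e • ((g ^ (e : ℕ)).1 : (Fin n → F) →ₗ[F] (Fin n → F))

private theorem GenA_T_apply (g : SLn F n) {K : ℕ} (c : Fin (K + 1) → F) (x : Fin n → F) :
    GenA_T g c x = ∑ e : Fin (K + 1), c e • (g ^ (e : ℕ)).1 x := by
  simp [GenA_T, LinearMap.sum_apply]

private theorem GenA_ker_sub (g : SLn F n) {K : ℕ} {c : Fin (K + 1) → F} (hc : c ≠ 0) :
    ((LinearMap.ker (GenA_T g c) : Submodule F (Fin n → F)) : Set (Fin n → F)) ⊆ shortV K g := by
  intro x hx hli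
  rw [SetLike.mem_coe, LinearMap.mem_ker, GenA_T_apply] at hx
  apply hc
  funext e
  exact Fintype.linearIndependent_iff.1 hli c hx e

private theorem GenA_comap_le (T : (Fin n → F) →ₗ[F] (Fin n → F)) (W : Submodule F (Fin n → F)) :
    Module.finrank F (W.comap T) ≤ Module.finrank F (LinearMap.ker T) + Module.finrank F W := by
  have hf : ∀ x ∈ W.comap T, T x ∈ W := fun x hx => hx
  have h1 := LinearMap.finrank_range_add_finrank_ker (T.restrict hf)
  have h2 : Module.finrank F (LinearMap.range (T.restrict hf)) ≤ Module.finrank F W :=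
    Submodule.finrank_le _
  have h3 : Module.finrank F (LinearMap.ker (T.restrict hf)) ≤
      Module.finrank F (LinearMap.ker T) := by
    rw [← Submodule.finrank_map_subtype_eq (W.comap T) (LinearMap.ker (T.restrict hf))]
    apply Submodule.finrank_mono
    rintro _ ⟨x, hx, rfl⟩
    rw [SetLike.mem_coe, LinearMap.mem_ker] at hx
    rw [LinearMap.mem_ker]
    have := congrArg Subtype.val hx
    simpa using this
  omega

theorem gen_blocks {K : ℕ} {κ : ℝ} {g : SLn F n} (h : Good K κ g) :
    ∃ (r : ℕ) (v : Fin r → (Fin n → F)),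
      LinearIndependent F (fun p : Fin r × Fin (K + 1) => (g ^ (p.2 : ℕ)).1 (v p.1)) ∧
      (n : ℝ) ≤ K + 1 + κ * n + r * (K + 1) := by
  classical
  set P : ℕ → Prop := fun r => ∃ v : Fin r → (Fin n → F),
    LinearIndependent F (fun p : Fin r × Fin (K + 1) => (g ^ (p.2 : ℕ)).1 (v p.1)) with hP
  have hP0 : P 0 := ⟨fun i => i.elim0, linearIndependent_empty_type⟩
  have hPn : ¬ P (n + 1) := by
    rintro ⟨v, hv⟩
    have h1 := hv.fintype_card_le_finrank
    rw [Module.finrank_fin_fun, Fintype.card_prod, Fintype.card_fin, Fintype.card_fin] at h1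
    nlinarith
  obtain ⟨r, ⟨v, hv⟩, hmax⟩ : ∃ r, P r ∧ ¬ P (r + 1) := by
    by_contra hcon
    push Not at hcon
    apply hPn
    have : ∀ r, P r := by
      intro r
      induction r with
      | zero => exact hP0
      | succ r ih => exact hcon r ih
    exact this _
  refine ⟨r, v, hv, ?_⟩
  set u : Fin r × Fin (K + 1) → (Fin n → F) := fun p => (g ^ (p.2 : ℕ)).1 (v p.1) with hu
  set W : Submodule F (Fin n → F) := Submodule.span F (Set.range u) with hW
  have hWr : Module.finrank F W = r * (K + 1) := by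
    rw [hW, finrank_span_eq_card hv, Fintype.card_prod, Fintype.card_fin, Fintype.card_fin]
  -- every vector is in some `comap`
  have hcov : ∀ x : Fin n → F, ∃ c : Fin (K + 1) → F, c ≠ 0 ∧ x ∈ W.comap (GenA_T g c) := by
    intro x
    by_contra hcon
    push Not at hcon
    apply hmax
    refine ⟨Fin.cons x v, ?_⟩
    rw [Fintype.linearIndependent_iff]
    intro a ha
    rw [Fintype.sum_prod_type, Fin.sum_univ_succ] at ha
    simp only [Fin.cons_zero, Fin.cons_succ] at ha
    have hsum : ∑ i : Fin r, ∑ e : Fin (K + 1), a (i.succ, e) • (g ^ (e : ℕ)).1 (v i) =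
        ∑ p : Fin r × Fin (K + 1), a (p.1.succ, p.2) • u p := by
      rw [Fintype.sum_prod_type]
    rw [hsum] at ha
    have hc0 : (fun e => a (0, e)) = (0 : Fin (K + 1) → F) := by
      by_contra hne
      apply hcon _ hne
      rw [Submodule.mem_comap, GenA_T_apply]
      have : ∑ e : Fin (K + 1), a (0, e) • (g ^ (e : ℕ)).1 x =
          -∑ p : Fin r × Fin (K + 1), a (p.1.succ, p.2) • u p := eq_neg_of_add_eq_zero_left ha
      rw [this]
      apply W.neg_mem
      apply W.sum_mem
      intro p _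
      exact W.smul_mem _ (Submodule.subset_span ⟨p, rfl⟩)
    have hz : ∀ e, a (0, e) = 0 := fun e => congrFun hc0 e
    simp only [hz, zero_smul, Finset.sum_const_zero, zero_add] at ha
    have h2 := Fintype.linearIndependent_iff.1 hv (fun p => a (p.1.succ, p.2)) ha
    rintro ⟨i, e⟩
    refine Fin.cases ?_ (fun i => ?_) i
    · exact hz e
    · exact h2 (i, e)
  -- kernels
  have hq1 : 1 < Fintype.card F := Fintype.one_lt_card
  have hq1r : (1 : ℝ) < Fintype.card F := by exact_mod_cast hq1
  have hker : ∀ c : Fin (K + 1) → F, c ≠ 0 →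
      (Module.finrank F (LinearMap.ker (GenA_T g c)) : ℝ) ≤ κ * n := by
    intro c hc
    have h1 : Nat.card (LinearMap.ker (GenA_T g c)) ≤ Nat.card (shortV K g) :=
      Nat.card_mono (Set.toFinite _) (GenA_ker_sub g hc)
    rw [card_sub] at h1
    have h2 : ((Fintype.card F : ℝ)) ^ (Module.finrank F (LinearMap.ker (GenA_T g c)) : ℝ) ≤
        (Fintype.card F : ℝ) ^ (κ * n) := by
      rw [Real.rpow_natCast]
      refine le_trans ?_ h
      exact_mod_cast h1
    exact (Real.rpow_le_rpow_left_iff hq1r).1 h2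
  have hκ0 : 0 ≤ κ * n := by
    have hne : (fun _ => 1 : Fin (K + 1) → F) ≠ 0 := by
      intro h0
      exact one_ne_zero (congrFun h0 0)
    exact le_trans (Nat.cast_nonneg _) (hker _ hne)
  have hkern : ∀ c : Fin (K + 1) → F, c ≠ 0 →
      Module.finrank F (LinearMap.ker (GenA_T g c)) ≤ ⌊κ * n⌋₊ := fun c hc =>
    Nat.le_floor (hker c hc)
  -- counting
  have hcard : Fintype.card F ^ n ≤ Fintype.card F ^ (K + 1) *
      Fintype.card F ^ (⌊κ * n⌋₊ + r * (K + 1)) := by
    have h1 : Nat.card (Fin n → F) = Fintype.card F ^ n := by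
      rw [Nat.card_eq_fintype_card, Fintype.card_fun, Fintype.card_fin]
    have h2 : Nat.card (Fin n → F) ≤
        Nat.card (Σ c : {c : Fin (K + 1) → F // c ≠ 0}, W.comap (GenA_T g c.1)) := by
      apply Nat.card_le_card_of_surjective (fun s => (s.2 : Fin n → F))
      intro x
      obtain ⟨c, hc, hx⟩ := hcov x
      exact ⟨⟨⟨c, hc⟩, ⟨x, hx⟩⟩, rfl⟩
    rw [h1, Nat.card_sigma] at h2
    refine h2.trans ?_
    have h3 : ∀ c : {c : Fin (K + 1) → F // c ≠ 0}, Nat.card (W.comap (GenA_T g c.1)) ≤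
        Fintype.card F ^ (⌊κ * n⌋₊ + r * (K + 1)) := by
      intro c
      rw [card_sub]
      apply Nat.pow_le_pow_right (by omega)
      have := GenA_comap_le (GenA_T g c.1) W
      have := hkern c.1 c.2
      omega
    refine (Finset.sum_le_sum fun c _ => h3 c).trans ?_
    rw [Finset.sum_const, smul_eq_mul]
    apply Nat.mul_le_mul_right
    rw [Finset.card_univ]
    refine (Fintype.card_subtype_le _).trans ?_
    rw [Fintype.card_fun, Fintype.card_fin]
  rw [← pow_add] at hcard
  have hle : n ≤ K + 1 + (⌊κ * n⌋₊ + r * (K + 1)) := (Nat.pow_le_pow_iff_right hq1).1 hcard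
  have hle' : (n : ℝ) ≤ K + 1 + (⌊κ * n⌋₊ + r * (K + 1)) := by exact_mod_cast hle
  have hfl := Nat.floor_le hκ0
  linarith

end Pool.Agent.RCL
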