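import Pool.Agent.W_6acff7c_h33.ShortBad

/-!
# A random cyclic word is good with very high probability

PROOF of `chain_replicate`: induction on `K` (`List.isChain_append`); a nonempty `L` with `L ++ L` a chain.
PROOF of `good_run`.  Put `q = |F|`, `T = K * L.length ≥ 1`, `M = ⌊Δ n / (8 T)⌋` (natural floor),
`c = (M + 1) * T`.  By `h1` `Δ n / (8 T) ≥ 2`, so `M ≥ 2`, `M ≥ Δ n / (16 T)` and
`c ≤ 2 M T ≤ Δ n / 4`; also `n ≥ 16`, so `c + 2 ≤ n / 4 + 2 ≤ n`.  With `L' = L` repeated `K` times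
(length `T`, a chain) `moment` for `D = ⊥`, `y0 = 1` and `cE_bot` give
`∑ y, (number of bad v) ^ M ≤ |G| * ((T + 1) * 2 q ^ (k + 2 + c)) ^ M`.
If `g y` is not good with constant `κ + Δ` then, as short vectors are bad (`short_bad`), the number of
bad `v` is more than `q ^ ((κ + Δ) n)`, so its `M`-th power is more than `q ^ ((κ + Δ) n M)`.  Markov
(`pr_markov`) gives
`pr ≤ ((T + 1) * 2 q ^ (k + 2 + c) / q ^ ((κ + Δ) n)) ^ M
 ≤ (2 (T + 1) q ^ 2 * q ^ (κ n) * q ^ (Δ n / 4) / q ^ ((κ + Δ) n)) ^ M ≤ (q ^ (-(Δ n) / 2)) ^ M`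
by `h2`, and `M ≥ Δ n / (16 T)` gives `q ^ (-(Δ ^ 2 n ^ 2) / (32 T))`, which is the claim.
-/

open Finset Pool.Agent.RCG

namespace Pool.Agent.RCL

variable {F : Type*} [Field F] [Fintype F] {n : ℕ}

theorem chain_replicate {k : ℕ} (L : List (Bool × SLn F n)) (hL0 : L ≠ [])
    (hL : (L ++ L).IsChain (Adm k)) (K : ℕ) : (List.replicate K L).flatten.IsChain (Adm k) := by
  rw [List.isChain_append] at hL
  obtain ⟨h1, _, h3⟩ := hL
  induction K with
  | zero => simp
  | succ K ih =>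
    rw [List.replicate_succ, List.flatten_cons, List.isChain_append]
    refine ⟨h1, ih, ?_⟩
    intro x hx y hy
    cases K with
    | zero => simp at hy
    | succ K =>
      rw [List.replicate_succ, List.flatten_cons, List.head?_append_of_ne_nil _ hL0] at hy
      exact h3 x hx y hy

theorem GoodRun_length {α : Type*} (L : List α) (K : ℕ) :
    (List.replicate K L).flatten.length = K * L.length := by
  simp [List.length_flatten]

/-- the numerical part -/
theorem GoodRun_num {q κ Δ T n' : ℝ} {k c M : ℕ} (hq : 1 < q) (hΔ : 0 < Δ) (hT : 1 ≤ T)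
    (hn : 0 < n') (hk : (k : ℝ) ≤ κ * n') (hc : (c : ℝ) ≤ Δ * n' / 4)
    (hM : Δ * n' / (16 * T) ≤ M)
    (h2 : 2 * (T + 1) * q ^ 2 ≤ q ^ (Δ * n' / 4)) :
    ((T + 1) * (2 * q ^ (k + 2 + c))) ^ M / (q ^ ((κ + Δ) * n')) ^ M ≤
      Real.exp (-(Δ ^ 2 * (n' ^ 2 * Real.log q) / (32 * T))) := by
  have hq0 : 0 < q := by linarith
  have hq1 : 1 ≤ q := hq.le
  have hlog : 0 < Real.log q := Real.log_pos hq
  have e1 : q ^ (k + 2 + c) ≤ q ^ 2 * q ^ (κ * n' + Δ * n' / 4) := by
    have : q ^ (k + 2 + c) = q ^ 2 * q ^ ((k : ℝ) + c) := by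
      rw [Real.rpow_add hq0, Real.rpow_natCast, Real.rpow_natCast]
      ring
    rw [this]
    apply mul_le_mul_of_nonneg_left _ (by positivity)
    exact Real.rpow_le_rpow_of_exponent_le hq1 (by linarith)
  have e2 : (T + 1) * (2 * q ^ (k + 2 + c)) ≤ q ^ (κ * n' + Δ * n' / 2) := by
    calc (T + 1) * (2 * q ^ (k + 2 + c))
        ≤ (T + 1) * (2 * (q ^ 2 * q ^ (κ * n' + Δ * n' / 4))) := by
          apply mul_le_mul_of_nonneg_left _ (by linarith)
          apply mul_le_mul_of_nonneg_left e1 (by norm_num)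
      _ = 2 * (T + 1) * q ^ 2 * q ^ (κ * n' + Δ * n' / 4) := by ring
      _ ≤ q ^ (Δ * n' / 4) * q ^ (κ * n' + Δ * n' / 4) := by
          apply mul_le_mul_of_nonneg_right h2 (by positivity)
      _ = q ^ (κ * n' + Δ * n' / 2) := by
          rw [← Real.rpow_add hq0]
          congr 1
          ring
  rw [← div_pow]
  have e3 : (T + 1) * (2 * q ^ (k + 2 + c)) / q ^ ((κ + Δ) * n') ≤
      Real.exp (-(Δ * n' / 2) * Real.log q) := by
    rw [div_le_iff₀ (by positivity)]
    refine e2.trans (le_of_eq ?_)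
    rw [Real.rpow_def_of_pos hq0, Real.rpow_def_of_pos hq0, ← Real.exp_add]
    congr 1
    ring
  calc ((T + 1) * (2 * q ^ (k + 2 + c)) / q ^ ((κ + Δ) * n')) ^ M
      ≤ (Real.exp (-(Δ * n' / 2) * Real.log q)) ^ M := by
        apply pow_le_pow_left₀ _ e3
        have : 0 ≤ T + 1 := by linarith
        positivity
    _ = Real.exp (-(Δ * n' / 2 * Real.log q) * M) := by
        rw [← Real.exp_nat_mul]
        congr 1
        ring
    _ ≤ _ := by
        apply Real.exp_le_exp.2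
        have h4 : Δ * n' / 2 * Real.log q * (Δ * n' / (16 * T)) ≤ Δ * n' / 2 * Real.log q * M :=
          mul_le_mul_of_nonneg_left hM (by positivity)
        have h5 : Δ * n' / 2 * Real.log q * (Δ * n' / (16 * T)) =
            Δ ^ 2 * (n' ^ 2 * Real.log q) / (32 * T) := by
          have : T ≠ 0 := by linarith
          field_simp
          ring
        rw [h5] at h4
        linarith

theorem good_run {K k : ℕ} (hK : 1 ≤ K) {κ Δ : ℝ} (hΔ : 0 < Δ) (hΔ1 : Δ ≤ 1) (hk : (k : ℝ) ≤ κ * n)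
    (L : List (Bool × SLn F n)) (hL0 : L ≠ []) (hL : (L ++ L).IsChain (Adm k))
    (g : SLn F n → SLn F n) (hg : ∀ y v, run y L v = (g y).1 v)
    (h1 : 16 * (K * L.length : ℝ) ≤ Δ * n)
    (h2 : 2 * (K * L.length + 1 : ℝ) * (Fintype.card F : ℝ) ^ 2 ≤ (Fintype.card F : ℝ) ^ (Δ * n / 4)) :
    pr (fun y => ¬ Good K (κ + Δ) (g y)) ≤
      Real.exp (-(Δ ^ 2 * (n ^ 2 * Real.log (Fintype.card F)) / (32 * (K * L.length)))) := by
  have hlen : 1 ≤ L.length := by
    have := List.length_pos_iff.2 hL0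
    omega
  have hq2 : (2 : ℝ) ≤ Fintype.card F := by
    exact_mod_cast Fintype.one_lt_card
  set T : ℕ := K * L.length with hTdef
  have hT1 : 1 ≤ T := Nat.one_le_iff_ne_zero.2 (Nat.mul_ne_zero (by omega) (by omega))
  have hTr : (K * L.length : ℝ) = (T : ℝ) := by rw [hTdef]; push_cast; ring
  rw [hTr] at h1 h2 ⊢
  have hT1r : (1 : ℝ) ≤ T := by exact_mod_cast hT1
  have hT0 : (0 : ℝ) < T := by linarith
  set M : ℕ := ⌊Δ * n / (8 * T)⌋₊ with hMdef
  have hx2 : 2 ≤ Δ * n / (8 * T) := by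
    rw [le_div_iff₀ (by positivity)]
    linarith
  have hM1 : (M : ℝ) ≤ Δ * n / (8 * T) := Nat.floor_le (by linarith)
  have hM2 : Δ * n / (8 * T) < M + 1 := Nat.lt_floor_add_one _
  have hM3 : Δ * n / (16 * T) ≤ M := by
    have : Δ * n / (16 * T) = Δ * n / (8 * T) / 2 := by
      field_simp
      ring
    rw [this]
    linarith
  have hMge : 1 ≤ M := by
    have : (1 : ℝ) < M + 1 := by linarith
    have h' : (0 : ℝ) < M := by linarith
    exact_mod_cast h'
  have hM4 : ((M : ℝ) + 1) * T ≤ Δ * n / 4 := by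
    have hM5 : (1 : ℝ) ≤ M := by exact_mod_cast hMge
    have : (M : ℝ) * (8 * T) ≤ Δ * n := by
      rwa [le_div_iff₀ (by positivity)] at hM1
    nlinarith
  have hn16 : (16 : ℝ) ≤ n := by
    have hn0 : (0 : ℝ) ≤ n := Nat.cast_nonneg _
    nlinarith
  set c : ℕ := (M + 1) * T with hcdef
  have hcr : (c : ℝ) ≤ Δ * n / 4 := by
    rw [hcdef]
    push_cast
    exact hM4
  have hcn : c + 2 ≤ n := by
    have : (c : ℝ) + 2 ≤ n := by nlinarith
    exact_mod_cast this
  have hlen' : (List.replicate K L).flatten.length = T := GoodRun_length L K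
  have hmom := moment hcn (List.replicate K L).flatten (chain_replicate L hL0 hL K) M ⊥ 1
    (by rw [hlen', finrank_bot]; omega)
  rw [cE_bot, hlen', div_le_iff₀ (by exact_mod_cast Fintype.card_pos)] at hmom
  have hmar := pr_markov
    (fun y : SLn F n => (Nat.card {v : Fin n → F // Bad (List.replicate K L).flatten y v} : ℝ) ^ M)
    (fun y => by positivity) (((Fintype.card F : ℝ) ^ ((κ + Δ) * n)) ^ M) _ (by positivity) hmom
  refine le_trans ?_ (hmar.trans (GoodRun_num (by linarith) hΔ hT1r (by linarith) hk hcr hM3 h2))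
  apply pr_mono
  intro y hy
  unfold Good at hy
  rw [not_le] at hy
  apply pow_lt_pow_left₀ _ (by positivity) (by omega)
  refine hy.trans_le ?_
  have hsub : shortV K (g y) ⊆ {v | Bad (List.replicate K L).flatten y v} := by
    intro v hv
    exact short_bad L hL0 y (g y) (hg y) v hv
  exact_mod_cast Nat.card_mono (Set.toFinite _) hsub

end Pool.Agent.RCL
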