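import Pool.Agent.W_6acff7c_h33.TrvA

/-!
# Dimensions: the trace identity

`K` is a subspace with `a ∈ K`; `tvK K a ha ψ` is the transvection `tv a ψ` for `ψ` vanishing on `K`.

PROOF of `sum_hyper`: exchange the sums: `∑_ψ #{v ∉ K | ψ v = 0} ρ (tvK ψ) u`.  For `ψ = 0` the number is
`q ^ n - q ^ k` (`k = dim K`), for `ψ ≠ 0` it is `q ^ (n - 1) - q ^ k` (`ker ψ` has dimension `n - 1` and
contains `K`).  So the sum is `(q ^ n - q ^ (n - 1)) u + (q ^ (n - 1) - q ^ k) ∑_ψ ρ (tvK ψ) u` and the last sum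
is `0`.

PROOF of `high_dim_trace`.  Let `W_v = WV ρ K a ha W v` (vectors `u ∈ W` fixed by `ρ (tvK ψ)` for all `ψ`
with `ψ v = 0`).  For `h ∈ PS K`: `h tvK(ψ) h⁻¹ = tvK(ψ ∘ h⁻¹)` (`tv_conj`, as `h a = a`), so `ρ h` maps
`W_v` isomorphically to `W_{h v}` (inverse `ρ h⁻¹`); with `exists_moveL` all `W_v`, `v ∉ K`, have the same
dimension.  Let `N = q ^ (n - k - 1)` be the number of `ψ` vanishing on `K` and on `v`
(`v ∉ K`; dual annihilator of `K ⊔ span {v}`, `Subspace.finrank_dualAnnihilator`...).  The map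
`P_v u = N⁻¹ ∑_{ψ : ψ v = 0} ρ (tvK ψ) u` maps `W` to `W_v` (translate the sum by an element of this
group, `tv_add`; `tvK ψ ∈ PS K`) and is the identity on `W_v`, so its restriction to `W` has trace
`finrank W_v` (`LinearMap.IsProj.trace`).  By `sum_hyper` `∑_{v ∉ K} P_v = N⁻¹ (q ^ n - q ^ (n - 1))` on `W`.
Taking traces on `W`: `(q ^ n - q ^ k) finrank W_v = N⁻¹ (q ^ n - q ^ (n - 1)) finrank W = q ^ k (q - 1) finrank W`.
Divide by `q ^ k`.
-/

open Finset Pool.Agent.RCG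

namespace Pool.Agent.RCL

variable {F : Type*} [Field F] {n : ℕ}
variable {E : Type*} [NormedAddCommGroup E] [InnerProductSpace ℝ E]

/-- The functionals vanishing on `K`. -/
abbrev Ann (K : Submodule F (Fin n → F)) : Type _ :=
  {ψ : Module.Dual F (Fin n → F) // ∀ d ∈ K, ψ d = 0}

instance [Finite F] (K : Submodule F (Fin n → F)) : Finite (Ann K) := by
  have : Finite (Module.Dual F (Fin n → F)) :=
    Finite.of_injective (fun e : Module.Dual F (Fin n → F) => (e : (Fin n → F) → F))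
      DFunLike.coe_injective
  exact Subtype.finite

noncomputable instance [Fintype F] (K : Submodule F (Fin n → F)) : Fintype (Ann K) :=
  Fintype.ofFinite _

/-- The transvection in direction `a ∈ K` with a functional vanishing on `K`. -/
noncomputable def tvK (K : Submodule F (Fin n → F)) (a : Fin n → F) (ha : a ∈ K) (ψ : Ann K) :
    SLn F n := tv a ψ.1 (ψ.2 a ha)

/-- The vectors of `W` fixed by all `tvK ψ` with `ψ v = 0`. -/
def WV (ρ : SLn F n →* Module.End ℝ E) (K : Submodule F (Fin n → F)) (a : Fin n → F) (ha : a ∈ K)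
    (W : Submodule ℝ E) (v : Fin n → F) : Submodule ℝ E where
  carrier := {u | u ∈ W ∧ ∀ ψ : Ann K, ψ.1 v = 0 → ρ (tvK K a ha ψ) u = u}
  add_mem' := by
    rintro u w ⟨hu, hu'⟩ ⟨hw, hw'⟩
    exact ⟨W.add_mem hu hw, fun ψ hψ => by rw [map_add, hu' ψ hψ, hw' ψ hψ]⟩
  zero_mem' := ⟨W.zero_mem, fun ψ _ => map_zero _⟩
  smul_mem' := by
    rintro c u ⟨hu, hu'⟩
    exact ⟨W.smul_mem c hu, fun ψ hψ => by rw [map_smul, hu' ψ hψ]⟩

open Classical in
theorem HighDimA_cardSub [Fintype F] (S : Submodule F (Fin n → F)) :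
    (univ.filter (fun v : Fin n → F => v ∈ S)).card = Fintype.card F ^ Module.finrank F S := by
  have h := Module.natCard_eq_pow_finrank (K := F) (V := S)
  rw [Nat.card_eq_fintype_card, Nat.card_eq_fintype_card] at h
  rw [← h, Fintype.card_subtype]

open Classical in
theorem HighDimA_cnt [Fintype F] (K : Submodule F (Fin n → F))
    (hK : Module.finrank F K + 1 ≤ n) (ψ : Ann K) :
    ((univ.filter (fun v : Fin n → F => v ∉ K ∧ ψ.1 v = 0)).card : ℝ) =
      ((Fintype.card F : ℝ) ^ (n - 1) - (Fintype.card F : ℝ) ^ (Module.finrank F K)) +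
      if ψ.1 = 0 then (Fintype.card F : ℝ) ^ n - (Fintype.card F : ℝ) ^ (n - 1) else 0 := by
  have h1 : (univ.filter (fun v : Fin n → F => v ∉ K ∧ ψ.1 v = 0)).card +
      (univ.filter (fun v : Fin n → F => v ∈ K)).card =
      (univ.filter (fun v : Fin n → F => v ∈ LinearMap.ker ψ.1)).card := by
    rw [← Finset.card_union_of_disjoint]
    · congr 1
      ext v
      simp only [mem_union, mem_filter, mem_univ, true_and, LinearMap.mem_ker]
      constructor
      · rintro (⟨_, h⟩ | h)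
        · exact h
        · exact ψ.2 v h
      · intro h
        by_cases hv : v ∈ K
        · exact Or.inr hv
        · exact Or.inl ⟨hv, h⟩
    · rw [Finset.disjoint_left]
      intro v hv hv'
      simp only [mem_filter, mem_univ, true_and] at hv hv'
      exact hv.1 hv'
  rw [HighDimA_cardSub, HighDimA_cardSub] at h1
  have h2 : ((univ.filter (fun v : Fin n → F => v ∉ K ∧ ψ.1 v = 0)).card : ℝ) +
      (Fintype.card F : ℝ) ^ (Module.finrank F K) =
      (Fintype.card F : ℝ) ^ (Module.finrank F (LinearMap.ker ψ.1)) := by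
    exact_mod_cast h1
  split_ifs with h0
  · have h3 : Module.finrank F (LinearMap.ker ψ.1) = n := by
      rw [h0, LinearMap.ker_zero, finrank_top, Module.finrank_fin_fun]
    rw [h3] at h2
    linarith
  · have h3 : Module.finrank F (LinearMap.ker ψ.1) + 1 = n := by
      rw [Module.Dual.finrank_ker_add_one_of_ne_zero h0, Module.finrank_fin_fun]
    have h4 : Module.finrank F (LinearMap.ker ψ.1) = n - 1 := by omega
    rw [h4] at h2
    linarith

theorem HighDimA_tv_congr (a : Fin n → F) {ψ ψ' : Module.Dual F (Fin n → F)} (h : ψ a = 0)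
    (h' : ψ' a = 0) (e : ψ = ψ') : tv a ψ h = tv a ψ' h' := by
  subst e
  rfl

theorem HighDimA_tvK_mem (K : Submodule F (Fin n → F)) (a : Fin n → F) (ha : a ∈ K) (ψ : Ann K) :
    tvK K a ha ψ ∈ PS K := TS_le_PS K (tv_mem_TS a ψ.1 _ ψ.2)

theorem HighDimA_WV_map (ρ : SLn F n →* Module.End ℝ E) (K : Submodule F (Fin n → F))
    (a : Fin n → F) (ha : a ∈ K) (W : Submodule ℝ E) (hW : ∀ h ∈ PS K, ∀ u ∈ W, ρ h u ∈ W)
    (v : Fin n → F) (g : SLn F n) (hg : g ∈ PS K) (u : E) (hu : u ∈ WV ρ K a ha W v) :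
    ρ g u ∈ WV ρ K a ha W (g.1 v) := by
  refine ⟨hW g hg u hu.1, ?_⟩
  intro ψ hψ
  have hgi : g⁻¹ ∈ PS K := (PS K).inv_mem hg
  have e1 : ((g⁻¹ : SLn F n).1.symm : (Fin n → F) →ₗ[F] (Fin n → F)) =
      (g.1 : (Fin n → F) →ₗ[F] (Fin n → F)) := by
    ext x i
    rfl
  have hv' : ∀ d ∈ K, (ψ.1 ∘ₗ (g.1 : (Fin n → F) →ₗ[F] (Fin n → F))) d = 0 := by
    intro d hd
    have h1 : (g.1 : (Fin n → F) →ₗ[F] (Fin n → F)) d = d := hg d hd
    rw [LinearMap.comp_apply, h1]
    exact ψ.2 d hd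
  have hcon := tv_conj a ψ.1 (ψ.2 a ha) g⁻¹ (hgi a ha)
    (by rw [e1]; exact hv' a ha)
  have h2 : g⁻¹ * tvK K a ha ψ * g =
      tvK K a ha ⟨ψ.1 ∘ₗ (g.1 : (Fin n → F) →ₗ[F] (Fin n → F)), hv'⟩ := by
    have h3 : g⁻¹ * tvK K a ha ψ * g = g⁻¹ * tv a ψ.1 (ψ.2 a ha) * g⁻¹⁻¹ := by
      rw [inv_inv]
      rfl
    rw [h3, hcon]
    exact HighDimA_tv_congr a _ _ (by rw [e1])
  have h4 : tvK K a ha ψ * g =
      g * tvK K a ha ⟨ψ.1 ∘ₗ (g.1 : (Fin n → F) →ₗ[F] (Fin n → F)), hv'⟩ := by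
    rw [← h2]
    group
  rw [← Module.End.mul_apply, ← map_mul, h4, map_mul, Module.End.mul_apply]
  rw [hu.2 _ hψ]

theorem HighDimA_WV_le [FiniteDimensional ℝ E] (ρ : SLn F n →* Module.End ℝ E)
    (K : Submodule F (Fin n → F)) (hK : Module.finrank F K + 2 ≤ n) (a : Fin n → F) (ha : a ∈ K)
    (W : Submodule ℝ E) (hW : ∀ h ∈ PS K, ∀ u ∈ W, ρ h u ∈ W)
    (v v' : Fin n → F) (hv : v ∉ K) (hv' : v' ∉ K) :
    Module.finrank ℝ (WV ρ K a ha W v) ≤ Module.finrank ℝ (WV ρ K a ha W v') := by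
  obtain ⟨g, hg, hgv⟩ := exists_moveL K hK hv hv'
  subst hgv
  let f : WV ρ K a ha W v →ₗ[ℝ] WV ρ K a ha W (g.1 v) :=
    (ρ g).restrict (fun u hu => HighDimA_WV_map ρ K a ha W hW v g hg u hu)
  refine LinearMap.finrank_le_finrank_of_injective (f := f) ?_
  intro x y hxy
  have h1 : ρ g (x : E) = ρ g (y : E) := congrArg Subtype.val hxy
  have h2 : ∀ z : E, ρ g⁻¹ (ρ g z) = z := by
    intro z
    rw [← Module.End.mul_apply, ← map_mul, inv_mul_cancel, map_one, Module.End.one_apply]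
  apply Subtype.ext
  rw [← h2 (x : E), h1, h2]

open Classical in
theorem HighDimA_cardAnn [Fintype F] (K : Submodule F (Fin n → F))
    (hK : Module.finrank F K + 2 ≤ n) (v : Fin n → F) (hv : v ∉ K) :
    (univ.filter (fun ψ : Ann K => ψ.1 v = 0)).card =
      Fintype.card F ^ (n - Module.finrank F K - 1) := by
  have h1 := Subspace.finrank_add_finrank_dualAnnihilator_eq (K ⊔ Submodule.span F {v})
  rw [Submodule.finrank_sup_span_singleton hv, Module.finrank_fin_fun] at h1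
  have h2 : Module.finrank F (K ⊔ Submodule.span F {v}).dualAnnihilator =
      n - Module.finrank F K - 1 := by omega
  have h3 := Module.natCard_eq_pow_finrank (K := F)
    (V := (K ⊔ Submodule.span F {v}).dualAnnihilator)
  rw [h2, Nat.card_eq_fintype_card (α := F)] at h3
  rw [← h3, ← Fintype.card_subtype, ← Nat.card_eq_fintype_card]
  refine Nat.card_congr ⟨fun ψ => ⟨ψ.1.1, ?_⟩, fun φ => ⟨⟨φ.1, ?_⟩, ?_⟩, fun _ => rfl, fun _ => rfl⟩
  · rw [Submodule.mem_dualAnnihilator]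
    intro w hw
    have h4 : K ⊔ Submodule.span F {v} ≤ LinearMap.ker ψ.1.1 := by
      rw [sup_le_iff]
      refine ⟨fun d hd => ψ.1.2 d hd, ?_⟩
      rw [Submodule.span_le, Set.singleton_subset_iff]
      exact ψ.2
    exact h4 hw
  · intro d hd
    exact (Submodule.mem_dualAnnihilator _).mp φ.2 d (Submodule.mem_sup_left hd)
  · exact (Submodule.mem_dualAnnihilator _).mp φ.2 v
      (Submodule.mem_sup_right (Submodule.mem_span_singleton_self v))

open Classical in
theorem HighDimA_shift [Fintype F] (ρ : SLn F n →* Module.End ℝ E) (K : Submodule F (Fin n → F))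
    (a : Fin n → F) (ha : a ∈ K) (v : Fin n → F) (u : E) (ψ₀ : Ann K) (h₀ : ψ₀.1 v = 0) :
    ρ (tvK K a ha ψ₀) (∑ ψ ∈ univ.filter (fun ψ : Ann K => ψ.1 v = 0), ρ (tvK K a ha ψ) u) =
      ∑ ψ ∈ univ.filter (fun ψ : Ann K => ψ.1 v = 0), ρ (tvK K a ha ψ) u := by
  rw [map_sum]
  refine Finset.sum_bij' (fun (ψ : Ann K) _ => (⟨ψ₀.1 + ψ.1, fun d hd => by
      rw [LinearMap.add_apply, ψ₀.2 d hd, ψ.2 d hd, add_zero]⟩ : Ann K))
    (fun (ψ : Ann K) _ => (⟨-ψ₀.1 + ψ.1, fun d hd => by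
      rw [LinearMap.add_apply, LinearMap.neg_apply, ψ₀.2 d hd, ψ.2 d hd, neg_zero, add_zero]⟩ :
        Ann K)) ?_ ?_ ?_ ?_ ?_
  · intro ψ hψ
    simp only [mem_filter, mem_univ, true_and] at hψ ⊢
    rw [LinearMap.add_apply, h₀, hψ, add_zero]
  · intro ψ hψ
    simp only [mem_filter, mem_univ, true_and] at hψ ⊢
    rw [LinearMap.add_apply, LinearMap.neg_apply, h₀, hψ, neg_zero, add_zero]
  · intro ψ _
    apply Subtype.ext
    show -ψ₀.1 + (ψ₀.1 + ψ.1) = ψ.1
    abel
  · intro ψ _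
    apply Subtype.ext
    show ψ₀.1 + (-ψ₀.1 + ψ.1) = ψ.1
    abel
  · intro ψ _
    rw [← Module.End.mul_apply, ← map_mul]
    have h1 := tv_add a ψ₀.1 ψ.1 (ψ₀.2 a ha) (ψ.2 a ha)
    have h2 : tvK K a ha ψ₀ * tvK K a ha ψ = tvK K a ha ⟨ψ₀.1 + ψ.1, fun d hd => by
      rw [LinearMap.add_apply, ψ₀.2 d hd, ψ.2 d hd, add_zero]⟩ := h1.symm
    rw [h2]

open Classical in
theorem sum_hyper [Fintype F] (ρ : SLn F n →* Module.End ℝ E) (K : Submodule F (Fin n → F))
    (hK : Module.finrank F K + 1 ≤ n) (a : Fin n → F) (ha : a ∈ K) (u : E)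
    (hu : ∑ ψ : Ann K, ρ (tvK K a ha ψ) u = 0) :
    ∑ v ∈ univ.filter (fun v : Fin n → F => v ∉ K),
      ∑ ψ ∈ univ.filter (fun ψ : Ann K => ψ.1 v = 0), ρ (tvK K a ha ψ) u =
    ((Fintype.card F : ℝ) ^ n - (Fintype.card F : ℝ) ^ (n - 1)) • u := by
  rw [Finset.sum_comm' (t' := univ) (s' := fun ψ : Ann K =>
    univ.filter (fun v : Fin n → F => v ∉ K ∧ ψ.1 v = 0)) (by
      intro x y
      simp only [mem_filter, mem_univ, true_and, and_true])]
  have h1 : ∀ ψ : Ann K, ∑ _v ∈ univ.filter (fun v : Fin n → F => v ∉ K ∧ ψ.1 v = 0),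
      ρ (tvK K a ha ψ) u =
      ((Fintype.card F : ℝ) ^ (n - 1) - (Fintype.card F : ℝ) ^ (Module.finrank F K)) •
        ρ (tvK K a ha ψ) u +
      (if ψ.1 = 0 then (Fintype.card F : ℝ) ^ n - (Fintype.card F : ℝ) ^ (n - 1) else 0) •
        ρ (tvK K a ha ψ) u := by
    intro ψ
    rw [Finset.sum_const, ← Nat.cast_smul_eq_nsmul ℝ, HighDimA_cnt K hK ψ, add_smul]
  rw [Finset.sum_congr rfl (fun ψ _ => h1 ψ), Finset.sum_add_distrib, ← Finset.smul_sum, hu,
    smul_zero, zero_add]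
  rw [Finset.sum_eq_single (⟨0, fun _ _ => rfl⟩ : Ann K)]
  · rw [if_pos rfl]
    have h2 : tvK K a ha (⟨0, fun _ _ => rfl⟩ : Ann K) = 1 := tv_zero a _
    rw [h2, map_one, Module.End.one_apply]
  · intro ψ _ hψ
    have h3 : ψ.1 ≠ 0 := by
      intro h
      exact hψ (Subtype.ext h)
    rw [if_neg h3, zero_smul]
  · intro h
    exact absurd (mem_univ _) h


theorem high_dim_trace [Fintype F] [FiniteDimensional ℝ E] (ρ : SLn F n →* Module.End ℝ E)
    (K : Submodule F (Fin n → F)) (hK : Module.finrank F K + 2 ≤ n) (a : Fin n → F) (ha : a ∈ K)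
    (W : Submodule ℝ E) (hW : ∀ h ∈ PS K, ∀ u ∈ W, ρ h u ∈ W)
    (h0 : ∀ u ∈ W, ∑ ψ : Ann K, ρ (tvK K a ha ψ) u = 0) (v : Fin n → F) (hv : v ∉ K) :
    ((Fintype.card F : ℝ) ^ (n - Module.finrank F K) - 1) * Module.finrank ℝ (WV ρ K a ha W v) =
      ((Fintype.card F : ℝ) - 1) * Module.finrank ℝ W := by
  classical
  have hq : (0 : ℝ) < (Fintype.card F : ℝ) := by
    exact_mod_cast Fintype.card_pos
  have hN : (0 : ℝ) < (Fintype.card F : ℝ) ^ (n - Module.finrank F K - 1) := pow_pos hq _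
  let T : (Fin n → F) → Module.End ℝ E := fun w =>
    ∑ ψ ∈ univ.filter (fun ψ : Ann K => ψ.1 w = 0), ρ (tvK K a ha ψ)
  have hTapp : ∀ w u, T w u =
      ∑ ψ ∈ univ.filter (fun ψ : Ann K => ψ.1 w = 0), ρ (tvK K a ha ψ) u := by
    intro w u
    exact LinearMap.sum_apply _ _ _
  have hTW : ∀ w, ∀ u ∈ W, T w u ∈ W := by
    intro w u hu
    rw [hTapp]
    exact Submodule.sum_mem _ fun ψ _ => hW _ (HighDimA_tvK_mem K a ha ψ) u hu
  let R : (Fin n → F) → (↥W →ₗ[ℝ] ↥W) := fun w => (T w).restrict (hTW w)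
  have hle : ∀ w, WV ρ K a ha W w ≤ W := fun w u hu => hu.1
  have htr : ∀ w : Fin n → F, w ∉ K → LinearMap.trace ℝ ↥W (R w) =
      (Fintype.card F : ℝ) ^ (n - Module.finrank F K - 1) *
        Module.finrank ℝ (WV ρ K a ha W w) := by
    intro w hw
    have hproj : LinearMap.IsProj ((WV ρ K a ha W w).comap W.subtype)
        (((Fintype.card F : ℝ) ^ (n - Module.finrank F K - 1))⁻¹ • R w) := by
      constructor
      · intro u
        refine Submodule.smul_mem _ _ ?_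
        rw [Submodule.mem_comap]
        refine ⟨hTW w u u.2, ?_⟩
        intro ψ₀ h₀
        show ρ (tvK K a ha ψ₀) (T w (u : E)) = T w (u : E)
        rw [hTapp]
        exact HighDimA_shift ρ K a ha w u ψ₀ h₀
      · intro u hu
        rw [Submodule.mem_comap] at hu
        apply Subtype.ext
        show ((Fintype.card F : ℝ) ^ (n - Module.finrank F K - 1))⁻¹ • (T w (u : E)) = (u : E)
        have hu2 : ∀ ψ ∈ univ.filter (fun ψ : Ann K => ψ.1 w = 0),
            ρ (tvK K a ha ψ) (u : E) = (u : E) := by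
          intro ψ hψ
          simp only [mem_filter, mem_univ, true_and] at hψ
          exact hu.2 ψ hψ
        rw [hTapp, Finset.sum_congr rfl hu2, Finset.sum_const,
          HighDimA_cardAnn K hK w hw, ← Nat.cast_smul_eq_nsmul ℝ, smul_smul, Nat.cast_pow,
          inv_mul_cancel₀ hN.ne', one_smul]
    have h1 := hproj.trace
    rw [map_smul, smul_eq_mul,
      LinearEquiv.finrank_eq (Submodule.comapSubtypeEquivOfLe (hle w))] at h1
    rw [← h1, ← mul_assoc, mul_inv_cancel₀ hN.ne', one_mul]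
  have hsum : ∑ w ∈ univ.filter (fun w : Fin n → F => w ∉ K), R w =
      ((Fintype.card F : ℝ) ^ n - (Fintype.card F : ℝ) ^ (n - 1)) •
        (LinearMap.id : ↥W →ₗ[ℝ] ↥W) := by
    ext u
    rw [LinearMap.sum_apply, AddSubmonoidClass.coe_finsetSum]
    have h2 := sum_hyper ρ K (by omega) a ha (u : E) (h0 u u.2)
    rw [LinearMap.smul_apply, LinearMap.id_apply, Submodule.coe_smul, ← h2]
    refine Finset.sum_congr rfl fun w _ => ?_
    show T w (u : E) = _
    rw [hTapp]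
  have h3 := congrArg (LinearMap.trace ℝ ↥W) hsum
  rw [map_sum, map_smul, LinearMap.trace_id, smul_eq_mul,
    Finset.sum_congr rfl (fun w hw => htr w (by
      simpa only [mem_filter, mem_univ, true_and] using hw))] at h3
  have h4 : ∀ w ∈ univ.filter (fun w : Fin n → F => w ∉ K),
      (Fintype.card F : ℝ) ^ (n - Module.finrank F K - 1) *
        (Module.finrank ℝ (WV ρ K a ha W w) : ℝ) =
      (Fintype.card F : ℝ) ^ (n - Module.finrank F K - 1) *
        (Module.finrank ℝ (WV ρ K a ha W v) : ℝ) := by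
    intro w hw
    have hw' : w ∉ K := by simpa only [mem_filter, mem_univ, true_and] using hw
    rw [le_antisymm (HighDimA_WV_le ρ K hK a ha W hW w v hw' hv)
      (HighDimA_WV_le ρ K hK a ha W hW v w hv hw')]
  rw [Finset.sum_congr rfl h4, Finset.sum_const, ← Nat.cast_smul_eq_nsmul ℝ, smul_eq_mul] at h3
  have h5 : ((univ.filter (fun w : Fin n → F => w ∉ K)).card : ℝ) =
      (Fintype.card F : ℝ) ^ n - (Fintype.card F : ℝ) ^ (Module.finrank F K) := by
    have h6 := Finset.card_filter_add_card_filter_not (s := (univ : Finset (Fin n → F)))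
      (fun w => w ∈ K)
    rw [HighDimA_cardSub, Finset.card_univ, Fintype.card_fun, Fintype.card_fin] at h6
    have h7 : (Fintype.card F : ℝ) ^ (Module.finrank F K) +
        ((univ.filter (fun w : Fin n → F => w ∉ K)).card : ℝ) = (Fintype.card F : ℝ) ^ n := by
      exact_mod_cast h6
    linarith
  rw [h5] at h3
  obtain ⟨m, hm⟩ : ∃ m, n = Module.finrank F K + m + 2 := ⟨n - Module.finrank F K - 2, by omega⟩
  have e1 : n - Module.finrank F K - 1 = m + 1 := by omega
  have e2 : n - 1 = Module.finrank F K + (m + 1) := by omega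
  have e3 : n - Module.finrank F K = m + 2 := by omega
  have e4 : (Fintype.card F : ℝ) ^ n =
      (Fintype.card F : ℝ) ^ (Module.finrank F K + m + 2) := by rw [← hm]
  rw [e1, e2, e4] at h3
  rw [e3]
  have hk : (0 : ℝ) < (Fintype.card F : ℝ) ^ (Module.finrank F K + (m + 1)) := pow_pos hq _
  apply mul_left_cancel₀ hk.ne'
  rw [pow_add] at h3 ⊢
  rw [pow_add, pow_add] at h3
  rw [pow_add, pow_succ] at *
  linear_combination h3


end Pool.Agent.RCL
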