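import Pool.Agent.W_6acff7c_h33.BigDefs

/-!
# Two criteria for `e_0` to be a cyclic vector

PROOF of `kry_unip`.  Put `N = M - 1`, strictly lower triangular.  By induction on `j` the vector
`N ^ j e_0` has entries `0` in the rows `< j` and its entry in row `j` is the product of the subdiagonal
entries `M 1 0, M 2 1, ..., M j (j-1)`, which is not `0`.  So the matrix `kry h N` with columns `N ^ j e_0` is
lower triangular with nonzero diagonal and its determinant is not `0`.  Because `M ^ j = ∑_i (j choose i) N ^ i`,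
`kry h M = kry h N * B` with `B i j = (j choose i)`, upper triangular with diagonal `1`, so
`det (kry h M) = det (kry h N)`.  (Or: the columns of `kry h N` are combinations of the columns of `kry h M`.)
PROOF of `kry_vand`.  `M ^ j = Q⁻¹ D ^ j Q`, and `Q e_0 = (1, ..., 1)`, so `kry h M = Q⁻¹ * V` with
`V i j = d i ^ j` (`Matrix.vandermonde d`), `det_vandermonde_ne_zero_iff`.
-/

open Finset Pool.Agent.RCG

namespace Pool.Agent.RCL

variable {E : Type*} [Field E] {n : ℕ}

private theorem KryUnip_pow (h : 0 < n) (N : Matrix (Fin n) (Fin n) E)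
    (hlow : ∀ i j : Fin n, i ≤ j → N i j = 0)
    (hsub : ∀ (i : ℕ) (hi : i + 1 < n), N ⟨i + 1, hi⟩ ⟨i, by omega⟩ ≠ 0) (j : ℕ) :
    (∀ i : Fin n, (i : ℕ) < j → (N ^ j) i ⟨0, h⟩ = 0) ∧ ∀ hj : j < n, (N ^ j) ⟨j, hj⟩ ⟨0, h⟩ ≠ 0 := by
  induction j with
  | zero =>
    refine ⟨fun i hi => absurd hi (Nat.not_lt_zero _), fun hj => ?_⟩
    rw [pow_zero, Matrix.one_apply_eq]
    exact one_ne_zero
  | succ j ih =>
    obtain ⟨ih1, ih2⟩ := ih
    refine ⟨fun i hi => ?_, fun hj => ?_⟩
    · rw [pow_succ', Matrix.mul_apply]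
      refine Finset.sum_eq_zero fun k _ => ?_
      by_cases hk : (k : ℕ) < i
      · rw [ih1 k (by omega), mul_zero]
      · rw [hlow i k (Fin.le_def.2 (by omega)), zero_mul]
    · rw [pow_succ', Matrix.mul_apply, Finset.sum_eq_single (⟨j, by omega⟩ : Fin n)]
      · exact mul_ne_zero (hsub j hj) (ih2 (by omega))
      · intro k _ hk
        by_cases hk' : (k : ℕ) < j
        · rw [ih1 k hk', mul_zero]
        · have hkj : (k : ℕ) ≠ j := fun h' => hk (Fin.ext h')
          rw [hlow _ k (Fin.le_def.2 (show j + 1 ≤ (k : ℕ) by omega)), zero_mul]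
      · intro h'
        exact absurd (Finset.mem_univ _) h'

theorem kry_unip (h : 0 < n) (M : Matrix (Fin n) (Fin n) E) (hlow : ∀ i j : Fin n, i < j → M i j = 0)
    (hdiag : ∀ i : Fin n, M i i = 1)
    (hsub : ∀ (i : ℕ) (hi : i + 1 < n), M ⟨i + 1, hi⟩ ⟨i, by omega⟩ ≠ 0) : (kry h M).det ≠ 0 := by
  classical
  intro hdet
  obtain ⟨v, hv0, hv⟩ := Matrix.exists_mulVec_eq_zero_iff.2 hdet
  -- the polynomial
  obtain ⟨p, hp⟩ : ∃ p : Polynomial E, p = ∑ j : Fin n, Polynomial.monomial (j : ℕ) (v j) := ⟨_, rfl⟩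
  have hpc : ∀ j : Fin n, p.coeff j = v j := by
    intro j
    rw [hp, Polynomial.finsetSum_coeff, Finset.sum_eq_single j]
    · rw [Polynomial.coeff_monomial, if_pos rfl]
    · intro k _ hk
      rw [Polynomial.coeff_monomial, if_neg (fun h' => hk (Fin.ext h'))]
    · intro h'
      exact absurd (Finset.mem_univ _) h'
  have hp0 : p ≠ 0 := by
    intro h0
    apply hv0
    funext j
    rw [← hpc j, h0]
    simp
  have hpd : p.natDegree < n := by
    rw [Polynomial.natDegree_lt_iff_degree_lt hp0, Polynomial.degree_lt_iff_coeff_zero]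
    intro m hm
    rw [hp, Polynomial.finsetSum_coeff]
    refine Finset.sum_eq_zero fun k _ => ?_
    rw [Polynomial.coeff_monomial, if_neg]
    have := k.2
    omega
  have hpM : ∀ i, (Polynomial.aeval M p) i ⟨0, h⟩ = 0 := by
    intro i
    have h1 := congrFun hv i
    rw [hp, map_sum, Matrix.sum_apply]
    simp only [Polynomial.aeval_monomial]
    rw [Pi.zero_apply] at h1
    rw [← h1, Matrix.mulVec, dotProduct]
    refine Finset.sum_congr rfl fun j _ => ?_
    rw [Algebra.algebraMap_eq_smul_one, smul_mul_assoc, one_mul, Matrix.smul_apply, smul_eq_mul, mul_comm]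
    rfl
  -- shift
  set N : Matrix (Fin n) (Fin n) E := M - 1 with hN
  set r : Polynomial E := p.comp (Polynomial.X + Polynomial.C 1) with hr
  have hr0 : r ≠ 0 := by
    intro h0
    apply hp0
    have h1 : r.comp (Polynomial.X - Polynomial.C 1) = p := by
      rw [hr, Polynomial.comp_assoc]
      simp
    rw [← h1, h0]
    simp
  have hrd : r.natDegree < n := by
    rw [hr, Polynomial.natDegree_comp, Polynomial.natDegree_X_add_C, mul_one]
    exact hpd
  have hrN : Polynomial.aeval N r = Polynomial.aeval M p := by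
    rw [hr, Polynomial.aeval_comp]
    congr 1
    simp [hN]
  have hNlow : ∀ i j : Fin n, i ≤ j → N i j = 0 := by
    intro i j hij
    rcases eq_or_lt_of_le hij with h1 | h1
    · subst h1
      rw [hN, Matrix.sub_apply, hdiag, Matrix.one_apply_eq, sub_self]
    · rw [hN, Matrix.sub_apply, hlow i j h1, Matrix.one_apply_ne h1.ne, sub_self]
  have hNsub : ∀ (i : ℕ) (hi : i + 1 < n), N ⟨i + 1, hi⟩ ⟨i, by omega⟩ ≠ 0 := by
    intro i hi
    rw [hN, Matrix.sub_apply, Matrix.one_apply_ne, sub_zero]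
    · exact hsub i hi
    · intro h'
      have := congrArg Fin.val h'
      simp at this
  have hi0 : r.natTrailingDegree < n := lt_of_le_of_lt (Polynomial.natTrailingDegree_le_natDegree r) hrd
  have h2 := hpM ⟨r.natTrailingDegree, hi0⟩
  rw [← hrN, Polynomial.aeval_eq_sum_range, Matrix.sum_apply,
    Finset.sum_eq_single r.natTrailingDegree] at h2
  · rw [Matrix.smul_apply, smul_eq_mul] at h2
    refine absurd h2 (mul_ne_zero ?_ ((KryUnip_pow h N hNlow hNsub _).2 hi0))
    exact Polynomial.trailingCoeff_nonzero_iff_nonzero.2 hr0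
  · intro j _ hj
    rw [Matrix.smul_apply, smul_eq_mul]
    rcases lt_or_gt_of_ne hj with h3 | h3
    · rw [Polynomial.coeff_eq_zero_of_lt_natTrailingDegree h3, zero_mul]
    · rw [(KryUnip_pow h N hNlow hNsub j).1 _ h3, mul_zero]
  · intro h'
    exfalso
    apply h'
    rw [Finset.mem_range]
    have := Polynomial.natTrailingDegree_le_natDegree r
    omega

theorem kry_vand (h : 0 < n) (Q : Matrix (Fin n) (Fin n) E) (hQ : IsUnit Q.det)
    (hQ0 : ∀ i, Q i ⟨0, h⟩ = 1) (d : Fin n → E) (hd : Function.Injective d) :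
    (kry h (Q⁻¹ * Matrix.diagonal d * Q)).det ≠ 0 := by
  classical
  have hpow : ∀ j : ℕ, (Q⁻¹ * Matrix.diagonal d * Q) ^ j = Q⁻¹ * Matrix.diagonal (fun i => d i ^ j) * Q := by
    intro j
    induction j with
    | zero =>
      have e : Matrix.diagonal (fun i => d i ^ 0) = (1 : Matrix (Fin n) (Fin n) E) := by
        simp
      rw [pow_zero, e, mul_one, Matrix.nonsing_inv_mul Q hQ]
    | succ j ih =>
      rw [pow_succ, ih]
      have e : Q⁻¹ * Matrix.diagonal (fun i => d i ^ j) * Q * (Q⁻¹ * Matrix.diagonal d * Q) =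
          Q⁻¹ * Matrix.diagonal (fun i => d i ^ j) * (Q * Q⁻¹) * Matrix.diagonal d * Q := by
        simp only [Matrix.mul_assoc]
      rw [e, Matrix.mul_nonsing_inv Q hQ, Matrix.mul_one, Matrix.mul_assoc Q⁻¹, Matrix.diagonal_mul_diagonal]
      congr 3
      funext i
      rw [pow_succ]
  have hk : kry h (Q⁻¹ * Matrix.diagonal d * Q) = Q⁻¹ * Matrix.vandermonde d := by
    ext i j
    unfold kry
    rw [Matrix.of_apply, hpow, Matrix.mul_apply, Matrix.mul_apply]
    refine Finset.sum_congr rfl fun k _ => ?_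
    rw [hQ0, mul_one, Matrix.mul_diagonal, Matrix.vandermonde_apply]
  rw [hk, Matrix.det_mul]
  refine mul_ne_zero ?_ (Matrix.det_vandermonde_ne_zero_iff.2 hd)
  rw [Matrix.det_nonsing_inv, Ring.inverse_eq_inv']
  exact inv_ne_zero hQ.ne_zero

end Pool.Agent.RCL
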