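import Pool.Agent.W_6acff7c_h33.LevStepL

/-!
# Iterating the levels

`Ok F n Δ N`: the two side conditions of `levStepL` (with `K = 1000`) for `Δ` and `N`; it is monotone in `Δ`
and antitone in `N`.  `YY j = (64 * 1024000 / d0 ^ 2) * 16 ^ j * 2 ^ (2 ^ j)` with `d0 = 1 / 8000`.

PROOF of `lev_iter`: induction on `j`, for all `κ, l, s`.  Put `X = n ^ 2 log q`, `C = 1024000`,
`ε0 = exp (-(d0 / 2 ^ T * n / 4 * log q))`.
`j = 0`: take `l' = l`, `s' = s` and `StepG 0` from `StepG.skip` (`mono_hasCode`), `κ + d0 * 0 = κ`.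
`j + 1` (`j + 1 ≤ T`): if `X ≤ YY j * s` use the induction hypothesis for the same `κ, l, s`, add an unused
letter (`StepG.extra`, `mono_hasCode`) and weaken `κ` (`StepG.weaken`, `hasCode_weaken`).
Otherwise `X / s > YY j`.  Put `Δ = d0 / 2 ^ (j + 1) ≥ d0 / 2 ^ T`, `N = ⌊Δ √(X / (C s))⌋₊`.
  `N ≥ 1`: `Δ ^ 2 X / (C s) ≥ d0 ^ 2 4 ^ (-(j + 1)) * 64 * 16 ^ j * 2 ^ (2 ^ j) / d0 ^ 2 = 16 * 4 ^ j * 2 ^ (2 ^ j) ≥ 1`.
  `h0`: `C N ^ 2 s ≤ Δ ^ 2 X`.  `h1, h2`: `N ≤ √(X / s) ≤ n ^ (3/4)` (`hX`, and `Δ ≤ √C`), and `Ok` is monotone.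
`levStepL` gives `StepG 1 (exp (-(Δ n / 4 log q))) (HasCode κ l s) (HasCode (κ + Δ) l1 s1)` with
`s1 = (N + 1) s`, `l1 = N (l + 1) + l`, `l1 + 1 = (N + 1) (l + 1)`.
Then `X ≤ YY j * s1`: `N + 1 ≥ Δ √(X / (C s))`, so `X / s1 ≤ √(C X / s) / Δ ≤ √(C YY (j + 1)) / Δ
= √(64 C ^ 2 / d0 ^ 2) 4 ^ (j + 1) 2 ^ (2 ^ j) 2 ^ (j + 1) / d0 = (8 C / d0 ^ 2) 8 ^ (j + 1) 2 ^ (2 ^ j)
= (64 C / d0 ^ 2) 8 ^ j 2 ^ (2 ^ j) ≤ YY j`.  `2000 s1 ≤ 4000 N s ≤ 4000 Δ ^ 2 X / (C N) ≤ X`.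
`X ≤ n ^ (3/2) s ≤ n ^ (3/2) s1`, `log 2 ≤ s ≤ s1`.  The constants add up:
`κ + Δ + d0 (1 - 1 / 2 ^ j) = κ + d0 (1 - 1 / 2 ^ (j + 1))`.  Now use the induction hypothesis for
`κ + Δ, l1, s1`.
Compose (`StepG.comp`), the failure probabilities add up: `exp (-(Δ n / 4 log q)) ≤ ε0` as `Δ ≥ d0 / 2 ^ T`.
-/

open Finset Pool.Agent.RCG

namespace Pool.Agent.RCL

/-- Side conditions of a level. -/
def Ok (F : Type*) [Field F] [Fintype F] (n : ℕ) (Δ N : ℝ) : Prop :=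
  32 * (1000 * N) ≤ Δ * n ∧
    2 * (2 * (1000 * N) + 1 : ℝ) * (Fintype.card F : ℝ) ^ 2 ≤ (Fintype.card F : ℝ) ^ (Δ * n / 4)

/-- Size of `X / s` which can be treated with `j` levels. -/
noncomputable def YY (j : ℕ) : ℝ := 64 * 1024000 / (1 / 8000) ^ 2 * 16 ^ j * 2 ^ (2 ^ j)

variable {F : Type*} [Field F] [Fintype F] {n : ℕ}

theorem Ok.mono {Δ Δ' N N' : ℝ} (h : Ok F n Δ N) (hΔ : Δ ≤ Δ') (hN : N' ≤ N) (hN0 : 0 ≤ N') :
    Ok F n Δ' N' := by
  obtain ⟨h1, h2⟩ := h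
  have hn : (0 : ℝ) ≤ n := Nat.cast_nonneg n
  have hq : (1 : ℝ) ≤ Fintype.card F := by
    exact_mod_cast Nat.succ_le_iff.2 (Fintype.card_pos (α := F))
  have h3 := mul_le_mul_of_nonneg_right hΔ hn
  refine ⟨by linarith, ?_⟩
  refine le_trans ?_ (h2.trans (Real.rpow_le_rpow_of_exponent_le hq (by linarith)))
  have hq2 : (0 : ℝ) ≤ (Fintype.card F : ℝ) ^ 2 := by positivity
  refine mul_le_mul_of_nonneg_right ?_ hq2
  linarith

theorem LevIterL_YY (j : ℕ) : YY j = 64 * 1024000 / (1 / 8000) ^ 2 * (2 ^ j) ^ 4 * 2 ^ (2 ^ j) := by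
  unfold YY
  have : (16 : ℝ) ^ j = (2 ^ j) ^ 4 := by
    rw [← pow_mul, mul_comm, pow_mul]
    norm_num
  rw [this]

theorem LevIterL_num {j : ℕ} {n : ℕ} {X s : ℝ} (hs : 0 < s) (hlow : YY j * s < X)
    (hup : X ≤ YY (j + 1) * s) (hX : X ≤ (n : ℝ) ^ (3 / 2 : ℝ) * s) :
    ∃ N : ℕ, 1 ≤ N ∧ (N : ℝ) ≤ (n : ℝ) ^ (3 / 4 : ℝ) ∧
      1024000 * (N : ℝ) ^ 2 * s ≤ (1 / 8000 / 2 ^ (j + 1)) ^ 2 * X ∧
      X ≤ YY j * (((N : ℝ) + 1) * s) := by
  have hYY1 : YY (j + 1) = 64 * 1024000 / (1 / 8000) ^ 2 * (2 * 2 ^ j) ^ 4 * (2 ^ (2 ^ j)) ^ 2 := by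
    have e1 : ((2 : ℝ) ^ (2 ^ (j + 1) : ℕ)) = (2 ^ (2 ^ j : ℕ)) ^ 2 := by
      rw [← pow_mul, ← pow_succ]
    have e2 : (2 : ℝ) ^ (j + 1) = 2 * 2 ^ j := by rw [pow_succ, mul_comm]
    rw [LevIterL_YY, e1, e2]
  rw [hYY1] at hup
  have hYY0 := LevIterL_YY j
  have hdd : (1 / 8000 / 2 ^ (j + 1) : ℝ) = 1 / 8000 / (2 * 2 ^ j) := by
    rw [pow_succ, mul_comm (2 ^ j : ℝ) 2]
  rw [hdd]
  have ha : (1 : ℝ) ≤ 2 ^ j := one_le_pow₀ (by norm_num)
  have hb : (1 : ℝ) ≤ 2 ^ (2 ^ j) := one_le_pow₀ (by norm_num)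
  generalize hY : YY j = Y at *
  generalize (2 ^ j : ℝ) = a at *
  generalize (2 ^ (2 ^ j) : ℝ) = b at *
  have hY0 : 0 < Y := by rw [hYY0]; positivity
  have hX0 : 0 < X := lt_trans (by positivity) hlow
  set d : ℝ := 1 / 8000 / (2 * a) with hd
  have ha0 : 0 < a := by linarith
  have hb0 : 0 < b := by linarith
  have hd0 : 0 < d := by positivity
  have hd1 : d ≤ 1 := by
    rw [hd, div_le_one (by positivity)]
    linarith
  set w : ℝ := Real.sqrt (X / s / 1024000) with hw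
  have hw0 : 0 ≤ w := Real.sqrt_nonneg _
  have hw2 : w ^ 2 = X / s / 1024000 := Real.sq_sqrt (by positivity)
  have hXw : X = 1024000 * w ^ 2 * s := by
    rw [hw2]
    field_simp
  have hYd : d ^ 2 * (Y / 1024000) = 16 * a ^ 2 * b := by
    rw [hYY0, hd]
    field_simp
    ring
  have hr1 : Y / 1024000 ≤ w ^ 2 := by
    rw [hw2]
    refine div_le_div_of_nonneg_right ?_ (by norm_num)
    rw [le_div_iff₀ hs]
    exact hlow.le
  have hu1 : 1 ≤ d * w := by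
    have h1 : 1 ≤ (d * w) ^ 2 := by
      rw [mul_pow]
      have h2 : d ^ 2 * (Y / 1024000) ≤ d ^ 2 * w ^ 2 :=
        mul_le_mul_of_nonneg_left hr1 (by positivity)
      rw [hYd] at h2
      have h3 : 1 ≤ a ^ 2 * b := one_le_mul_of_one_le_of_one_le (one_le_pow₀ ha) hb
      linarith
    by_contra hlt
    push Not at hlt
    have h4 : 0 ≤ d * w := by positivity
    nlinarith
  have hN1 : ((⌊d * w⌋₊ : ℕ) : ℝ) ≤ d * w := Nat.floor_le (by positivity)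
  have hN2 : d * w < (⌊d * w⌋₊ : ℕ) + 1 := Nat.lt_floor_add_one _
  refine ⟨⌊d * w⌋₊, Nat.le_floor (by simpa using hu1), ?_, ?_, ?_⟩
  · have h1 : d * w ≤ w := by
      have := mul_le_mul_of_nonneg_right hd1 hw0
      linarith
    refine (hN1.trans h1).trans ?_
    have h2 : (0 : ℝ) ≤ (n : ℝ) ^ (3 / 4 : ℝ) := Real.rpow_nonneg (Nat.cast_nonneg n) _
    refine (pow_le_pow_iff_left₀ hw0 h2 two_ne_zero).1 ?_
    have h3 : ((n : ℝ) ^ (3 / 4 : ℝ)) ^ 2 = (n : ℝ) ^ (3 / 2 : ℝ) := by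
      rw [← Real.rpow_natCast, ← Real.rpow_mul (Nat.cast_nonneg n)]
      norm_num
    rw [h3, hw2]
    have h4 : X / s ≤ (n : ℝ) ^ (3 / 2 : ℝ) := by
      rw [div_le_iff₀ hs]
      exact hX
    have h5 : 0 ≤ X / s := by positivity
    linarith
  · have h1 : ((⌊d * w⌋₊ : ℕ) : ℝ) ^ 2 ≤ (d * w) ^ 2 := pow_le_pow_left₀ (Nat.cast_nonneg _) hN1 2
    calc 1024000 * ((⌊d * w⌋₊ : ℕ) : ℝ) ^ 2 * s ≤ 1024000 * (d * w) ^ 2 * s := by
          refine mul_le_mul_of_nonneg_right ?_ hs.le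
          linarith
      _ = d ^ 2 * (1024000 * w ^ 2 * s) := by ring
      _ = d ^ 2 * X := by rw [← hXw]
  · have hZ : 1024000 * w ≤ Y * d := by
      have h1 : 1024000 * w ≤ 8 * 1024000 * 8000 * (2 * a) ^ 2 * b := by
        refine (pow_le_pow_iff_left₀ (by positivity) (by positivity) two_ne_zero).1 ?_
        rw [mul_pow, hw2]
        have h2 : X / s ≤ 64 * 1024000 / (1 / 8000) ^ 2 * (2 * a) ^ 4 * b ^ 2 := by
          rw [div_le_iff₀ hs]
          exact hup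
        calc (1024000 : ℝ) ^ 2 * (X / s / 1024000) = 1024000 * (X / s) := by ring
          _ ≤ 1024000 * (64 * 1024000 / (1 / 8000) ^ 2 * (2 * a) ^ 4 * b ^ 2) :=
            mul_le_mul_of_nonneg_left h2 (by norm_num)
          _ = (8 * 1024000 * 8000 * (2 * a) ^ 2 * b) ^ 2 := by
            field_simp
            ring
      have h3 : Y * d = 32 * 1024000 * 8000 * a ^ 3 * b := by
        rw [hYY0, hd]
        field_simp
        ring
      have h4 : a ^ 2 * b ≤ a ^ 3 * b := by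
        refine mul_le_mul_of_nonneg_right ?_ hb0.le
        exact pow_le_pow_right₀ ha (by norm_num)
      rw [h3]
      refine h1.trans ?_
      calc 8 * 1024000 * 8000 * (2 * a) ^ 2 * b = 32 * 1024000 * 8000 * (a ^ 2 * b) := by ring
        _ ≤ 32 * 1024000 * 8000 * (a ^ 3 * b) := mul_le_mul_of_nonneg_left h4 (by norm_num)
        _ = 32 * 1024000 * 8000 * a ^ 3 * b := by ring
    calc X = 1024000 * w * (w * s) := by rw [hXw]; ring
      _ ≤ Y * d * (w * s) := mul_le_mul_of_nonneg_right hZ (by positivity)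
      _ = Y * (d * w * s) := by ring
      _ ≤ Y * (((⌊d * w⌋₊ : ℕ) + 1) * s) := by
        refine mul_le_mul_of_nonneg_left ?_ hY0.le
        exact mul_le_mul_of_nonneg_right hN2.le hs.le

theorem lev_iter {T : ℕ} (hok : Ok F n (1 / 8000 / 2 ^ T) ((n : ℝ) ^ (3 / 4 : ℝ))) :
    ∀ j ≤ T, ∀ (κ : ℝ) (l : ℕ) (s : ℝ), 0 ≤ κ → κ + 1 / 8000 * (1 - 1 / 2 ^ j) < 1 → Real.log 2 ≤ s →
    2000 * s ≤ (n : ℝ) ^ 2 * Real.log (Fintype.card F) →
    (n : ℝ) ^ 2 * Real.log (Fintype.card F) ≤ YY j * s →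
    (n : ℝ) ^ 2 * Real.log (Fintype.card F) ≤ (n : ℝ) ^ (3 / 2 : ℝ) * s →
    ∃ (l' : ℕ) (s' : ℝ), ((l' : ℝ) + 1) * s = ((l : ℝ) + 1) * s' ∧ s ≤ s' ∧
      (n : ℝ) ^ 2 * Real.log (Fintype.card F) ≤ YY 0 * s' ∧
      2000 * s' ≤ (n : ℝ) ^ 2 * Real.log (Fintype.card F) ∧
      StepG (SLn F n) j
        (j * Real.exp (-(1 / 8000 / 2 ^ T * n / 4 * Real.log (Fintype.card F))))
        (HasCode 1000 κ l s) (HasCode 1000 (κ + 1 / 8000 * (1 - 1 / 2 ^ j)) l' s') := by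
  intro j
  induction j with
  | zero =>
    intro _ κ l s hκ _ _ h2000 hYY _
    refine ⟨l, s, rfl, le_rfl, hYY, h2000, ?_⟩
    refine StepG.weaken (StepG.skip (k := 0) (mono_hasCode 1000 κ l s) (ε := 0) le_rfl)
      (fun _ h => h) (fun S h => hasCode_weaken (by norm_num) le_rfl le_rfl h) ?_
    simp
  | succ j ih =>
    intro hjT κ l s hκ hκ1 hs h2000 hYY hX
    have hlog2 : 0 < Real.log 2 := Real.log_pos (by norm_num)
    have hs0 : 0 < s := by linarith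
    have hq : (1 : ℝ) ≤ Fintype.card F := by
      exact_mod_cast Nat.succ_le_iff.2 (Fintype.card_pos (α := F))
    have hlq : 0 ≤ Real.log (Fintype.card F) := Real.log_nonneg hq
    have hn0 : (0 : ℝ) ≤ n := Nat.cast_nonneg n
    set X : ℝ := (n : ℝ) ^ 2 * Real.log (Fintype.card F) with hXdef
    set ε0 : ℝ := Real.exp (-(1 / 8000 / 2 ^ T * n / 4 * Real.log (Fintype.card F))) with hε0
    have hε00 : 0 < ε0 := Real.exp_pos _
    have hpj : (1 : ℝ) ≤ 2 ^ j := one_le_pow₀ (by norm_num)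
    have hpow : (1 : ℝ) / 2 ^ j = 2 * (1 / 2 ^ (j + 1)) := by
      rw [pow_succ]
      field_simp
    have hpos1 : (0 : ℝ) < 1 / 2 ^ (j + 1) := by positivity
    have hle1 : (1 : ℝ) / 2 ^ (j + 1) ≤ 1 := by
      rw [div_le_one (by positivity)]
      exact one_le_pow₀ (by norm_num)
    by_cases hA : X ≤ YY j * s
    · obtain ⟨l', s', e1, e2, e3, e4, e5⟩ := ih (by omega) κ l s hκ
        (by rw [hpow]; linarith) hs h2000 hA hX
      refine ⟨l', s', e1, e2, e3, e4, ?_⟩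
      refine StepG.weaken (StepG.extra (mono_hasCode _ _ _ _) e5 1) (fun _ h => h)
        (fun S h => hasCode_weaken (by rw [hpow]; linarith) le_rfl le_rfl h) ?_
      push_cast
      linarith
    · push Not at hA
      obtain ⟨N, hN1, hN34, hN2, hN3⟩ := LevIterL_num (n := n) hs0 hA hYY hX
      set Δ : ℝ := 1 / 8000 / 2 ^ (j + 1) with hΔ
      have hΔe : Δ = 1 / 8000 * (1 / 2 ^ (j + 1)) := by rw [hΔ]; ring
      have hΔ0 : 0 < Δ := by positivity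
      have hΔ1 : Δ ≤ 1 := by rw [hΔe]; linarith
      have hTΔ : 1 / 8000 / 2 ^ T ≤ Δ := by
        rw [hΔ]
        exact div_le_div_of_nonneg_left (by norm_num) (by positivity)
          (pow_le_pow_right₀ (by norm_num) hjT)
      obtain ⟨ok1, ok2⟩ := hok.mono hTΔ hN34 (Nat.cast_nonneg N)
      have hNr : (1 : ℝ) ≤ N := by exact_mod_cast hN1
      have hstep := levStepL (F := F) (n := n) (K := 1000) (by norm_num) hκ (by linarith)
        hΔ0 hΔ1 hN1 l hs (by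
          push_cast
          calc 1024 * 1000 * (N : ℝ) ^ 2 * s = 1024000 * (N : ℝ) ^ 2 * s := by ring
            _ ≤ Δ ^ 2 * X := hN2) (by push_cast; exact ok1) (by push_cast; exact ok2)
      have hs1 : s ≤ ((N : ℝ) + 1) * s := by nlinarith
      have hX0 : 0 ≤ X := by positivity
      have h2000' : 2000 * (((N : ℝ) + 1) * s) ≤ X := by
        have h1 : ((N : ℝ) + 1) * s ≤ 2 * (N : ℝ) ^ 2 * s := by
          refine mul_le_mul_of_nonneg_right ?_ hs0.le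
          nlinarith
        have h2 : Δ ^ 2 * X ≤ X := by
          have : Δ ^ 2 ≤ 1 := pow_le_one₀ hΔ0.le hΔ1
          nlinarith
        nlinarith
      obtain ⟨l', s', e1, e2, e3, e4, e5⟩ := ih (by omega) (κ + Δ) (N * (l + 1) + l)
        (((N : ℝ) + 1) * s) (by linarith) (by rw [hpow, hΔe]; linarith) (by linarith) h2000' hN3
        (hX.trans (mul_le_mul_of_nonneg_left hs1 (Real.rpow_nonneg hn0 _)))
      refine ⟨l', s', ?_, hs1.trans e2, e3, e4, ?_⟩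
      · have h1 : (N : ℝ) + 1 ≠ 0 := by positivity
        have h2 : ((N : ℝ) + 1) * (((l' : ℝ) + 1) * s) = ((N : ℝ) + 1) * (((l : ℝ) + 1) * s') := by
          push_cast at e1
          linarith
        exact mul_left_cancel₀ h1 h2
      · have hc := StepG.comp hstep e5 (by positivity)
        rw [add_comm 1 j] at hc
        refine StepG.weaken hc (fun _ h => h)
          (fun S h => hasCode_weaken (by rw [hpow, hΔe]; linarith) le_rfl le_rfl h) ?_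
        have h1 : Real.exp (-(Δ * n / 4 * Real.log (Fintype.card F))) ≤ ε0 := by
          rw [hε0]
          refine Real.exp_le_exp.2 (neg_le_neg ?_)
          refine mul_le_mul_of_nonneg_right ?_ hlq
          have := mul_le_mul_of_nonneg_right hTΔ hn0
          linarith
        push_cast
        linarith

end Pool.Agent.RCL
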