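import Pool.Agent.W_6acff7c_h33.CE
import Pool.Agent.W_6acff7b_h70.JFin
import Pool.Agent.W_MP_6acff7_h70.HighEig

/-!
# The level of a system of joint eigenvalues

Adapt `Pool/Agent/W_6acff7b_h70/Lev.lean` (finite sets of points become subspaces, cardinality becomes
`finrank`); `FixL (regR _) D u` says `u (c * a) = u c` for `a ∈ PS D`.
`FsubL ρ n = ⊤` for `ρ = regR`: every `u` is fixed by `PS ⊤ = 1`.  `FsubL (regR) b` is invariant under
`regR a` because `regR a` maps a vector fixed by `PS D` to one fixed by `PS (mv a D)`, `finrank_mv`; and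
under `regL a` because `regL` commutes with `regR`.
`lev_no_fixedL`: if `u ≠ 0` then `JE α ⊓ FsubL b'` (`b' = finrank B`) is nonzero and invariant under both
regular representations, so it is `JE α` by `JE_min`, so `levL α ≤ b'`.
`lev_posL`: if `levL α = 0` then `JE α ≤ FsubL 0`, whose vectors are fixed by all `regR a`, so
`cavg (regR) g` is the identity on `JE α ≠ ⊥` and `α = 1`.
`lev_fixedL`: otherwise all generators `u` of `FsubL (levL α)` (fixed by `PS B`, `finrank B = levL α`) have
projection `0` to `JE α` (the projection commutes with `regR`, `HighEig_proj_comm`, so it is again fixed by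
`PS B`), but `JE α ≤ FsubL (levL α)` and `JE α ≠ ⊥`, a contradiction.
-/

open Finset Pool.Agent.RCG

namespace Pool.Agent.RCL

variable {F : Type*} [Field F] [Fintype F] {n : ℕ} {α : SLn F n → ℝ}

private theorem LevL_regR_regL {G : Type*} [Group G] [Fintype G] (a b : G)
    (u : EuclideanSpace ℝ G) :
    regR G a (regL G b u) = regL G b (regR G a u) := by
  ext c
  rw [regR_apply, regL_apply, regL_apply, regR_apply, mul_assoc]

private theorem LevL_map {E : Type*} [NormedAddCommGroup E] [InnerProductSpace ℝ E]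
    {ρ : SLn F n →* Module.End ℝ E} {D : Submodule F (Fin n → F)} {u : E} (hu : FixL ρ D u)
    (g : SLn F n) : FixL ρ (mv g D) (ρ g u) := by
  intro h hh
  have h2 : g⁻¹ * h * g ∈ PS D := by
    rw [← conj_mem_PS g]
    have : g * (g⁻¹ * h * g) * g⁻¹ = h := by group
    rw [this]; exact hh
  have h1 := hu _ h2
  calc ρ h (ρ g u) = ρ (g * (g⁻¹ * h * g)) u := by
        rw [show g * (g⁻¹ * h * g) = h * g by group, map_mul]
        rfl
    _ = ρ g (ρ (g⁻¹ * h * g) u) := by
        rw [map_mul]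
        rfl
    _ = ρ g u := by rw [h1]

private theorem LevL_inv {E : Type*} [NormedAddCommGroup E] [InnerProductSpace ℝ E]
    (ρ : SLn F n →* Module.End ℝ E) (b : ℕ) (g : SLn F n) (u : E) (hu : u ∈ FsubL ρ b) :
    ρ g u ∈ FsubL ρ b := by
  have : FsubL ρ b ≤ (FsubL ρ b).comap (ρ g) := by
    refine Submodule.span_le.2 ?_
    rintro v ⟨D, hD, hv⟩
    exact Submodule.subset_span ⟨mv g D, by rw [finrank_mv, hD], LevL_map hv g⟩
  exact this hu

theorem Fsub_bivL (b : ℕ) : Biv (FsubL (regR (SLn F n)) b) := by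
  refine ⟨fun a u hu => LevL_inv _ b a u hu, fun a u hu => ?_⟩
  have : FsubL (regR (SLn F n)) b ≤ (FsubL (regR (SLn F n)) b).comap (regL (SLn F n) a) := by
    refine Submodule.span_le.2 ?_
    rintro v ⟨B, hB, hv⟩
    refine Submodule.subset_span ⟨B, hB, fun g hg => ?_⟩
    rw [LevL_regR_regL, hv g hg]
  exact this hu

private theorem LevL_top : FsubL (regR (SLn F n)) n = ⊤ := by
  rw [eq_top_iff]
  intro u _
  refine Submodule.subset_span ⟨⊤, by simp, fun g hg => ?_⟩
  have h1 : g = 1 := by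
    apply Subtype.ext
    apply LinearEquiv.ext
    intro p
    exact hg p Submodule.mem_top
  rw [h1, map_one]
  rfl

theorem lev_leL (α : SLn F n → ℝ) : levL α ≤ n := by
  apply Nat.sInf_le
  show JE α ≤ FsubL (regR (SLn F n)) n
  rw [LevL_top]
  exact le_top

theorem lev_specL (α : SLn F n → ℝ) : JE α ≤ FsubL (regR (SLn F n)) (levL α) := by
  have h : (levL α) ∈ {b | JE α ≤ FsubL (regR (SLn F n)) b} := by
    apply Nat.sInf_mem
    refine ⟨n, ?_⟩
    show JE α ≤ FsubL (regR (SLn F n)) n
    rw [LevL_top]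
    exact le_top
  exact h

theorem lev_no_fixedL (h : IsCh α) (B : Submodule F (Fin n → F))
    (hB : Module.finrank F B < levL α) (u : EuclideanSpace ℝ (SLn F n)) (hu : u ∈ JE α)
    (huB : FixL (regR (SLn F n)) B u) : u = 0 := by
  by_contra hne
  have hW : Biv (JE α ⊓ FsubL (regR (SLn F n)) (Module.finrank F B)) :=
    ⟨fun a v hv => ⟨(JE_biv α).1 a v hv.1, (Fsub_bivL _).1 a v hv.2⟩,
      fun a v hv => ⟨(JE_biv α).2 a v hv.1, (Fsub_bivL _).2 a v hv.2⟩⟩
  have hu' : u ∈ JE α ⊓ FsubL (regR (SLn F n)) (Module.finrank F B) :=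
    ⟨hu, Submodule.subset_span ⟨B, rfl, huB⟩⟩
  have hW0 : JE α ⊓ FsubL (regR (SLn F n)) (Module.finrank F B) ≠ ⊥ := by
    intro h0
    rw [h0, Submodule.mem_bot] at hu'
    exact hne hu'
  have h1 := JE_min hW inf_le_left hW0
  have h2 : levL α ≤ Module.finrank F B := Nat.sInf_le (inf_eq_left.1 h1)
  omega

private theorem LevL_zero (u : EuclideanSpace ℝ (SLn F n)) (hu : u ∈ FsubL (regR (SLn F n)) 0)
    (a : SLn F n) : regR (SLn F n) a u = u := by
  induction hu using Submodule.span_induction with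
  | mem v hv =>
    obtain ⟨B, hB, hv⟩ := hv
    rw [Submodule.finrank_eq_zero] at hB
    subst hB
    refine hv a fun p hp => ?_
    rw [Submodule.mem_bot] at hp
    subst hp
    exact map_zero _
  | zero => exact map_zero _
  | add v w _ _ hv hw => rw [map_add, hv, hw]
  | smul c v _ hv => rw [map_smul, hv]

theorem lev_posL (h : IsCh α) (h1 : α ≠ 1) : 1 ≤ levL α := by
  by_contra hlt
  have h0 : levL α = 0 := by omega
  have h2 := lev_specL α
  rw [h0] at h2
  apply h1
  funext a
  have h3 := LevL_zero _ (h2 (ch_mem h)) a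
  have h4 := congrArg (fun u : EuclideanSpace ℝ (SLn F n) => u 1) h3
  simp only [regR_apply, one_mul] at h4
  have h5 : α a = α 1 := h4
  rw [h5, ch_one h]
  rfl

private theorem LevL_exists {E : Type*} [NormedAddCommGroup E] [InnerProductSpace ℝ E]
    [FiniteDimensional ℝ E] {ρ : SLn F n →* Module.End ℝ E} (hρ : Orth ρ)
    (V : Submodule ℝ E) (hV : ∀ g : SLn F n, ∀ u ∈ V, ρ g u ∈ V) (hV0 : V ≠ ⊥) (b : ℕ)
    (hVb : V ≤ FsubL ρ b) :
    ∃ B : Submodule F (Fin n → F), Module.finrank F B = b ∧ ∃ f ∈ V, f ≠ 0 ∧ FixL ρ B f := by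
  classical
  by_contra hcon
  push Not at hcon
  have hperp : FsubL ρ b ≤ Vᗮ := by
    refine Submodule.span_le.2 ?_
    rintro u ⟨B, hB, hu⟩
    have hPfix : FixL ρ B (V.starProjection u) := by
      intro g hg
      rw [← HighEig_proj_comm hρ V hV, hu g hg]
    have hP0 : V.starProjection u = 0 := by
      by_contra hne
      exact hcon B hB _ (Submodule.starProjection_apply_mem _ _) hne hPfix
    have h1 := Submodule.sub_starProjection_mem_orthogonal (K := V) u
    rwa [hP0, sub_zero] at h1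
  apply hV0
  rw [eq_bot_iff]
  intro v hv
  have : v ∈ V ⊓ Vᗮ := ⟨hv, hperp (hVb hv)⟩
  rwa [V.inf_orthogonal_eq_bot] at this

theorem lev_fixedL (h : IsCh α) : ∃ B : Submodule F (Fin n → F), Module.finrank F B = levL α ∧
    ∃ f ∈ JE α, f ≠ 0 ∧ FixL (regR (SLn F n)) B f :=
  LevL_exists (permRep_orth _) (JE α) (fun g u hu => (JE_biv α).1 g u hu) h (levL α) (lev_specL α)

end Pool.Agent.RCL
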