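import Pool.Agent.W_6acff7c_h33.PairGood
import Pool.Agent.W_6acff7b_h70.StepD

/-!
# One level: from a code to a larger code with one new random letter

PROOF.  Let `q = |F|`, `X = n ^ 2 log q`.  Given `S` with `HasCode K κ l s`, take the family `w : Fin k → _`,
`exp s ≤ k`; replace `k` by `k' = ⌈exp s⌉₊ ≤ k` (compose with `Fin.castLE`), so
`exp s ≤ k' ≤ exp s + 1 ≤ exp (2 s)` (as `s ≥ log 2`).  `w` is injective: otherwise `1` would be good
(`not_good_one`; `n ≥ 1` because of `h1`).  The new letter is `y = z 0`, and the new family is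
`i ↦ wd (w ∘ i) y` for `i : Fin (N + 1) → Fin k'`, reindexed by `Fin (k' ^ (N + 1))` (`Fintype.equivFin`,
`Fintype.card_fun`/`Fintype.card_pi_const`); its size is at least `exp ((N + 1) s)`, and its members are
words of length at most `N (l + 1) + l` in `S ∪ {y}` (`WL.wd`, `WL.mono`).
Failure means that for some `i ≠ i'` the quotient is not good for `κ + Δ`; by `pair_good` (with
`a = w ∘ i`, `a' = w ∘ i'`) and the union bound `pr_exists_le` (in `StepD.lean`, over the pairs, or over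
`univ ×ˢ univ` filtered) the probability is at most
`(k' ^ (N + 1)) ^ 2 * exp (-(Δ ^ 2 X / (64 K N))) ≤ exp (4 (N + 1) s - Δ ^ 2 X / (64 K N))`.  Now
`4 (N + 1) s ≤ 8 N s ≤ Δ ^ 2 X / (128 K N)` by `h0`, and `Δ ^ 2 X / (128 K N) ≥ Δ n log q / 4` because
`32 K N ≤ Δ n` (`h1`).  The probability over `z : Fin 1 → G` is the probability over `y : G`
(`pr_congr` with `Equiv.funUnique`).
-/

open Finset Pool.Agent.RCG

namespace Pool.Agent.RCL

variable {F : Type*} [Field F] [Fintype F] {n : ℕ}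

/-- The numbers of the union bound. -/
private theorem levStepL_num {K N : ℕ} (hK : 1 ≤ K) (hN : 1 ≤ N) {Δ s X lq n' : ℝ} {k : ℕ}
    (hs : Real.log 2 ≤ s) (hk : (k : ℝ) ≤ Real.exp s + 1) (hlq : 0 ≤ lq) (hΔ : 0 < Δ)
    (hn : 0 ≤ n') (hX : X = n' ^ 2 * lq)
    (h0 : 1024 * K * N ^ 2 * s ≤ Δ ^ 2 * X) (h1 : 32 * (K * N : ℝ) ≤ Δ * n') :
    (((k ^ (N + 1)) ^ 2 : ℕ) : ℝ) * Real.exp (-(Δ ^ 2 * X / (64 * (K * N)))) ≤
      Real.exp (-(Δ * n' / 4 * lq)) := by
  have hK' : (1 : ℝ) ≤ K := by exact_mod_cast hK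
  have hN' : (1 : ℝ) ≤ N := by exact_mod_cast hN
  have hKN : 0 < (K * N : ℝ) := by positivity
  have hs0 : 0 ≤ s := (Real.log_nonneg (by norm_num)).trans hs
  have he2 : 2 ≤ Real.exp s := by
    have := Real.exp_le_exp.2 hs
    rwa [Real.exp_log (by norm_num)] at this
  have hk2 : (k : ℝ) ≤ Real.exp (2 * s) := by
    have e : Real.exp (2 * s) = Real.exp s * Real.exp s := by
      rw [← Real.exp_add]; ring_nf
    rw [e]
    nlinarith
  have hk3 : (((k ^ (N + 1)) ^ 2 : ℕ) : ℝ) ≤ Real.exp (8 * N * s) := by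
    push_cast
    rw [← pow_mul]
    have h2 : (k : ℝ) ^ ((N + 1) * 2) ≤ Real.exp (2 * s) ^ ((N + 1) * 2) :=
      pow_le_pow_left₀ (Nat.cast_nonneg k) hk2 _
    refine h2.trans ?_
    rw [← Real.exp_nat_mul]
    apply Real.exp_le_exp.2
    push_cast
    nlinarith
  have h3 : Δ * n' / 4 * lq ≤ Δ ^ 2 * X / (128 * (K * N)) := by
    rw [le_div_iff₀ (by positivity), hX]
    have h4 : 0 ≤ Δ * n' * lq := by positivity
    nlinarith [mul_le_mul_of_nonneg_right h1 h4]
  have h5 : 8 * N * s ≤ Δ ^ 2 * X / (128 * (K * N)) := by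
    rw [le_div_iff₀ (by positivity)]
    nlinarith
  have h6 : Δ ^ 2 * X / (64 * (K * N)) = Δ ^ 2 * X / (128 * (K * N)) + Δ ^ 2 * X / (128 * (K * N)) := by
    field_simp
    ring
  calc (((k ^ (N + 1)) ^ 2 : ℕ) : ℝ) * Real.exp (-(Δ ^ 2 * X / (64 * (K * N))))
      ≤ Real.exp (8 * N * s) * Real.exp (-(Δ ^ 2 * X / (64 * (K * N)))) :=
        mul_le_mul_of_nonneg_right hk3 (Real.exp_pos _).le
    _ = Real.exp (8 * N * s - Δ ^ 2 * X / (64 * (K * N))) := by rw [← Real.exp_add]; ring_nf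
    _ ≤ Real.exp (-(Δ * n' / 4 * lq)) := by
        apply Real.exp_le_exp.2
        rw [h6]; linarith

theorem levStepL {K : ℕ} (hK : 1 ≤ K) {κ Δ : ℝ} (hκ : 0 ≤ κ) (hκ1 : κ < 1) (hΔ : 0 < Δ) (hΔ1 : Δ ≤ 1)
    {N : ℕ} (hN : 1 ≤ N) (l : ℕ) {s : ℝ} (hs : Real.log 2 ≤ s)
    (h0 : 1024 * K * N ^ 2 * s ≤ Δ ^ 2 * (n ^ 2 * Real.log (Fintype.card F)))
    (h1 : 32 * (K * N : ℝ) ≤ Δ * n)
    (h2 : 2 * (2 * (K * N) + 1 : ℝ) * (Fintype.card F : ℝ) ^ 2 ≤ (Fintype.card F : ℝ) ^ (Δ * n / 4)) :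
    StepG (SLn F n) 1 (Real.exp (-(Δ * n / 4 * Real.log (Fintype.card F))))
      (HasCode K κ l s) (HasCode K (κ + Δ) (N * (l + 1) + l) ((N + 1) * s)) := by
  classical
  rintro S ⟨k0, hk0, w0, hw0, hc0⟩
  have hn : 1 ≤ n := by
    by_contra hcon
    have hn0 : n = 0 := by omega
    have hK' : (1 : ℝ) ≤ K := by exact_mod_cast hK
    have hN' : (1 : ℝ) ≤ N := by exact_mod_cast hN
    rw [hn0] at h1
    have : 0 < (K * N : ℝ) := by positivity
    push_cast at h1
    linarith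
  -- a subfamily of the right size
  set k : ℕ := ⌈Real.exp s⌉₊ with hkdef
  have hkk : k ≤ k0 := Nat.ceil_le.2 hk0
  have hks : Real.exp s ≤ k := Nat.le_ceil _
  have hks1 : (k : ℝ) ≤ Real.exp s + 1 := (Nat.ceil_lt_add_one (Real.exp_pos s).le).le
  set w : Fin k → SLn F n := fun i => w0 (Fin.castLE hkk i) with hwdef
  have hw : ∀ i, WL S l (w i) := fun i => hw0 _
  have hc : ∀ i j, i ≠ j → Good K κ ((w i)⁻¹ * w j) := by
    intro i j hij
    exact hc0 _ _ fun h => hij (Fin.castLE_injective hkk h)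
  have hinj : Function.Injective w := by
    intro i j hij
    by_contra hne
    have := hc i j hne
    rw [hij, inv_mul_cancel] at this
    exact not_good_one hK hκ1 hn this
  -- the bad event
  let P : Finset ((Fin (N + 1) → Fin k) × (Fin (N + 1) → Fin k)) :=
    univ.filter fun p => p.1 ≠ p.2
  let bad : (Fin (N + 1) → Fin k) × (Fin (N + 1) → Fin k) → SLn F n → Prop := fun p y =>
    ¬ Good K (κ + Δ) ((wd (fun j => w (p.1 j)) y)⁻¹ * wd (fun j => w (p.2 j)) y)
  obtain ⟨eq⟩ : Nonempty (Fin (k ^ (N + 1)) ≃ (Fin (N + 1) → Fin k)) :=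
    ⟨finFunctionFinEquiv.symm⟩
  have key : ∀ y : SLn F n, (∀ p ∈ P, ¬ bad p y) → ∀ S' : Set (SLn F n), S ⊆ S' → y ∈ S' →
      HasCode K (κ + Δ) (N * (l + 1) + l) ((N + 1) * s) S' := by
    intro y hy S' hSS hyS
    refine ⟨k ^ (N + 1), ?_, fun i => wd (fun j => w (eq i j)) y, ?_, ?_⟩
    · push_cast
      have e : Real.exp ((N + 1) * s) = Real.exp s ^ (N + 1) := by
        rw [← Real.exp_nat_mul]
        push_cast
        ring_nf
      rw [e]
      exact pow_le_pow_left₀ (Real.exp_pos s).le hks _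
    · intro i
      exact WL.wd (fun j => (hw _).mono hSS le_rfl) hyS
    · intro i j hij
      have hp : (eq i, eq j) ∈ P :=
        Finset.mem_filter.2 ⟨Finset.mem_univ _, fun h => hij (eq.injective h)⟩
      by_contra hcon
      exact hy _ hp hcon
  have hbad : ∀ p ∈ P, pr (bad p) ≤
      Real.exp (-(Δ ^ 2 * (n ^ 2 * Real.log (Fintype.card F)) / (64 * (K * N)))) := by
    intro p hp
    have hne : p.1 ≠ p.2 := (Finset.mem_filter.1 hp).2
    refine pair_good hK hκ hΔ hΔ1 (fun j => w (p.1 j)) (fun j => w (p.2 j)) ?_ ?_ h1 h2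
    · intro j
      by_cases h : p.1 j = p.2 j
      · exact Or.inl (congrArg w h)
      · exact Or.inr (hc _ _ h)
    · intro h
      apply hne
      funext j
      exact hinj (congrFun h j)
  have hPcard : P.card ≤ (k ^ (N + 1)) ^ 2 := by
    refine (Finset.card_le_univ P).trans (le_of_eq ?_)
    rw [Fintype.card_prod, Fintype.card_fun, Fintype.card_fin, Fintype.card_fin, sq]
  have hq1 : (1 : ℝ) ≤ Fintype.card F := by
    exact_mod_cast Fintype.card_pos
  have hsum : ∑ p ∈ P, Real.exp (-(Δ ^ 2 * (n ^ 2 * Real.log (Fintype.card F)) / (64 * (K * N)))) ≤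
      Real.exp (-(Δ * n / 4 * Real.log (Fintype.card F))) := by
    rw [Finset.sum_const, nsmul_eq_mul]
    have hP' : (P.card : ℝ) ≤ (((k ^ (N + 1)) ^ 2 : ℕ) : ℝ) := by exact_mod_cast hPcard
    refine (mul_le_mul_of_nonneg_right hP' (Real.exp_pos _).le).trans ?_
    exact levStepL_num hK hN hs hks1 (Real.log_nonneg hq1) hΔ (Nat.cast_nonneg n) rfl h0 h1
  have h3 := pr_congr (Equiv.funUnique (Fin 1) (SLn F n)) (fun y : SLn F n => ∃ p ∈ P, bad p y)
  refine le_trans (pr_mono (Q := fun z : Fin 1 → SLn F n => ∃ p ∈ P,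
      bad p (Equiv.funUnique (Fin 1) (SLn F n) z)) ?_) (le_trans (le_of_eq h3) ?_)
  · intro z hz
    by_contra hlt
    apply hz
    push Not at hlt
    exact key (z 0) (fun p hp => hlt p hp) _ Set.subset_union_left (Or.inr ⟨0, rfl⟩)
  · exact (pr_exists_le P bad _ hbad).trans hsum

end Pool.Agent.RCL
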