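import Pool.Agent.W_6acff7c_h33.GStep
import Pool.Agent.W_6acff7c_h33.SumB
import Pool.Agent.W_MP_6acff7_h70.Cayley

/-!
# Passing to `PSL_n(q)`

PROOF of `pr_hom`: the map `(Fin m → G) → (Fin m → H)`, `x ↦ π ∘ x` is surjective and all its fibres have
the same size (translate by a preimage; or `Fin m → G` is a group and this is a surjective homomorphism), so
`pr` of a property of `π ∘ x` equals `pr` of this property on `Fin m → H`.  If `HasAllG l (range x)` then
`HasAllG l (range (π ∘ x))`: map the list of a word by `π`.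
`psl_hom`: compose the inverse of `Matrix.SpecialLinearGroup.toLin'_equiv` with `QuotientGroup.mk'`.
PROOF of `psl_card`: the centre of `SL_n(F)` is isomorphic to the `n`-th roots of unity in `F`
(`Matrix.SpecialLinearGroup.center_equiv_rootsOfUnity`), so it has at most `n` elements
(`card_rootsOfUnity`), and `|SL| = |centre| * |PSL|` (`Subgroup.card_eq_card_quotient_mul_card_subgroup`).
PROOF of `psl_log`: `log |SL| ≤ log n + log |PSL|` and `log |SL| ≥ 0.99 n ^ 2 log 2` (`log_card_bounds`), so
`log n ≤ 0.01 log |SL|` for large `n`, `log |PSL| ≥ 0.99 log |SL|`, and `0.99 * 6 = 5.94 ≥ 5.9`.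
-/

open Finset Pool.Agent.RCG

namespace Pool.Agent.RCL

theorem pr_hom {G H : Type*} [Group G] [Fintype G] [Group H] [Fintype H] (π : G →* H)
    (hπ : Function.Surjective π) (m l : ℕ) :
    pr (fun x : Fin m → H => ¬ HasAllG l (Set.range x)) ≤
      pr (fun x : Fin m → G => ¬ HasAllG l (Set.range x)) := by
  classical
  set Φ : (Fin m → G) →* (Fin m → H) := π.compLeft (Fin m) with hΦ
  have hΦs : Function.Surjective Φ := fun y =>
    ⟨fun i => (hπ (y i)).choose, funext fun i => (hπ (y i)).choose_spec⟩
  -- a word over `x` gives a word over `π ∘ x`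
  have hw : ∀ x : Fin m → G, HasAllG l (Set.range x) → HasAllG l (Set.range (Φ x)) := by
    intro x hx h
    obtain ⟨g, rfl⟩ := hπ h
    obtain ⟨L, h1, h2, h3⟩ := hx g
    refine ⟨L.map π, by rw [List.length_map]; exact h1, ?_, ?_⟩
    · intro a ha
      obtain ⟨b, hb, rfl⟩ := List.mem_map.1 ha
      rcases h2 b hb with ⟨i, hi⟩ | ⟨i, hi⟩
      · exact Or.inl ⟨i, by show π (x i) = π b; rw [hi]⟩
      · exact Or.inr ⟨i, by show π (x i) = (π b)⁻¹; rw [hi, map_inv]⟩
    · rw [← map_list_prod, h3]
  -- all fibres have the same size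
  set K := (univ.filter fun x : Fin m → G => Φ x = 1).card with hK
  have hfib : ∀ y : Fin m → H, (univ.filter fun x : Fin m → G => Φ x = y).card = K := fun y =>
    MonoidHom.card_fiber_eq_of_mem_range Φ (hΦs y) (hΦs 1)
  have hK0 : 0 < K := Finset.card_pos.2 ⟨1, by simp⟩
  have hcount : ∀ P : (Fin m → H) → Prop,
      (univ.filter fun x : Fin m → G => P (Φ x)).card = (univ.filter P).card * K := by
    intro P
    rw [Finset.card_eq_sum_card_fiberwise (f := Φ) (t := univ.filter P)
      (fun x hx => by
        rw [Finset.mem_coe, mem_filter] at hx ⊢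
        exact ⟨mem_univ _, hx.2⟩)]
    rw [← smul_eq_mul, ← Finset.sum_const]
    refine Finset.sum_congr rfl fun y hy => ?_
    rw [← hfib y]
    congr 1
    ext x
    simp only [mem_filter, mem_univ, true_and]
    constructor
    · exact fun h => h.2
    · intro h
      exact ⟨by rw [h]; exact (mem_filter.1 hy).2, h⟩
  have hG : Fintype.card (Fin m → G) = Fintype.card (Fin m → H) * K := by
    have h1 := hcount (fun _ => True)
    simpa using h1
  have hH0 : 0 < Fintype.card (Fin m → H) := Fintype.card_pos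
  have hK1 : (0 : ℝ) < K := by exact_mod_cast hK0
  have hH1 : (0 : ℝ) < Fintype.card (Fin m → H) := by exact_mod_cast hH0
  have h1 : pr (fun x : Fin m → H => ¬ HasAllG l (Set.range x)) =
      (((univ.filter fun x : Fin m → G => ¬ HasAllG l (Set.range (Φ x))).card : ℝ)) /
        Fintype.card (Fin m → G) := by
    have e1 : (univ.filter fun x : Fin m → G => ¬ HasAllG l (Set.range (Φ x))).card =
        (univ.filter fun y : Fin m → H => ¬ HasAllG l (Set.range y)).card * K := by
      convert hcount (fun y => ¬ HasAllG l (Set.range y))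
    unfold pr
    rw [e1, hG]
    push_cast
    rw [mul_div_mul_right _ _ hK1.ne']
    congr!
  rw [h1]
  unfold pr
  refine div_le_div_of_nonneg_right ?_ (by positivity)
  have h2 : (univ.filter fun x : Fin m → G => ¬ HasAllG l (Set.range (Φ x))) ⊆
      univ.filter fun x : Fin m → G => ¬ HasAllG l (Set.range x) := by
    intro x hx
    rw [mem_filter] at hx ⊢
    exact ⟨hx.1, fun h => hx.2 (hw x h)⟩
  have h3 := Finset.card_le_card h2
  have h4 : ((univ.filter fun x : Fin m → G => ¬ HasAllG l (Set.range (Φ x))).card : ℝ) ≤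
      ((univ.filter fun x : Fin m → G => ¬ HasAllG l (Set.range x)).card : ℝ) := by
    exact_mod_cast h3
  refine h4.trans (le_of_eq ?_)
  congr!

theorem psl_hom (F : Type*) [Field F] (n : ℕ) : ∃ π : SLn F n →*
    Matrix.ProjectiveSpecialLinearGroup (Fin n) F, Function.Surjective π := by
  refine ⟨(QuotientGroup.mk' (Subgroup.center (Matrix.SpecialLinearGroup (Fin n) F))).comp
    (Matrix.SpecialLinearGroup.toLin'_equiv (n := Fin n) (R := F)).symm.toMonoidHom, ?_⟩
  exact (QuotientGroup.mk'_surjective _).comp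
    (Matrix.SpecialLinearGroup.toLin'_equiv (n := Fin n) (R := F)).symm.surjective

theorem psl_card (F : Type*) [Field F] [Fintype F] (n : ℕ) (hn : 1 ≤ n) :
    Nat.card (SLn F n) ≤ n * Nat.card (Matrix.ProjectiveSpecialLinearGroup (Fin n) F) := by
  have h1 : Nat.card (SLn F n) = Nat.card (Matrix.SpecialLinearGroup (Fin n) F) :=
    Nat.card_congr (Matrix.SpecialLinearGroup.toLin'_equiv (n := Fin n) (R := F)).symm.toEquiv
  have h2 := Subgroup.card_eq_card_quotient_mul_card_subgroup
    (Subgroup.center (Matrix.SpecialLinearGroup (Fin n) F))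
  have h3 : Nat.card (Subgroup.center (Matrix.SpecialLinearGroup (Fin n) F)) ≤ n := by
    have : NeZero n := ⟨by omega⟩
    have : NeZero (Fintype.card (Fin n)) := ⟨by rw [Fintype.card_fin]; omega⟩
    rw [Nat.card_congr (Matrix.SpecialLinearGroup.center_equiv_rootsOfUnity' (n := Fin n) (R := F)
      ⟨0, by omega⟩).toEquiv]
    refine (card_rootsOfUnity F (Fintype.card (Fin n))).trans ?_
    rw [Fintype.card_fin]
  rw [h1, h2, mul_comm]
  exact Nat.mul_le_mul_right _ h3

theorem psl_log : ∃ N0 : ℕ, ∀ n ≥ N0, ∀ (F : Type) [Field F] [Fintype F],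
    59 / 10 * Real.log (Fintype.card (SLn F n)) ≤
      6 * Real.log (Nat.card (Matrix.ProjectiveSpecialLinearGroup (Fin n) F)) := by
  obtain ⟨N1, hN1⟩ := log_card_bounds
  refine ⟨max N1 100, fun n hn F _ _ => ?_⟩
  have hn1 : N1 ≤ n := le_trans (le_max_left _ _) hn
  have hn2 : 100 ≤ n := le_trans (le_max_right _ _) hn
  have hn3 : (100 : ℝ) ≤ n := by exact_mod_cast hn2
  obtain ⟨hL, -⟩ := hN1 n hn1 F
  have hq : Real.log 2 ≤ Real.log (Fintype.card F) := by
    refine Real.log_le_log (by norm_num) ?_
    exact_mod_cast Fintype.one_lt_card (α := F)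
  have h2 := Real.log_two_gt_d9
  have hc := psl_card F n (by omega)
  rw [Nat.card_eq_fintype_card] at hc
  have hS : 0 < Fintype.card (SLn F n) := Fintype.card_pos
  have hP : 0 < Nat.card (Matrix.ProjectiveSpecialLinearGroup (Fin n) F) := by
    rcases Nat.eq_zero_or_pos (Nat.card (Matrix.ProjectiveSpecialLinearGroup (Fin n) F)) with h | h
    · rw [h, mul_zero] at hc
      omega
    · exact h
  have hS' : (0 : ℝ) < Fintype.card (SLn F n) := by exact_mod_cast hS
  have hP' : (0 : ℝ) < Nat.card (Matrix.ProjectiveSpecialLinearGroup (Fin n) F) := by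
    exact_mod_cast hP
  have hc' : (Fintype.card (SLn F n) : ℝ) ≤
      n * Nat.card (Matrix.ProjectiveSpecialLinearGroup (Fin n) F) := by exact_mod_cast hc
  have h3 := Real.log_le_log hS' hc'
  rw [Real.log_mul (by positivity) hP'.ne'] at h3
  have h4 : Real.log n ≤ n := (Real.log_le_sub_one_of_pos (by positivity)).trans (by linarith)
  have h5 : 68 / 1000 * (n : ℝ) ^ 2 ≤ 1 / 10 * Real.log (Fintype.card (SLn F n)) := by
    have h6 : (69 / 100 : ℝ) ≤ Real.log (Fintype.card F) := by linarith
    have h7 : (n : ℝ) ^ 2 * (69 / 100) ≤ (n : ℝ) ^ 2 * Real.log (Fintype.card F) :=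
      mul_le_mul_of_nonneg_left h6 (by positivity)
    nlinarith
  nlinarith

end Pool.Agent.RCL
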