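import Pool.Agent.W_6acff7c_h33.CodeAll
import Pool.Agent.W_6acff7c_h33.FinalStep
import Pool.Agent.W_6acff7c_h33.Psl

/-!
# Main theorem for `PSL_n(q)`, all `q`

PROOF: as `main_SL` and `main_PSL`, with `code_steps_all` in place of `code_steps`.
-/

open Pool.Agent.RCG

namespace Pool.Agent.RCL

theorem main_SL_all (ε : ℝ) (hε : 0 < ε) : ∃ N0 : ℕ, ∀ n ≥ N0,
    ∀ (F : Type) [Field F] [Fintype F],
    ∀ m : ℕ, 2 * Real.log (Real.log n) ≤ m →
    pr (fun x : Fin m → SLn F n =>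
      ¬ HasAllG ⌊(59 / 10 : ℝ) * Real.log (Fintype.card (SLn F n))⌋₊ (Set.range x)) ≤ ε := by
  obtain ⟨Y, N1, h1⟩ := code_steps_all (ε / 2) (by linarith)
  obtain ⟨N2, h2⟩ := final_step Y (ε / 2) (by linarith)
  have htend : Filter.Tendsto (fun n : ℕ => Real.log (Real.log (n : ℝ))) Filter.atTop
      Filter.atTop :=
    Real.tendsto_log_atTop.comp (Real.tendsto_log_atTop.comp tendsto_natCast_atTop_atTop)
  obtain ⟨N3, h3⟩ := Filter.eventually_atTop.1
    (htend.eventually (Filter.eventually_ge_atTop (2 * (3 * Y + 1))))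
  refine ⟨max N1 (max N2 N3), ?_⟩
  intro n hn F _ _ m hm
  have hn1 : N1 ≤ n := (le_max_left _ _).trans hn
  have hn2 : N2 ≤ n := ((le_max_left _ _).trans (le_max_right _ _)).trans hn
  have hn3 : N3 ≤ n := ((le_max_right _ _).trans (le_max_right _ _)).trans hn
  obtain ⟨t, l, s, ht, hs1, hs2, hs3, hst⟩ := h1 n hn1 F
  obtain ⟨J, hJ, hstJ⟩ := h2 n hn2 F l s hs1 hs2 hs3
  have hx := h3 n hn3
  have hle : t + J ≤ m := by
    have : ((t + J : ℕ) : ℝ) ≤ m := by
      push_cast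
      linarith
    exact_mod_cast this
  obtain ⟨r, rfl⟩ := Nat.exists_eq_add_of_le hle
  have hall := ((hst.comp hstJ (by linarith)).extra (mono_hasAllG _) r) ∅ trivial
  have he : ε / 2 + ε / 2 = ε := by ring
  rw [he] at hall
  simpa only [Set.empty_union] using hall

private theorem MainAll_pr_eq {α : Type*} [Fintype α] (P : α → Prop) :
    pr P = (Nat.card {x : α // P x} : ℝ) / Nat.card α := by
  classical
  unfold pr
  rw [Nat.card_eq_fintype_card, Nat.card_eq_fintype_card, Fintype.card_subtype]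

theorem main_PSL_all (ε : ℝ) (hε : 0 < ε) : ∃ N : ℕ, ∀ n : ℕ, N ≤ n →
    ∀ (F : Type) [Field F] [Fintype F],
    ∀ m : ℕ, 2 * Real.log (Real.log n) ≤ m →
    1 - ε ≤ (Nat.card {x : Fin m → Matrix.ProjectiveSpecialLinearGroup (Fin n) F //
        (cayleyGraph x).Connected ∧ ((cayleyGraph x).diam : ℝ) ≤
          6 * Real.log (Nat.card (Matrix.ProjectiveSpecialLinearGroup (Fin n) F))} : ℝ) /
      Nat.card (Fin m → Matrix.ProjectiveSpecialLinearGroup (Fin n) F) := by
  obtain ⟨N1, h1⟩ := main_SL_all ε hε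
  obtain ⟨N2, h2⟩ := psl_log
  refine ⟨max N1 N2, fun n hn F _ _ m hm => ?_⟩
  have hn1 : n ≥ N1 := le_trans (le_max_left _ _) hn
  have hn2 : n ≥ N2 := le_trans (le_max_right _ _) hn
  obtain ⟨π, hπ⟩ := psl_hom F n
  haveI : Finite (Matrix.ProjectiveSpecialLinearGroup (Fin n) F) := Finite.of_surjective π hπ
  letI : Fintype (Matrix.ProjectiveSpecialLinearGroup (Fin n) F) := Fintype.ofFinite _
  have hA := h1 n hn1 F m hm
  have hB := pr_hom π hπ m ⌊(59 / 10 : ℝ) * Real.log (Fintype.card (SLn F n))⌋₊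
  have hC := hB.trans hA
  rw [pr_not] at hC
  have hlog0 : 0 ≤ (59 / 10 : ℝ) * Real.log (Fintype.card (SLn F n)) :=
    mul_nonneg (by norm_num) (Real.log_natCast_nonneg _)
  have hD : pr (fun x : Fin m → Matrix.ProjectiveSpecialLinearGroup (Fin n) F =>
        HasAllG ⌊(59 / 10 : ℝ) * Real.log (Fintype.card (SLn F n))⌋₊ (Set.range x)) ≤
      pr (fun x : Fin m → Matrix.ProjectiveSpecialLinearGroup (Fin n) F =>
        (cayleyGraph x).Connected ∧ ((cayleyGraph x).diam : ℝ) ≤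
          6 * Real.log (Nat.card (Matrix.ProjectiveSpecialLinearGroup (Fin n) F))) := by
    refine pr_mono fun x hx => ?_
    have h4 := cayley_diam x hx
    refine ⟨h4.1, ?_⟩
    have h5 : ((cayleyGraph x).diam : ℝ) ≤
        (⌊(59 / 10 : ℝ) * Real.log (Fintype.card (SLn F n))⌋₊ : ℝ) := by
      exact_mod_cast h4.2
    exact (h5.trans (Nat.floor_le hlog0)).trans (h2 n hn2 F)
  rw [MainAll_pr_eq] at hD
  rw [MainAll_pr_eq (fun x : Fin m → Matrix.ProjectiveSpecialLinearGroup (Fin n) F =>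
        (cayleyGraph x).Connected ∧ ((cayleyGraph x).diam : ℝ) ≤
          6 * Real.log (Nat.card (Matrix.ProjectiveSpecialLinearGroup (Fin n) F)))] at hD
  rw [MainAll_pr_eq] at hC
  linarith

end Pool.Agent.RCL
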