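import Pool.Agent.W_6acff7c_h33.Explore

/-!
# Moments of the number of bad vectors

PROOF of `one_vec`.  If `L = []` then `Bad L y v ↔ v = 0`, the sum has one term, at most `B` (`hB` with
`D' = D`), and the right side is at least `B` (note `0 ≤ B`).  Let `L = p :: L'`.  For `v = 0` or
`v ∈ side p.1 y0 D` (at most `q ^ finrank D` vectors, `0` among them) bound the term by
`cE D y0 φ ≤ B`.  For the other `v` we have `Bad L y v ↔ Dep y L ⊥ v` and `explore` with `H = ⊥` bounds the
term by `L.length * (2 q ^ (k + 2 + c) / q ^ n) * B`; there are at most `q ^ n` such `v`.  Total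
`≤ q ^ finrank D * B + L.length * 2 q ^ (k + 2 + c) * B ≤ (L.length + 1) * (2 q ^ (k + 2 + c)) * B`.

PROOF of `moment`: induction on `M` for all `D, y0`.  `M = 0`: `cE_const`.  `M + 1`: with
`φ y = (number of bad v) ^ M ≥ 0` we have
`(number of bad v) ^ (M + 1) = ∑ v, if Bad L y v then φ y else 0`, so by `cE_sum` and `one_vec` with
`B = ((L.length + 1) * (2 q ^ (k + 2 + c))) ^ M` we get the claim; the hypothesis `hB` of `one_vec` is the
induction hypothesis (`finrank D' + (M + 1) * len ≤ finrank D + (M + 2) * len ≤ c`).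
-/

open Finset Pool.Agent.RCG

namespace Pool.Agent.RCL

variable {F : Type*} [Field F] [Fintype F] {n : ℕ}

/-- Bad vectors. -/
def Bad (L : List (Bool × SLn F n)) (y : SLn F n) (v : Fin n → F) : Prop :=
  v = 0 ∨ Dep y L ⊥ v

open Classical in
theorem one_vec {k c : ℕ} (hc : c + 2 ≤ n) {φ : SLn F n → ℝ} (hφ : ∀ y, 0 ≤ φ y) {B : ℝ}
    (L : List (Bool × SLn F n)) (hL : L.IsChain (Adm k))
    (D : Submodule F (Fin n → F)) (y0 : SLn F n)
    (hB : ∀ (D' : Submodule F (Fin n → F)) (y' : SLn F n),
      Module.finrank F D' ≤ Module.finrank F D + L.length → cE D' y' φ ≤ B)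
    (hdim : Module.finrank F D + 2 * L.length ≤ c) :
    ∑ v : Fin n → F, cE D y0 (fun y => if Bad L y v then φ y else 0) ≤
      (L.length + 1) * (2 * (Fintype.card F : ℝ) ^ (k + 2 + c)) * B := by
  have hq1 : (1 : ℝ) ≤ Fintype.card F := by
    exact_mod_cast (Fintype.one_lt_card (α := F)).le
  have hq0 : (0 : ℝ) < Fintype.card F := by linarith
  have hB0 : 0 ≤ B := by
    refine le_trans ?_ (hB D y0 (by omega))
    have := cE_mono (D := D) (y0 := y0) (φ := fun _ => (0 : ℝ)) (φ' := φ) (fun y _ => hφ y)
    rwa [cE_const] at this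
  -- the known subspace for the first query
  obtain ⟨S, hS, hSdim⟩ : ∃ S : Submodule F (Fin n → F),
      (∀ p ∈ L.head?, side p.1 y0 D ≤ S) ∧ Module.finrank F S ≤ Module.finrank F D := by
    cases L with
    | nil => exact ⟨D, by simp, le_rfl⟩
    | cons p L =>
      refine ⟨side p.1 y0 D, ?_, ?_⟩
      · intro p' hp'
        have : p' = p := by simpa using hp'.symm
        rw [this]
      · have h : side p.1 y0 D = D ∨ side p.1 y0 D = mv y0 D := by
          unfold side
          split_ifs
          · exact Or.inl rfl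
          · exact Or.inr rfl
        rcases h with h | h
        · rw [h]
        · rw [h, finrank_mv]
  set β : ℝ := L.length * (2 * (Fintype.card F : ℝ) ^ (k + 2 + c) /
    (Fintype.card F : ℝ) ^ n) * B with hβ
  have hβ0 : 0 ≤ β := by positivity
  have hterm : ∀ v : Fin n → F, cE D y0 (fun y => if Bad L y v then φ y else 0) ≤
      (if v ∈ S then B else 0) + β := by
    intro v
    by_cases hv : v ∈ S
    · rw [if_pos hv]
      have h1 : cE D y0 (fun y => if Bad L y v then φ y else 0) ≤ cE D y0 φ := by
        apply cE_mono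
        intro y _
        split_ifs
        · exact le_rfl
        · exact hφ y
      have h2 := hB D y0 (by omega)
      linarith
    · rw [if_neg hv, zero_add]
      have hv0 : v ≠ 0 := fun h => hv (by rw [h]; exact S.zero_mem)
      have h1 : cE D y0 (fun y => if Bad L y v then φ y else 0) =
          cE D y0 (fun y => if Dep y L ⊥ v then φ y else 0) := by
        apply cE_congr
        intro y _
        have h2 : Bad L y v ↔ Dep y L ⊥ v :=
          ⟨fun h => h.resolve_left hv0, fun h => Or.inr h⟩
        by_cases h3 : Dep y L ⊥ v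
        · rw [if_pos h3, if_pos (h2.2 h3)]
        · rw [if_neg h3, if_neg (fun h => h3 (h2.1 h))]
      rw [h1]
      refine explore hc hφ L hL D ⊥ y0 v ?_ hB ?_
      · intro p hp h
        rw [sup_bot_eq] at h
        exact hv (hS p hp h)
      · rw [finrank_bot]
        omega
  refine (Finset.sum_le_sum fun v _ => hterm v).trans ?_
  rw [Finset.sum_add_distrib, Finset.sum_const, Finset.card_univ, nsmul_eq_mul]
  have hcard : (Fintype.card (Fin n → F) : ℝ) = (Fintype.card F : ℝ) ^ n := by
    rw [Fintype.card_fun, Fintype.card_fin]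
    push_cast
    rfl
  have hsum : (∑ v : Fin n → F, if v ∈ S then B else 0) ≤
      (Fintype.card F : ℝ) ^ (k + 2 + c) * B := by
    rw [← Finset.sum_filter, Finset.sum_const, nsmul_eq_mul]
    apply mul_le_mul_of_nonneg_right _ hB0
    have h1 := card_sub S
    rw [Nat.card_eq_fintype_card] at h1
    have h2 : (Finset.univ.filter fun v : Fin n → F => v ∈ S).card = Fintype.card S := by
      rw [Fintype.card_subtype]
    rw [h2, h1]
    push_cast
    exact pow_le_pow_right₀ hq1 (by omega)
  have hβ2 : (Fintype.card F : ℝ) ^ n * β =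
      L.length * (2 * (Fintype.card F : ℝ) ^ (k + 2 + c)) * B := by
    rw [hβ]
    field_simp
  rw [hcard, hβ2]
  have hpos : 0 ≤ (Fintype.card F : ℝ) ^ (k + 2 + c) * B := by positivity
  have e : ((L.length : ℝ) + 1) * (2 * (Fintype.card F : ℝ) ^ (k + 2 + c)) * B =
      L.length * (2 * (Fintype.card F : ℝ) ^ (k + 2 + c)) * B +
        2 * ((Fintype.card F : ℝ) ^ (k + 2 + c) * B) := by ring
  rw [e]
  linarith

theorem moment {k c : ℕ} (hc : c + 2 ≤ n) (L : List (Bool × SLn F n)) (hL : L.IsChain (Adm k))
    (M : ℕ) (D : Submodule F (Fin n → F)) (y0 : SLn F n)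
    (hdim : Module.finrank F D + (M + 1) * L.length ≤ c) :
    cE D y0 (fun y => (Nat.card {v : Fin n → F // Bad L y v} : ℝ) ^ M) ≤
      ((L.length + 1) * (2 * (Fintype.card F : ℝ) ^ (k + 2 + c))) ^ M := by
  classical
  induction M generalizing D y0 with
  | zero =>
    simp only [pow_zero]
    rw [cE_const]
  | succ M ih =>
    have h1 : cE D y0 (fun y => (Nat.card {v : Fin n → F // Bad L y v} : ℝ) ^ (M + 1)) =
        ∑ v : Fin n → F, cE D y0 (fun y =>
          if Bad L y v then (Nat.card {v : Fin n → F // Bad L y v} : ℝ) ^ M else 0) := by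
      rw [← cE_sum Finset.univ D y0 (fun v y =>
          if Bad L y v then (Nat.card {v : Fin n → F // Bad L y v} : ℝ) ^ M else 0)]
      apply cE_congr
      intro y _
      rw [← Finset.sum_filter, Finset.sum_const, nsmul_eq_mul, pow_succ, mul_comm]
      congr 1
      rw [Nat.card_eq_fintype_card, Fintype.card_subtype]
    rw [h1]
    have hB : ∀ (D' : Submodule F (Fin n → F)) (y' : SLn F n),
        Module.finrank F D' ≤ Module.finrank F D + L.length →
        cE D' y' (fun y => (Nat.card {v : Fin n → F // Bad L y v} : ℝ) ^ M) ≤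
          ((L.length + 1) * (2 * (Fintype.card F : ℝ) ^ (k + 2 + c))) ^ M := by
      intro D' y' hD'
      refine ih D' y' ?_
      have e : (M + 1 + 1) * L.length = (M + 1) * L.length + L.length := by ring
      rw [e] at hdim
      omega
    have h2 := one_vec hc (φ := fun y => (Nat.card {v : Fin n → F // Bad L y v} : ℝ) ^ M)
      (fun y => by positivity) L hL D y0 hB (by
        have e : (M + 1 + 1) * L.length = M * L.length + 2 * L.length := by ring
        rw [e] at hdim
        omega)
    rw [pow_succ, mul_comm]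
    exact h2

end Pool.Agent.RCL
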