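import Pool.Agent.W_6acff7c_h33.TrvA
import Pool.Agent.W_6acff7c_h33.CE
import Pool.Agent.W_MP_6acff7_h70.Basic

/-!
# Near-orthogonality of vectors fixed by pointwise stabilisers

The analogue for `A n` is `Pool/Agent/W_MP_6acff7_h70/NearOrth.lean`; adapt its proof.
PROOF of `near_orthL`, induction on `i`, for all `B'`, `f'`.  Put `q = |F|`, `η = (q ^ (n - 2 b))⁻¹`.
`i = 0`: Cauchy-Schwarz.
`i ≥ 1`: `dim (B ⊓ B') = b - i` (`Submodule.finrank_sup_add_finrank_inf_eq`), so there is `B''` with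
`B ⊓ B' ≤ B'' ≤ B'`, `dim B'' = b - 1` and `r ∈ B' \ B''` with `B' = B'' ⊔ span {r}` (a hyperplane of `B'`
containing the proper subspace `B ⊓ B'`).  For `r' ∉ B''` choose `h_{r'} ∈ PS B''` with `h_{r'} r = r'`
(`exists_moveL`, `dim B'' + 2 ≤ n`) and put `f'_{r'} = ρ h_{r'} f'`.
(1) if `h, h' ∈ PS B''` map `r` to the same vector, then `h⁻¹ h' ∈ PS B'`, so `ρ h f' = ρ h' f'`.
(2) `Σ = ∑_{r' ∉ B''} f'_{r'} ∈ W` is fixed by `PS B''` (for `k` in it `ρ k f'_{r'} = f'_{k r'}` by (1),
    reindex by `k`), so `Σ = 0` by `hlev`.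
(3) `dim (B ⊔ B'') = b + i - 1` (as `B ⊓ B'' = B ⊓ B'`), and `r ∉ B ⊔ B''` (else `B ⊔ B' = B ⊔ B''`).
    For `r' ∉ B ⊔ B''` there is `h ∈ PS (B ⊔ B'')` with `h r = r'` (`exists_moveL`,
    `b + i - 1 + 2 ≤ 2 b + 1 ≤ n`), so by (1) `⟪f, f'_{r'}⟫ = ⟪f, ρ h f'⟫ = ⟪ρ h⁻¹ f, f'⟫ = ⟪f, f'⟫`.
(4) for `r' ∈ (B ⊔ B'') \ B''` the vector `f'_{r'}` is fixed by `PS (B'' ⊔ span {r'})`,
    `dim (B'' ⊔ span {r'}) = b`, `dim (B ⊔ (B'' ⊔ span {r'})) = b + (i - 1)`, so by induction
    `|⟪f, f'_{r'}⟫| ≤ η ^ (i - 1) ‖f‖ ‖f'‖` (`‖f'_{r'}‖ = ‖f'‖`).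
    From `0 = ⟪f, Σ⟫`: `(q ^ n - q ^ (b + i - 1)) |⟪f, f'⟫| ≤ (q ^ (b + i - 1) - q ^ (b - 1)) η ^ (i - 1) ‖f‖ ‖f'‖`,
    and `q ^ (b + i - 1) ≤ η (q ^ n - q ^ (b + i - 1))` because `i ≤ b` and `2 b ≤ n`, `q ≥ 2`:
    `η q ^ n = q ^ (2 b)`, `q ^ (b + i - 1) ≤ q ^ (2 b - 1)`, `η ≤ 1`, `2 q ^ (2 b - 1) ≤ q ^ (2 b)`.
-/

open Finset Pool.Agent.RCG

namespace Pool.Agent.RCL

variable {F : Type*} [Field F] [Fintype F] {n : ℕ}
variable {E : Type*} [NormedAddCommGroup E] [InnerProductSpace ℝ E] {ρ : SLn F n →* Module.End ℝ E}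

/-- `ρ v f` is fixed by the stabiliser of `mv v B` if `f` is fixed by the stabiliser of `B`. -/
theorem fixL_mv {B : Submodule F (Fin n → F)} {f : E} (hf : FixL ρ B f) (v : SLn F n) :
    FixL ρ (mv v B) (ρ v f) := by
  intro g hg
  have h1 : v⁻¹ * g * v ∈ PS B := by
    apply (conj_mem_PS v (v⁻¹ * g * v) B).1
    have h3 : v * (v⁻¹ * g * v) * v⁻¹ = g := by group
    rw [h3]
    exact hg
  have h4 := hf _ h1
  have h5 : ρ g (ρ v f) = ρ v (ρ (v⁻¹ * g * v) f) := by
    rw [← Module.End.mul_apply, ← Module.End.mul_apply, ← map_mul, ← map_mul]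
    have h6 : g * v = v * (v⁻¹ * g * v) := by group
    rw [← h6]
  rw [h5, h4]

omit [Fintype F] in
private theorem NearOrthL_finrank_add {D : Submodule F (Fin n → F)} {x : Fin n → F} (hx : x ∉ D) :
    Module.finrank F ↥(D ⊔ Submodule.span F {x}) = Module.finrank F D + 1 := by
  have hx0 : x ≠ 0 := fun h => hx (h ▸ D.zero_mem)
  have h1 := Submodule.finrank_sup_add_finrank_inf_eq D (Submodule.span F {x})
  have h2 : D ⊓ Submodule.span F {x} = ⊥ := by
    rw [← disjoint_iff, Submodule.disjoint_span_singleton' hx0]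
    exact hx
  rw [h2, finrank_bot, finrank_span_singleton hx0] at h1
  simpa using h1

omit [Fintype F] in
private theorem NearOrthL_hyper (B B' : Submodule F (Fin n → F)) (h : ¬ B' ≤ B) :
    ∃ (B'' : Submodule F (Fin n → F)) (r : Fin n → F), B ⊓ B' ≤ B'' ∧ B'' ≤ B' ∧ r ∈ B' ∧
      r ∉ B'' ∧ B'' ⊔ Submodule.span F {r} = B' := by
  obtain ⟨r, hr, hrB⟩ := SetLike.not_le_iff_exists.1 h
  obtain ⟨ψ, hψ, hψ'⟩ := Submodule.exists_le_ker_of_notMem hrB
  refine ⟨B' ⊓ LinearMap.ker ψ, r, ?_, inf_le_left, hr, ?_, ?_⟩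
  · exact le_inf inf_le_right (inf_le_left.trans hψ')
  · rw [Submodule.mem_inf, LinearMap.mem_ker]
    exact fun h => hψ h.2
  · apply le_antisymm
    · exact sup_le inf_le_left ((Submodule.span_singleton_le_iff_mem _ _).2 hr)
    · intro x hx
      have h1 : x = (x - (ψ x / ψ r) • r) + (ψ x / ψ r) • r := by simp
      rw [h1]
      refine Submodule.add_mem_sup ?_ (Submodule.smul_mem _ _ (Submodule.mem_span_singleton_self r))
      rw [Submodule.mem_inf, LinearMap.mem_ker]
      refine ⟨B'.sub_mem hx (B'.smul_mem _ hr), ?_⟩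
      rw [map_sub, map_smul, smul_eq_mul, div_mul_cancel₀ _ hψ, sub_self]

open Classical in
private theorem NearOrthL_card (D : Submodule F (Fin n → F)) :
    ((univ : Finset (Fin n → F)).filter fun x => x ∈ D).card =
      Fintype.card F ^ Module.finrank F D := by
  rw [← Module.card_eq_pow_finrank (K := F) (V := D), Fintype.card_subtype]

/-- The numerical step: `q ^ (b + i) - q ^ (b - 1) ≤ η (q ^ n - q ^ (b + i))`. -/
private theorem NearOrthL_num {q b c i n : ℕ} (hq : 2 ≤ q) (hc : c + 1 = b) (hib : i + 1 ≤ b)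
    (hn : 2 * b + 1 ≤ n) :
    (q : ℝ) ^ (b + i) - (q : ℝ) ^ c ≤
      ((q : ℝ) ^ (n - 2 * b))⁻¹ * ((q : ℝ) ^ n - (q : ℝ) ^ (b + i)) := by
  have hq' : (2 : ℝ) ≤ q := by exact_mod_cast hq
  have hq1 : (1 : ℝ) ≤ q := by linarith
  have h1 : ((q : ℝ) ^ (n - 2 * b))⁻¹ * (q : ℝ) ^ n = (q : ℝ) ^ (2 * b) := by
    have h2 : (q : ℝ) ^ n = (q : ℝ) ^ (n - 2 * b) * (q : ℝ) ^ (2 * b) := by
      rw [← pow_add]
      congr 1
      omega
    rw [h2, ← mul_assoc, inv_mul_cancel₀ (by positivity), one_mul]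
  have h3 : (q : ℝ) ^ (b + i) ≤ (q : ℝ) ^ (2 * b - 1) := pow_le_pow_right₀ hq1 (by omega)
  have h4 : 2 * (q : ℝ) ^ (2 * b - 1) ≤ (q : ℝ) ^ (2 * b) := by
    have h5 : (q : ℝ) ^ (2 * b) = q * (q : ℝ) ^ (2 * b - 1) := by
      rw [← pow_succ']
      congr 1
      omega
    rw [h5]
    exact mul_le_mul_of_nonneg_right hq' (by positivity)
  have h6 : ((q : ℝ) ^ (n - 2 * b))⁻¹ ≤ 1 := inv_le_one_of_one_le₀ (one_le_pow₀ hq1)
  have h7 : ((q : ℝ) ^ (n - 2 * b))⁻¹ * (q : ℝ) ^ (b + i) ≤ (q : ℝ) ^ (b + i) := by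
    have := mul_le_mul_of_nonneg_right h6 (show (0 : ℝ) ≤ (q : ℝ) ^ (b + i) by positivity)
    linarith
  have h8 : (0 : ℝ) ≤ (q : ℝ) ^ c := by positivity
  rw [mul_sub, h1]
  linarith

theorem near_orthL (hρ : Orth ρ) (W : Submodule ℝ E) (hW : ∀ g : SLn F n, ∀ u ∈ W, ρ g u ∈ W)
    {b : ℕ} (hn : 2 * b + 1 ≤ n)
    (hlev : ∀ B : Submodule F (Fin n → F), Module.finrank F B + 1 = b → ∀ u ∈ W, FixL ρ B u → u = 0)
    (i : ℕ) (B B' : Submodule F (Fin n → F)) (hB : Module.finrank F B = b)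
    (hB' : Module.finrank F B' = b) (hi : Module.finrank F ↥(B ⊔ B') = b + i)
    (f f' : E) (hf : FixL ρ B f) (hf' : FixL ρ B' f') (hf'W : f' ∈ W) :
    |inner ℝ f f'| ≤ (((Fintype.card F : ℝ) ^ (n - 2 * b))⁻¹) ^ i * (‖f‖ * ‖f'‖) := by
  classical
  induction i generalizing B' f' with
  | zero => simpa using abs_real_inner_le_norm f f'
  | succ i ih =>
    have hinf := Submodule.finrank_sup_add_finrank_inf_eq B B'
    have hib : i + 1 ≤ b := by omega
    have hnle : ¬ B' ≤ B := by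
      intro h
      rw [sup_eq_left.2 h] at hi
      omega
    obtain ⟨B'', r, hB1, hB2, hrB', hrB'', hspan⟩ := NearOrthL_hyper B B' hnle
    have hcB'' : Module.finrank F B'' + 1 = b := by
      rw [← NearOrthL_finrank_add hrB'', hspan, hB']
    have hinf' : B ⊓ B'' = B ⊓ B' :=
      le_antisymm (inf_le_inf_left _ hB2) (le_inf inf_le_left hB1)
    have hcun : Module.finrank F ↥(B ⊔ B'') = b + i := by
      have h1 := Submodule.finrank_sup_add_finrank_inf_eq B B''
      rw [hinf'] at h1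
      omega
    have hrU : r ∉ B ⊔ B'' := by
      intro h
      have h1 : B' ≤ B ⊔ B'' := by
        rw [← hspan]
        exact sup_le le_sup_right ((Submodule.span_singleton_le_iff_mem _ _).2 h)
      have h2 : B ⊔ B' ≤ B ⊔ B'' := sup_le le_sup_left h1
      have h3 := Submodule.finrank_mono h2
      omega
    -- the moves
    have hmv : ∀ x : Fin n → F, ∃ h : SLn F n, x ∉ B'' → (h ∈ PS B'') ∧ h.1 r = x := by
      intro x
      by_cases hx : x ∈ B''
      · exact ⟨1, fun h => absurd hx h⟩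
      · obtain ⟨h, hh⟩ := exists_moveL B'' (by omega) hrB'' hx
        exact ⟨h, fun _ => hh⟩
    choose H hH using hmv
    have key : ∀ (h h' : SLn F n), h ∈ PS B'' → h' ∈ PS B'' → h.1 r = h'.1 r →
        ρ h f' = ρ h' f' := by
      intro h h' h1 h2 h3
      have h4 : ρ (h⁻¹ * h') f' = f' := by
        apply hf'
        intro p hp
        rw [← hspan] at hp
        obtain ⟨y, hy, z, hz, rfl⟩ := Submodule.mem_sup.1 hp
        obtain ⟨c, rfl⟩ := Submodule.mem_span_singleton.1 hz
        have h5 : (h⁻¹ * h').1 y = y := (PS B'').mul_mem ((PS B'').inv_mem h1) h2 y hy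
        have h6 : (h⁻¹ * h').1 r = r := by
          change h.1.symm (h'.1 r) = r
          rw [← h3, LinearEquiv.symm_apply_apply]
        rw [map_add, map_smul, h5, h6]
      have h6 : ρ h (ρ (h⁻¹ * h') f') = ρ h' f' := by
        rw [← Module.End.mul_apply, ← map_mul]
        simp
      rw [h4] at h6
      exact h6
    have hkv : ∀ (k : SLn F n), k ∈ PS B'' → ∀ x ∉ B'',
        k.1 x ∉ B'' ∧ ρ k (ρ (H x) f') = ρ (H (k.1 x)) f' := by
      intro k hk x hx
      have h1 : k.1 x ∉ B'' := by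
        intro hcon
        have h2 := hk _ hcon
        have h3 : k.1 x = x := k.1.injective h2
        rw [h3] at hcon
        exact hx hcon
      refine ⟨h1, ?_⟩
      rw [← Module.End.mul_apply, ← map_mul]
      apply key
      · exact (PS B'').mul_mem hk (hH x hx).1
      · exact (hH _ h1).1
      · change k.1 ((H x).1 r) = (H (k.1 x)).1 r
        rw [(hH x hx).2, (hH _ h1).2]
    -- the sum vanishes
    have hsum : ∑ x ∈ (univ : Finset (Fin n → F)).filter (fun x => x ∉ B''), ρ (H x) f' = 0 := by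
      apply hlev B'' hcB''
      · exact Submodule.sum_mem _ fun x _ => hW _ _ hf'W
      · intro k hk
        rw [map_sum]
        refine Finset.sum_equiv k.1.toEquiv ?_ ?_
        · intro x
          rw [Finset.mem_filter, Finset.mem_filter]
          constructor
          · intro hx
            exact ⟨Finset.mem_univ _, (hkv k hk x hx.2).1⟩
          · intro hx
            refine ⟨Finset.mem_univ _, fun hcon => hx.2 ?_⟩
            have h1 : k.1.toEquiv x = x := hk x hcon
            rw [h1]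
            exact hcon
        · intro x hx
          exact (hkv k hk x (Finset.mem_filter.1 hx).2).2
    -- the generic terms
    have hgen : ∀ x ∈ (univ : Finset (Fin n → F)).filter (fun x => x ∉ B ⊔ B''),
        inner ℝ f (ρ (H x) f') = inner ℝ f f' := by
      intro x hx
      have hxU := (Finset.mem_filter.1 hx).2
      have hx'' : x ∉ B'' := fun h => hxU (Submodule.mem_sup_right h)
      obtain ⟨h, hh1, hh2⟩ := exists_moveL (B ⊔ B'') (by omega) hrU hxU
      have h1 : ρ (H x) f' = ρ h f' := by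
        apply key
        · exact (hH x hx'').1
        · exact PS_mono le_sup_right hh1
        · rw [(hH x hx'').2, hh2]
      have h2 : ρ h f = f := hf h (PS_mono le_sup_left hh1)
      rw [h1]
      conv_lhs => rw [← h2]
      exact hρ h f f'
    -- the remaining terms
    have hrem : ∀ x ∈ (univ : Finset (Fin n → F)).filter (fun x => x ∈ B ⊔ B'' ∧ x ∉ B''),
        |inner ℝ f (ρ (H x) f')| ≤
          (((Fintype.card F : ℝ) ^ (n - 2 * b))⁻¹) ^ i * (‖f‖ * ‖f'‖) := by
      intro x hx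
      obtain ⟨-, hxU, hx''⟩ := Finset.mem_filter.1 hx
      have hd : Module.finrank F ↥(B'' ⊔ Submodule.span F {x}) = b := by
        rw [NearOrthL_finrank_add hx'', hcB'']
      have hs : B ⊔ (B'' ⊔ Submodule.span F {x}) = B ⊔ B'' := by
        rw [← sup_assoc]
        exact sup_eq_left.2 ((Submodule.span_singleton_le_iff_mem _ _).2 hxU)
      have h1 := ih (B'' ⊔ Submodule.span F {x}) hd (by rw [hs, hcun]) (ρ (H x) f') ?_
        (hW _ _ hf'W)
      · rwa [hρ.norm_map] at h1
      · intro k hk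
        have h2 := (hkv k (PS_mono le_sup_left hk) x hx'').2
        have h3 : k.1 x = x := hk x (Submodule.mem_sup_right (Submodule.mem_span_singleton_self x))
        rw [h3] at h2
        exact h2
    -- splitting
    have hsplit : (univ : Finset (Fin n → F)).filter (fun x => x ∉ B'') =
        (univ : Finset (Fin n → F)).filter (fun x => x ∉ B ⊔ B'') ∪
          (univ : Finset (Fin n → F)).filter (fun x => x ∈ B ⊔ B'' ∧ x ∉ B'') := by
      ext x
      simp only [Finset.mem_filter, Finset.mem_union, Finset.mem_univ, true_and]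
      constructor
      · intro hx
        by_cases h : x ∈ B ⊔ B''
        · exact Or.inr ⟨h, hx⟩
        · exact Or.inl h
      · rintro (hx | hx)
        · exact fun h => hx (Submodule.mem_sup_right h)
        · exact hx.2
    have hdisj : Disjoint ((univ : Finset (Fin n → F)).filter (fun x => x ∉ B ⊔ B''))
        ((univ : Finset (Fin n → F)).filter (fun x => x ∈ B ⊔ B'' ∧ x ∉ B'')) := by
      rw [Finset.disjoint_left]
      intro x hx hx'
      exact (Finset.mem_filter.1 hx).2 (Finset.mem_filter.1 hx').2.1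
    have hzero : ((((univ : Finset (Fin n → F)).filter (fun x => x ∉ B ⊔ B'')).card : ℕ) : ℝ) *
        inner ℝ f f' +
        ∑ x ∈ (univ : Finset (Fin n → F)).filter (fun x => x ∈ B ⊔ B'' ∧ x ∉ B''),
          inner ℝ f (ρ (H x) f') = 0 := by
      have h1 : inner ℝ f (∑ x ∈ (univ : Finset (Fin n → F)).filter (fun x => x ∉ B''),
          ρ (H x) f') = (0 : ℝ) := by
        rw [hsum, inner_zero_right]
      rw [inner_sum, hsplit, Finset.sum_union hdisj, Finset.sum_congr rfl hgen,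
        Finset.sum_const, nsmul_eq_mul] at h1
      exact h1
    have hcU := NearOrthL_card (B ⊔ B'')
    have hcD := NearOrthL_card B''
    rw [hcun] at hcU
    have hcard1 : ((((univ : Finset (Fin n → F)).filter (fun x => x ∉ B ⊔ B'')).card : ℕ) : ℝ) =
        (Fintype.card F : ℝ) ^ n - (Fintype.card F : ℝ) ^ (b + i) := by
      have h1 := Finset.card_filter_add_card_filter_not (s := (univ : Finset (Fin n → F)))
        (fun x => x ∈ B ⊔ B'')
      rw [Finset.card_univ, Fintype.card_fun, Fintype.card_fin, hcU] at h1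
      have h2 : ((Fintype.card F ^ (b + i) +
        ((univ : Finset (Fin n → F)).filter (fun x => x ∉ B ⊔ B'')).card : ℕ) : ℝ) =
          ((Fintype.card F ^ n : ℕ) : ℝ) := by exact_mod_cast h1
      push_cast at h2
      linarith
    have hcard2 : ((((univ : Finset (Fin n → F)).filter
        (fun x => x ∈ B ⊔ B'' ∧ x ∉ B'')).card : ℕ) : ℝ) =
        (Fintype.card F : ℝ) ^ (b + i) - (Fintype.card F : ℝ) ^ Module.finrank F B'' := by
      have h1 := Finset.card_filter_add_card_filter_not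
        (s := (univ : Finset (Fin n → F)).filter (fun x => x ∈ B ⊔ B'')) (fun x => x ∈ B'')
      rw [Finset.filter_filter, Finset.filter_filter, hcU] at h1
      have h3 : (univ : Finset (Fin n → F)).filter (fun x => x ∈ B ⊔ B'' ∧ x ∈ B'') =
          (univ : Finset (Fin n → F)).filter (fun x => x ∈ B'') := by
        ext x
        simp only [Finset.mem_filter, Finset.mem_univ, true_and]
        exact ⟨fun h => h.2, fun h => ⟨Submodule.mem_sup_right h, h⟩⟩
      rw [h3, hcD] at h1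
      have h2 : ((Fintype.card F ^ Module.finrank F B'' +
        ((univ : Finset (Fin n → F)).filter (fun x => x ∈ B ⊔ B'' ∧ x ∉ B'')).card : ℕ) : ℝ) =
          ((Fintype.card F ^ (b + i) : ℕ) : ℝ) := by exact_mod_cast h1
      push_cast at h2
      linarith
    have hq2 : 2 ≤ Fintype.card F := Fintype.one_lt_card
    have hnum := NearOrthL_num hq2 hcB'' hib hn
    have hq1 : (1 : ℝ) ≤ (Fintype.card F : ℝ) := by exact_mod_cast (by omega : 1 ≤ Fintype.card F)
    have hpos : 0 < (Fintype.card F : ℝ) ^ n - (Fintype.card F : ℝ) ^ (b + i) := by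
      have h1 : (Fintype.card F : ℝ) ^ (b + i) < (Fintype.card F : ℝ) ^ n := by
        apply pow_lt_pow_right₀ _ (by omega)
        exact_mod_cast hq2
      linarith
    set η : ℝ := ((Fintype.card F : ℝ) ^ (n - 2 * b))⁻¹ with hη
    have hη0 : 0 ≤ η := by positivity
    set M : ℝ := η ^ i * (‖f‖ * ‖f'‖) with hM
    have hM0 : 0 ≤ M := by positivity
    have hmain : ((Fintype.card F : ℝ) ^ n - (Fintype.card F : ℝ) ^ (b + i)) * |inner ℝ f f'| ≤
        ((Fintype.card F : ℝ) ^ (b + i) - (Fintype.card F : ℝ) ^ Module.finrank F B'') * M := by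
      have h1 : ((Fintype.card F : ℝ) ^ n - (Fintype.card F : ℝ) ^ (b + i)) * inner ℝ f f' =
          -∑ x ∈ (univ : Finset (Fin n → F)).filter (fun x => x ∈ B ⊔ B'' ∧ x ∉ B''),
            inner ℝ f (ρ (H x) f') := by
        rw [hcard1] at hzero
        linarith
      rw [← abs_of_nonneg hpos.le, ← abs_mul, h1, abs_neg]
      refine (Finset.abs_sum_le_sum_abs _ _).trans ?_
      refine (Finset.sum_le_sum hrem).trans ?_
      rw [Finset.sum_const, nsmul_eq_mul, hcard2]
    have hfin : ((Fintype.card F : ℝ) ^ n - (Fintype.card F : ℝ) ^ (b + i)) * |inner ℝ f f'| ≤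
        ((Fintype.card F : ℝ) ^ n - (Fintype.card F : ℝ) ^ (b + i)) * (η * M) := by
      refine hmain.trans ?_
      refine (mul_le_mul_of_nonneg_right hnum hM0).trans (le_of_eq ?_)
      ring
    have hres := le_of_mul_le_mul_left hfin hpos
    refine hres.trans (le_of_eq ?_)
    rw [hM, pow_succ]
    ring

end Pool.Agent.RCL
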