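import Pool.Agent.W_6acff7c_h33.GoodRun
import Pool.Agent.W_6acff7c_h33.GoodBasic
import Pool.Agent.W_MP_6acff7_h70.Prob

/-!
# The quotient of two words which differ at both ends

PROOF.  Put `d = a⁻¹ * a'`, `e = z' * z⁻¹`, both good.  For
`u = (a y qp m y z)⁻¹ (a' y qp m' y z') = z⁻¹ (qp m y)⁻¹ y⁻¹ d y (qp m' y) z'` we have
`z' u z'⁻¹ = e (qp m y)⁻¹ y⁻¹ d y (qp m' y) =: g y`, and `u` is good iff `g y` is (`good_conj`, both ways).
The element `g y` is run through by the list of steps
`L = (m'.reverse.map (fun c => (true, c))) ++ [(true, d)] ++ (m.map (fun c => (false, c⁻¹))) ++ [(false, e)]`: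
`run y L v = (g y) v` (`run` of an append is the composition; `qp m' y = a'_1 y ⋯ a'_r y` is run through by
`m'.reverse.map (true, ·)`, and `y⁻¹` followed by `(qp m y)⁻¹ = y⁻¹ a_r⁻¹ ⋯ y⁻¹ a_1⁻¹` and `e` is run through
by `(false, a_1⁻¹), ..., (false, a_r⁻¹), (false, e)`; prove both by induction on the lists).
`L ++ L` is a chain for `Adm k` with `k = ⌊κ n⌋`: the sign changes only after `(true, d)` and after
`(false, e)`, and `kdim d μ ≤ k`, `kdim e μ ≤ k` by `good_kdim`.  The length of `L` is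
`m.length + m'.length + 2 ≤ 2 N` (so `N ≥ 1`).  Apply `good_run` (its `h1`, `h2` follow from `h1`, `h2`
here as `L.length ≤ 2 N`), and `32 K L.length ≤ 64 K N`.
-/

open Finset Pool.Agent.RCG

namespace Pool.Agent.RCL

variable {F : Type*} [Field F] [Fintype F] {n : ℕ}

private theorem PairCore_mul (a b : SLn F n) (v : Fin n → F) : (a * b).1 v = a.1 (b.1 v) := rfl

private theorem PairCore_append (y : SLn F n) : ∀ (A B : List (Bool × SLn F n)) (v : Fin n → F),
    run y (A ++ B) v = run y B (run y A v)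
  | [], _, _ => rfl
  | p :: A, B, v => by
      simp only [List.cons_append, run]
      exact PairCore_append y A B _

private theorem PairCore_tr (y : SLn F n) : ∀ (m : List (SLn F n)) (v : Fin n → F),
    run y (m.reverse.map (fun c => (true, c))) v = (qp m y).1 v
  | [], _ => rfl
  | c :: t, v => by
      rw [List.reverse_cons, List.map_append, PairCore_append, PairCore_tr y t v]
      have h : qp (c :: t) y = c * y * qp t y := by simp [qp]
      rw [h]
      rfl

private theorem PairCore_fa (y : SLn F n) : ∀ (m : List (SLn F n)) (v : Fin n → F),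
    (y⁻¹).1 (run y (m.map (fun c => (false, c⁻¹))) v) = ((qp m y)⁻¹ * y⁻¹).1 v
  | [], v => by
      have h : qp ([] : List (SLn F n)) y = 1 := by simp [qp]
      rw [h, inv_one, one_mul]
      rfl
  | c :: t, v => by
      have h : qp (c :: t) y = c * y * qp t y := by simp [qp]
      rw [List.map_cons, run, PairCore_fa y t, h]
      have h2 : (c * y * qp t y)⁻¹ * y⁻¹ = ((qp t y)⁻¹ * y⁻¹) * (c⁻¹ * y⁻¹) := by group
      rw [h2]
      rfl

private theorem PairCore_same {k : ℕ} (b : Bool) : ∀ (A : List (Bool × SLn F n)),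
    (∀ p ∈ A, p.1 = b) → A.IsChain (Adm k)
  | [], _ => List.IsChain.nil
  | [_], _ => List.IsChain.singleton _
  | p :: p' :: A, h => by
      refine List.IsChain.cons_cons ?_ (PairCore_same b (p' :: A) fun x hx => h x (by simp [hx]))
      intro hne
      exact absurd ((h p (by simp)).trans (h p' (by simp)).symm) hne

theorem pair_core {K : ℕ} (hK : 1 ≤ K) {κ Δ : ℝ} (hκ : 0 ≤ κ) (hΔ : 0 < Δ) (hΔ1 : Δ ≤ 1) {N : ℕ}
    (m m' : List (SLn F n)) (a a' z z' : SLn F n) (hm : m.length + 1 ≤ N) (hm' : m'.length + 1 ≤ N)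
    (ha : Good K κ (a⁻¹ * a')) (hz : Good K κ (z' * z⁻¹))
    (h1 : 32 * (K * N : ℝ) ≤ Δ * n)
    (h2 : 2 * (2 * (K * N) + 1 : ℝ) * (Fintype.card F : ℝ) ^ 2 ≤ (Fintype.card F : ℝ) ^ (Δ * n / 4)) :
    pr (fun y => ¬ Good K (κ + Δ) ((a * y * qp m y * z)⁻¹ * (a' * y * qp m' y * z'))) ≤
      Real.exp (-(Δ ^ 2 * (n ^ 2 * Real.log (Fintype.card F)) / (64 * (K * N)))) := by
  set d : SLn F n := a⁻¹ * a' with hd
  set e : SLn F n := z' * z⁻¹ with he
  set k : ℕ := ⌊κ * n⌋₊ with hkdef
  have hκn : 0 ≤ κ * n := mul_nonneg hκ (Nat.cast_nonneg n)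
  have hk : (k : ℝ) ≤ κ * n := Nat.floor_le hκn
  have hkd : ∀ μ : F, kdim d μ ≤ k := fun μ => Nat.le_floor (good_kdim hK ha μ)
  have hke : ∀ μ : F, kdim e μ ≤ k := fun μ => Nat.le_floor (good_kdim hK hz μ)
  set T : List (Bool × SLn F n) := m'.reverse.map (fun c => (true, c)) ++ [(true, d)] with hT
  set B : List (Bool × SLn F n) := m.map (fun c => (false, c⁻¹)) ++ [(false, e)] with hB
  have hTc : T.IsChain (Adm k) := PairCore_same true T (by
    intro p hp
    rw [hT, List.mem_append] at hp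
    rcases hp with hp | hp
    · obtain ⟨c, _, rfl⟩ := List.mem_map.1 hp
      rfl
    · rw [List.mem_singleton.1 hp])
  have hBc : B.IsChain (Adm k) := PairCore_same false B (by
    intro p hp
    rw [hB, List.mem_append] at hp
    rcases hp with hp | hp
    · obtain ⟨c, _, rfl⟩ := List.mem_map.1 hp
      rfl
    · rw [List.mem_singleton.1 hp])
  have hTl : T.getLast? = some (true, d) := by rw [hT]; simp
  have hBl : B.getLast? = some (false, e) := by rw [hB]; simp
  have hLc : (T ++ B).IsChain (Adm k) := by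
    rw [List.isChain_append]
    refine ⟨hTc, hBc, ?_⟩
    intro x hx y _ _ μ
    rw [hTl] at hx
    have hx2 : x = (true, d) := by simpa using hx.symm
    rw [hx2]
    exact hkd μ
  have hLLc : ((T ++ B) ++ (T ++ B)).IsChain (Adm k) := by
    rw [List.isChain_append]
    refine ⟨hLc, hLc, ?_⟩
    intro x hx y _ _ μ
    have hl : (T ++ B).getLast? = some (false, e) := by
      rw [hB, ← List.append_assoc]
      simp
    rw [hl] at hx
    have hx2 : x = (false, e) := by simpa using hx.symm
    rw [hx2]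
    exact hke μ
  have hL0 : T ++ B ≠ [] := by
    rw [hT]
    simp
  have hlen : (T ++ B).length ≤ 2 * N := by
    rw [hT, hB]
    simp only [List.length_append, List.length_map, List.length_reverse, List.length_singleton]
    omega
  have hlen0 : 1 ≤ (T ++ B).length := List.length_pos_iff.2 hL0
  have hlenR : ((T ++ B).length : ℝ) ≤ 2 * N := by exact_mod_cast hlen
  have hlen0R : (1 : ℝ) ≤ ((T ++ B).length : ℝ) := by exact_mod_cast hlen0
  have hK0 : (1 : ℝ) ≤ (K : ℝ) := by exact_mod_cast hK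
  have hKl : (K : ℝ) * ((T ++ B).length : ℝ) ≤ 2 * (K * N) := by nlinarith
  have hKl0 : (1 : ℝ) ≤ (K : ℝ) * ((T ++ B).length : ℝ) := by nlinarith
  set g : SLn F n → SLn F n := fun y => e * ((qp m y)⁻¹ * y⁻¹) * (d * y) * qp m' y with hg
  have hrun : ∀ y v, run y (T ++ B) v = (g y).1 v := by
    intro y v
    rw [PairCore_append, hT, hB, PairCore_append, PairCore_append, PairCore_tr]
    simp only [run, act]
    have h3 := PairCore_fa y m (d.1 (y.1 ((qp m' y).1 v)))
    simp only [if_true, Bool.false_eq_true, if_false]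
    rw [h3]
    rfl
  have hq1 : (1 : ℝ) ≤ (Fintype.card F : ℝ) := by
    exact_mod_cast (Fintype.card_pos : 0 < Fintype.card F)
  have hmain := good_run (F := F) (n := n) hK hΔ hΔ1 hk (T ++ B) hL0 hLLc g hrun
    (by nlinarith)
    (by
      refine le_trans ?_ h2
      have : (0 : ℝ) ≤ (Fintype.card F : ℝ) ^ 2 := by positivity
      refine mul_le_mul_of_nonneg_right ?_ this
      linarith)
  refine le_trans (pr_mono ?_) (le_trans hmain ?_)
  · intro y hy hgood
    apply hy
    have h4 := good_conj hgood z'⁻¹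
    have h5 : z'⁻¹ * g y * (z'⁻¹)⁻¹ = (a * y * qp m y * z)⁻¹ * (a' * y * qp m' y * z') := by
      rw [hg, hd, he]
      group
    rwa [h5] at h4
  · apply Real.exp_le_exp.2
    rw [neg_le_neg_iff]
    have hlog : 0 ≤ Real.log (Fintype.card F : ℝ) := Real.log_nonneg hq1
    have hnum : 0 ≤ Δ ^ 2 * (n ^ 2 * Real.log (Fintype.card F)) := by positivity
    exact div_le_div_of_nonneg_left hnum (by linarith) (by linarith)

end Pool.Agent.RCL
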