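import Pool.Agent.W_6acff7c_h33.Defs

/-!
# Comparing two words: cancellation of common ends

`qp A y = (a_1 y) (a_2 y) ⋯ (a_r y)`.

PROOF of `strip`: induction on `A`, `A'` from the left.
* `A = A' = []`: then `x ≠ x'`, so `P (x⁻¹ * x')`, first alternative with `d = x⁻¹ * x'`, `h = 1`.
* `A = a :: A1`, `A' = a :: A1'` (same first letter): `(a * y * r)⁻¹ * (a * y * r') = r⁻¹ * r'`, induction.
* `A = a :: A1`, `A' = a' :: A1'`, `a ≠ a'`, so `P (a⁻¹ * a')`.  If `x ≠ x'`: second alternative with
  `m = A1`, `m' = A1'`, `z = x`, `z' = x'`, `h = 1`; `P (x' * x⁻¹)` follows from `P (x⁻¹ * x')` by conjugation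
  with `x`.  If `x = x'` and `A1 = A1'`: the quotient is `(y r)⁻¹ (a⁻¹ a') (y r)`, first alternative.
  If `x = x'` and `A1 ≠ A1'`: write `A1 = m ++ z :: R`, `A1' = m' ++ z' :: R` with `z ≠ z'`, so
  `P (z⁻¹ * z')` (last position where the lists, which have the same length, differ: induction from the
  right, `List.reverseRecOn`); `qp A1 y * x = qp m y * z * (y * qp R y * x)`, so the quotient is the
  conjugate by `(y * qp R y * x)⁻¹` of `(a y qp m y z)⁻¹ (a' y qp m' y z')`.
It may be convenient to prove first the lemma about the last difference: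
for lists `A, A'` related by `Forall₂` either `A = A'` or there are `m, m', z, z', R` with
`A = m ++ z :: R`, `A' = m' ++ z' :: R`, `P (z⁻¹ * z')`, `m.length = m'.length`.
-/

open Finset Pool.Agent.RCG

namespace Pool.Agent.RCL

variable {G : Type*} [Group G]

private theorem Strip_cons (a : G) (A : List G) (y : G) : qp (a :: A) y = a * y * qp A y := by
  simp [qp]

private theorem Strip_append (A B : List G) (y : G) : qp (A ++ B) y = qp A y * qp B y := by
  simp [qp]

/-- the last difference of two lists -/
private theorem Strip_last {P : G → Prop} (A : List G) :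
    ∀ A' : List G, List.Forall₂ (fun a a' => a = a' ∨ P (a⁻¹ * a')) A A' → A = A' ∨
      ∃ (m m' R : List G) (z z' : G), A = m ++ z :: R ∧ A' = m' ++ z' :: R ∧ P (z⁻¹ * z') ∧
        m.length = m'.length := by
  induction A with
  | nil =>
    intro A' h
    left
    cases h
    rfl
  | cons a A1 ih =>
    intro A' h
    cases h with
    | cons h1 h2 =>
      rename_i a' A1'
      rcases ih _ h2 with h3 | ⟨m, m', R, z, z', h4, h5, h6, h7⟩
      · rcases h1 with h1 | h1
        · left
          rw [h1, h3]
        · right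
          exact ⟨[], [], A1, a, a', rfl, by rw [h3]; rfl, h1, rfl⟩
      · right
        refine ⟨a :: m, a' :: m', R, z, z', ?_, ?_, h6, ?_⟩
        · rw [h4]; rfl
        · rw [h5]; rfl
        · simp [h7]

theorem strip {P : G → Prop} (hP : ∀ g h, P g → P (h * g * h⁻¹)) (A A' : List G) (x x' : G)
    (hA : List.Forall₂ (fun a a' => a = a' ∨ P (a⁻¹ * a')) A A') (hx : x = x' ∨ P (x⁻¹ * x'))
    (hne : ¬ (A = A' ∧ x = x')) :
    (∃ d, P d ∧ ∀ y : G, ∃ h, (qp A y * x)⁻¹ * (qp A' y * x') = h * d * h⁻¹) ∨
    ∃ (m m' : List G) (a a' z z' : G), m.length + 1 ≤ A.length ∧ m'.length + 1 ≤ A.length ∧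
      P (a⁻¹ * a') ∧ P (z' * z⁻¹) ∧ ∀ y : G, ∃ h, (qp A y * x)⁻¹ * (qp A' y * x') =
        h * ((a * y * qp m y * z)⁻¹ * (a' * y * qp m' y * z')) * h⁻¹ := by
  have hsw : ∀ z z' : G, P (z⁻¹ * z') → P (z' * z⁻¹) := by
    intro z z' h
    have h1 := hP _ z h
    rwa [mul_inv_cancel_left] at h1
  induction A generalizing A' with
  | nil =>
    cases hA
    left
    have h1 : x ≠ x' := fun h => hne ⟨rfl, h⟩
    refine ⟨x⁻¹ * x', hx.resolve_left h1, fun y => ⟨1, ?_⟩⟩
    simp [qp]
  | cons a A1 ih =>
    cases hA with
    | cons h1 h2 =>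
      rename_i a' A1'
      by_cases haa : a = a'
      · subst haa
        have hne' : ¬ (A1 = A1' ∧ x = x') := by
          rintro ⟨h3, h4⟩
          exact hne ⟨by rw [h3], h4⟩
        have hq : ∀ y : G, (qp (a :: A1) y * x)⁻¹ * (qp (a :: A1') y * x') =
            (qp A1 y * x)⁻¹ * (qp A1' y * x') := by
          intro y
          rw [Strip_cons, Strip_cons]
          group
        rcases ih A1' h2 hne' with ⟨d, hd, h3⟩ | ⟨m, m', b, b', z, z', h3, h4, h5, h6, h7⟩
        · left
          refine ⟨d, hd, fun y => ?_⟩
          rw [hq]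
          exact h3 y
        · right
          refine ⟨m, m', b, b', z, z', ?_, ?_, h5, h6, fun y => ?_⟩
          · rw [List.length_cons]; omega
          · rw [List.length_cons]; omega
          · rw [hq]
            exact h7 y
      · have hPa : P (a⁻¹ * a') := h1.resolve_left haa
        have hlen : A1.length = A1'.length := h2.length_eq
        by_cases hxx : x = x'
        · subst hxx
          rcases Strip_last A1 A1' h2 with h3 | ⟨m, m', R, z, z', h4, h5, h6, h7⟩
          · left
            subst h3
            refine ⟨a⁻¹ * a', hPa, fun y => ⟨(y * (qp A1 y * x))⁻¹, ?_⟩⟩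
            rw [Strip_cons, Strip_cons]
            group
          · right
            refine ⟨m, m', a, a', z, z', ?_, ?_, hPa, hsw _ _ h6, fun y =>
              ⟨(y * qp R y * x)⁻¹, ?_⟩⟩
            · rw [h4]; simp
            · rw [← h7, h4]; simp
            · rw [h4, h5, Strip_cons, Strip_cons, Strip_append, Strip_append, Strip_cons,
                Strip_cons]
              group
        · right
          refine ⟨A1, A1', a, a', x, x', ?_, ?_, hPa, hsw _ _ (hx.resolve_left hxx),
            fun y => ⟨1, ?_⟩⟩
          · rw [List.length_cons]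
          · rw [List.length_cons, hlen]
          · rw [Strip_cons, Strip_cons]
            group

end Pool.Agent.RCL
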