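import Pool.Agent.W_6acff7c_h33.PairCore
import Pool.Agent.W_6acff7c_h33.Strip

/-!
# The quotient of two words of a level

PROOF.  `wd a y = qp A y * a (Fin.last N)` with `A = List.ofFn fun k : Fin N => a k.castSucc`
(`List.map_ofFn`), length `N`.  Apply `strip` with `P = Good K κ` (`good_conj`).  First alternative: the
quotient is conjugate to a fixed element good for `κ`, so it is good for `κ + Δ` for all `y`
(`good_mono`, `good_conj`) and `pr = 0`.  Second alternative: by `good_conj` the event is contained in the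
event of `pair_core` (use `pr_mono`).
-/

open Finset Pool.Agent.RCG

namespace Pool.Agent.RCL

variable {F : Type*} [Field F] [Fintype F] {n : ℕ}

private theorem PairGood_wd {G : Type*} [Group G] {N : ℕ} (b : Fin (N + 1) → G) (y : G) :
    wd b y = qp (List.ofFn fun k : Fin N => b k.castSucc) y * b (Fin.last N) := by
  unfold wd qp
  rw [List.map_ofFn]
  rfl

private theorem PairGood_forall {G : Type*} {R : G → G → Prop} {N : ℕ} (a a' : Fin (N + 1) → G)
    (haa : ∀ k, R (a k) (a' k)) :
    List.Forall₂ R (List.ofFn fun k : Fin N => a k.castSucc)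
      (List.ofFn fun k : Fin N => a' k.castSucc) := by
  rw [List.forall₂_iff_get]
  refine ⟨by rw [List.length_ofFn, List.length_ofFn], fun i h1 h2 => ?_⟩
  rw [List.get_ofFn, List.get_ofFn]
  exact haa _

private theorem PairGood_ne {G : Type*} {N : ℕ} (a a' : Fin (N + 1) → G) (hne : a ≠ a') :
    ¬ ((List.ofFn fun k : Fin N => a k.castSucc) =
      (List.ofFn fun k : Fin N => a' k.castSucc) ∧ a (Fin.last N) = a' (Fin.last N)) := by
  rintro ⟨h3, h4⟩
  apply hne
  have h5 := List.ofFn_injective h3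
  funext k
  induction k using Fin.lastCases with
  | last => exact h4
  | cast k => exact congrFun h5 k

private theorem PairGood_false {α : Type*} [Fintype α] : pr (fun _ : α => False) = 0 := by
  unfold pr
  simp

theorem pair_good {K : ℕ} (hK : 1 ≤ K) {κ Δ : ℝ} (hκ : 0 ≤ κ) (hΔ : 0 < Δ) (hΔ1 : Δ ≤ 1) {N : ℕ}
    (a a' : Fin (N + 1) → SLn F n) (haa : ∀ k, a k = a' k ∨ Good K κ ((a k)⁻¹ * a' k))
    (hne : a ≠ a')
    (h1 : 32 * (K * N : ℝ) ≤ Δ * n)
    (h2 : 2 * (2 * (K * N) + 1 : ℝ) * (Fintype.card F : ℝ) ^ 2 ≤ (Fintype.card F : ℝ) ^ (Δ * n / 4)) :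
    pr (fun y => ¬ Good K (κ + Δ) ((wd a y)⁻¹ * wd a' y)) ≤
      Real.exp (-(Δ ^ 2 * (n ^ 2 * Real.log (Fintype.card F)) / (64 * (K * N)))) := by
  have hF := PairGood_forall (R := fun a a' : SLn F n => a = a' ∨ Good K κ (a⁻¹ * a')) a a' haa
  have hne' := PairGood_ne a a' hne
  have hpos : (0 : ℝ) ≤
      Real.exp (-(Δ ^ 2 * (n ^ 2 * Real.log (Fintype.card F)) / (64 * (K * N)))) :=
    (Real.exp_pos _).le
  have hwd := fun y => PairGood_wd a y
  have hwd' := fun y => PairGood_wd a' y
  have hlen : (List.ofFn fun k : Fin N => a k.castSucc).length = N := List.length_ofFn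
  generalize (List.ofFn fun k : Fin N => a k.castSucc) = A at *
  generalize (List.ofFn fun k : Fin N => a' k.castSucc) = A' at *
  have hc : ∀ g h : SLn F n, Good K κ g → Good K κ (h * g * h⁻¹) :=
    fun g h hg => good_conj hg h
  have hs := @strip (SLn F n) _ (Good K κ) hc A A' (a (Fin.last N)) (a' (Fin.last N)) hF
    (haa (Fin.last N)) hne'
  rcases hs with ⟨d, hd, hy⟩ | ⟨m, m', b, b', z, z', hm, hm', hb, hz, hy⟩
  · have h0 : pr (fun y => ¬ Good K (κ + Δ) ((wd a y)⁻¹ * wd a' y)) ≤
        pr (fun _ : SLn F n => False) := by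
      apply pr_mono
      intro y hn
      apply hn
      obtain ⟨h, hh⟩ := hy y
      rw [hwd, hwd', hh]
      exact good_mono (by linarith) (hc d h hd)
    rw [PairGood_false] at h0
    exact h0.trans hpos
  · rw [hlen] at hm hm'
    refine (pr_mono ?_).trans (pair_core hK hκ hΔ hΔ1 m m' b b' z z' hm hm' hb hz h1 h2)
    intro y hn hg
    apply hn
    obtain ⟨h, hh⟩ := hy y
    rw [hwd, hwd', hh]
    exact good_conj (κ := κ + Δ) hg h

end Pool.Agent.RCL
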