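import Pool.Agent.W_6acff7c_h33.ChBound
import Pool.Agent.W_6acff7c_h33.GoodBasic

/-!
# Small eigenvalues on low levels

PROOF.  Let `b = levL α`, `1 ≤ b ≤ n / 128`, `k = ⌊n / 1000⌋` (`good_kdim` gives `kdim g μ ≤ k`).  For large
`n`: `2 b + k + 1 ≤ n` and `n - 2 b - k ≥ (98 / 100) n`.  `ch_lowL` gives
`|α g| ≤ 2 (b + 1) q * q ^ (-(98/100) n b / 4) = 2 (b + 1) q * q ^ (-(245/1000) n b)`, and
`2 (b + 1) ≤ 4 b ≤ 2 ^ (2 b) ≤ q ^ (2 b)`, so `2 (b + 1) q ≤ q ^ (2 b + 1) ≤ q ^ (3 b) ≤ q ^ ((12/100) n b)` for `n ≥ 25`,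
and `245/1000 - 12/100 = 1/8`.
-/

open Finset Pool.Agent.RCG

namespace Pool.Agent.RCL

theorem ch_low_good : ∃ N0 : ℕ, ∀ n ≥ N0, ∀ (F : Type) [Field F] [Fintype F] (α : SLn F n → ℝ),
    IsCh α → 1 ≤ levL α → levL α ≤ n / 128 → ∀ g : SLn F n, Good 1000 (1 / 1000) g →
    |α g| ≤ (Fintype.card F : ℝ) ^ (-((n : ℝ) * levL α / 8)) := by
  refine ⟨1000, ?_⟩
  intro n hn F _ _ α hα hb1 hb2 g hg
  set b := levL α with hbdef
  have hq2 : 2 ≤ Fintype.card F := Fintype.one_lt_card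
  set q : ℝ := (Fintype.card F : ℝ) with hqdef
  have hq : (2 : ℝ) ≤ q := by rw [hqdef]; exact_mod_cast hq2
  have hq1 : (1 : ℝ) ≤ q := by linarith
  have hq0 : (0 : ℝ) < q := by linarith
  have hb3 : b * 128 ≤ n := (Nat.le_div_iff_mul_le (by norm_num)).mp hb2
  have hk3 : (n / 1000) * 1000 ≤ n := Nat.div_mul_le_self n 1000
  have hk : ∀ μ : F, kdim g μ ≤ n / 1000 := by
    intro μ
    have h1 := good_kdim (by norm_num) hg μ
    rw [Nat.le_div_iff_mul_le (by norm_num)]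
    have h2 : ((kdim g μ * 1000 : ℕ) : ℝ) ≤ (n : ℝ) := by
      push_cast
      linarith
    exact_mod_cast h2
  have hn2 : 2 * levL α + n / 1000 + 1 ≤ n := by
    rw [← hbdef]
    omega
  have h := ch_lowL hα hn2 g hk
  rw [← hbdef, ← hqdef] at h
  have hbR : (1 : ℝ) ≤ (b : ℝ) := by exact_mod_cast hb1
  have hnR : (1000 : ℝ) ≤ (n : ℝ) := by exact_mod_cast hn
  have hm : (98 / 100 : ℝ) * n ≤ ((n - 2 * b - n / 1000 : ℕ) : ℝ) := by
    have h1 : 98 * n ≤ 100 * (n - 2 * b - n / 1000) := by omega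
    have h2 : ((98 * n : ℕ) : ℝ) ≤ ((100 * (n - 2 * b - n / 1000) : ℕ) : ℝ) := by exact_mod_cast h1
    rw [Nat.cast_mul, Nat.cast_mul] at h2
    push_cast at h2 ⊢
    linarith
  have h4 : (2 : ℝ) * (b + 1) * q ≤ q ^ (3 * (b : ℝ)) := by
    have h5 : 4 * b ≤ 4 ^ b := by
      have h6 : ∀ c : ℕ, 1 ≤ c → 4 * c ≤ 4 ^ c := by
        intro c hc
        induction c, hc using Nat.le_induction with
        | base => norm_num
        | succ c hc ih => rw [pow_succ]; omega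
      exact h6 b hb1
    have h5R : (4 : ℝ) * b ≤ 4 ^ b := by exact_mod_cast h5
    have h6 : (4 : ℝ) ^ b ≤ (q ^ 2) ^ b := pow_le_pow_left₀ (by norm_num) (by nlinarith) b
    have h7 : q ≤ q ^ b := le_self_pow₀ hq1 (by omega)
    have h8 : q ^ (3 * (b : ℝ)) = (q ^ 2) ^ b * q ^ b := by
      rw [show (3 * (b : ℝ)) = ((3 * b : ℕ) : ℝ) by push_cast; ring, Real.rpow_natCast, ← pow_mul,
        ← pow_add]
      congr 1
      ring
    rw [h8]
    refine mul_le_mul (by linarith) h7 hq0.le (by positivity)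
  refine h.trans ?_
  have h9 : q ^ (-(((n - 2 * b - n / 1000 : ℕ) : ℝ) * b / 4)) ≤
      q ^ (-((98 / 100 : ℝ) * n * b / 4)) := by
    apply Real.rpow_le_rpow_of_exponent_le hq1
    have := mul_le_mul_of_nonneg_right hm (by linarith : (0 : ℝ) ≤ b)
    linarith
  calc 2 * ((b : ℝ) + 1) * q * q ^ (-(((n - 2 * b - n / 1000 : ℕ) : ℝ) * b / 4))
      ≤ q ^ (3 * (b : ℝ)) * q ^ (-((98 / 100 : ℝ) * n * b / 4)) :=
        mul_le_mul h4 h9 (by positivity) (by positivity)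
    _ = q ^ (3 * (b : ℝ) + -((98 / 100 : ℝ) * n * b / 4)) := (Real.rpow_add hq0 _ _).symm
    _ ≤ q ^ (-((n : ℝ) * b / 8)) := by
        apply Real.rpow_le_rpow_of_exponent_le hq1
        nlinarith

end Pool.Agent.RCL
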