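import Pool.Agent.W_6acff7c_h33.KryUnip

/-!
# A point where the quotient of two words has a cyclic vector (same number of letters `x`)

`S` is the variable of the field `RatFunc F`, `T = S ^ 2`, `N = ℓ + 1`.  With `e i = 2 i - (n - 1)` (an integer)
let `x = diag (S ^ (e i))` and let `y` be lower bidiagonal with `y i i = S ^ (N e i)`, `y (i+1) i = y i i`.
Both have determinant `1` because `∑ e i = 0`.
PROOF of `point_same`.  Let `U = wp u x y`, `V = wp v x y`; they are products of lower triangular matrices,
so lower triangular, `U i i = S ^ (e i (a + N b))` with `a, b` the numbers of letters `x`, `y` in `u`, and the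
same for `v`.  Claim (induction on the length of a list of letters, multiplying by one letter on the
right): `U (i+1) i = U i i * f u`, `f u = ∑_{k : u k = false} T ^ (a_k + N b_k)` with `a_k`, `b_k` the numbers of
letters `x`, `y` before position `k`: `(U z) (i+1) i = U (i+1) i * z i i + U (i+1) (i+1) * z (i+1) i` and
`U (i+1) (i+1) / U i i = T ^ (a + N b)`.  `f u ≠ f v`: let `k` be the first position where `u, v` differ, say
`u k = false`, `v k = true`.  The exponent `a_k + N b_k` occurs in `f u` (from position `k`); the terms of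
`f u`, `f v` from positions before `k` are the same; the later terms of `f u` have exponent
`≥ a_k + N (b_k + 1)` and those of `f v` have exponent `≥ a_k + 1 + N b_k` (the first of them has
`b = b_k` and `a ≥ a_k + 1`, the others have `b ≥ b_k + 1` and `N > a_k`).  So the coefficient of `T ^ (a_k + N b_k)`
in `f u - f v` (a polynomial in `T`) is `1`.
As `det U = 1`, `U.adjugate = U⁻¹`, and `M = U⁻¹ V` is lower triangular with diagonal `1` and
`M (i+1) i = (V (i+1) i - U (i+1) i) / U (i+1) (i+1) = (f v - f u) U i i / U (i+1) (i+1) ≠ 0`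
(from `U M = V`).  Apply `kry_unip`.
-/

open Finset Pool.Agent.RCG

namespace Pool.Agent.RCL

section aux

variable {E : Type*} [Field E] {n : ℕ}

/-- lower triangular -/
private def PointA_lt (A : Matrix (Fin n) (Fin n) E) : Prop := ∀ i j : Fin n, i < j → A i j = 0

private theorem PointA_mul {A B : Matrix (Fin n) (Fin n) E} (hA : PointA_lt A) (hB : PointA_lt B) :
    PointA_lt (A * B) := by
  intro i j hij
  rw [Matrix.mul_apply]
  refine Finset.sum_eq_zero fun k _ => ?_
  rcases lt_or_ge i k with h | h
  · rw [hA i k h, zero_mul]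
  · rw [hB k j (lt_of_le_of_lt h hij), mul_zero]

private theorem PointA_diag {A B : Matrix (Fin n) (Fin n) E} (hA : PointA_lt A)
    (hB : PointA_lt B) (i : Fin n) : (A * B) i i = A i i * B i i := by
  rw [Matrix.mul_apply, Finset.sum_eq_single i]
  · intro k _ hk
    rcases lt_or_gt_of_ne hk with h | h
    · rw [hB k i h, mul_zero]
    · rw [hA i k h, zero_mul]
  · intro h
    exact absurd (Finset.mem_univ _) h

private theorem PointA_sub {A B : Matrix (Fin n) (Fin n) E} (hA : PointA_lt A)
    (hB : PointA_lt B) (i : ℕ) (hi : i + 1 < n) :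
    (A * B) ⟨i + 1, hi⟩ ⟨i, by omega⟩ =
      A ⟨i + 1, hi⟩ ⟨i, by omega⟩ * B ⟨i, by omega⟩ ⟨i, by omega⟩ +
      A ⟨i + 1, hi⟩ ⟨i + 1, hi⟩ * B ⟨i + 1, hi⟩ ⟨i, by omega⟩ := by
  classical
  have hne : (⟨i, by omega⟩ : Fin n) ≠ ⟨i + 1, hi⟩ := by
    intro h
    have := congrArg Fin.val h
    simp at this
  rw [Matrix.mul_apply, ← Finset.sum_pair (f := fun k => A ⟨i + 1, hi⟩ k * B k ⟨i, by omega⟩) hne]
  refine (Finset.sum_subset (Finset.subset_univ _) ?_).symm
  intro k _ hk
  rw [Finset.mem_insert, Finset.mem_singleton, not_or] at hk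
  rcases lt_or_gt_of_ne hk.1 with h | h
  · rw [hB k _ h, mul_zero]
  · have h2 : (⟨i + 1, hi⟩ : Fin n) < k := by
      have h3 : i < (k : ℕ) := h
      have h4 : (k : ℕ) ≠ i + 1 := fun h' => hk.2 (Fin.ext h')
      exact Fin.lt_def.2 (show i + 1 < (k : ℕ) by omega)
    rw [hA _ k h2, zero_mul]

end aux

variable (F : Type*) [Field F] {n ℓ : ℕ}

/-- the exponents -/
private def PointA_e (n : ℕ) (i : Fin n) : ℤ := 2 * ((i : ℕ) : ℤ) - ((n : ℤ) - 1)

private theorem PointA_esum (n : ℕ) : ∑ i : Fin n, PointA_e n i = 0 := by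
  have h1 : ∀ m : ℕ, 2 * ∑ i : Fin m, ((i : ℕ) : ℤ) = (m : ℤ) * (m - 1) := by
    intro m
    induction m with
    | zero => simp
    | succ m ih =>
      rw [Fin.sum_univ_castSucc, mul_add]
      simp only [Fin.val_castSucc, Fin.val_last]
      rw [ih]
      push_cast
      ring
  unfold PointA_e
  rw [Finset.sum_sub_distrib, ← Finset.mul_sum, h1 n, Finset.sum_const, Finset.card_univ,
    Fintype.card_fin, nsmul_eq_mul]
  ring

/-- the diagonal matrix -/
private noncomputable def PointA_x (n : ℕ) : Matrix (Fin n) (Fin n) (RatFunc F) :=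
  Matrix.of fun i j => if i = j then (RatFunc.X : RatFunc F) ^ PointA_e n i else 0

/-- the lower bidiagonal matrix -/
private noncomputable def PointA_y (n : ℕ) : Matrix (Fin n) (Fin n) (RatFunc F) :=
  Matrix.of fun i j => if i = j then (RatFunc.X : RatFunc F) ^ PointA_e n i
    else if (i : ℕ) = j + 1 then (RatFunc.X : RatFunc F) ^ PointA_e n j else 0

private theorem PointA_xlt : PointA_lt (PointA_x F n) := by
  intro i j hij
  unfold PointA_x
  rw [Matrix.of_apply, if_neg hij.ne]

private theorem PointA_ylt : PointA_lt (PointA_y F n) := by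
  intro i j hij
  unfold PointA_y
  rw [Matrix.of_apply, if_neg hij.ne, if_neg]
  have : (i : ℕ) < j := hij
  omega

private theorem PointA_det (A : Matrix (Fin n) (Fin n) (RatFunc F)) (hA : PointA_lt A)
    (hd : ∀ i, A i i = (RatFunc.X : RatFunc F) ^ PointA_e n i) : A.det = 1 := by
  rw [Matrix.det_of_lowerTriangular A (fun i j hij => hA i j hij)]
  have h1 : ∀ s : Finset (Fin n), ∏ i ∈ s, A i i =
      (RatFunc.X : RatFunc F) ^ (∑ i ∈ s, PointA_e n i) := by
    intro s
    classical
    induction s using Finset.induction_on with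
    | empty => simp
    | insert a s ha ih =>
      rw [Finset.prod_insert ha, Finset.sum_insert ha, ih, hd, zpow_add₀ RatFunc.X_ne_zero]
  rw [h1 Finset.univ, PointA_esum, zpow_zero]

/-- the quotient of the subdiagonal by the diagonal -/
private noncomputable def PointA_q : List Bool → Polynomial F
  | [] => 0
  | b :: l => (if b then 0 else 1) + Polynomial.X ^ 2 * PointA_q l

private theorem PointA_inj : ∀ u v : List Bool, u.length = v.length →
    PointA_q F u = PointA_q F v → u = v
  | [], [], _, _ => rfl
  | [], b :: v, h, _ => absurd h (by simp)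
  | a :: u, [], h, _ => absurd h (by simp)
  | a :: u, b :: v, h, hq => by
    have hlen : u.length = v.length := by simpa using h
    unfold PointA_q at hq
    have hc : ∀ (c : Bool) (l : List Bool), ((if c then (0 : Polynomial F) else 1) +
        Polynomial.X ^ 2 * PointA_q F l).coeff 0 = if c then 0 else 1 := by
      intro c l
      rw [Polynomial.coeff_add, Polynomial.mul_coeff_zero]
      cases c <;> simp
    have h0 := congrArg (fun r : Polynomial F => r.coeff 0) hq
    simp only [hc] at h0
    have hab : a = b := by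
      cases a <;> cases b <;> simp_all
    subst hab
    have h1 := add_left_cancel hq
    have h2 := mul_left_cancel₀ (pow_ne_zero 2 Polynomial.X_ne_zero) h1
    rw [PointA_inj u v hlen h2]

private theorem PointA_prod (l : List Bool) :
    PointA_lt (l.map (fun b => if b then PointA_x F n else PointA_y F n)).prod ∧
    (∀ i, (l.map (fun b => if b then PointA_x F n else PointA_y F n)).prod i i =
      ((RatFunc.X : RatFunc F) ^ PointA_e n i) ^ l.length) ∧
    ∀ (i : ℕ) (hi : i + 1 < n),
      (l.map (fun b => if b then PointA_x F n else PointA_y F n)).prod ⟨i + 1, hi⟩ ⟨i, by omega⟩ =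
      (l.map (fun b => if b then PointA_x F n else PointA_y F n)).prod ⟨i, by omega⟩ ⟨i, by omega⟩ *
        algebraMap (Polynomial F) (RatFunc F) (PointA_q F l) := by
  induction l with
  | nil =>
    refine ⟨?_, ?_, ?_⟩
    · intro i j hij
      rw [List.map_nil, List.prod_nil, Matrix.one_apply_ne hij.ne]
    · intro i
      rw [List.map_nil, List.prod_nil, Matrix.one_apply_eq, List.length_nil, pow_zero]
    · intro i hi
      rw [List.map_nil, List.prod_nil, Matrix.one_apply_ne, PointA_q, map_zero, mul_zero]
      intro h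
      have := congrArg Fin.val h
      simp at this
  | cons b l ih =>
    obtain ⟨ih1, ih2, ih3⟩ := ih
    set P := (l.map (fun b => if b then PointA_x F n else PointA_y F n)).prod with hP
    have hz : ∃ z : Matrix (Fin n) (Fin n) (RatFunc F), z = (if b then PointA_x F n else
        PointA_y F n) ∧ PointA_lt z ∧ (∀ i, z i i = (RatFunc.X : RatFunc F) ^ PointA_e n i) ∧
        ∀ (i : ℕ) (hi : i + 1 < n), z ⟨i + 1, hi⟩ ⟨i, by omega⟩ =
          (RatFunc.X : RatFunc F) ^ PointA_e n ⟨i, by omega⟩ * (if b then 0 else 1) := by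
      have hne : ∀ (i : ℕ) (hi : i + 1 < n), (⟨i + 1, hi⟩ : Fin n) ≠ ⟨i, by omega⟩ := by
        intro i hi h
        have := congrArg Fin.val h
        simp at this
      cases b with
      | true =>
        refine ⟨PointA_x F n, by simp, PointA_xlt F, fun i => ?_, fun i hi => ?_⟩
        · unfold PointA_x
          rw [Matrix.of_apply, if_pos rfl]
        · unfold PointA_x
          rw [Matrix.of_apply, if_neg (hne i hi)]
          simp
      | false =>
        refine ⟨PointA_y F n, by simp, PointA_ylt F, fun i => ?_, fun i hi => ?_⟩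
        · unfold PointA_y
          rw [Matrix.of_apply, if_pos rfl]
        · unfold PointA_y
          rw [Matrix.of_apply, if_neg (hne i hi), if_pos rfl]
          simp
    obtain ⟨z, hz, hz1, hz2, hz3⟩ := hz
    rw [List.map_cons, List.prod_cons, ← hz, ← hP]
    refine ⟨PointA_mul hz1 ih1, fun i => ?_, fun i hi => ?_⟩
    · rw [PointA_diag hz1 ih1, hz2, ih2, List.length_cons, pow_succ']
    · rw [PointA_sub hz1 ih1, PointA_diag hz1 ih1, hz2, hz2, hz3, ih3, PointA_q]
      have he : PointA_e n ⟨i + 1, hi⟩ = PointA_e n ⟨i, by omega⟩ + 2 := by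
        unfold PointA_e
        push_cast
        ring
      have hX : (RatFunc.X : RatFunc F) ^ PointA_e n ⟨i + 1, hi⟩ =
          (RatFunc.X : RatFunc F) ^ PointA_e n ⟨i, by omega⟩ * RatFunc.X ^ 2 := by
        rw [he, zpow_add₀ RatFunc.X_ne_zero]
        rfl
      rw [hX, map_add, map_mul, map_pow, RatFunc.algebraMap_X]
      have hif : algebraMap (Polynomial F) (RatFunc F) (if b then 0 else 1) =
          if b then 0 else 1 := by
        cases b <;> simp
      rw [hif]
      ring

theorem point_same (h : 0 < n) {u v : Fin ℓ → Bool} (huv : u ≠ v)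
    (hc : (univ.filter fun k => u k = true).card = (univ.filter fun k => v k = true).card) :
    ∃ x y : Matrix (Fin n) (Fin n) (RatFunc F), x.det = 1 ∧ y.det = 1 ∧
      (kry h ((wp u x y).adjugate * wp v x y)).det ≠ 0 := by
  classical
  have hxd : ∀ i, PointA_x F n i i = (RatFunc.X : RatFunc F) ^ PointA_e n i := by
    intro i
    unfold PointA_x
    rw [Matrix.of_apply, if_pos rfl]
  have hyd : ∀ i, PointA_y F n i i = (RatFunc.X : RatFunc F) ^ PointA_e n i := by
    intro i
    unfold PointA_y
    rw [Matrix.of_apply, if_pos rfl]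
  have hdx : (PointA_x F n).det = 1 := PointA_det F _ (PointA_xlt F) hxd
  have hdy : (PointA_y F n).det = 1 := PointA_det F _ (PointA_ylt F) hyd
  refine ⟨PointA_x F n, PointA_y F n, hdx, hdy, ?_⟩
  have hwp : ∀ w : Fin ℓ → Bool, wp w (PointA_x F n) (PointA_y F n) =
      ((List.ofFn w).map (fun b => if b then PointA_x F n else PointA_y F n)).prod := by
    intro w
    unfold wp
    rw [List.map_ofFn]
    rfl
  obtain ⟨hU1, hU2, hU3⟩ := PointA_prod F (n := n) (List.ofFn u)
  obtain ⟨hV1, hV2, hV3⟩ := PointA_prod F (n := n) (List.ofFn v)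
  rw [← hwp] at hU1 hU2 hU3 hV1 hV2 hV3
  rw [List.length_ofFn] at hU2 hV2
  have hq : PointA_q F (List.ofFn u) ≠ PointA_q F (List.ofFn v) := fun h' =>
    huv (List.ofFn_injective (PointA_inj F _ _ (by simp) h'))
  set U := wp u (PointA_x F n) (PointA_y F n) with hU
  set V := wp v (PointA_x F n) (PointA_y F n) with hV
  have hUd : U.det = 1 := by
    rw [Matrix.det_of_lowerTriangular U (fun i j hij => hU1 i j hij)]
    have h1 : ∏ i, U i i = (∏ i, PointA_x F n i i) ^ ℓ := by
      rw [← Finset.prod_pow]
      refine Finset.prod_congr rfl fun i _ => ?_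
      rw [hU2, hxd]
    rw [h1, ← Matrix.det_of_lowerTriangular _ (fun i j hij => PointA_xlt F i j hij), hdx, one_pow]
  have hadj : U.adjugate = U⁻¹ := by
    rw [Matrix.inv_def, hUd, Ring.inverse_one, one_smul]
  have hUn : ∀ i, U i i ≠ 0 := fun i => by
    rw [hU2]
    exact pow_ne_zero _ (zpow_ne_zero _ RatFunc.X_ne_zero)
  have hinv : PointA_lt U⁻¹ := by
    have : Invertible U := Matrix.invertibleOfIsUnitDet U (by rw [hUd]; exact isUnit_one)
    have hb : U.BlockTriangular OrderDual.toDual := fun i j hij => hU1 i j hij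
    have hb2 := Matrix.blockTriangular_inv_of_blockTriangular hb
    exact fun i j hij => hb2 hij
  set M := U.adjugate * V with hM
  have hM1 : PointA_lt M := by
    rw [hM, hadj]
    exact PointA_mul hinv hV1
  have hUM : U * M = V := by
    rw [hM, hadj, ← Matrix.mul_assoc, Matrix.mul_nonsing_inv U (by rw [hUd]; exact isUnit_one),
      Matrix.one_mul]
  have hMd : ∀ i, M i i = 1 := by
    intro i
    have h1 := PointA_diag hU1 hM1 i
    rw [hUM, hV2, ← hU2] at h1
    exact (mul_left_cancel₀ (hUn i) (by rw [mul_one]; exact h1)).symm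
  refine kry_unip h M (fun i j hij => hM1 i j hij) hMd ?_
  intro i hi hzero
  have h1 := PointA_sub hU1 hM1 i hi
  rw [hUM, hV3, hU3, hMd, hzero, mul_one, mul_zero, add_zero, hV2, ← hU2] at h1
  have h2 := mul_left_cancel₀ (hUn _) h1
  exact hq (RatFunc.algebraMap_injective F h2).symm

end Pool.Agent.RCL
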