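import Pool.Agent.W_6acff7c_h33.LevIterL

/-!
# The first levels (with `N = ⌊√n⌋`)

PROOF: induction on `i`, for all `κ, l, s`.  Put `X = n ^ 2 log q`, `C = 1024000`, `N = Nat.sqrt n`
(so `N ≤ √n < N + 1`, `N ≥ 1`).  `i = 0`: nothing to do.  `i + 1`: if `X ≤ n ^ ((3 + i) / 2) s`, use the induction
hypothesis and an unused letter as in `lev_iter`.  Otherwise `levStepL` with `Δ` and `N`:
`h0`: `C N ^ 2 s ≤ C n s ≤ Δ ^ 2 X` because `X > n ^ ((3 + i) / 2) s ≥ n ^ (3/2) s` and `C ≤ Δ ^ 2 n ^ (1/2)`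
(hypothesis `hbig`).  `h1, h2` from `hok` (`N ≤ √n ≤ n ^ (3/4)`).  New `s1 = (N + 1) s ≥ √n s`, so
`X ≤ n ^ ((3 + i + 1) / 2) s ≤ n ^ ((3 + i) / 2) s1`.  `2000 s1 ≤ 4000 N s ≤ 4000 Δ ^ 2 X / (C N) ≤ X` (`Δ ≤ 1`).
-/

open Finset Pool.Agent.RCG

namespace Pool.Agent.RCL

variable {F : Type*} [Field F] [Fintype F] {n : ℕ}

theorem pre_iter {Δ : ℝ} (hΔ : 0 < Δ) (hΔ1 : Δ ≤ 1) (hok : Ok F n Δ ((n : ℝ) ^ (3 / 4 : ℝ)))
    (hn : 1 ≤ n) (hbig : 1024000 ≤ Δ ^ 2 * (n : ℝ) ^ (1 / 2 : ℝ)) :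
    ∀ (i : ℕ) (κ : ℝ) (l : ℕ) (s : ℝ), 0 ≤ κ → κ + i * Δ < 1 → Real.log 2 ≤ s →
    2000 * s ≤ (n : ℝ) ^ 2 * Real.log (Fintype.card F) →
    (n : ℝ) ^ 2 * Real.log (Fintype.card F) ≤ (n : ℝ) ^ ((3 + i : ℝ) / 2) * s →
    ∃ (l' : ℕ) (s' : ℝ), ((l' : ℝ) + 1) * s = ((l : ℝ) + 1) * s' ∧ s ≤ s' ∧
      (n : ℝ) ^ 2 * Real.log (Fintype.card F) ≤ (n : ℝ) ^ (3 / 2 : ℝ) * s' ∧
      2000 * s' ≤ (n : ℝ) ^ 2 * Real.log (Fintype.card F) ∧
      StepG (SLn F n) i (i * Real.exp (-(Δ * n / 4 * Real.log (Fintype.card F))))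
        (HasCode 1000 κ l s) (HasCode 1000 (κ + i * Δ) l' s') := by
  have hn1 : (1 : ℝ) ≤ n := by exact_mod_cast hn
  have hn0 : (0 : ℝ) < n := by linarith
  have hlq : 0 ≤ Real.log (Fintype.card F) := Real.log_natCast_nonneg _
  set e : ℝ := Real.exp (-(Δ * n / 4 * Real.log (Fintype.card F))) with he
  have he0 : 0 < e := Real.exp_pos _
  set X : ℝ := (n : ℝ) ^ 2 * Real.log (Fintype.card F) with hX
  have hX0 : 0 ≤ X := by positivity
  intro i
  induction i with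
  | zero =>
    intro κ l s hκ hκ1 hs h2000 hXs
    refine ⟨l, s, rfl, le_rfl, ?_, h2000, ?_⟩
    · simpa using hXs
    · have h := StepG.skip (G := SLn F n) (k := 0) (ε := 0) (mono_hasCode 1000 κ l s) le_rfl
      simpa using h
  | succ i ih =>
    intro κ l s hκ hκ1 hs h2000 hXs
    have hs0 : 0 < s := lt_of_lt_of_le (Real.log_pos (by norm_num)) hs
    have hi0 : (0 : ℝ) ≤ (i : ℝ) := Nat.cast_nonneg _
    have hcast : ((i + 1 : ℕ) : ℝ) = (i : ℝ) + 1 := by push_cast; ring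
    rw [hcast] at hκ1 hXs
    rw [hcast]
    have hκi : κ + i * Δ < 1 := by nlinarith
    by_cases hc : X ≤ (n : ℝ) ^ ((3 + i : ℝ) / 2) * s
    · obtain ⟨l', s', h1, h2, h3, h4, h5⟩ := ih κ l s hκ hκi hs h2000 hc
      refine ⟨l', s', h1, h2, h3, h4, ?_⟩
      have h6 := StepG.extra (mono_hasCode 1000 (κ + i * Δ) l' s') h5 1
      refine StepG.weaken h6 (fun _ h => h)
        (fun _ h => hasCode_weaken (by nlinarith) le_rfl le_rfl h) (by nlinarith)
    · push Not at hc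
      set N : ℕ := Nat.sqrt n with hN
      have hN1 : 1 ≤ N := by
        rw [hN, Nat.le_sqrt]
        omega
      have hN1' : (1 : ℝ) ≤ N := by exact_mod_cast hN1
      have hNsq : (N : ℝ) ^ 2 ≤ n := by
        have := Nat.sqrt_le' n
        exact_mod_cast this
      have hNsq2 : (n : ℝ) < ((N : ℝ) + 1) ^ 2 := by
        have := Nat.lt_succ_sqrt' n
        exact_mod_cast this
      have hhalf : (n : ℝ) ^ (1 / 2 : ℝ) = Real.sqrt n := (Real.sqrt_eq_rpow _).symm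
      have hNle : (N : ℝ) ≤ (n : ℝ) ^ (1 / 2 : ℝ) := by
        rw [hhalf]
        exact Real.le_sqrt_of_sq_le hNsq
      have hNge : (n : ℝ) ^ (1 / 2 : ℝ) ≤ (N : ℝ) + 1 := by
        rw [hhalf]
        exact (Real.sqrt_le_left (by positivity)).2 hNsq2.le
      have hN34 : (N : ℝ) ≤ (n : ℝ) ^ (3 / 4 : ℝ) :=
        hNle.trans (Real.rpow_le_rpow_of_exponent_le hn1 (by norm_num))
      have hokN := hok.mono le_rfl hN34 (Nat.cast_nonneg _)
      -- the basic inequality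
      have hpow : (n : ℝ) ^ (1 / 2 : ℝ) * n ≤ (n : ℝ) ^ ((3 + i : ℝ) / 2) := by
        calc (n : ℝ) ^ (1 / 2 : ℝ) * n = (n : ℝ) ^ (1 / 2 : ℝ) * (n : ℝ) ^ (1 : ℝ) := by
              rw [Real.rpow_one]
          _ = (n : ℝ) ^ (1 / 2 + 1 : ℝ) := (Real.rpow_add hn0 _ _).symm
          _ ≤ (n : ℝ) ^ ((3 + i : ℝ) / 2) :=
            Real.rpow_le_rpow_of_exponent_le hn1 (by linarith)
      have h0 : 1024000 * (N : ℝ) ^ 2 * s ≤ Δ ^ 2 * X := by
        calc 1024000 * (N : ℝ) ^ 2 * s ≤ 1024000 * n * s := by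
              refine mul_le_mul_of_nonneg_right ?_ hs0.le
              exact mul_le_mul_of_nonneg_left hNsq (by norm_num)
          _ ≤ (Δ ^ 2 * (n : ℝ) ^ (1 / 2 : ℝ)) * n * s := by
              refine mul_le_mul_of_nonneg_right ?_ hs0.le
              exact mul_le_mul_of_nonneg_right hbig hn0.le
          _ = Δ ^ 2 * (((n : ℝ) ^ (1 / 2 : ℝ) * n) * s) := by ring
          _ ≤ Δ ^ 2 * ((n : ℝ) ^ ((3 + i : ℝ) / 2) * s) := by
              refine mul_le_mul_of_nonneg_left ?_ (by positivity)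
              exact mul_le_mul_of_nonneg_right hpow hs0.le
          _ ≤ Δ ^ 2 * X := mul_le_mul_of_nonneg_left hc.le (by positivity)
      have hstep := levStepL (F := F) (n := n) (K := 1000) (by norm_num) hκ (by nlinarith) hΔ hΔ1
        hN1 l hs (by
          refine le_trans (le_of_eq ?_) h0
          push_cast
          ring) (by exact_mod_cast hokN.1) (by exact_mod_cast hokN.2)
      -- new size
      have hs1 : s ≤ ((N : ℝ) + 1) * s := by nlinarith
      have h2000' : 2000 * (((N : ℝ) + 1) * s) ≤ X := by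
        have h1 : Δ ^ 2 * X ≤ X := by
          have : Δ ^ 2 ≤ 1 := by nlinarith
          nlinarith
        have h2 : (N : ℝ) ≤ (N : ℝ) ^ 2 := by nlinarith
        have h3 : 2000 * (((N : ℝ) + 1) * s) ≤ 1024000 * (N : ℝ) ^ 2 * s := by
          have : 2000 * ((N : ℝ) + 1) ≤ 1024000 * (N : ℝ) ^ 2 := by nlinarith
          calc 2000 * (((N : ℝ) + 1) * s) = 2000 * ((N : ℝ) + 1) * s := by ring
            _ ≤ _ := mul_le_mul_of_nonneg_right this hs0.le
        linarith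
      have hXs1 : X ≤ (n : ℝ) ^ ((3 + i : ℝ) / 2) * (((N : ℝ) + 1) * s) := by
        calc X ≤ (n : ℝ) ^ ((3 + ((i : ℝ) + 1)) / 2) * s := hXs
          _ = (n : ℝ) ^ ((3 + i : ℝ) / 2) * ((n : ℝ) ^ (1 / 2 : ℝ) * s) := by
              rw [← mul_assoc, ← Real.rpow_add hn0]
              congr 2
              ring
          _ ≤ _ := by
              refine mul_le_mul_of_nonneg_left ?_ (by positivity)
              exact mul_le_mul_of_nonneg_right hNge hs0.le
      obtain ⟨l', s', h1, h2, h3, h4, h5⟩ := ih (κ + Δ) (N * (l + 1) + l) (((N : ℝ) + 1) * s)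
        (by linarith) (by linarith) (hs.trans hs1) h2000' hXs1
      refine ⟨l', s', ?_, hs1.trans h2, h3, h4, ?_⟩
      · push_cast at h1
        have h7 : ((N : ℝ) + 1) * (((l' : ℝ) + 1) * s) = ((N : ℝ) + 1) * (((l : ℝ) + 1) * s') := by
          linear_combination h1
        exact mul_left_cancel₀ (by positivity) h7
      · have h8 := StepG.comp hstep h5 (by positivity)
        rw [show 1 + i = i + 1 from Nat.add_comm _ _] at h8
        refine StepG.weaken h8 (fun _ h => h)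
          (fun _ h => hasCode_weaken (le_of_eq (by ring)) le_rfl le_rfl h) (le_of_eq ?_)
        rw [← he]
        ring

end Pool.Agent.RCL
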