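import Pool.Agent.W_6acff7c_h33.Defs

/-!
# Expectation of `rr` for products of blocks with independent random letters in between

PROOF of `rr_prd`: `rr_dbl` in `Pool/Agent/W_6acff7b_h70/RR.lean` is the case `v = w`; the same proof
works (`RR_aux`, `RR_swap` there are already general):
`α ((w i * z * v j)⁻¹ * (w i' * z * v j')) = α (z⁻¹ * ((w i)⁻¹ * w i') * z * (v j' * (v j)⁻¹))` by
`ch_mul`/`ch_conj`, sum over `z` with `RR_aux`, and `α (v j' * (v j)⁻¹) = α ((v j)⁻¹ * v j')` by `ch_mul`.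

PROOF of `sum_rr_blk`: induction on `J`.  `J = 0`: `blk w z i = 1` for all `i`, the index type is a
point and `rr α = α 1 = 1`.  `J + 1`: `blk w (Fin.cons z0 z') (Fin.cons i0 i') = w i0 * z0 * blk w z' i'`;
use `Fin.consEquiv` (or `Fin.insertNthEquiv`, `Fin.consPiProd`...) to split both the sum over `z` and the
index type, `rr_reindex` (in `RR.lean`) to pass to the index type `ι × (Fin J → ι)`, then `rr_prd` and the
induction hypothesis.
-/

open Finset Pool.Agent.RCG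

namespace Pool.Agent.RCL

variable {G : Type*} [Group G] [Fintype G] {α : G → ℝ}

private theorem RRBlkA_swap {ι κ : Type*} [Fintype ι] [Fintype κ] (f : ι → κ → ι → κ → ℝ) :
    ∑ p : ι × κ, ∑ q : ι × κ, f p.1 p.2 q.1 q.2 = ∑ j, ∑ j', ∑ i, ∑ i', f i j i' j' := by
  simp only [Fintype.sum_prod_type]
  rw [Finset.sum_comm]
  refine Finset.sum_congr rfl fun j _ => ?_
  have : ∀ i, ∑ i', ∑ j', f i j i' j' = ∑ j', ∑ i', f i j i' j' := fun i => Finset.sum_comm
  simp only [this]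
  rw [Finset.sum_comm]

theorem rr_prd (h : IsCh α) {ι κ : Type*} [Fintype ι] [Fintype κ] (w : ι → G) (v : κ → G) :
    ∑ z : G, rr α (fun p : ι × κ => w p.1 * z * v p.2) = Fintype.card G * (rr α w * rr α v) := by
  have key : ∑ z : G, ∑ p : ι × κ, ∑ p' : ι × κ,
      α ((w p.1 * z * v p.2)⁻¹ * (w p'.1 * z * v p'.2)) =
      Fintype.card G * ((∑ i, ∑ i', α ((w i)⁻¹ * w i')) * ∑ j, ∑ j', α ((v j)⁻¹ * v j')) := by
    have e1 : ∀ z : G, ∑ p : ι × κ, ∑ p' : ι × κ,
        α ((w p.1 * z * v p.2)⁻¹ * (w p'.1 * z * v p'.2)) =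
        ∑ j, ∑ j', ∑ i, ∑ i', α (z⁻¹ * ((w i)⁻¹ * w i') * z * (v j' * (v j)⁻¹)) := by
      intro z
      have e2 : ∀ p p' : ι × κ, α ((w p.1 * z * v p.2)⁻¹ * (w p'.1 * z * v p'.2)) =
          α (z⁻¹ * ((w p.1)⁻¹ * w p'.1) * z * (v p'.2 * (v p.2)⁻¹)) := by
        intro p p'
        have e3 : (w p.1 * z * v p.2)⁻¹ * (w p'.1 * z * v p'.2) = (v p.2)⁻¹ *
            (z⁻¹ * ((w p.1)⁻¹ * w p'.1) * z * v p'.2) := by
          group
        rw [e3, ch_mul h]
        congr 1
        group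
      simp only [e2]
      exact RRBlkA_swap (fun i j i' j' => α (z⁻¹ * ((w i)⁻¹ * w i') * z * (v j' * (v j)⁻¹)))
    simp only [e1]
    have e4 : ∑ z : G, ∑ j, ∑ j', ∑ i, ∑ i', α (z⁻¹ * ((w i)⁻¹ * w i') * z * (v j' * (v j)⁻¹)) =
        ∑ j, ∑ j', ∑ z : G, ∑ i, ∑ i', α (z⁻¹ * ((w i)⁻¹ * w i') * z * (v j' * (v j)⁻¹)) := by
      rw [Finset.sum_comm]
      refine Finset.sum_congr rfl fun j _ => ?_
      rw [Finset.sum_comm]
    rw [e4]
    have e5 : ∀ j j' : κ, ∑ z : G, ∑ i, ∑ i',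
        α (z⁻¹ * ((w i)⁻¹ * w i') * z * (v j' * (v j)⁻¹)) =
        Fintype.card G * ((∑ i, ∑ i', α ((w i)⁻¹ * w i')) * α ((v j)⁻¹ * v j')) := by
      intro j j'
      rw [RR_aux h w, ch_mul h (v j')]
    simp only [e5, ← Finset.mul_sum]
  unfold rr
  rw [← Finset.mul_sum, key, Fintype.card_prod]
  push_cast
  by_cases hc : (Fintype.card ι : ℝ) = 0
  · simp [hc]
  · by_cases hk : (Fintype.card κ : ℝ) = 0
    · simp [hk]
    · field_simp

private theorem RRBlkA_cons {ι : Type*} (w : ι → G) {J : ℕ} (z0 : G) (z' : Fin J → G) (i0 : ι)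
    (i' : Fin J → ι) : blk w (Fin.cons z0 z' : Fin (J + 1) → G) (Fin.cons i0 i' : Fin (J + 1) → ι) =
      w i0 * z0 * blk w z' i' := by
  unfold blk
  rw [List.ofFn_succ, List.prod_cons]
  simp only [Fin.cons_zero, Fin.cons_succ]

theorem sum_rr_blk (h : IsCh α) {ι : Type*} [Fintype ι] [Nonempty ι] (w : ι → G) (J : ℕ) :
    ∑ z : Fin J → G, rr α (blk w z) = (Fintype.card G : ℝ) ^ J * rr α w ^ J := by
  induction J with
  | zero =>
    rw [Fintype.sum_unique]
    have e1 : ∀ i : Fin 0 → ι, blk w (default : Fin 0 → G) i = 1 := fun i => by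
      unfold blk
      rw [List.ofFn_zero, List.prod_nil]
    unfold rr
    simp only [e1, Fintype.sum_unique, inv_one, mul_one, ch_one h, Fintype.card_unique,
      Nat.cast_one, one_pow, pow_zero]
  | succ J ih =>
    have e1 : ∑ z : Fin (J + 1) → G, rr α (blk w z) =
        ∑ p : G × (Fin J → G), rr α (blk w (Fin.cons p.1 p.2 : Fin (J + 1) → G)) :=
      (Equiv.sum_comp (Fin.consEquiv (fun _ : Fin (J + 1) => G)) (fun z => rr α (blk w z))).symm
    rw [e1, Fintype.sum_prod_type, Finset.sum_comm]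
    have e2 : ∀ (z' : Fin J → G) (z0 : G), rr α (blk w (Fin.cons z0 z' : Fin (J + 1) → G)) =
        rr α (fun p : ι × (Fin J → ι) => w p.1 * z0 * blk w z' p.2) := by
      intro z' z0
      rw [← rr_reindex (Fin.consEquiv (fun _ : Fin (J + 1) => ι))
        (blk w (Fin.cons z0 z' : Fin (J + 1) → G))]
      congr 1
      funext p
      exact RRBlkA_cons w z0 z' p.1 p.2
    have e3 : ∀ z' : Fin J → G,
        ∑ z0 : G, rr α (blk w (Fin.cons z0 z' : Fin (J + 1) → G)) =
        Fintype.card G * (rr α w * rr α (blk w z')) := by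
      intro z'
      simp only [e2]
      exact rr_prd h w (blk w z')
    simp only [e3, ← Finset.mul_sum, ih]
    ring

end Pool.Agent.RCL
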