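import Pool.Agent.W_6acff7c_h33.Moment

/-!
# Short vectors are bad vectors of the repeated list

PROOF.  Let `acc y L H v` be the span of `H` and all vectors met before the last one:
`acc y [] H v = H`, `acc y (p :: L) H v = acc y L (H ⊔ span {v}) (a y^± v)` (define it here).  Then
`Dep y (L ++ L') H v ↔ Dep y L H v ∨ Dep y L' (acc y L H v) (run y L v)` and
`run y (L ++ L') v = run y L' (run y L v)`, by induction on `L`.  Moreover `H ⊔ span {v} ≤ acc y L H v`
for `L ≠ []`, and if `¬ Dep y L H v` and `L ≠ []` then `run y L v ∉ acc y L H v` (induction on `L`).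
Suppose `v` is not bad for the list `L` repeated `K` times: `v ≠ 0` and `¬ Dep`.  Then with `v_j = g ^ j v`
and suitable subspaces `H_j` we get by induction on `j ≤ K`: `v_i ∈ H_j` for `i < j`, `H_j ≤ H_{j+1}`,
`v_j ∉ H_j` (`H_0 = ⊥`, `H_{j+1} = acc y L H_j v_j`, `v_{j+1} = run y L v_j = g v_j`).  So each of
`v_0, ..., v_K` is outside a subspace which contains the previous ones, hence they are linearly
independent (`LinearIndependent.fin_snoc` / `linearIndependent_fin_snoc` or
`linearIndependent_fin_succ'`), so `v ∉ shortV K g`.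
-/

open Finset Pool.Agent.RCG

namespace Pool.Agent.RCL

variable {F : Type*} [Field F] [Fintype F] {n : ℕ}

/-- The span of `H` and all vectors met before the last one. -/
private def shAcc (y : SLn F n) : List (Bool × SLn F n) → Submodule F (Fin n → F) →
    (Fin n → F) → Submodule F (Fin n → F)
  | [], H, _ => H
  | p :: L, H, v => shAcc y L (H ⊔ Submodule.span F {v}) (p.2.1 ((act p.1 y).1 v))

omit [Fintype F] in
private theorem sb_run_append (y : SLn F n) (L L' : List (Bool × SLn F n)) (v : Fin n → F) :
    run y (L ++ L') v = run y L' (run y L v) := by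
  induction L generalizing v with
  | nil => rfl
  | cons p L ih => exact ih _

omit [Fintype F] in
private theorem sb_dep_append (y : SLn F n) (L L' : List (Bool × SLn F n))
    (H : Submodule F (Fin n → F)) (v : Fin n → F) :
    Dep y (L ++ L') H v ↔ Dep y L H v ∨ Dep y L' (shAcc y L H v) (run y L v) := by
  induction L generalizing H v with
  | nil => exact ⟨Or.inr, fun h => h.elim False.elim id⟩
  | cons p L ih =>
    change _ ∨ Dep y (L ++ L') _ _ ↔ (_ ∨ Dep y L _ _) ∨ Dep y L' (shAcc y L _ _) (run y L _)
    rw [ih, or_assoc]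

omit [Fintype F] in
private theorem sb_le_acc (y : SLn F n) (L : List (Bool × SLn F n))
    (H : Submodule F (Fin n → F)) (v : Fin n → F) : H ≤ shAcc y L H v := by
  induction L generalizing H v with
  | nil => exact le_rfl
  | cons p L ih => exact le_sup_left.trans (ih _ _)

omit [Fintype F] in
private theorem sb_sup_le_acc (y : SLn F n) {L : List (Bool × SLn F n)} (hL : L ≠ [])
    (H : Submodule F (Fin n → F)) (v : Fin n → F) :
    H ⊔ Submodule.span F {v} ≤ shAcc y L H v := by
  cases L with
  | nil => exact absurd rfl hL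
  | cons p L => exact sb_le_acc y L _ _

omit [Fintype F] in
private theorem sb_notMem_acc (y : SLn F n) {L : List (Bool × SLn F n)} (hL : L ≠ [])
    (H : Submodule F (Fin n → F)) (v : Fin n → F) (h : ¬ Dep y L H v) :
    run y L v ∉ shAcc y L H v := by
  induction L generalizing H v with
  | nil => exact absurd rfl hL
  | cons p L ih =>
    have h' : ¬ (p.2.1 ((act p.1 y).1 v) ∈ H ⊔ Submodule.span F {v}) ∧
        ¬ Dep y L (H ⊔ Submodule.span F {v}) (p.2.1 ((act p.1 y).1 v)) := not_or.mp h
    cases L with
    | nil => exact h'.1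
    | cons p' L' => exact ih (List.cons_ne_nil _ _) _ _ h'.2

omit [Fintype F] in
private theorem sb_main {L : List (Bool × SLn F n)} (hL : L ≠ []) (y g : SLn F n)
    (hg : ∀ v, run y L v = g.1 v) (K : ℕ) : ∀ (H : Submodule F (Fin n → F)) (v : Fin n → F),
    v ∉ H → ¬ Dep y (List.replicate K L).flatten H v →
    LinearIndependent F (fun e : Fin (K + 1) => (g ^ (e : ℕ)).1 v) ∧
      ∀ x ∈ Submodule.span F (Set.range (fun e : Fin (K + 1) => (g ^ (e : ℕ)).1 v)),
        x ∈ H → x = 0 := by
  induction K with
  | zero =>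
    intro H v hv _
    have hv0 : v ≠ 0 := fun h => hv (h ▸ H.zero_mem)
    have e0 : (fun e : Fin (0 + 1) => (g ^ (e : ℕ)).1 v) = fun _ => v := by
      funext e
      have : (e : ℕ) = 0 := by omega
      rw [this, pow_zero]
      rfl
    rw [e0]
    constructor
    · exact (linearIndependent_unique_iff (ι := Fin 1) (v := fun _ => v)).mpr hv0
    · intro x hx hxH
      rw [Set.range_const, Submodule.mem_span_singleton] at hx
      obtain ⟨c, rfl⟩ := hx
      by_cases hc : c = 0
      · rw [hc, zero_smul]
      · exact absurd ((H.smul_mem_iff hc).mp hxH) hv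
  | succ K ih =>
    intro H v hv hD
    have hv0 : v ≠ 0 := fun h => hv (h ▸ H.zero_mem)
    rw [List.replicate_succ, List.flatten_cons, sb_dep_append, not_or] at hD
    obtain ⟨hD1, hD2⟩ := hD
    have h1 := sb_notMem_acc y hL H v hD1
    obtain ⟨i1, i2⟩ := ih _ _ h1 hD2
    have hvH : v ∈ shAcc y L H v :=
      sb_sup_le_acc y hL H v (Submodule.mem_sup_right (Submodule.mem_span_singleton_self v))
    have hHH : H ≤ shAcc y L H v := sb_le_acc y L H v
    have htail : Fin.tail (fun e : Fin (K + 1 + 1) => (g ^ (e : ℕ)).1 v) =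
        fun e : Fin (K + 1) => (g ^ (e : ℕ)).1 (run y L v) := by
      funext e
      rw [hg]
      change (g ^ ((e : ℕ) + 1)).1 v = _
      rw [pow_succ]
      rfl
    have hzero : (g ^ ((0 : Fin (K + 1 + 1)) : ℕ)).1 v = v := by
      change (g ^ 0).1 v = v
      rw [pow_zero]
      rfl
    constructor
    · rw [linearIndependent_finSucc, htail, hzero]
      exact ⟨i1, fun hmem => hv0 (i2 v hmem hvH)⟩
    · intro x hx hxH
      have hr : Set.range (fun e : Fin (K + 1 + 1) => (g ^ (e : ℕ)).1 v) =
          insert v (Set.range fun e : Fin (K + 1) => (g ^ (e : ℕ)).1 (run y L v)) := by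
        have h2 := Fin.range_fin_succ (fun e : Fin (K + 1 + 1) => (g ^ (e : ℕ)).1 v)
        rw [h2, htail, hzero]
      rw [hr, Submodule.mem_span_insert] at hx
      obtain ⟨c, z, hz, rfl⟩ := hx
      have hzH : z ∈ shAcc y L H v := by
        have h3 := (shAcc y L H v).sub_mem (hHH hxH) ((shAcc y L H v).smul_mem c hvH)
        rwa [add_sub_cancel_left] at h3
      have hz0 := i2 z hz hzH
      rw [hz0, add_zero] at hxH ⊢
      by_cases hc : c = 0
      · rw [hc, zero_smul]
      · exact absurd ((H.smul_mem_iff hc).mp hxH) hv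

theorem short_bad {K : ℕ} (L : List (Bool × SLn F n)) (hL : L ≠ []) (y g : SLn F n)
    (hg : ∀ v, run y L v = g.1 v) (v : Fin n → F) (hv : v ∈ shortV K g) :
    Bad (List.replicate K L).flatten y v := by
  by_contra hb
  have hb' : ¬ v = 0 ∧ ¬ Dep y (List.replicate K L).flatten ⊥ v := not_or.mp hb
  refine hv (sb_main hL y g hg K ⊥ v ?_ hb'.2).1
  rw [Submodule.mem_bot]
  exact hb'.1

end Pool.Agent.RCL
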