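import Pool.Agent.W_6acff7c_h33.Defs

/-!
# Transvections

`tv a ψ : x ↦ x + ψ x • a` (with `ψ a = 0`), in `SLn F n`.  `TS D` is the group generated by the
transvections `tv a ψ` with `ψ = 0` on `D`.  Basic lemmas wanted here: `tv_apply`, `tv_mem_TS`,
`TS_le_PS`, `tv_add` (`tv a (ψ + ψ') = tv a ψ * tv a ψ'`), `tv_zero`, `tv_conj`
(`h * tv a ψ * h⁻¹ = tv (h a) (ψ ∘ h⁻¹)`).

PROOF of `exists_move_tv`.  If `x = x'` take `1`.  Claim: if moreover `x ∉ D ⊔ span {x' - x}` then one
transvection is enough: there is a functional `ψ` with `ψ = 0` on `D ⊔ span {x' - x}` and `ψ x = 1`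
(`Submodule.exists_le_ker_of_notMem` or `Submodule.exists_dual_map_eq_bot_of_notMem`, then scale), and
`tv (x' - x) ψ` maps `x` to `x + (x' - x) = x'`.
In general choose `x''` outside `D ⊔ span {x, x'}` if this is not everything (then
`x ∉ D ⊔ span {x'' - x}` and `x'' ∉ D ⊔ span {x' - x''}`: e.g. `x = d + c (x'' - x)` gives
`c x'' = (1 + c) x - d`, so `c = 0`, so `x = d ∈ D`, a contradiction), and compose `x → x'' → x'`.
If `D ⊔ span {x, x'}` is everything, then by dimensions (`finrank D + 2 ≤ n`) `x, x'` are linearly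
independent modulo `D`, so `x ∉ D ⊔ span {x' - x}` and one transvection is enough.
-/

open Finset Pool.Agent.RCG

namespace Pool.Agent.RCL

variable {F : Type*} [Field F] {n : ℕ}

/-- The transvection `x ↦ x + ψ x • a`. -/
noncomputable def tv (a : Fin n → F) (ψ : Module.Dual F (Fin n → F)) (h : ψ a = 0) : SLn F n :=
  ⟨LinearEquiv.transvection h, LinearEquiv.transvection.det_eq_one h⟩

/-- The group generated by the transvections which fix `D` pointwise. -/
def TS (D : Submodule F (Fin n → F)) : Subgroup (SLn F n) :=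
  Subgroup.closure {g | ∃ (a : Fin n → F) (ψ : Module.Dual F (Fin n → F)) (h : ψ a = 0),
    (∀ d ∈ D, ψ d = 0) ∧ g = tv a ψ h}

theorem tv_apply (a : Fin n → F) (ψ : Module.Dual F (Fin n → F)) (h : ψ a = 0) (x : Fin n → F) :
    (tv a ψ h).1 x = x + ψ x • a := rfl

theorem tv_mem_TS {D : Submodule F (Fin n → F)} (a : Fin n → F) (ψ : Module.Dual F (Fin n → F))
    (h : ψ a = 0) (hψ : ∀ d ∈ D, ψ d = 0) : tv a ψ h ∈ TS D :=
  Subgroup.subset_closure ⟨a, ψ, h, hψ, rfl⟩

theorem TS_le_PS (D : Submodule F (Fin n → F)) : TS D ≤ PS D := by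
  rw [TS, Subgroup.closure_le]
  rintro g ⟨a, ψ, h, hψ, rfl⟩ d hd
  rw [tv_apply, hψ d hd, zero_smul, add_zero]

theorem TrvA_ext {g g' : SLn F n} (h : ∀ x : Fin n → F, g.1 x = g'.1 x) : g = g' :=
  Subtype.ext (LinearEquiv.ext h)

theorem tv_add (a : Fin n → F) (ψ ψ' : Module.Dual F (Fin n → F)) (h : ψ a = 0) (h' : ψ' a = 0) :
    tv a (ψ + ψ') (by simp [h, h']) = tv a ψ h * tv a ψ' h' := by
  refine TrvA_ext fun x => ?_
  have h1 : (tv a ψ h * tv a ψ' h').1 x = (tv a ψ h).1 ((tv a ψ' h').1 x) := rfl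
  rw [h1, tv_apply, tv_apply, tv_apply, LinearMap.add_apply, map_add, map_smul, h, smul_zero,
    add_zero, add_smul]
  abel

theorem tv_zero (a : Fin n → F) (h : (0 : Module.Dual F (Fin n → F)) a = 0) :
    tv a 0 h = 1 := by
  refine TrvA_ext fun x => ?_
  rw [tv_apply, LinearMap.zero_apply, zero_smul, add_zero]
  rfl

/-- Conjugation by an element fixing `a`. -/
theorem tv_conj (a : Fin n → F) (ψ : Module.Dual F (Fin n → F)) (h : ψ a = 0) (g : SLn F n)
    (hg : g.1 a = a)
    (h' : (ψ ∘ₗ (g.1.symm : (Fin n → F) →ₗ[F] (Fin n → F))) a = 0) :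
    g * tv a ψ h * g⁻¹ = tv a (ψ ∘ₗ (g.1.symm : (Fin n → F) →ₗ[F] (Fin n → F))) h' := by
  refine TrvA_ext fun x => ?_
  have h1 : (g * tv a ψ h * g⁻¹).1 x = g.1 ((tv a ψ h).1 (g.1.symm x)) := rfl
  rw [h1, tv_apply, tv_apply, map_add, map_smul, hg, LinearEquiv.apply_symm_apply]
  rfl

theorem TrvA_one (D : Submodule F (Fin n → F)) {x x' : Fin n → F}
    (hx : x ∉ D ⊔ Submodule.span F {x' - x}) : ∃ h ∈ TS D, h.1 x = x' := by
  obtain ⟨φ, hφx, hφ⟩ := Submodule.exists_le_ker_of_notMem hx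
  set ψ : Module.Dual F (Fin n → F) := (φ x)⁻¹ • φ with hψ
  have h1 : ψ x = 1 := by
    rw [hψ, LinearMap.smul_apply, smul_eq_mul, inv_mul_cancel₀ hφx]
  have h2 : ∀ y ∈ D ⊔ Submodule.span F {x' - x}, ψ y = 0 := by
    intro y hy
    have : φ y = 0 := hφ hy
    rw [hψ, LinearMap.smul_apply, this, smul_zero]
  have h3 : ψ (x' - x) = 0 :=
    h2 _ (Submodule.mem_sup_right (Submodule.mem_span_singleton_self _))
  refine ⟨tv (x' - x) ψ h3, tv_mem_TS _ ψ h3 (fun d hd => h2 d (Submodule.mem_sup_left hd)), ?_⟩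
  rw [tv_apply, h1, one_smul]
  abel

theorem exists_move_tv (D : Submodule F (Fin n → F)) (hD : Module.finrank F D + 2 ≤ n)
    {x x' : Fin n → F} (hx : x ∉ D) (hx' : x' ∉ D) : ∃ h ∈ TS D, h.1 x = x' := by
  by_cases htop : D ⊔ Submodule.span F {x, x'} = ⊤
  · refine TrvA_one D ?_
    intro hmem
    -- then `D ⊔ span {x' - x}` is everything
    have hx'mem : x' ∈ D ⊔ Submodule.span F {x' - x} := by
      have h1 : x' - x ∈ D ⊔ Submodule.span F {x' - x} :=
        Submodule.mem_sup_right (Submodule.mem_span_singleton_self _)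
      have h2 := Submodule.add_mem _ h1 hmem
      rwa [sub_add_cancel] at h2
    have h3 : D ⊔ Submodule.span F {x' - x} = ⊤ := by
      rw [eq_top_iff, ← htop]
      refine sup_le le_sup_left (Submodule.span_le.2 ?_)
      rintro y (rfl | rfl)
      · exact hmem
      · exact hx'mem
    have h4 := Submodule.finrank_add_le_finrank_add_finrank D (Submodule.span F {x' - x})
    rw [h3, finrank_top, Module.finrank_fin_fun] at h4
    have h5 := finrank_span_le_card (R := F) ({x' - x} : Set (Fin n → F))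
    rw [Set.toFinset_singleton, Finset.card_singleton] at h5
    omega
  · obtain ⟨x'', hx''⟩ : ∃ x'', x'' ∉ D ⊔ Submodule.span F {x, x'} := by
      by_contra hcon
      push Not at hcon
      exact htop (eq_top_iff.2 fun y _ => hcon y)
    have key : ∀ u v : Fin n → F, u ∉ D → u ∈ D ⊔ Submodule.span F {x, x'} →
        u ∉ D ⊔ Submodule.span F {v - u} ∨ v ∈ D ⊔ Submodule.span F {x, x'} := by
      intro u v huD hu
      by_contra hcon
      push Not at hcon
      obtain ⟨h1, h2⟩ := hcon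
      obtain ⟨d, hd, w, hw, hdw⟩ := Submodule.mem_sup.1 h1
      obtain ⟨c, rfl⟩ := Submodule.mem_span_singleton.1 hw
      by_cases hc : c = 0
      · rw [hc, zero_smul, add_zero] at hdw
        exact huD (hdw ▸ hd)
      · refine h2 ?_
        have h3 : v = c⁻¹ • ((1 + c) • u - d) := by
          have h4 : c • v = (1 + c) • u - d := by
            rw [smul_sub] at hdw
            rw [add_smul, one_smul, ← sub_eq_zero]
            have h5 : c • v - (u + c • u - d) = (d + (c • v - c • u)) - u := by abel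
            rw [h5, hdw, sub_self]
          rw [← h4, smul_smul, inv_mul_cancel₀ hc, one_smul]
        rw [h3]
        exact Submodule.smul_mem _ _ (Submodule.sub_mem _ (Submodule.smul_mem _ _ hu)
          (Submodule.mem_sup_left hd))
    have hxm : x ∈ D ⊔ Submodule.span F {x, x'} :=
      Submodule.mem_sup_right (Submodule.subset_span (by simp))
    have hx'm : x' ∈ D ⊔ Submodule.span F {x, x'} :=
      Submodule.mem_sup_right (Submodule.subset_span (by simp))
    obtain ⟨h₁, hh₁, e₁⟩ := TrvA_one D ((key x x'' hx hxm).resolve_right hx'')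
    obtain ⟨h₂, hh₂, e₂⟩ := TrvA_one D ((key x' x'' hx' hx'm).resolve_right hx'')
    refine ⟨h₂⁻¹ * h₁, Subgroup.mul_mem _ (Subgroup.inv_mem _ hh₂) hh₁, ?_⟩
    have h1 : (h₂⁻¹ * h₁).1 x = h₂.1.symm (h₁.1 x) := rfl
    rw [h1, e₁, ← e₂, LinearEquiv.symm_apply_apply]

theorem exists_moveL (D : Submodule F (Fin n → F)) (hD : Module.finrank F D + 2 ≤ n)
    {x x' : Fin n → F} (hx : x ∉ D) (hx' : x' ∉ D) : ∃ h ∈ PS D, h.1 x = x' := by
  obtain ⟨h, hh, hx⟩ := exists_move_tv D hD hx hx'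
  exact ⟨h, TS_le_PS D hh, hx⟩

end Pool.Agent.RCL
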