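import Pool.Agent.W_6acff7c_h33.SumStab
import Pool.Agent.W_6acff7c_h33.CE

/-!
# The probability that given independent vectors lie in a random translate of `B`

PROOF.  `u l ∈ mv z B ↔ z⁻¹ (u l) ∈ B` (`mem_mv`), and `z⁻¹` is uniform (`pr_congr` with `Equiv.inv`), so
consider `P_s = pr (∀ l, z (u l) ∈ B)`.  Let `q = |F|`, `d = dim B`.  Induction on `s`: `s = 0` trivial
(`pr ≤ 1`).  `s + 1` vectors `u_0, ..., u_s`: let `D = span {u_0, ..., u_{s-1}}`, `dim D = s`,
`dim D + 2 ≤ n`, `u_s ∉ D` (`linearIndependent_fin_snoc`).  The sum over `z` is invariant under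
`z ↦ z a` for `a ∈ PS D`, so
`|PS D| * #{z | z u_l ∈ B for l ≤ s} = ∑_z [z u_l ∈ B for l < s] * ∑_{a ∈ PS D} [z (a u_s) ∈ B]`
(`(z a) u_l = z u_l` for `l < s`).  For `z` with `z u_l ∈ B` for `l < s` we have `mv z D ≤ B` and by
`sum_stab` the inner sum is `|PS D| #{r ∉ D | z r ∈ B} / (q ^ n - q ^ s) = |PS D| (q ^ d - q ^ s) / (q ^ n - q ^ s)
≤ |PS D| q ^ d / q ^ n` (as `d ≤ n`).
-/

open Finset Pool.Agent.RCG

namespace Pool.Agent.RCL

variable {F : Type*} [Field F] [Fintype F] {n : ℕ}

open Classical in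
private theorem tupIn_card_sub (B : Submodule F (Fin n → F)) :
    ((univ.filter (fun r : Fin n → F => r ∈ B)).card : ℝ) =
      (Fintype.card F : ℝ) ^ Module.finrank F B := by
  have h1 : (univ.filter (fun r : Fin n → F => r ∈ B)).card = Fintype.card B :=
    (Fintype.card_subtype _).symm
  rw [h1, Module.card_eq_pow_finrank (K := F) (V := B)]
  push_cast
  rfl

open Classical in
private theorem tupIn_count (B D : Submodule F (Fin n → F)) (h : D ≤ B) :
    ∑ r ∈ univ.filter (fun r : Fin n → F => r ∉ D), (if r ∈ B then (1 : ℝ) else 0) =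
      (Fintype.card F : ℝ) ^ Module.finrank F B - (Fintype.card F : ℝ) ^ Module.finrank F D := by
  rw [← tupIn_card_sub B, ← tupIn_card_sub D, ← Finset.sum_filter, Finset.sum_const, nsmul_eq_mul,
    mul_one, Finset.filter_filter]
  have h1 : univ.filter (fun r : Fin n → F => r ∉ D ∧ r ∈ B) =
      univ.filter (fun r : Fin n → F => r ∈ B) \ univ.filter (fun r : Fin n → F => r ∈ D) := by
    ext r
    simp only [Finset.mem_filter, Finset.mem_univ, true_and, Finset.mem_sdiff]
    tauto
  have h2 : univ.filter (fun r : Fin n → F => r ∈ D) ⊆ univ.filter (fun r : Fin n → F => r ∈ B) := by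
    intro r hr
    rw [Finset.mem_filter] at hr ⊢
    exact ⟨hr.1, h hr.2⟩
  rw [h1, Finset.card_sdiff_of_subset h2, Nat.cast_sub (Finset.card_le_card h2)]

open Classical in
private theorem tupIn_sum (B : Submodule F (Fin n → F)) : ∀ (s : ℕ) (u : Fin s → (Fin n → F)),
    LinearIndependent F u → s + 1 ≤ n →
    ∑ z : SLn F n, (if ∀ l, z.1 (u l) ∈ B then (1 : ℝ) else 0) ≤
      (Fintype.card (SLn F n) : ℝ) *
      ((Fintype.card F : ℝ) ^ Module.finrank F B / (Fintype.card F : ℝ) ^ n) ^ s := by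
  have hq : (1 : ℝ) < Fintype.card F := by exact_mod_cast Fintype.one_lt_card
  intro s
  induction s with
  | zero =>
    intro u _ _
    simp
  | succ s ih =>
    intro u hu hs
    have hu' : LinearIndependent F (fun l : Fin s => u l.castSucc) :=
      hu.comp _ (Fin.castSucc_injective s)
    set D : Submodule F (Fin n → F) := Submodule.span F (Set.range (fun l : Fin s => u l.castSucc))
      with hD
    have hDs : Module.finrank F D = s := by
      rw [hD, finrank_span_eq_card hu', Fintype.card_fin]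
    have hx : u (Fin.last s) ∉ D := by
      intro hx
      rw [hD] at hx
      have h1 := linearIndependent_iff_notMem_span.1 hu (Fin.last s)
      refine h1 (Submodule.span_mono ?_ hx)
      rintro _ ⟨l, rfl⟩
      refine ⟨l.castSucc, ?_, rfl⟩
      simp only [Set.mem_sdiff, Set.mem_univ, Set.mem_singleton_iff, true_and]
      exact (Fin.castSucc_lt_last l).ne
    set Q : ℝ := (Fintype.card F : ℝ) ^ Module.finrank F B / (Fintype.card F : ℝ) ^ n with hQ
    have hdn : Module.finrank F B ≤ n := by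
      simpa using Submodule.finrank_le B
    have hqn : (0 : ℝ) < (Fintype.card F : ℝ) ^ n := by positivity
    have hlt : (Fintype.card F : ℝ) ^ s < (Fintype.card F : ℝ) ^ n :=
      pow_lt_pow_right₀ hq (by omega)
    have hcardPS : (0 : ℝ) < Nat.card ↥(PS D) := by exact_mod_cast Nat.card_pos
    have hinner : ∀ z : SLn F n, (∀ l : Fin s, z.1 (u l.castSucc) ∈ B) →
        ∑ a : ↥(PS D), (if z.1 (a.1.1 (u (Fin.last s))) ∈ B then (1 : ℝ) else 0) ≤
          (Nat.card ↥(PS D) : ℝ) * Q := by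
      intro z hz
      have h1 := sum_stab D (by rw [hDs]; omega) hx
        (fun r => if z.1 r ∈ B then (1 : ℝ) else 0)
      set B' : Submodule F (Fin n → F) := mv z⁻¹ B with hB'
      have hmem : ∀ r, z.1 r ∈ B ↔ r ∈ B' := by
        intro r
        rw [hB', mem_mv, inv_inv]
      have hDB : D ≤ B' := by
        rw [hD, Submodule.span_le]
        rintro _ ⟨l, rfl⟩
        exact (hmem _).1 (hz l)
      have h2 : ∑ r ∈ univ.filter (fun r : Fin n → F => r ∉ D),
          (if z.1 r ∈ B then (1 : ℝ) else 0) =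
          (Fintype.card F : ℝ) ^ Module.finrank F B - (Fintype.card F : ℝ) ^ s := by
        rw [← hDs, ← finrank_mv z⁻¹ B, ← tupIn_count B' D hDB]
        exact Finset.sum_congr rfl fun r _ => by simp only [hmem]
      rw [h2, hDs] at h1
      have h3 : ∑ a : ↥(PS D), (if z.1 (a.1.1 (u (Fin.last s))) ∈ B then (1 : ℝ) else 0) =
          (Nat.card ↥(PS D) : ℝ) * (((Fintype.card F : ℝ) ^ Module.finrank F B -
            (Fintype.card F : ℝ) ^ s) / ((Fintype.card F : ℝ) ^ n - (Fintype.card F : ℝ) ^ s)) := by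
        rw [mul_div_assoc', eq_div_iff (by linarith), ← h1]
        ring
      rw [h3]
      refine mul_le_mul_of_nonneg_left ?_ hcardPS.le
      rw [hQ, div_le_div_iff₀ (by linarith) hqn]
      have h4 : (Fintype.card F : ℝ) ^ Module.finrank F B ≤ (Fintype.card F : ℝ) ^ n :=
        pow_le_pow_right₀ hq.le hdn
      have h5 : (0 : ℝ) ≤ (Fintype.card F : ℝ) ^ s := by positivity
      nlinarith
    have hshift : ∀ a : ↥(PS D),
        ∑ z : SLn F n, (if ∀ l, z.1 (u l) ∈ B then (1 : ℝ) else 0) =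
        ∑ z : SLn F n, (if ∀ l : Fin s, z.1 (u l.castSucc) ∈ B then (1 : ℝ) else 0) *
          (if z.1 (a.1.1 (u (Fin.last s))) ∈ B then (1 : ℝ) else 0) := by
      intro a
      rw [← Equiv.sum_comp (Equiv.mulRight (a : SLn F n))]
      refine Finset.sum_congr rfl fun z _ => ?_
      have h1 : ∀ x, (Equiv.mulRight (a : SLn F n) z).1 x = z.1 (a.1.1 x) := fun x => rfl
      have h2 : ∀ l : Fin s, a.1.1 (u l.castSucc) = u l.castSucc := fun l =>
        a.2 _ (Submodule.subset_span ⟨l, rfl⟩)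
      have h3 : (∀ l, (Equiv.mulRight (a : SLn F n) z).1 (u l) ∈ B) ↔
          (∀ l : Fin s, z.1 (u l.castSucc) ∈ B) ∧ z.1 (a.1.1 (u (Fin.last s))) ∈ B := by
        constructor
        · intro h
          refine ⟨fun l => ?_, ?_⟩
          · have := h l.castSucc
            rwa [h1, h2] at this
          · have := h (Fin.last s)
            rwa [h1] at this
        · rintro ⟨h, h'⟩ l
          refine Fin.lastCases ?_ (fun l => ?_) l
          · rw [h1]; exact h'
          · rw [h1, h2]; exact h l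
      by_cases c1 : ∀ l : Fin s, z.1 (u l.castSucc) ∈ B
      · by_cases c2 : z.1 (a.1.1 (u (Fin.last s))) ∈ B
        · rw [if_pos (h3.2 ⟨c1, c2⟩), if_pos c1, if_pos c2, mul_one]
        · rw [if_neg (fun h => c2 (h3.1 h).2), if_neg c2, mul_zero]
      · rw [if_neg (fun h => c1 (h3.1 h).1), if_neg c1, zero_mul]
    have hsum : (Nat.card ↥(PS D) : ℝ) *
        ∑ z : SLn F n, (if ∀ l, z.1 (u l) ∈ B then (1 : ℝ) else 0) ≤
        (Nat.card ↥(PS D) : ℝ) * (Q *
          ∑ z : SLn F n, (if ∀ l : Fin s, z.1 (u l.castSucc) ∈ B then (1 : ℝ) else 0)) := by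
      have h1 : (Nat.card ↥(PS D) : ℝ) *
          ∑ z : SLn F n, (if ∀ l, z.1 (u l) ∈ B then (1 : ℝ) else 0) =
          ∑ _a : ↥(PS D), ∑ z : SLn F n, (if ∀ l, z.1 (u l) ∈ B then (1 : ℝ) else 0) := by
        rw [Finset.sum_const, Finset.card_univ, nsmul_eq_mul, Nat.card_eq_fintype_card]
      rw [h1, Finset.sum_congr rfl fun a _ => hshift a, Finset.sum_comm, Finset.mul_sum,
        Finset.mul_sum]
      refine Finset.sum_le_sum fun z _ => ?_
      rw [← Finset.mul_sum]
      by_cases c1 : ∀ l : Fin s, z.1 (u l.castSucc) ∈ B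
      · rw [if_pos c1, one_mul, mul_one]
        exact hinner z c1
      · rw [if_neg c1, zero_mul, mul_zero, mul_zero]
    have h6 := le_of_mul_le_mul_left hsum hcardPS
    have hQ0 : 0 ≤ Q := by rw [hQ]; positivity
    calc ∑ z : SLn F n, (if ∀ l, z.1 (u l) ∈ B then (1 : ℝ) else 0)
        ≤ Q * ∑ z : SLn F n, (if ∀ l : Fin s, z.1 (u l.castSucc) ∈ B then (1 : ℝ) else 0) := h6
      _ ≤ Q * ((Fintype.card (SLn F n) : ℝ) * Q ^ s) :=
          mul_le_mul_of_nonneg_left (ih _ hu' (by omega)) hQ0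
      _ = (Fintype.card (SLn F n) : ℝ) * Q ^ (s + 1) := by ring

theorem tupIn (B : Submodule F (Fin n → F)) {s : ℕ} (u : Fin s → (Fin n → F))
    (hu : LinearIndependent F u) (hs : s + 1 ≤ n) :
    pr (fun z : SLn F n => ∀ l, u l ∈ mv z B) ≤
      ((Fintype.card F : ℝ) ^ Module.finrank F B / (Fintype.card F : ℝ) ^ n) ^ s := by
  classical
  have h0 : pr (fun z : SLn F n => ∀ l, u l ∈ mv z B) =
      pr (fun z : SLn F n => ∀ l, z.1 (u l) ∈ B) := by
    rw [← pr_congr (Equiv.inv (SLn F n)) (fun z : SLn F n => ∀ l, z.1 (u l) ∈ B)]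
    congr 1
    funext z
    simp only [mem_mv]
    rfl
  rw [h0]
  have h1 := tupIn_sum B s u hu hs
  have hc : (0 : ℝ) < Fintype.card (SLn F n) := by exact_mod_cast Fintype.card_pos
  unfold pr
  rw [div_le_iff₀ (by simpa using hc)]
  have h2 : ∑ z : SLn F n, (if ∀ l, z.1 (u l) ∈ B then (1 : ℝ) else 0) =
      ((univ.filter (fun z : SLn F n => ∀ l, z.1 (u l) ∈ B)).card : ℝ) := by
    rw [← Finset.sum_filter, Finset.sum_const, nsmul_eq_mul, mul_one]
  rw [h2] at h1
  rw [mul_comm]
  refine le_trans (le_of_eq ?_) h1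
  norm_cast
  congr 1
  ext z
  simp

end Pool.Agent.RCL
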